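import Pool.Agent.Helper60.CR.Basic

/-! CR-02 (add_comp). Adding the component `c` to all nodes of a group.
PROOF. `P.card = J.card` gives a bijection `σ` of `J` onto `P` (`Finset.equivOfCardEq`, or `J.equivFin` and `P.equivFin`); extend it by `0` outside `J`. Put `φ x = Function.update x c (ρ • σ x)`.
`φ x b = x b` for `b ≠ c`; `Function.update (φ x) c 0 = Function.update x c 0 = x` since `x c = 0` (`hJ.zero`). Hence `φ` is injective on `J`. `Reg (c + 1) N0 (J.image φ)`: components `< c` from `hJ`,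
component `c` is `ρ • y ≠ 0`, its support is the support of `y`, beyond `N1`, while the supports of the other components are below `N1`; two different nodes have different `y`, disjoint by `hPd`.
Last clause: `τ v = t (φ (σ⁻¹ v))` for `v ∈ P`, else `0`; `Bs_image`, `Finset.sum_image`, and `∑ x ∈ J, t (φ x) • (ρ • σ x) = ρ • ∑ y ∈ P, τ y • y` (reindex by `σ`). -/

set_option autoImplicit false

namespace Pool.Agent.Helper60.CR

open Finset

theorem add_comp (p : ℝ) (c N0 N1 : ℕ) (hN : N0 ≤ N1) (J : Finset Nd)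
    (hJ : Reg c N0 J) (hJ1 : ∀ x ∈ J, ∀ b < c, ∀ i ∈ (x b).support, i < N1) (P : Finset F0)
    (hPc : P.card = J.card) (hP0 : ∀ y ∈ P, y ≠ 0) (hPlo : ∀ y ∈ P, ∀ i ∈ y.support, N1 ≤ i)
    (hPd : ∀ y ∈ P, ∀ y' ∈ P, y ≠ y' → Disjoint y.support y'.support) (ρ : ℝ) (hρ : ρ ≠ 0) :
    ∃ φ : Nd → Nd, (∀ x, ∀ b, b ≠ c → φ x b = x b) ∧ (∀ x ∈ J, ∃ y ∈ P, φ x c = ρ • y) ∧
      (∀ x ∈ J, Function.update (φ x) c 0 = x) ∧ Reg (c + 1) N0 (J.image φ) ∧
      ∀ t : Nd → ℝ, (∀ x, 0 ≤ t x) → ∃ τ : F0 → ℝ, (∀ v, 0 ≤ τ v) ∧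
        Bs p (J.image φ) t = Bs p P τ ∧ ∑ x ∈ J.image φ, t x • x c = ρ • ∑ y ∈ P, τ y • y := by
  classical
  let e : J ≃ P := Finset.equivOfCardEq hPc.symm
  obtain ⟨σ, hσ⟩ : ∃ σ : Nd → F0, ∀ (x : Nd) (hx : x ∈ J), σ x = (e ⟨x, hx⟩ : F0) :=
    ⟨fun x => if hx : x ∈ J then (e ⟨x, hx⟩ : F0) else 0, fun x hx => dif_pos hx⟩
  have hσP : ∀ x ∈ J, σ x ∈ P := fun x hx => by
    rw [hσ x hx]
    exact (e ⟨x, hx⟩).2
  have hσinj : ∀ x ∈ J, ∀ y ∈ J, σ x = σ y → x = y := by
    intro x hx y hy hxy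
    rw [hσ x hx, hσ y hy] at hxy
    have h1 := e.injective (Subtype.ext hxy)
    exact congrArg Subtype.val h1
  have hImg : J.image σ = P := by
    apply Finset.eq_of_subset_of_card_le
    · intro v hv
      obtain ⟨x, hx, rfl⟩ := Finset.mem_image.1 hv
      exact hσP x hx
    · rw [Finset.card_image_of_injOn (fun x hx y hy hxy => hσinj x hx y hy hxy), hPc]
  let φ : Nd → Nd := fun x => Function.update x c (ρ • σ x)
  have hφne : ∀ x, ∀ b, b ≠ c → φ x b = x b := fun x b hb => Function.update_of_ne hb _ _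
  have hφc : ∀ x, φ x c = ρ • σ x := fun x => Function.update_self _ _ _
  have hback : ∀ x ∈ J, Function.update (φ x) c 0 = x := by
    intro x hx
    change Function.update (Function.update x c (ρ • σ x)) c 0 = x
    rw [Function.update_idem, Function.update_eq_self_iff]
    exact (hJ.zero x hx c le_rfl).symm
  have hφinj : Set.InjOn φ J := by
    intro x hx y hy hxy
    rw [← hback x hx, ← hback y hy, hxy]
  have hsupp : ∀ x, (ρ • σ x).support = (σ x).support := fun x =>
    Finsupp.support_smul_eq hρ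
  refine ⟨φ, hφne, fun x hx => ⟨σ x, hσP x hx, hφc x⟩, hback, ⟨?_, ?_, ?_, ?_⟩, ?_⟩
  · intro x' hx' b hb
    obtain ⟨x, hx, rfl⟩ := Finset.mem_image.1 hx'
    by_cases hbc : b = c
    · rw [hbc, hφc]
      exact smul_ne_zero hρ (hP0 _ (hσP x hx))
    · rw [hφne x b hbc]
      exact hJ.ne x hx b (by omega)
  · intro x' hx' b hb i hi
    obtain ⟨x, hx, rfl⟩ := Finset.mem_image.1 hx'
    by_cases hbc : b = c
    · rw [hbc, hφc, hsupp] at hi
      exact hN.trans (hPlo _ (hσP x hx) i hi)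
    · rw [hφne x b hbc] at hi
      exact hJ.lo x hx b (by omega) i hi
  · intro x' hx' y' hy' b hb b' hb' hne
    obtain ⟨x, hx, rfl⟩ := Finset.mem_image.1 hx'
    obtain ⟨y, hy, rfl⟩ := Finset.mem_image.1 hy'
    have hmix : ∀ u ∈ J, ∀ v ∈ J, ∀ d < c, Disjoint (σ u).support (v d).support := by
      intro u hu v hv d hd
      rw [Finset.disjoint_left]
      intro i hi hi'
      have h1 := hPlo _ (hσP u hu) i hi
      have h2 := hJ1 v hv d hd i hi'
      omega
    by_cases hbc : b = c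
    · by_cases hbc' : b' = c
      · rw [hbc, hbc', hφc, hφc, hsupp, hsupp]
        apply hPd _ (hσP x hx) _ (hσP y hy)
        intro h1
        have h2 := hσinj x hx y hy h1
        rcases hne with h3 | h3
        · exact h3 (by rw [h2])
        · exact h3 (hbc.trans hbc'.symm)
      · rw [hbc, hφc, hφne y b' hbc', hsupp]
        exact hmix x hx y hy b' (by omega)
    · by_cases hbc' : b' = c
      · rw [hbc', hφc, hφne x b hbc, hsupp]
        exact (hmix y hy x hx b (by omega)).symm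
      · rw [hφne x b hbc, hφne y b' hbc']
        apply hJ.disj x hx y hy b (by omega) b' (by omega)
        rcases hne with h3 | h3
        · left
          intro h4
          exact h3 (by rw [h4])
        · right
          exact h3
  · intro x' hx' b hb
    obtain ⟨x, hx, rfl⟩ := Finset.mem_image.1 hx'
    rw [hφne x b (by omega)]
    exact hJ.zero x hx b (by omega)
  · intro t ht
    obtain ⟨τ, hτ0, hτ⟩ : ∃ τ : F0 → ℝ, (∀ v, 0 ≤ τ v) ∧ ∀ x ∈ J, τ (σ x) = t (φ x) := by
      refine ⟨fun v => if hv : v ∈ P then t (φ (e.symm ⟨v, hv⟩)) else 0, fun v => ?_,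
        fun x hx => ?_⟩
      · dsimp only
        split_ifs
        · exact ht _
        · exact le_rfl
      · dsimp only
        rw [dif_pos (hσP x hx)]
        have h1 : (⟨σ x, hσP x hx⟩ : P) = e ⟨x, hx⟩ := Subtype.ext (hσ x hx)
        rw [h1, Equiv.symm_apply_apply]
    refine ⟨τ, hτ0, ?_, ?_⟩
    · rw [Bs_image J φ hφinj, ← hImg,
        Bs_image J σ (fun x hx y hy hxy => hσinj x hx y hy hxy)]
      exact Bs_congr fun x hx => by rw [hτ x hx]
    · rw [Finset.sum_image (fun x hx y hy hxy => hφinj hx hy hxy), ← hImg,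
        Finset.sum_image (fun x hx y hy hxy => hσinj x hx y hy hxy), Finset.smul_sum]
      apply Finset.sum_congr rfl
      intro x hx
      rw [hφc, hτ x hx, smul_comm]

end Pool.Agent.Helper60.CR
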