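import Pool.Agent.Helper60.CR.Defs

/-! CR-00. Basic facts on `Bs` and `Lat` (proved). -/

set_option autoImplicit false

namespace Pool.Agent.Helper60.CR

open Finset

/-! ### The norm of `ℓ_p` -/

section Bs

variable {ι : Type} {p : ℝ}

theorem Bs_sum_nonneg (s : Finset ι) (t : ι → ℝ) : 0 ≤ ∑ i ∈ s, |t i| ^ p :=
  Finset.sum_nonneg fun _ _ => Real.rpow_nonneg (abs_nonneg _) _

theorem Bs_nonneg (s : Finset ι) (t : ι → ℝ) : 0 ≤ Bs p s t :=
  Real.rpow_nonneg (Bs_sum_nonneg s t) _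

theorem Bs_rpow (hp : 1 ≤ p) (s : Finset ι) (t : ι → ℝ) : Bs p s t ^ p = ∑ i ∈ s, |t i| ^ p := by
  unfold Bs
  rw [← Real.rpow_mul (Bs_sum_nonneg s t), one_div_mul_cancel (by positivity), Real.rpow_one]

theorem Bs_congr {s : Finset ι} {t t' : ι → ℝ} (h : ∀ i ∈ s, |t i| = |t' i|) :
    Bs p s t = Bs p s t' := by
  unfold Bs
  congr 1
  exact Finset.sum_congr rfl fun i hi => by rw [h i hi]

theorem Bs_mono (hp : 1 ≤ p) {s : Finset ι} {t t' : ι → ℝ} (h : ∀ i ∈ s, |t i| ≤ |t' i|) :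
    Bs p s t ≤ Bs p s t' := by
  unfold Bs
  apply Real.rpow_le_rpow (Bs_sum_nonneg s t)
  · exact Finset.sum_le_sum fun i hi =>
      Real.rpow_le_rpow (abs_nonneg _) (h i hi) (by positivity)
  · positivity

theorem Bs_subset (hp : 1 ≤ p) {s s' : Finset ι} (hs : s ⊆ s') {t : ι → ℝ}
    (ht : ∀ i ∈ s', i ∉ s → t i = 0) : Bs p s t = Bs p s' t := by
  unfold Bs
  congr 1
  apply Finset.sum_subset hs
  intro i hi his
  rw [ht i hi his, abs_zero, Real.zero_rpow (by positivity)]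

theorem Bs_subset_le (hp : 1 ≤ p) {s s' : Finset ι} (hs : s ⊆ s') (t : ι → ℝ) :
    Bs p s t ≤ Bs p s' t := by
  unfold Bs
  apply Real.rpow_le_rpow (Bs_sum_nonneg s t)
  · exact Finset.sum_le_sum_of_subset_of_nonneg hs fun i _ _ =>
      Real.rpow_nonneg (abs_nonneg _) _
  · positivity

theorem Bs_empty (hp : 1 ≤ p) (t : ι → ℝ) : Bs p ∅ t = 0 := by
  unfold Bs
  rw [Finset.sum_empty, Real.zero_rpow]
  positivity

theorem Bs_singleton (hp : 1 ≤ p) (i : ι) (t : ι → ℝ) : Bs p {i} t = |t i| := by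
  unfold Bs
  rw [Finset.sum_singleton, ← Real.rpow_mul (abs_nonneg _), mul_one_div_cancel (by positivity),
    Real.rpow_one]

theorem abs_le_Bs (hp : 1 ≤ p) {s : Finset ι} {i : ι} (hi : i ∈ s) (t : ι → ℝ) :
    |t i| ≤ Bs p s t := by
  rw [← Bs_singleton hp i t]
  exact Bs_subset_le hp (Finset.singleton_subset_iff.2 hi) t

theorem Bs_smul (hp : 1 ≤ p) (s : Finset ι) (a : ℝ) (t : ι → ℝ) :
    Bs p s (fun i => a * t i) = |a| * Bs p s t := by
  unfold Bs
  have h1 : ∑ i ∈ s, |a * t i| ^ p = |a| ^ p * ∑ i ∈ s, |t i| ^ p := by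
    rw [Finset.mul_sum]
    exact Finset.sum_congr rfl fun i _ => by
      rw [abs_mul, Real.mul_rpow (abs_nonneg _) (abs_nonneg _)]
  rw [h1, Real.mul_rpow (Real.rpow_nonneg (abs_nonneg _) _) (Bs_sum_nonneg s t),
    ← Real.rpow_mul (abs_nonneg _), mul_one_div_cancel (by positivity), Real.rpow_one]

theorem Bs_image {ι' : Type} [DecidableEq ι'] (s : Finset ι) (φ : ι → ι')
    (hφ : Set.InjOn φ s) (t : ι' → ℝ) : Bs p (s.image φ) t = Bs p s (fun i => t (φ i)) := by
  unfold Bs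
  rw [Finset.sum_image hφ]

theorem Bs_pos (hp : 1 ≤ p) {s : Finset ι} {t : ι → ℝ} {i : ι} (hi : i ∈ s) (ht : t i ≠ 0) :
    0 < Bs p s t := lt_of_lt_of_le (abs_pos.2 ht) (abs_le_Bs hp hi t)

theorem exists_ne_of_Bs_pos (hp : 1 ≤ p) {s : Finset ι} {t : ι → ℝ} (h : 0 < Bs p s t) :
    ∃ i ∈ s, t i ≠ 0 := by
  by_contra hcon
  push Not at hcon
  have : Bs p s t = Bs p s (fun _ => (0 : ℝ) * 0) :=
    Bs_congr fun i hi => by rw [hcon i hi, mul_zero]
  rw [this, Bs_smul hp s 0 (fun _ => 0), abs_zero, zero_mul] at h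
  exact lt_irrefl _ h

end Bs

/-! ### Lattice norms -/

namespace Lat

variable {N : F0 → ℝ} (h : Lat N)
include h

theorem zero : N 0 = 0 := by
  have := h.smul 0 0
  simpa using this

theorem nonneg (a : F0) : 0 ≤ N a := by
  have h1 := h.add a ((-1 : ℝ) • a)
  have h2 : a + (-1 : ℝ) • a = 0 := by simp
  rw [h2, h.zero, h.smul, abs_neg, abs_one, one_mul] at h1
  linarith

theorem neg (a : F0) : N (-a) = N a := by
  have := h.smul (-1) a
  rwa [neg_one_smul, abs_neg, abs_one, one_mul] at this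

theorem sub_le (a b : F0) : N (a - b) ≤ N a + N b := by
  rw [sub_eq_add_neg]
  exact (h.add _ _).trans (by rw [h.neg])

theorem sum_le {ι : Type*} (I : Finset ι) (x : ι → F0) :
    N (∑ i ∈ I, x i) ≤ ∑ i ∈ I, N (x i) := by
  classical
  induction I using Finset.induction_on with
  | empty => simp [h.zero]
  | insert a s ha ih =>
    rw [Finset.sum_insert ha, Finset.sum_insert ha]
    exact (h.add _ _).trans (by linarith)

theorem congr_abs {a b : F0} (hab : ∀ i, |a i| = |b i|) : N a = N b :=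
  le_antisymm (h.mono a b fun i => (hab i).le) (h.mono b a fun i => (hab i).ge)

theorem single (i : ℕ) (t : ℝ) : N (Finsupp.single i t) = |t| := by
  have h1 : (Finsupp.single i t : F0) = t • Finsupp.single i 1 := by
    rw [Finsupp.smul_single, smul_eq_mul, mul_one]
  rw [h1, h.smul, h.one, mul_one]

theorem coord (a : F0) (i : ℕ) : |a i| ≤ N a := by
  rw [← h.single i (a i)]
  apply h.mono
  intro j
  rw [Finsupp.single_apply]
  split_ifs with hij
  · rw [hij]
  · rw [abs_zero]; exact abs_nonneg _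

theorem pos {a : F0} (ha : a ≠ 0) : 0 < N a := by
  obtain ⟨i, hi⟩ := Finsupp.ne_iff.1 ha
  exact lt_of_lt_of_le (abs_pos.2 hi) (h.coord a i)

theorem mono_nonneg {a b : F0} (ha : ∀ i, 0 ≤ a i) (hab : ∀ i, a i ≤ b i) : N a ≤ N b :=
  h.mono a b fun i => by
    rw [abs_of_nonneg (ha i), abs_of_nonneg ((ha i).trans (hab i))]; exact hab i

theorem continuous_bound (a b : F0) : |N a - N b| ≤ N (a - b) := by
  rw [abs_le]
  constructor
  · have h1 := h.add (-(a - b)) a
    rw [h.neg] at h1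
    have h2 : -(a - b) + a = b := by abel
    rw [h2] at h1
    linarith
  · have h1 := h.add (a - b) b
    rw [sub_add_cancel] at h1
    linarith

omit h in
/-- Absolute value of a combination of disjointly supported vectors. -/
theorem sum_apply_abs {ι : Type*} (J : Finset ι) (v : ι → F0)
    (hv : ∀ x ∈ J, ∀ y ∈ J, x ≠ y → Disjoint (v x).support (v y).support) (t : ι → ℝ) (i : ℕ) :
    |(∑ x ∈ J, t x • v x) i| = ∑ x ∈ J, |t x| * |v x i| := by
  classical
  rw [Finsupp.finsetSum_apply]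
  by_cases hex : ∃ x ∈ J, v x i ≠ 0
  · obtain ⟨x, hx, hxi⟩ := hex
    have h1 : ∀ y ∈ J, y ≠ x → v y i = 0 := by
      intro y hy hyx
      by_contra hne
      exact Finset.disjoint_left.1 (hv y hy x hx hyx) (Finsupp.mem_support_iff.2 hne)
        (Finsupp.mem_support_iff.2 hxi)
    rw [Finset.sum_eq_single_of_mem x hx, Finset.sum_eq_single_of_mem x hx]
    · rw [Finsupp.smul_apply, smul_eq_mul, abs_mul]
    · intro y hy hyx
      rw [h1 y hy hyx, abs_zero, mul_zero]
    · intro y hy hyx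
      rw [Finsupp.smul_apply, h1 y hy hyx, smul_zero]
  · push Not at hex
    rw [Finset.sum_eq_zero, Finset.sum_eq_zero, abs_zero]
    · intro x hx
      rw [hex x hx, abs_zero, mul_zero]
    · intro x hx
      rw [Finsupp.smul_apply, hex x hx, smul_zero]

/-- Monotonicity in the coefficients for disjointly supported vectors. -/
theorem sum_mono {ι : Type*} (J : Finset ι) (v : ι → F0)
    (hv : ∀ x ∈ J, ∀ y ∈ J, x ≠ y → Disjoint (v x).support (v y).support) (t t' : ι → ℝ)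
    (htt : ∀ x ∈ J, |t x| ≤ |t' x|) : N (∑ x ∈ J, t x • v x) ≤ N (∑ x ∈ J, t' x • v x) := by
  apply h.mono
  intro i
  rw [sum_apply_abs J v hv, sum_apply_abs J v hv]
  exact Finset.sum_le_sum fun x hx => mul_le_mul_of_nonneg_right (htt x hx) (abs_nonneg _)

theorem sum_abs {ι : Type*} (J : Finset ι) (v : ι → F0)
    (hv : ∀ x ∈ J, ∀ y ∈ J, x ≠ y → Disjoint (v x).support (v y).support) (t : ι → ℝ) :
    N (∑ x ∈ J, |t x| • v x) = N (∑ x ∈ J, t x • v x) :=
  le_antisymm (h.sum_mono J v hv _ _ fun x _ => by rw [abs_abs])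
    (h.sum_mono J v hv _ _ fun x _ => by rw [abs_abs])

/-- The norm of a combination of nonnegative multiples is at most the sum. -/
theorem sum_smul_le {ι : Type*} (J : Finset ι) (v : ι → F0) (t : ι → ℝ) :
    N (∑ x ∈ J, t x • v x) ≤ ∑ x ∈ J, |t x| * N (v x) := by
  refine (h.sum_le _ _).trans (Finset.sum_le_sum fun x _ => ?_)
  rw [h.smul]

/-- A subfamily of a disjoint family. -/
theorem sum_subset_le {ι : Type*} {J J' : Finset ι} (hJ : J ⊆ J') (v : ι → F0)
    (hv : ∀ x ∈ J', ∀ y ∈ J', x ≠ y → Disjoint (v x).support (v y).support) (t : ι → ℝ) :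
    N (∑ x ∈ J, t x • v x) ≤ N (∑ x ∈ J', t x • v x) := by
  apply h.mono
  intro i
  rw [sum_apply_abs J v (fun x hx y hy => hv x (hJ hx) y (hJ hy)), sum_apply_abs J' v hv]
  exact Finset.sum_le_sum_of_subset_of_nonneg hJ fun x _ _ =>
    mul_nonneg (abs_nonneg _) (abs_nonneg _)

end Lat

end Pool.Agent.Helper60.CR
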