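import Pool.Agent.Helper60.CR.SqUpper

/-! CR-26 (cm). Random sums of dominated vectors.
PROOF. Let `S : F0` have values `S i = sqrt (nsq I (fun k => b k i))` (support in the union of the supports of `b k`, `k ∈ I`; `Finsupp.onFinset`). `sq_upper` gives `avgOn I N (∑ ε y) ≤ CU * N S` (`|y k i| ≤ |b k i|`).
`khin` at every `i`: `S i ≤ 2 avgOn I |∑ ε_k b_k i|`. So `N S ≤ 2 N (avg of |∑ ε_k b_k|) ≤ 2 avg N (|∑ ε_k b_k|) = 2 avgOn I N (∑ ε b)`: `avgOn` is a finite sum over `I.powerset` with weights `1 / 2^|I|`;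
write the average of the vectors `|∑ sgn T k • b k|` (`Finsupp.mapRange abs`) as a finite sum and use `Lat.sum_le`, `Lat.smul`, `Lat.mono`, `Lat.congr_abs`. `CM = 2 CU`. -/

set_option autoImplicit false

namespace Pool.Agent.Helper60.CR

open Finset
open Pool.Agent.Helper52.CS (avgOn sgn nsq avgOn_insert khin)

theorem cm (N : F0 → ℝ) (hN : Lat N) (q : ℕ) (C : ℝ) (hq : 1 ≤ q) (hC : 1 ≤ C)
    (hL : LowQ N q C) : ∃ CM : ℝ, 1 ≤ CM ∧ ∀ (I : Finset ℕ) (y b : ℕ → F0),
      (∀ k ∈ I, ∀ i, |y k i| ≤ |b k i|) →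
      avgOn I (fun ε => N (∑ k ∈ I, ε k • y k)) ≤ CM * avgOn I (fun ε => N (∑ k ∈ I, ε k • b k)) := by
  classical
  obtain ⟨CU, hCU1, hCU⟩ := sq_upper N hN q C hq hC hL
  refine ⟨2 * CU, by linarith, fun I y b hyb => ?_⟩
  have hS' : ∀ i, Real.sqrt (nsq I (fun k => b k i)) ≠ 0 → i ∈ I.biUnion fun k => (b k).support := by
    intro i hi
    by_contra hcon
    apply hi
    have h1 : nsq I (fun k => b k i) = 0 := by
      refine Finset.sum_eq_zero fun k hk => ?_
      have h2 : b k i = 0 := by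
        by_contra h3
        exact hcon (Finset.mem_biUnion.mpr ⟨k, hk, Finsupp.mem_support_iff.mpr h3⟩)
      show b k i ^ 2 = 0
      rw [h2]
      norm_num
    rw [h1, Real.sqrt_zero]
  set S : F0 := Finsupp.onFinset (I.biUnion fun k => (b k).support)
    (fun i => Real.sqrt (nsq I (fun k => b k i))) hS' with hS
  have hSi : ∀ i, S i = Real.sqrt (nsq I (fun k => b k i)) := fun i => rfl
  have h1 := hCU I y S (by
    intro i
    rw [hSi]
    refine Real.sqrt_le_sqrt (Finset.sum_le_sum fun k hk => ?_)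
    exact sq_le_sq.mpr (hyb k hk i))
  set W : Finset ℕ → F0 := fun T => ∑ k ∈ I, sgn T k • b k with hW
  set aW : Finset ℕ → F0 := fun T => (W T).mapRange (fun t : ℝ => |t|) abs_zero with haW
  have hNaW : ∀ T, N (aW T) = N (W T) := fun T => hN.congr_abs fun i => by
    rw [haW]
    simp only [Finsupp.mapRange_apply, abs_abs]
  have hpow : (0 : ℝ) < 2 ^ I.card := by positivity
  have h2 : N S ≤ N ((2 * (2 ^ I.card)⁻¹ : ℝ) • ∑ T ∈ I.powerset, aW T) := by
    refine hN.mono _ _ fun i => ?_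
    rw [hSi, abs_of_nonneg (Real.sqrt_nonneg _)]
    refine le_trans ?_ (le_abs_self _)
    refine (khin I (fun k => b k i)).trans (le_of_eq ?_)
    rw [Finsupp.smul_apply, Finsupp.finsetSum_apply, smul_eq_mul, mul_assoc]
    congr 1
    unfold avgOn
    rw [div_eq_inv_mul]
    congr 1
    refine Finset.sum_congr rfl fun T _ => ?_
    rw [haW, hW]
    simp only [Finsupp.mapRange_apply, Finsupp.finsetSum_apply, Finsupp.smul_apply, smul_eq_mul]
  have h3 : N S ≤ 2 * avgOn I (fun ε => N (∑ k ∈ I, ε k • b k)) := by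
    refine h2.trans ?_
    rw [hN.smul, abs_of_nonneg (by positivity), mul_assoc]
    refine mul_le_mul_of_nonneg_left ?_ (by norm_num)
    unfold avgOn
    rw [div_eq_inv_mul]
    refine mul_le_mul_of_nonneg_left ?_ (by positivity)
    refine (hN.sum_le _ _).trans (Finset.sum_le_sum fun T _ => ?_)
    rw [hNaW]
  calc avgOn I (fun ε => N (∑ k ∈ I, ε k • y k)) ≤ CU * N S := h1
    _ ≤ CU * (2 * avgOn I (fun ε => N (∑ k ∈ I, ε k • b k))) :=
      mul_le_mul_of_nonneg_left h3 (by linarith)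
    _ = 2 * CU * avgOn I (fun ε => N (∑ k ∈ I, ε k • b k)) := by ring

end Pool.Agent.Helper60.CR
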