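import Pool.Agent.Helper60.CR.DdBasic

/-! CR-58 (config). A configuration of copies of `f` is, up to an increasing map, a sequence of successive copies.
PROOF. `Sh i f = f.mapDomain (· + i)`. By `dd_iter`: `Dd^[a] f = (∑ i < 2^a, Sh i f).mapDomain (fun x => x / 2^a)`.
Claim: for a finite set `H ⊂ ℕ` with `S = ∑ j ∈ H, 2^(a j)` there is `φ : ℚ → ℚ`, strictly increasing on `[0, S)`, with values `φ x < j + 1` for some `j ∈ H` and `φ x ≥ 0` (for `0 ≤ x < S`), and `∑ j ∈ H, Sh j (Dd^[a j] f) = (∑ i < S, Sh i f).mapDomain φ`.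
Induction (`Finset.induction_on_max`): `H = ∅`: both sides `0`. `H ∪ {j0}`, `j0` larger than all of `H`: `φ' x = φ x` for `x < S`, `φ' x = j0 + (x - S) / 2^(a j0)` for `x ≥ S`; on `[0,S)` the values are `< j + 1 ≤ j0` for some `j ∈ H`, so `φ'` is strictly increasing on `[0, S + 2^(a j0))`; the
sum over `i < S + 2^(a j0)` splits into `i < S` (support in `[0,S)`, where `φ' = φ`) and `i = S + i'`, `Sh (S + i') f = (Sh i' f).mapDomain (· + S)` (support in `[S, ∞)`; `Finsupp.mapDomain_comp`, `Finsupp.mapDomain_congr`).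
The support of `∑ i < S, Sh i f` is in `[0, S)`, so `inv` gives the equality of the norms. config_mono: for `M ≤ M'` the sum over `i < M` is coordinatewise between `0` and the sum over `i < M'` (`f ≥ 0`). config_iter: the case `H = {0}`, or directly `dd_iter` and `inv`. -/

set_option autoImplicit false

namespace Pool.Agent.Helper60.CR

open Finset

variable {ν : (ℚ →₀ ℝ) → ℝ} {q : ℕ} {C : ℝ}

theorem sh_apply (j : ℚ) (f : ℚ →₀ ℝ) (x : ℚ) : Sh j f x = f (x - j) := by
  have h1 : Function.Injective (fun y : ℚ => y + j) := add_left_injective j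
  have h2 := Finsupp.mapDomain_apply h1 f (x - j)
  simp only [sub_add_cancel] at h2
  exact h2

theorem sum_sh_nonneg (f : ℚ →₀ ℝ) (hf : Pos01 f) (S : ℕ) (x : ℚ) :
    0 ≤ (∑ i ∈ range S, Sh i f) x := by
  rw [Finsupp.finsetSum_apply]
  refine Finset.sum_nonneg fun i _ => ?_
  rw [sh_apply]
  exact hf.1 _

theorem sum_sh_supp (f : ℚ →₀ ℝ) (hf : Pos01 f) (S : ℕ) (x : ℚ)
    (hx : x ∈ (∑ i ∈ range S, Sh i f : ℚ →₀ ℝ).support) : 0 ≤ x ∧ x < S := by
  rw [Finsupp.mem_support_iff, Finsupp.finsetSum_apply] at hx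
  obtain ⟨i, hi, h1⟩ := Finset.exists_ne_zero_of_sum_ne_zero hx
  rw [sh_apply] at h1
  have h2 := hf.2 _ (Finsupp.mem_support_iff.2 h1)
  have h3 : i + 1 ≤ S := Finset.mem_range.1 hi
  have h4 : (i : ℚ) + 1 ≤ S := by exact_mod_cast h3
  have h5 : (0 : ℚ) ≤ i := Nat.cast_nonneg i
  constructor <;> linarith [h2.1, h2.2]

theorem config_map (f : ℚ →₀ ℝ) (hf : Pos01 f) (a : ℕ → ℕ) (H : Finset ℕ) :
    ∃ φ : ℚ → ℚ, StrictMonoOn φ (Set.Ico (0 : ℚ) ((∑ j ∈ H, 2 ^ a j : ℕ) : ℚ)) ∧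
      (∀ x ∈ Set.Ico (0 : ℚ) ((∑ j ∈ H, 2 ^ a j : ℕ) : ℚ), ∃ j ∈ H, φ x < (j : ℚ) + 1) ∧
      ∑ j ∈ H, Sh j (Dd^[a j] f) = (∑ i ∈ range (∑ j ∈ H, 2 ^ a j), Sh i f).mapDomain φ := by
  induction H using Finset.induction_on_max with
  | empty =>
    refine ⟨id, fun x _ y _ h => h, fun x hx => ?_, ?_⟩
    · simp only [Finset.sum_empty, Nat.cast_zero, Set.mem_Ico] at hx
      exact absurd hx.2 (not_lt.2 hx.1)
    · simp
  | insert j0 H hmax ih =>
    obtain ⟨φ, h1, h2, h3⟩ := ih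
    have hj0 : j0 ∉ H := fun h => lt_irrefl _ (hmax j0 h)
    have hS : ∑ j ∈ insert j0 H, 2 ^ a j = (∑ j ∈ H, 2 ^ a j) + 2 ^ a j0 := by
      rw [Finset.sum_insert hj0, add_comm]
    rw [hS]
    generalize (∑ j ∈ H, 2 ^ a j) = S at h1 h2 h3 ⊢
    have hpos : (0 : ℚ) < 2 ^ a j0 := by positivity
    have hlow : ∀ x ∈ Set.Ico (0 : ℚ) (S : ℚ), φ x < (j0 : ℚ) := by
      intro x hx
      obtain ⟨j, hj, h⟩ := h2 x hx
      have h4 : j + 1 ≤ j0 := hmax j hj
      have h5 : (j : ℚ) + 1 ≤ j0 := by exact_mod_cast h4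
      linarith
    refine ⟨fun x => if x < S then φ x else (j0 : ℚ) + (x - S) / 2 ^ a j0, ?_, ?_, ?_⟩
    · intro x hx y hy hxy
      simp only
      by_cases hyS : y < S
      · rw [if_pos hyS, if_pos (hxy.trans hyS)]
        exact h1 ⟨hx.1, hxy.trans hyS⟩ ⟨hy.1, hyS⟩ hxy
      · rw [if_neg hyS]
        have hy2 : 0 ≤ (y - S) / 2 ^ a j0 := div_nonneg (by linarith [not_lt.1 hyS]) hpos.le
        by_cases hxS : x < S
        · rw [if_pos hxS]
          have := hlow x ⟨hx.1, hxS⟩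
          linarith
        · rw [if_neg hxS]
          have : (x - S) / 2 ^ a j0 < (y - S) / 2 ^ a j0 := by
            apply div_lt_div_of_pos_right _ hpos
            linarith
          linarith
    · intro x hx
      by_cases hxS : x < S
      · obtain ⟨j, hj, h⟩ := h2 x ⟨hx.1, hxS⟩
        refine ⟨j, Finset.mem_insert_of_mem hj, ?_⟩
        simp only
        rw [if_pos hxS]
        exact h
      · refine ⟨j0, Finset.mem_insert_self _ _, ?_⟩
        simp only
        rw [if_neg hxS]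
        have h4 := hx.2
        push_cast at h4
        have : (x - S) / 2 ^ a j0 < 1 := by
          rw [div_lt_one hpos]
          linarith
        linarith
    · rw [Finset.sum_insert hj0, h3, Finset.sum_range_add, Finsupp.mapDomain_add, add_comm]
      congr 1
      · apply Finsupp.mapDomain_congr
        intro x hx
        rw [if_pos (sum_sh_supp f hf S x hx).2]
      · rw [dd_iter, Finsupp.mapDomain_finsetSum]
        unfold Sh
        rw [Finsupp.mapDomain_finsetSum]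
        refine Finset.sum_congr rfl fun i _ => ?_
        rw [← Finsupp.mapDomain_comp, ← Finsupp.mapDomain_comp]
        apply Finsupp.mapDomain_congr
        intro x hx
        have hx0 := (hf.2 x hx).1
        have hi0 : (0 : ℚ) ≤ i := Nat.cast_nonneg i
        simp only [Function.comp_apply]
        push_cast
        rw [if_neg (not_lt.2 (by linarith))]
        have : x + ((S : ℚ) + i) - S = x + i := by ring
        rw [this, add_comm]

theorem config (h : SNorm ν q C) (f : ℚ →₀ ℝ) (hf : Pos01 f) (H : Finset ℕ) (a : ℕ → ℕ) :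
    ν (∑ j ∈ H, Sh j (Dd^[a j] f)) = ν (∑ i ∈ range (∑ j ∈ H, 2 ^ a j), Sh i f) := by
  obtain ⟨φ, h1, -, h3⟩ := config_map f hf a H
  rw [h3]
  apply h.inv
  exact h1.mono fun x hx => sum_sh_supp f hf _ x hx

theorem config_iter (h : SNorm ν q C) (f : ℚ →₀ ℝ) (hf : Pos01 f) (a : ℕ) :
    ν (Dd^[a] f) = ν (∑ i ∈ range (2 ^ a), Sh i f) := by
  have h1 := config h f hf {0} (fun _ => a)
  rw [Finset.sum_singleton, Finset.sum_singleton] at h1
  rw [← h1]
  congr 1
  ext x
  rw [sh_apply]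
  simp

theorem config_mono (h : SNorm ν q C) (f : ℚ →₀ ℝ) (hf : Pos01 f) (M M' : ℕ) (hM : M ≤ M') :
    ν (∑ i ∈ range M, Sh i f) ≤ ν (∑ i ∈ range M', Sh i f) := by
  apply h.mono
  intro x
  rw [abs_of_nonneg (sum_sh_nonneg f hf M x), abs_of_nonneg (sum_sh_nonneg f hf M' x),
    Finsupp.finsetSum_apply, Finsupp.finsetSum_apply]
  refine Finset.sum_le_sum_of_subset_of_nonneg (Finset.range_mono hM) fun i _ _ => ?_
  rw [sh_apply]
  exact hf.1 _

end Pool.Agent.Helper60.CR
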