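import Pool.Agent.Helper60.CR.Basic

/-! CR-30 (coord_fun). Coordinate functionals.
PROOF. `|a i| ≤ N a ≤ C ‖v a‖`, `v = linearCombination ℝ e` (`Lat.coord`, `Equi`). So `v` is injective and `v a ↦ a i` is a well defined linear functional on the range of `v`, bounded by `C`; extend by Hahn-Banach
(`exists_extension_norm_eq`). The same statement for other hypotheses is proved in `Pool/Agent/Helper52/CS/Coord.lean` (`coord_functional`): copy that proof. -/

set_option autoImplicit false

namespace Pool.Agent.Helper60.CR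

open Finset

theorem coord_fun_abs_le {X : Type*} [NormedAddCommGroup X] [NormedSpace ℝ X] (e : ℕ → X)
    (N : F0 → ℝ) (C : ℝ) (hN : Lat N) (hE : Equi N e C) (a : F0) (i : ℕ) :
    |a i| ≤ C * ‖Finsupp.linearCombination ℝ e a‖ :=
  (hN.coord a i).trans (hE a).2

theorem coord_fun {X : Type*} [NormedAddCommGroup X] [NormedSpace ℝ X] (e : ℕ → X) (N : F0 → ℝ)
    (C : ℝ) (hN : Lat N) (hE : Equi N e C) :
    ∃ ξ : ℕ → (X →L[ℝ] ℝ), ∀ i, ∀ a : F0, ξ i (Finsupp.linearCombination ℝ e a) = a i := by
  have hinj : Function.Injective (Finsupp.linearCombination ℝ e) := by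
    rw [injective_iff_map_eq_zero]
    intro a ha
    ext i
    have h1 := coord_fun_abs_le e N C hN hE a i
    rw [ha, norm_zero, mul_zero] at h1
    exact abs_eq_zero.1 (le_antisymm h1 (abs_nonneg _))
  let E := LinearEquiv.ofInjective (Finsupp.linearCombination ℝ e) hinj
  have hEs : ∀ y, Finsupp.linearCombination ℝ e (E.symm y) = y := by
    intro y
    have h1 := E.apply_symm_apply y
    exact congrArg Subtype.val h1
  have hex : ∀ i : ℕ, ∃ ξ : X →L[ℝ] ℝ,
      ∀ a : F0, ξ (Finsupp.linearCombination ℝ e a) = a i := by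
    intro i
    let f : LinearMap.range (Finsupp.linearCombination ℝ e) →ₗ[ℝ] ℝ :=
      (Finsupp.lapply i).comp E.symm.toLinearMap
    have hf : ∀ y, ‖f y‖ ≤ C * ‖y‖ := by
      intro y
      have h1 := coord_fun_abs_le e N C hN hE (E.symm y) i
      rw [hEs] at h1
      exact h1
    obtain ⟨g, hg1, -⟩ := exists_extension_norm_eq
      (LinearMap.range (Finsupp.linearCombination ℝ e)) (f.mkContinuous C hf)
    refine ⟨g, fun a => ?_⟩
    have h2 := hg1 ⟨Finsupp.linearCombination ℝ e a, LinearMap.mem_range_self _ a⟩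
    have h3 : (⟨Finsupp.linearCombination ℝ e a, LinearMap.mem_range_self _ a⟩ :
        LinearMap.range (Finsupp.linearCombination ℝ e)) = E a := rfl
    rw [LinearMap.mkContinuous_apply] at h2
    have h4 : f (E a) = a i := by
      change (E.symm (E a)) i = a i
      rw [LinearEquiv.symm_apply_apply]
    rw [h3, h4] at h2
    exact h2
  choose ξ hξ using hex
  exact ⟨ξ, hξ⟩

end Pool.Agent.Helper60.CR
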