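import Pool.Agent.Helper60.CR.Config

/-! CR-59 (copies). Successive copies of an approximate eigenvector span `ℓ_p ^ n`.
PROOF. `λ = 2^(1/p) ∈ (1, 2]`, `λ^p = 2`. Both inequalities are homogeneous and trivial if all `t j = 0`, `j < n`; so let `Bs p (range n) t = 1`, i.e. `∑ t_j^p = 1`, `0 ≤ t_j ≤ 1`. For `j < n` with `t_j ≥ λ^(-s)` let `k_j` be the least natural number with `λ^(-k_j) ≤ t_j`; then `k_j ≤ s` and
`t_j < λ^(1-k_j)`. For the other `j` let `k_j = s`; so always `t_j ≤ λ * λ^(-k_j)`.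
Upper estimate: `ν (∑ t_j • Sh j f) ≤ λ ν (∑ λ^(-k_j) • Sh j f)` (`mono`), `λ^(-k_j) • Sh j f = λ^(-s) • Sh j (Dd^[s-k_j] f) - λ^(-s) • Sh j (Dd^[s-k_j] f - λ^(s-k_j) • f)`, so
`ν (∑ λ^(-k_j) • Sh j f) ≤ λ^(-s) (ν (∑ Sh j (Dd^[s-k_j] f)) + n θ)` (`inv` for the shift, `hf3`). By `config` the first norm is that of `M = ∑ 2^(s-k_j)` copies, `2^(-k_j) = (λ^(-k_j))^p ≤ t_j^p` if `t_j ≥ λ^(-s)`, and `2^(s-k_j) = 1` otherwise, so
`M ≤ 2^s + n ≤ 2^(s+1)`; `config_mono`, `config_iter`, `ν (Dd^[s+1] f) ≤ 2 ν (Dd^[s] f) ≤ 2 (λ^s + θ)` (`nu_iter_le` with `k = 1`). Altogether `≤ λ (2 + 2 θ + n θ) ≤ 5`.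
Lower estimate: `H = {j < n | t_j ≥ λ^(-s)}`, `∑_{j ∉ H} t_j^p ≤ n 2^(-s) ≤ 1/2`, so `∑_{j ∈ H} t_j^p ≥ 1/2`. For `j ∈ H`: `t_j^p < (λ λ^(-k_j))^p = 2 * 2^(-k_j)`, so `M_H = ∑_{j ∈ H} 2^(s-k_j) ≥ 2^s / 4 = 2^(s-2)`.
`ν (∑ t_j • Sh j f) ≥ ν (∑_{j ∈ H} λ^(-k_j) • Sh j f) ≥ λ^(-s) (ν (∑_{j ∈ H} Sh j (Dd^[s-k_j] f)) - n θ) ≥ λ^(-s) (ν (Dd^[s-2] f) - n θ) ≥ λ^(-s) (λ^(s-2) - θ - n θ) ≥ λ^(-2) - (n+1) θ ≥ 1/4 - 1/8`. -/

set_option autoImplicit false

namespace Pool.Agent.Helper60.CR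

open Finset

variable {ν : (ℚ →₀ ℝ) → ℝ} {q : ℕ} {C : ℝ}

private theorem cp_apply (j : ℚ) (f : ℚ →₀ ℝ) (x : ℚ) : Sh j f x = f (x - j) := by
  unfold Sh
  have h1 : (Finsupp.mapDomain (fun x => x + j) f) ((fun x => x + j) (x - j)) = f (x - j) :=
    Finsupp.mapDomain_apply (fun a b h => by simpa using h) f (x - j)
  simpa using h1

private theorem cp_add (j : ℚ) (f g : ℚ →₀ ℝ) : Sh j (f + g) = Sh j f + Sh j g := by
  ext x
  rw [cp_apply, Finsupp.add_apply, Finsupp.add_apply, cp_apply, cp_apply]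

private theorem cp_sub (j : ℚ) (f g : ℚ →₀ ℝ) : Sh j (f - g) = Sh j f - Sh j g := by
  ext x
  rw [cp_apply, Finsupp.sub_apply, Finsupp.sub_apply, cp_apply, cp_apply]

private theorem cp_smul (j : ℚ) (t : ℝ) (f : ℚ →₀ ℝ) : Sh j (t • f) = t • Sh j f := by
  ext x
  rw [cp_apply, Finsupp.smul_apply, Finsupp.smul_apply, cp_apply]

private theorem cp_nu (h : SNorm ν q C) (j : ℚ) (f : ℚ →₀ ℝ) : ν (Sh j f) = ν f := by
  unfold Sh
  exact h.inv f _ fun a _ b _ hab => by simpa using hab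

private theorem cp_sub_le (h : SNorm ν q C) (a b : ℚ →₀ ℝ) : ν (a - b) ≤ ν a + ν b := by
  have h1 := h.add a ((-1 : ℝ) • b)
  rw [h.smul, abs_neg, abs_one, one_mul, neg_one_smul, ← sub_eq_add_neg] at h1
  exact h1

private theorem cp_sub_ge (h : SNorm ν q C) (a b : ℚ →₀ ℝ) : ν a - ν b ≤ ν (a - b) := by
  have h1 := h.add (a - b) b
  rw [sub_add_cancel] at h1
  linarith

private theorem cp_sum (A : Finset ℕ) (t : ℕ → ℝ) (f : ℚ →₀ ℝ) (x : ℚ) :
    (∑ j ∈ A, t j • Sh j f) x = ∑ j ∈ A, t j * f (x - j) := by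
  rw [Finsupp.finsetSum_apply]
  exact Finset.sum_congr rfl fun j _ => by rw [Finsupp.smul_apply, cp_apply, smul_eq_mul]

/-- comparison of coefficients -/
private theorem cp_mono (h : SNorm ν q C) (f : ℚ →₀ ℝ) (hf : Pos01 f) {A B : Finset ℕ}
    (hAB : A ⊆ B) (t t' : ℕ → ℝ) (ht : ∀ j ∈ A, 0 ≤ t j) (htt : ∀ j ∈ A, t j ≤ t' j)
    (ht' : ∀ j ∈ B, 0 ≤ t' j) :
    ν (∑ j ∈ A, t j • Sh j f) ≤ ν (∑ j ∈ B, t' j • Sh j f) := by
  apply h.mono
  intro x
  rw [cp_sum, cp_sum, abs_of_nonneg (Finset.sum_nonneg fun j hj => mul_nonneg (ht j hj) (hf.1 _)),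
    abs_of_nonneg (Finset.sum_nonneg fun j hj => mul_nonneg (ht' j hj) (hf.1 _))]
  calc ∑ j ∈ A, t j * f (x - j) ≤ ∑ j ∈ A, t' j * f (x - j) :=
        Finset.sum_le_sum fun j hj => mul_le_mul_of_nonneg_right (htt j hj) (hf.1 _)
    _ ≤ ∑ j ∈ B, t' j * f (x - j) := Finset.sum_le_sum_of_subset_of_nonneg hAB
        fun j hj _ => mul_nonneg (ht' j hj) (hf.1 _)

private theorem cp_choice {l : ℝ} (hl : 1 ≤ l) (s : ℕ) {τ : ℝ} (hτ0 : 0 ≤ τ) (hτ : τ ≤ 1) :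
    ∃ k ≤ s, τ ≤ l * l⁻¹ ^ k ∧ (l⁻¹ ^ k ≤ τ ∨ (k = s ∧ τ ≤ l⁻¹ ^ s)) := by
  classical
  have hl0 : 0 < l := by linarith
  by_cases hs : l⁻¹ ^ s ≤ τ
  · have hex : ∃ k, l⁻¹ ^ k ≤ τ := ⟨s, hs⟩
    refine ⟨Nat.find hex, Nat.find_min' hex hs, ?_, Or.inl (Nat.find_spec hex)⟩
    rcases Nat.eq_zero_or_pos (Nat.find hex) with h0 | h0
    · rw [h0, pow_zero, mul_one]
      linarith
    · have h1 := Nat.find_min hex (m := Nat.find hex - 1) (by omega)
      rw [not_le] at h1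
      have h2 : l * l⁻¹ ^ (Nat.find hex) = l⁻¹ ^ (Nat.find hex - 1) := by
        obtain ⟨m, hm⟩ : ∃ m, Nat.find hex = m + 1 := ⟨Nat.find hex - 1, by omega⟩
        rw [hm, Nat.add_sub_cancel, pow_succ]
        field_simp
      rw [h2]
      exact h1.le
  · rw [not_le] at hs
    refine ⟨s, le_rfl, ?_, Or.inr ⟨rfl, hs.le⟩⟩
    refine hs.le.trans ?_
    have : 0 ≤ l⁻¹ ^ s := by positivity
    nlinarith

private theorem cp_dec (h : SNorm ν q C) {l θ : ℝ} (hl : 0 < l) (s : ℕ) (f : ℚ →₀ ℝ)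
    (hf3 : ∀ j ≤ s, ν (Dd^[j] f - l ^ j • f) ≤ θ) (A : Finset ℕ) (k : ℕ → ℕ)
    (hk : ∀ j ∈ A, k j ≤ s) :
    ∃ E : ℚ →₀ ℝ, ν E ≤ A.card * θ ∧ ∑ j ∈ A, l⁻¹ ^ (k j) • Sh j f =
      l⁻¹ ^ s • (∑ j ∈ A, Sh j (Dd^[s - k j] f) - E) := by
  refine ⟨∑ j ∈ A, Sh j (Dd^[s - k j] f - l ^ (s - k j) • f), ?_, ?_⟩
  · refine (sn_sum_le h A _).trans ?_
    calc ∑ j ∈ A, ν (Sh (j : ℚ) (Dd^[s - k j] f - l ^ (s - k j) • f)) ≤ ∑ j ∈ A, θ :=
          Finset.sum_le_sum fun j _ => by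
            rw [cp_nu h]
            exact hf3 _ (Nat.sub_le _ _)
      _ = A.card * θ := by rw [Finset.sum_const, nsmul_eq_mul]
  · rw [← Finset.sum_sub_distrib, Finset.smul_sum]
    refine Finset.sum_congr rfl fun j hj => ?_
    rw [cp_sub, sub_sub_cancel, cp_smul, smul_smul]
    congr 1
    obtain ⟨d, hd⟩ : ∃ d, s = k j + d := ⟨s - k j, by have := hk j hj; omega⟩
    rw [hd, Nat.add_sub_cancel_left, pow_add, mul_assoc, ← mul_pow, inv_mul_cancel₀ hl.ne', one_pow,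
      mul_one]

private theorem cp_main (h : SNorm ν q C) (p : ℝ) (hp : 1 ≤ p) (n s : ℕ) (hn : 1 ≤ n) (hs : 2 ≤ s)
    (hns : 2 * n ≤ 2 ^ s) (θ : ℝ) (hθ : 0 ≤ θ) (hθn : θ ≤ 1 / (16 * n)) (f : ℚ →₀ ℝ)
    (hf : Pos01 f) (hf1 : ν f = 1)
    (hf3 : ∀ j ≤ s, ν (Dd^[j] f - ((2 : ℝ) ^ (1 / p)) ^ j • f) ≤ θ) (t : ℕ → ℝ)
    (ht : ∀ j, 0 ≤ t j) (htp : ∑ j ∈ range n, t j ^ p = 1) :
    1 / 8 ≤ ν (∑ j ∈ range n, t j • Sh j f) ∧
      ν (∑ j ∈ range n, t j • Sh j f) ≤ 5 := by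
  classical
  have hp0 : 0 < p := by linarith
  set l : ℝ := (2 : ℝ) ^ (1 / p) with hl
  have hl1 : 1 ≤ l := Real.one_le_rpow (by norm_num) (by positivity)
  have hl2 : l ≤ 2 := by
    calc l ≤ (2 : ℝ) ^ (1 : ℝ) := Real.rpow_le_rpow_of_exponent_le (by norm_num)
          (by rw [div_le_one hp0]; exact hp)
      _ = 2 := Real.rpow_one 2
  have hl0 : 0 < l := by linarith
  have hlp : l ^ p = 2 := by
    rw [hl, ← Real.rpow_mul (by norm_num), one_div_mul_cancel hp0.ne', Real.rpow_one]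
  have hμp : ∀ k : ℕ, (l⁻¹ ^ k) ^ p = (1 / 2 : ℝ) ^ k := by
    intro k
    rw [← Real.rpow_natCast, ← Real.rpow_mul (by positivity), mul_comm, Real.rpow_mul (by positivity),
      Real.inv_rpow hl0.le, hlp, Real.rpow_natCast]
    norm_num
  have hμ0 : ∀ k : ℕ, 0 < l⁻¹ ^ k := fun k => by positivity
  have hμ1 : ∀ k : ℕ, l⁻¹ ^ k ≤ 1 := fun k => pow_le_one₀ (by positivity) (inv_le_one_of_one_le₀ hl1)
  have ht1 : ∀ j ∈ range n, t j ≤ 1 := by
    intro j hj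
    have h1 : t j ^ p ≤ 1 := by
      rw [← htp]
      exact Finset.single_le_sum (f := fun j => t j ^ p) (fun i _ => Real.rpow_nonneg (ht i) _) hj
    by_contra hcon
    rw [not_le] at hcon
    have := Real.one_lt_rpow hcon hp0
    linarith
  have hch : ∀ j : ℕ, ∃ k ≤ s, j ∈ range n → (t j ≤ l * l⁻¹ ^ k ∧
      (l⁻¹ ^ k ≤ t j ∨ (k = s ∧ t j ≤ l⁻¹ ^ s))) := by
    intro j
    by_cases hj : j ∈ range n
    · obtain ⟨k, hk, h1⟩ := cp_choice hl1 s (ht j) (ht1 j hj)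
      exact ⟨k, hk, fun _ => h1⟩
    · exact ⟨0, Nat.zero_le _, fun h1 => absurd h1 hj⟩
  choose k hks hk using hch
  have hnθ : (n : ℝ) * θ ≤ 1 / 16 := by
    have hn0 : (0 : ℝ) < n := by exact_mod_cast hn
    calc (n : ℝ) * θ ≤ n * (1 / (16 * n)) := mul_le_mul_of_nonneg_left hθn hn0.le
      _ = 1 / 16 := by field_simp
  have hθ1 : θ ≤ 1 / 16 := by
    have hn0 : (1 : ℝ) ≤ n := by exact_mod_cast hn
    nlinarith
  have hpow : ∀ j, (2 : ℝ) ^ (s - k j) = 2 ^ s * (1 / 2) ^ (k j) := by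
    intro j
    obtain ⟨d, hd⟩ : ∃ d, s = k j + d := ⟨s - k j, by have := hks j; omega⟩
    rw [hd, Nat.add_sub_cancel_left, pow_add, mul_comm ((2 : ℝ) ^ (k j)), mul_assoc, ← mul_pow]
    norm_num
  constructor
  · -- lower estimate
    set H : Finset ℕ := (range n).filter (fun j => l⁻¹ ^ k j ≤ t j) with hH
    have hHs : H ⊆ range n := Finset.filter_subset _ _
    have h1 : ν (∑ j ∈ H, l⁻¹ ^ (k j) • Sh j f) ≤ ν (∑ j ∈ range n, t j • Sh j f) :=
      cp_mono h f hf hHs _ _ (fun j _ => (hμ0 _).le) (fun j hj => (Finset.mem_filter.mp hj).2)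
        (fun j _ => ht j)
    obtain ⟨E, hE1, hE2⟩ := cp_dec h hl0 s f hf3 H k fun j _ => hks j
    rw [hE2, h.smul, abs_of_pos (hμ0 s)] at h1
    have h2 := cp_sub_ge h (∑ j ∈ H, Sh j (Dd^[s - k j] f)) E
    rw [config h f hf H (fun j => s - k j)] at h2
    have hM : 2 ^ (s - 2) ≤ ∑ j ∈ H, 2 ^ (s - k j) := by
      have h3 : ∑ j ∈ range n \ H, t j ^ p ≤ 1 / 2 := by
        calc ∑ j ∈ range n \ H, t j ^ p ≤ ∑ j ∈ range n \ H, (1 / 2 : ℝ) ^ s := by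
              refine Finset.sum_le_sum fun j hj => ?_
              obtain ⟨hj1, hj2⟩ := Finset.mem_sdiff.mp hj
              rcases (hk j hj1).2 with h4 | ⟨-, h4⟩
              · exact absurd (Finset.mem_filter.mpr ⟨hj1, h4⟩) hj2
              · rw [← hμp]
                exact Real.rpow_le_rpow (ht j) h4 hp0.le
          _ = ((range n \ H).card : ℝ) * (1 / 2 : ℝ) ^ s := by rw [Finset.sum_const, nsmul_eq_mul]
          _ ≤ n * (1 / 2 : ℝ) ^ s := by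
              refine mul_le_mul_of_nonneg_right ?_ (by positivity)
              have : (range n \ H).card ≤ n := by
                have := Finset.card_le_card (Finset.sdiff_subset (s := range n) (t := H))
                rwa [Finset.card_range] at this
              exact_mod_cast this
          _ ≤ 1 / 2 := by
              have h5 : (2 : ℝ) * n ≤ 2 ^ s := by exact_mod_cast hns
              have h6 : (0 : ℝ) < 2 ^ s := by positivity
              rw [one_div_pow, mul_one_div, div_le_iff₀ h6]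
              linarith
      have h4 : 1 / 2 ≤ ∑ j ∈ H, t j ^ p := by
        have := Finset.sum_sdiff (f := fun j => t j ^ p) hHs
        rw [htp] at this
        linarith
      have h5 : ∑ j ∈ H, t j ^ p ≤ 2 * ∑ j ∈ H, (1 / 2 : ℝ) ^ (k j) := by
        rw [Finset.mul_sum]
        refine Finset.sum_le_sum fun j hj => ?_
        have h6 := (hk j (hHs hj)).1
        calc t j ^ p ≤ (l * l⁻¹ ^ k j) ^ p := Real.rpow_le_rpow (ht j) h6 hp0.le
          _ = 2 * (1 / 2 : ℝ) ^ (k j) := by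
            rw [Real.mul_rpow hl0.le (hμ0 _).le, hlp, hμp]
      have h6 : ((2 ^ (s - 2) : ℕ) : ℝ) ≤ ((∑ j ∈ H, 2 ^ (s - k j) : ℕ) : ℝ) := by
        push_cast
        rw [Finset.sum_congr rfl fun j _ => hpow j, ← Finset.mul_sum]
        obtain ⟨d, rfl⟩ : ∃ d, s = d + 2 := ⟨s - 2, by omega⟩
        rw [Nat.add_sub_cancel, pow_add]
        have : (0 : ℝ) < 2 ^ d := by positivity
        nlinarith
      exact_mod_cast h6
    have h3 := config_mono h f hf _ _ hM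
    rw [← config_iter h f hf] at h3
    have h4 : l ^ (s - 2) - θ ≤ ν (Dd^[s - 2] f) := by
      have h5 := cp_sub_ge h (l ^ (s - 2) • f) (l ^ (s - 2) • f - Dd^[s - 2] f)
      rw [sub_sub_cancel, h.smul, hf1, mul_one, abs_of_pos (by positivity)] at h5
      have h6 : ν (l ^ (s - 2) • f - Dd^[s - 2] f) ≤ θ := by
        have h7 := hf3 (s - 2) (Nat.sub_le _ _)
        have h8 : l ^ (s - 2) • f - Dd^[s - 2] f = (-1 : ℝ) • (Dd^[s - 2] f - l ^ (s - 2) • f) := by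
          rw [neg_one_smul, neg_sub]
        rw [h8, h.smul, abs_neg, abs_one, one_mul]
        exact h7
      linarith
    have h5 : (H.card : ℝ) * θ ≤ 1 / 16 := by
      refine le_trans (mul_le_mul_of_nonneg_right ?_ hθ) hnθ
      have := Finset.card_le_card hHs
      rw [Finset.card_range] at this
      exact_mod_cast this
    have h6 : l ^ (s - 2) - 1 / 8 ≤ ν (∑ j ∈ H, Sh (j : ℚ) (Dd^[s - k j] f) - E) := by
      linarith
    refine le_trans ?_ h1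
    have h7 : l⁻¹ ^ s * (l ^ (s - 2) - 1 / 8) ≤
        l⁻¹ ^ s * ν (∑ j ∈ H, Sh (j : ℚ) (Dd^[s - k j] f) - E) :=
      mul_le_mul_of_nonneg_left h6 (hμ0 s).le
    refine le_trans ?_ h7
    have h8 : l⁻¹ ^ s * l ^ (s - 2) = l⁻¹ ^ 2 := by
      obtain ⟨d, rfl⟩ : ∃ d, s = 2 + d := ⟨s - 2, by omega⟩
      rw [Nat.add_sub_cancel_left, pow_add, mul_assoc, ← mul_pow, inv_mul_cancel₀ hl0.ne', one_pow,
        mul_one]
    have h9 : (1 / 2 : ℝ) ≤ l⁻¹ := by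
      rw [one_div]
      exact inv_anti₀ hl0 hl2
    rw [mul_sub, h8]
    have h10 := hμ1 s
    nlinarith
  · -- upper estimate
    have h1 : ν (∑ j ∈ range n, t j • Sh j f) ≤ ν (∑ j ∈ range n, (l * l⁻¹ ^ k j) • Sh j f) :=
      cp_mono h f hf (Finset.Subset.refl _) _ _ (fun j _ => ht j) (fun j hj => (hk j hj).1)
        (fun j _ => by positivity)
    have h2 : ∑ j ∈ range n, (l * l⁻¹ ^ k j) • Sh (j : ℚ) f =
        l • ∑ j ∈ range n, l⁻¹ ^ k j • Sh (j : ℚ) f := by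
      rw [Finset.smul_sum]
      exact Finset.sum_congr rfl fun j _ => by rw [smul_smul]
    rw [h2, h.smul, abs_of_pos hl0] at h1
    obtain ⟨E, hE1, hE2⟩ := cp_dec h hl0 s f hf3 (range n) k fun j _ => hks j
    rw [hE2, h.smul, abs_of_pos (hμ0 s)] at h1
    rw [Finset.card_range] at hE1
    have h3 := cp_sub_le h (∑ j ∈ range n, Sh (j : ℚ) (Dd^[s - k j] f)) E
    rw [config h f hf (range n) (fun j => s - k j)] at h3
    have hM : ∑ j ∈ range n, 2 ^ (s - k j) ≤ 2 ^ (s + 1) := by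
      have h6 : ((∑ j ∈ range n, 2 ^ (s - k j) : ℕ) : ℝ) ≤ ((2 ^ (s + 1) : ℕ) : ℝ) := by
        push_cast
        calc ∑ j ∈ range n, (2 : ℝ) ^ (s - k j) ≤ ∑ j ∈ range n, (2 ^ s * t j ^ p + 1) := by
              refine Finset.sum_le_sum fun j hj => ?_
              have hnn : 0 ≤ (2 : ℝ) ^ s * t j ^ p :=
                mul_nonneg (by positivity) (Real.rpow_nonneg (ht j) _)
              rcases (hk j hj).2 with h4 | ⟨h4, -⟩
              · rw [hpow j, ← hμp]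
                have h5 : (l⁻¹ ^ k j) ^ p ≤ t j ^ p := Real.rpow_le_rpow (hμ0 _).le h4 hp0.le
                have h6 : (0 : ℝ) < 2 ^ s := by positivity
                nlinarith
              · rw [h4, Nat.sub_self, pow_zero]
                linarith
          _ = 2 ^ s + n := by
              rw [Finset.sum_add_distrib, ← Finset.mul_sum, htp, mul_one, Finset.sum_const,
                Finset.card_range, nsmul_eq_mul, mul_one]
          _ ≤ 2 ^ (s + 1) := by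
              have h5 : (2 : ℝ) * n ≤ 2 ^ s := by exact_mod_cast hns
              have h6 : (0 : ℝ) < 2 ^ s := by positivity
              rw [pow_succ]
              linarith
      exact_mod_cast h6
    have h4 := config_mono h f hf _ _ hM
    rw [← config_iter h f hf] at h4
    have h5 : ν (Dd^[s + 1] f) ≤ 2 * (l ^ s + θ) := by
      have h6 := nu_iter_le h (Dd^[s] f) 1
      rw [← Function.iterate_add_apply, pow_one, add_comm 1 s] at h6
      refine h6.trans (mul_le_mul_of_nonneg_left ?_ (by norm_num))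
      have h7 := h.add (Dd^[s] f - l ^ s • f) (l ^ s • f)
      rw [sub_add_cancel, h.smul, hf1, mul_one, abs_of_pos (by positivity)] at h7
      have h8 := hf3 s le_rfl
      linarith
    have h6 : ν (∑ j ∈ range n, Sh (j : ℚ) (Dd^[s - k j] f) - E) ≤ 2 * (l ^ s + θ) + n * θ := by
      linarith
    have h7 : l⁻¹ ^ s * ν (∑ j ∈ range n, Sh (j : ℚ) (Dd^[s - k j] f) - E) ≤
        l⁻¹ ^ s * (2 * (l ^ s + θ) + n * θ) := mul_le_mul_of_nonneg_left h6 (hμ0 s).le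
    have h8 : l⁻¹ ^ s * l ^ s = 1 := by
      rw [← mul_pow, inv_mul_cancel₀ hl0.ne', one_pow]
    have h9 : l⁻¹ ^ s * (2 * (l ^ s + θ) + n * θ) ≤ 2 + 3 / 16 := by
      have h10 := hμ1 s
      have h11 := (hμ0 s).le
      have e : l⁻¹ ^ s * (2 * (l ^ s + θ) + n * θ) = 2 * (l⁻¹ ^ s * l ^ s) + l⁻¹ ^ s * (2 * θ + n * θ) := by
        ring
      rw [e, h8]
      have h12 : 0 ≤ 2 * θ + n * θ := by positivity
      have h13 : l⁻¹ ^ s * (2 * θ + n * θ) ≤ 1 * (2 * θ + n * θ) :=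
        mul_le_mul_of_nonneg_right h10 h12
      linarith
    have h10 := mul_le_mul_of_nonneg_left (h7.trans h9) hl0.le
    nlinarith

theorem copies (h : SNorm ν q C) (p : ℝ) (hp : 1 ≤ p) (n s : ℕ) (hn : 1 ≤ n) (hs : 2 ≤ s)
    (hns : 2 * n ≤ 2 ^ s) (θ : ℝ) (hθ : 0 ≤ θ) (hθn : θ ≤ 1 / (16 * n)) (f : ℚ →₀ ℝ)
    (hf : Pos01 f) (hf1 : ν f = 1)
    (hf3 : ∀ j ≤ s, ν (Dd^[j] f - ((2 : ℝ) ^ (1 / p)) ^ j • f) ≤ θ) (t : ℕ → ℝ)
    (ht : ∀ j, 0 ≤ t j) :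
    Bs p (range n) t / 8 ≤ ν (∑ j ∈ range n, t j • Sh j f) ∧
      ν (∑ j ∈ range n, t j • Sh j f) ≤ 5 * Bs p (range n) t := by
  classical
  have hp0 : 0 < p := by linarith
  rcases (Bs_nonneg (p := p) (range n) t).eq_or_lt with h0 | h0
  · have hz : ∀ j ∈ range n, t j = 0 := by
      intro j hj
      by_contra hne
      have := Bs_pos hp hj hne
      linarith
    have hs0 : ∑ j ∈ range n, t j • Sh (j : ℚ) f = 0 :=
      Finset.sum_eq_zero fun j hj => by rw [hz j hj, zero_smul]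
    rw [hs0, sn_zero h, ← h0]
    norm_num
  · set T := Bs p (range n) t with hT
    have h1 := cp_main h p hp n s hn hs hns θ hθ hθn f hf hf1 hf3 (fun j => T⁻¹ * t j)
      (fun j => mul_nonneg (inv_nonneg.mpr h0.le) (ht j)) (by
        have h2 : ∑ j ∈ range n, (T⁻¹ * t j) ^ p = T⁻¹ ^ p * ∑ j ∈ range n, t j ^ p := by
          rw [Finset.mul_sum]
          exact Finset.sum_congr rfl fun j _ =>
            Real.mul_rpow (inv_nonneg.mpr h0.le) (ht j)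
        have h3 : ∑ j ∈ range n, t j ^ p = T ^ p := by
          rw [hT, Bs_rpow hp]
          exact Finset.sum_congr rfl fun j _ => by rw [abs_of_nonneg (ht j)]
        rw [h2, h3, ← Real.mul_rpow (inv_nonneg.mpr h0.le) h0.le, inv_mul_cancel₀ h0.ne',
          Real.one_rpow])
    have h2 : ∑ j ∈ range n, (T⁻¹ * t j) • Sh (j : ℚ) f = T⁻¹ • ∑ j ∈ range n, t j • Sh (j : ℚ) f := by
      rw [Finset.smul_sum]
      exact Finset.sum_congr rfl fun j _ => by rw [smul_smul]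
    rw [h2, h.smul, abs_of_pos (inv_pos.mpr h0)] at h1
    constructor
    · have h3 := mul_le_mul_of_nonneg_left h1.1 h0.le
      rw [← mul_assoc, mul_inv_cancel₀ h0.ne', one_mul] at h3
      linarith
    · have h3 := mul_le_mul_of_nonneg_left h1.2 h0.le
      rw [← mul_assoc, mul_inv_cancel₀ h0.ne', one_mul] at h3
      linarith

end Pool.Agent.Helper60.CR
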