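import Pool.Agent.Helper60.CR.Basic

/-! CR-33 (exists_sys). A system of gadgets with successive supports.
PROOF. Choose recursively: stage `n` is a gadget for `δ n` beyond a number `N0 n` larger than all elements of the supports of all vectors `f n' j c`, `n' < n`, `j < m n'` (recursion on the pair (number, gadget), or strong recursion).
Disjointness for `n < n'`: the supports at stage `n` are below `N0 (n+1) ≤ N0 n'`. -/

set_option autoImplicit false

namespace Pool.Agent.Helper60.CR

open Finset

theorem exists_sys (N : F0 → ℝ) (hG : HasGadgets N) (lam δ : ℕ → ℝ)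
    (hlam : ∀ n, 5 / 2 ≤ lam n ∧ lam n ≤ 3) (hδ : ∀ n, 0 < δ n) :
    ∃ (m : ℕ → ℕ) (f : ℕ → ℕ → Fin 4 → F0), Sys N lam δ m f := by
  choose gm gf hg using fun (n N0 : ℕ) => hG (δ n) (hδ n) N0
  let bd : ℕ → ℕ → ℕ := fun n N0 =>
    N0 + ∑ j ∈ range (gm n N0), ∑ c : Fin 4, ((gf n N0 j c).support.sup id + 1)
  let a : ℕ → ℕ := fun n => Nat.rec 0 (fun n N0 => bd n N0) n
  have ha : ∀ n, a (n + 1) = bd n (a n) := fun n => rfl
  have hmono : Monotone a := monotone_nat_of_le_succ (fun n => by
    rw [ha]
    exact Nat.le_add_right _ _)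
  have hlt : ∀ n, ∀ j < gm n (a n), ∀ c, ∀ i ∈ (gf n (a n) j c).support, i < a (n + 1) := by
    intro n j hj c i hi
    rw [ha]
    have h1 : i ≤ (gf n (a n) j c).support.sup id := Finset.le_sup (f := id) hi
    have h2 : (gf n (a n) j c).support.sup id + 1 ≤
        ∑ c : Fin 4, ((gf n (a n) j c).support.sup id + 1) :=
      Finset.single_le_sum (f := fun c => (gf n (a n) j c).support.sup id + 1)
        (fun _ _ => Nat.zero_le _) (Finset.mem_univ c)
    have h3 : ∑ c : Fin 4, ((gf n (a n) j c).support.sup id + 1) ≤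
        ∑ j ∈ range (gm n (a n)), ∑ c : Fin 4, ((gf n (a n) j c).support.sup id + 1) :=
      Finset.single_le_sum
        (f := fun j => ∑ c : Fin 4, ((gf n (a n) j c).support.sup id + 1))
        (fun _ _ => Nat.zero_le _) (Finset.mem_range.2 hj)
    show i < a n + ∑ j ∈ range (gm n (a n)), ∑ c : Fin 4, ((gf n (a n) j c).support.sup id + 1)
    omega
  have hdis : ∀ n n', n < n' → ∀ j < gm n (a n), ∀ j' < gm n' (a n'), ∀ c c',
      Disjoint (gf n (a n) j c).support (gf n' (a n') j' c').support := by
    intro n n' hn j hj j' hj' c c'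
    rw [Finset.disjoint_left]
    intro i hi hi'
    have h1 := hlt n j hj c i hi
    have h2 := (hg n' (a n')).lo j' hj' c' i hi'
    have h3 := hmono (Nat.succ_le_of_lt hn)
    have h4 : a (n + 1) ≤ a n' := h3
    omega
  refine ⟨fun n => gm n (a n), fun n => gf n (a n), ⟨fun n j hj c => (hg n (a n)).ne j hj c, ?_,
    fun n => (hg n (a n)).star, hlam⟩⟩
  intro n n' j hj j' hj' c c' hne
  rcases lt_trichotomy n n' with h | h | h
  · exact hdis n n' h j hj j' hj' c c'
  · subst h
    exact (hg n (a n)).disj j hj j' hj' c c' (by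
      rcases hne with h | h
      · exact absurd rfl h
      · exact h)
  · exact (hdis n' n h j' hj' j hj c' c).symm

end Pool.Agent.Helper60.CR
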