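import Pool.Agent.Helper60.CR.Eta

/-! CR-32 (fac_of_iso). An isomorphism `Y_A ≃ Y_B` factors the identity of every gadget `n ∈ A` through finitely many planes of `Y_B`.
PROOF. `v = linearCombination ℝ e`, `η` from `eta`, `C ≥ 0` may be assumed (`hE` for `single 0 1`: `1 ≤ C ‖e 0‖`, so `C > 0`). `K = max (C * ‖Φ.symm‖) (C * (‖Φ‖ + 1))` (`‖Φ‖` the norm of the continuous linear map).
Fix `n ∈ A`. For `j < m n` and `s = (1,0), (0,1)` the vector `v (vec (lam n) (f n j) s)` is in `Y_A`; its image `φ j s` under `Φ` is in `Y_B`, the closure of the span of the planes with index in `B`, so for every `θ > 0` there is a finite sum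
`b j s = ∑ l ∈ L, vec (lam l.1) (f l.1 l.2) (ζ l j s)`, `l.1 ∈ B`, `l.2 < m l.1`, with `‖v (b j s) - φ j s‖ ≤ θ` (one finite set `L` for all `j < m n` and both `s`: take the union and `ζ = 0` where not used;
elements of the span of the planes are such sums by linearity of `vec` in `z`).
`α l j x = x.1 • ζ l j (1,0) + x.2 • ζ l j (0,1)`, `β j l z = η n j (Φ.symm ⟨v (vec (lam l.1) (f l.1 l.2) z), _⟩)` for `l ∈ L` (linear in `z`), `0` for `l ∉ L`.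
(a) For `x : ℕ → ℝ × ℝ`: `∑_j ∑_l vec (α l j (x j)) = ∑_j ((x j).1 • b j (1,0) + (x j).2 • b j (0,1))`, whose image under `v` differs from `Φ (v (∑_j vec (lam n) (f n j) (x j)))` by at most `θ ∑_j (|(x j).1| + |(x j).2|)`.
`|(x j).1| * N (f n j 0) ≤ N (∑_j vec (lam n) (f n j) (x j)) =: T` and `|(x j).2| * N (f n j 1) ≤ T` (disjoint supports). If `θ * ∑_{j < m n} (1 / N (f n j 0) + 1 / N (f n j 1)) ≤ 1` then `N (...) ≤ C * (‖Φ‖ * T + T)` (`‖v a‖ ≤ N a`).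
(b) For `z`: `y = ∑ l ∈ L, vec (z l)`, `v y ∈ Y_B`, `u = Φ.symm (v y) ∈ Y_A`; `∑_l β j l (z l) = η n j u`, and by `eta` `N (∑_j vec (lam n) (f n j) (η n j u)) ≤ C * ‖u‖ ≤ C * ‖Φ.symm‖ * N y`.
(c) `∑_l β j l (α l j (1,0)) = η n j (Φ.symm (v (b j (1,0))))` which differs from `η n j (v (vec (lam n) (f n j) (1,0))) = (1,0)` by at most `‖η n j‖ * ‖Φ.symm‖ * θ ≤ 1/2` for small `θ`. -/

set_option autoImplicit false

namespace Pool.Agent.Helper60.CR

open Finset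

theorem foi_xi_add (lam : ℝ) (c : Fin 4) (z w : ℝ × ℝ) :
    xi lam c (z + w) = xi lam c z + xi lam c w := by
  fin_cases c <;> simp [xi] <;> ring

theorem foi_xi_smul (lam : ℝ) (c : Fin 4) (t : ℝ) (z : ℝ × ℝ) :
    xi lam c (t • z) = t * xi lam c z := by
  fin_cases c <;> simp [xi] <;> ring

/-- `vec` as a linear map. -/
noncomputable def foiV (lam : ℝ) (g : Fin 4 → F0) : ℝ × ℝ →ₗ[ℝ] F0 where
  toFun := vec lam g
  map_add' := by
    intro z w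
    unfold vec
    rw [← Finset.sum_add_distrib]
    exact Finset.sum_congr rfl fun c _ => by rw [foi_xi_add, add_smul]
  map_smul' := by
    intro t z
    unfold vec
    rw [RingHom.id_apply, Finset.smul_sum]
    exact Finset.sum_congr rfl fun c _ => by rw [foi_xi_smul, mul_smul]

theorem foiV_apply (lam : ℝ) (g : Fin 4 → F0) (z : ℝ × ℝ) : foiV lam g z = vec lam g z := rfl

/-- Finite sums of vectors of planes. -/
noncomputable def foiW (lam : ℕ → ℝ) (f : ℕ → ℕ → Fin 4 → F0) : (ℕ × ℕ →₀ ℝ × ℝ) →ₗ[ℝ] F0 :=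
  Finsupp.lsum ℝ (fun l => foiV (lam l.1) (f l.1 l.2))

theorem foiW_apply (lam : ℕ → ℝ) (f : ℕ → ℕ → Fin 4 → F0) (ζ : ℕ × ℕ →₀ ℝ × ℝ)
    (L : Finset (ℕ × ℕ)) (hL : ζ.support ⊆ L) :
    foiW lam f ζ = ∑ l ∈ L, vec (lam l.1) (f l.1 l.2) (ζ l) := by
  unfold foiW
  rw [Finsupp.lsum_apply, Finsupp.sum_of_support_subset _ hL]
  · rfl
  · intro l _
    exact map_zero _

theorem foiW_single (lam : ℕ → ℝ) (f : ℕ → ℕ → Fin 4 → F0) (l : ℕ × ℕ) (z : ℝ × ℝ) :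
    foiW lam f (Finsupp.single l z) = vec (lam l.1) (f l.1 l.2) z := by
  unfold foiW
  rw [Finsupp.lsum_single]
  rfl

theorem foi_mem {X : Type*} [NormedAddCommGroup X] [NormedSpace ℝ X] (e : ℕ → X)
    (lam : ℕ → ℝ) (m : ℕ → ℕ) (f : ℕ → ℕ → Fin 4 → F0) (A : Set ℕ) {n j : ℕ} (hn : n ∈ A)
    (hj : j < m n) (z : ℝ × ℝ) :
    Finsupp.linearCombination ℝ e (vec (lam n) (f n j) z) ∈ Ysub e lam m f A :=
  Submodule.le_topologicalClosure _ (Submodule.subset_span ⟨n, hn, j, hj, z, rfl⟩)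

theorem foi_approx {X : Type*} [NormedAddCommGroup X] [NormedSpace ℝ X] (e : ℕ → X)
    (lam : ℕ → ℝ) (m : ℕ → ℕ) (f : ℕ → ℕ → Fin 4 → F0) (B : Set ℕ) {x : X}
    (hx : x ∈ Ysub e lam m f B) {θ : ℝ} (hθ : 0 < θ) :
    ∃ ζ : ℕ × ℕ →₀ ℝ × ℝ, (∀ l ∈ ζ.support, l.1 ∈ B ∧ l.2 < m l.1) ∧
      ‖Finsupp.linearCombination ℝ e (foiW lam f ζ) - x‖ ≤ θ := by
  obtain ⟨y, hy, hxy⟩ := Metric.mem_closure_iff.1 hx θ hθ
  have hle : Submodule.span ℝ {u | ∃ n ∈ B, ∃ j < m n, ∃ z : ℝ × ℝ,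
      u = Finsupp.linearCombination ℝ e (vec (lam n) (f n j) z)} ≤
      (Finsupp.supported (ℝ × ℝ) ℝ {l : ℕ × ℕ | l.1 ∈ B ∧ l.2 < m l.1}).map
        ((Finsupp.linearCombination ℝ e).comp (foiW lam f)) := by
    rw [Submodule.span_le]
    rintro _ ⟨n, hn, j, hj, z, rfl⟩
    refine ⟨Finsupp.single (n, j) z, Finsupp.single_mem_supported ℝ _ ⟨hn, hj⟩, ?_⟩
    rw [LinearMap.comp_apply, foiW_single]
  obtain ⟨ζ, hζ, rfl⟩ := hle hy
  refine ⟨ζ, fun l hl => (Finsupp.mem_supported ℝ ζ).1 hζ hl, ?_⟩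
  rw [dist_comm, dist_eq_norm] at hxy
  exact hxy.le

theorem foi_beta {X : Type*} [NormedAddCommGroup X] [NormedSpace ℝ X] (e : ℕ → X)
    (lam : ℕ → ℝ) (m : ℕ → ℕ) (f : ℕ → ℕ → Fin 4 → F0) (B : Set ℕ) (g : X →ₗ[ℝ] ℝ × ℝ)
    (Ψ : Ysub e lam m f B →ₗ[ℝ] X) (l : ℕ × ℕ) :
    ∃ β : ℝ × ℝ →ₗ[ℝ] ℝ × ℝ, ∀ (hl : l.1 ∈ B ∧ l.2 < m l.1) (z : ℝ × ℝ),
      β z = g (Ψ ⟨Finsupp.linearCombination ℝ e (vec (lam l.1) (f l.1 l.2) z),
        foi_mem e lam m f B hl.1 hl.2 z⟩) := by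
  by_cases hl : l.1 ∈ B ∧ l.2 < m l.1
  · let W : ℝ × ℝ →ₗ[ℝ] Ysub e lam m f B :=
      LinearMap.codRestrict (Ysub e lam m f B)
        ((Finsupp.linearCombination ℝ e).comp (foiV (lam l.1) (f l.1 l.2)))
        (fun z => foi_mem e lam m f B hl.1 hl.2 z)
    refine ⟨g.comp (Ψ.comp W), fun _ z => ?_⟩
    rw [LinearMap.comp_apply, LinearMap.comp_apply]
    rfl
  · exact ⟨0, fun h => absurd h hl⟩

theorem fac_of_iso {X : Type*} [NormedAddCommGroup X] [NormedSpace ℝ X] (e : ℕ → X) (N : F0 → ℝ)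
    (C : ℝ) (hN : Lat N) (hE : Equi N e C) (lam δ : ℕ → ℝ) (m : ℕ → ℕ)
    (f : ℕ → ℕ → Fin 4 → F0) (hS : Sys N lam δ m f) (A B : Set ℕ)
    (Φ : Ysub e lam m f A ≃L[ℝ] Ysub e lam m f B) :
    ∃ K : ℝ, 0 ≤ K ∧ ∀ n ∈ A, ∃ L : Finset (ℕ × ℕ), (∀ l ∈ L, l.1 ∈ B ∧ l.2 < m l.1) ∧
      Fac N (lam n) (m n) (f n) L (fun l => lam l.1) (fun l => f l.1 l.2) K := by
  classical
  obtain ⟨η, hη1, hη2⟩ := eta e N C hN hE lam δ m f hS
  have hC : 0 ≤ C := by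
    by_contra hC
    have h1 := (hE (Finsupp.single 0 1)).2
    rw [hN.one] at h1
    have h2 := norm_nonneg (Finsupp.linearCombination ℝ e (Finsupp.single 0 1))
    nlinarith
  set v := Finsupp.linearCombination ℝ e with hv
  obtain ⟨F, hF0, hFle⟩ : ∃ F : ℝ, 0 ≤ F ∧ ∀ y, ‖Φ y‖ ≤ F * ‖y‖ :=
    ⟨_, ContinuousLinearMap.opNorm_nonneg (Φ : Ysub e lam m f A →L[ℝ] Ysub e lam m f B),
      fun y => (Φ : Ysub e lam m f A →L[ℝ] Ysub e lam m f B).le_opNorm y⟩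
  obtain ⟨G, hG0, hGle⟩ : ∃ G : ℝ, 0 ≤ G ∧ ∀ y, ‖Φ.symm y‖ ≤ G * ‖y‖ :=
    ⟨_, ContinuousLinearMap.opNorm_nonneg (Φ.symm : Ysub e lam m f B →L[ℝ] Ysub e lam m f A),
      fun y => (Φ.symm : Ysub e lam m f B →L[ℝ] Ysub e lam m f A).le_opNorm y⟩
  refine ⟨max (C * G) (C * (F + 1)), le_max_of_le_left (by positivity), fun n hn => ?_⟩
  set K : ℝ := max (C * G) (C * (F + 1)) with hK
  have hK1 : C * G ≤ K := le_max_left _ _
  have hK2 : C * (F + 1) ≤ K := le_max_right _ _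
  set R : ℝ := ∑ j ∈ range (m n), ‖η n j‖ with hR
  have hR0 : 0 ≤ R := Finset.sum_nonneg fun _ _ => norm_nonneg _
  have hRj : ∀ j < m n, ‖η n j‖ ≤ R := fun j hj =>
    Finset.single_le_sum (f := fun j => ‖η n j‖) (fun _ _ => norm_nonneg _)
      (Finset.mem_range.2 hj)
  set θ : ℝ := 1 / (2 * (1 + R) * (1 + G)) with hθdef
  have hθ : 0 < θ := by positivity
  have hθ1 : θ * (2 * R) ≤ 1 := by
    rw [hθdef, one_div, inv_mul_le_iff₀ (by positivity)]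
    nlinarith [mul_nonneg hR0 hG0]
  have hθ2 : R * (G * θ) ≤ 1 / 2 := by
    have h1 : R * (G * θ) = (R * G) / (2 * (1 + R) * (1 + G)) := by
      rw [hθdef]; ring
    rw [h1, div_le_iff₀ (by positivity)]
    nlinarith [mul_nonneg hR0 hG0]
  -- the vectors of the planes of the gadget `n`
  obtain ⟨P, hP⟩ : ∃ P : ℕ → ℝ × ℝ → Ysub e lam m f A, ∀ j < m n, ∀ s,
      (P j s : X) = v (vec (lam n) (f n j) s) := by
    refine ⟨fun j s => if hj : j < m n then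
      ⟨v (vec (lam n) (f n j) s), foi_mem e lam m f A hn hj s⟩ else 0, fun j hj s => ?_⟩
    simp only [dif_pos hj]
  have hPlin : ∀ j < m n, ∀ x : ℝ × ℝ, P j x = x.1 • P j (1, 0) + x.2 • P j (0, 1) := by
    intro j hj x
    apply Subtype.ext
    rw [Submodule.coe_add, Submodule.coe_smul, Submodule.coe_smul, hP j hj, hP j hj, hP j hj,
      ← map_smul, ← map_smul, ← map_add, ← foiV_apply, ← foiV_apply, ← foiV_apply, ← map_smul,
      ← map_smul, ← map_add]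
    congr 2
    ext <;> simp
  have hex : ∀ j s, ∃ ζ : ℕ × ℕ →₀ ℝ × ℝ, (∀ l ∈ ζ.support, l.1 ∈ B ∧ l.2 < m l.1) ∧
      ‖v (foiW lam f ζ) - (Φ (P j s) : X)‖ ≤ θ := fun j s =>
    foi_approx e lam m f B (Φ (P j s)).2 hθ
  choose ζ hζ1 hζ2 using hex
  set L : Finset (ℕ × ℕ) := (range (m n)).biUnion
    (fun j => (ζ j (1, 0)).support ∪ (ζ j (0, 1)).support) with hL
  have hL1 : ∀ j < m n, (ζ j (1, 0)).support ⊆ L := by
    intro j hj l hl
    rw [hL, Finset.mem_biUnion]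
    exact ⟨j, Finset.mem_range.2 hj, Finset.mem_union_left _ hl⟩
  have hL2 : ∀ j < m n, (ζ j (0, 1)).support ⊆ L := by
    intro j hj l hl
    rw [hL, Finset.mem_biUnion]
    exact ⟨j, Finset.mem_range.2 hj, Finset.mem_union_right _ hl⟩
  have hLB : ∀ l ∈ L, l.1 ∈ B ∧ l.2 < m l.1 := by
    intro l hl
    rw [hL, Finset.mem_biUnion] at hl
    obtain ⟨j, _, hl⟩ := hl
    rcases Finset.mem_union.1 hl with h1 | h1
    · exact hζ1 _ _ l h1
    · exact hζ1 _ _ l h1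
  refine ⟨L, hLB, ?_⟩
  -- the maps
  obtain ⟨α, hα⟩ : ∃ α : ℕ × ℕ → ℕ → (ℝ × ℝ →ₗ[ℝ] ℝ × ℝ), ∀ l j x,
      α l j x = (x.1 • ζ j (1, 0) + x.2 • ζ j (0, 1)) l := by
    refine ⟨fun l j => (LinearMap.fst ℝ ℝ ℝ).smulRight (ζ j (1, 0) l) +
      (LinearMap.snd ℝ ℝ ℝ).smulRight (ζ j (0, 1) l), fun l j x => ?_⟩
    simp
  have hmemB : ∀ (l : ℕ × ℕ) (_ : l.1 ∈ B ∧ l.2 < m l.1) (z : ℝ × ℝ),
      v (vec (lam l.1) (f l.1 l.2) z) ∈ Ysub e lam m f B := fun l hl z =>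
    foi_mem e lam m f B hl.1 hl.2 z
  obtain ⟨β, hβ⟩ : ∃ β : ℕ → ℕ × ℕ → (ℝ × ℝ →ₗ[ℝ] ℝ × ℝ),
      ∀ (j : ℕ) (l : ℕ × ℕ) (hl : l.1 ∈ B ∧ l.2 < m l.1) (z : ℝ × ℝ),
      β j l z = η n j (Φ.symm ⟨v (vec (lam l.1) (f l.1 l.2) z), hmemB l hl z⟩ : X) := by
    have h1 : ∀ (j : ℕ) (l : ℕ × ℕ), ∃ β : ℝ × ℝ →ₗ[ℝ] ℝ × ℝ,
        ∀ (hl : l.1 ∈ B ∧ l.2 < m l.1) (z : ℝ × ℝ),
        β z = η n j (Φ.symm ⟨v (vec (lam l.1) (f l.1 l.2) z), hmemB l hl z⟩ : X) := fun j l =>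
      foi_beta e lam m f B (η n j : X →ₗ[ℝ] ℝ × ℝ)
        ((Ysub e lam m f A).subtype.comp
          (Φ.symm.toLinearEquiv : Ysub e lam m f B →ₗ[ℝ] Ysub e lam m f A)) l
    choose β hβ using h1
    exact ⟨β, hβ⟩
  -- sums of `β`
  have hβsum : ∀ (z : ℕ × ℕ → ℝ × ℝ), ∃ hy : v (∑ l ∈ L, vec (lam l.1) (f l.1 l.2) (z l)) ∈
      Ysub e lam m f B, ∀ j, ∑ l ∈ L, β j l (z l) =
        η n j (Φ.symm ⟨v (∑ l ∈ L, vec (lam l.1) (f l.1 l.2) (z l)), hy⟩ : X) := by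
    intro z
    obtain ⟨Q, hQ⟩ : ∃ Q : ℕ × ℕ → Ysub e lam m f B, ∀ l ∈ L,
        (Q l : X) = v (vec (lam l.1) (f l.1 l.2) (z l)) := by
      refine ⟨fun l => if hl : l.1 ∈ B ∧ l.2 < m l.1 then
        ⟨v (vec (lam l.1) (f l.1 l.2) (z l)), hmemB l hl (z l)⟩ else 0,
        fun l hl => ?_⟩
      simp only [dif_pos (hLB l hl)]
    have hQsum : ((∑ l ∈ L, Q l : Ysub e lam m f B) : X) =
        v (∑ l ∈ L, vec (lam l.1) (f l.1 l.2) (z l)) := by
      rw [Submodule.coe_sum, map_sum]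
      exact Finset.sum_congr rfl hQ
    have hy : v (∑ l ∈ L, vec (lam l.1) (f l.1 l.2) (z l)) ∈ Ysub e lam m f B := by
      rw [← hQsum]
      exact (∑ l ∈ L, Q l : Ysub e lam m f B).2
    refine ⟨hy, fun j => ?_⟩
    have h1 : (⟨v (∑ l ∈ L, vec (lam l.1) (f l.1 l.2) (z l)), hy⟩ : Ysub e lam m f B) =
        ∑ l ∈ L, Q l := Subtype.ext hQsum.symm
    rw [h1, map_sum, Submodule.coe_sum, map_sum]
    refine Finset.sum_congr rfl fun l hl => ?_
    rw [hβ j l (hLB l hl)]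
    congr 3
    apply Subtype.ext
    exact (hQ l hl).symm
  refine ⟨α, β, ?_, ?_, ?_⟩
  · intro x
    set T : ℝ := N (∑ j ∈ range (m n), vec (lam n) (f n j) (x j)) with hT
    have hT0 : 0 ≤ T := hN.nonneg _
    have hvT : ‖v (∑ j ∈ range (m n), vec (lam n) (f n j) (x j))‖ ≤ T := (hE _).1
    have hx : ∀ j < m n, ‖x j‖ ≤ ‖η n j‖ * T := by
      intro j hj
      have h1 : η n j (v (∑ j' ∈ range (m n), vec (lam n) (f n j') (x j'))) = x j := by
        rw [map_sum, map_sum, Finset.sum_eq_single_of_mem j (Finset.mem_range.2 hj)]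
        · rw [hη1 n j hj n j hj, if_pos ⟨rfl, rfl⟩]
        · intro j' hj' hne
          rw [hη1 n j hj n j' (Finset.mem_range.1 hj'), if_neg]
          exact fun h => hne h.2.symm
      calc ‖x j‖ = ‖η n j (v (∑ j' ∈ range (m n), vec (lam n) (f n j') (x j')))‖ := by rw [h1]
        _ ≤ ‖η n j‖ * ‖v (∑ j' ∈ range (m n), vec (lam n) (f n j') (x j'))‖ :=
            (η n j).le_opNorm _
        _ ≤ ‖η n j‖ * T := mul_le_mul_of_nonneg_left hvT (norm_nonneg _)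
    have hZ : ∑ j ∈ range (m n), ∑ l ∈ L, vec (lam l.1) (f l.1 l.2) (α l j (x j)) =
        ∑ j ∈ range (m n), foiW lam f ((x j).1 • ζ j (1, 0) + (x j).2 • ζ j (0, 1)) := by
      refine Finset.sum_congr rfl fun j hj => ?_
      have hj := Finset.mem_range.1 hj
      rw [foiW_apply lam f _ L]
      · exact Finset.sum_congr rfl fun l _ => by rw [hα]
      · refine Finsupp.support_add.trans (Finset.union_subset ?_ ?_)
        · exact Finsupp.support_smul.trans (hL1 j hj)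
        · exact Finsupp.support_smul.trans (hL2 j hj)
    have hvZ : v (∑ j ∈ range (m n), foiW lam f ((x j).1 • ζ j (1, 0) + (x j).2 • ζ j (0, 1))) =
        (Φ (∑ j ∈ range (m n), P j (x j)) : X) + ∑ j ∈ range (m n),
          ((x j).1 • (v (foiW lam f (ζ j (1, 0))) - (Φ (P j (1, 0)) : X)) +
            (x j).2 • (v (foiW lam f (ζ j (0, 1))) - (Φ (P j (0, 1)) : X))) := by
      rw [map_sum, map_sum, Submodule.coe_sum, ← Finset.sum_add_distrib]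
      refine Finset.sum_congr rfl fun j hj => ?_
      rw [hPlin j (Finset.mem_range.1 hj) (x j), map_add, map_add, map_add, map_smul, map_smul,
        map_smul, map_smul, map_smul, map_smul, Submodule.coe_add, Submodule.coe_smul,
        Submodule.coe_smul, smul_sub, smul_sub]
      abel
    have hPn : ‖∑ j ∈ range (m n), P j (x j)‖ ≤ T := by
      have h1 : ((∑ j ∈ range (m n), P j (x j) : Ysub e lam m f A) : X) =
          v (∑ j ∈ range (m n), vec (lam n) (f n j) (x j)) := by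
        rw [Submodule.coe_sum, map_sum]
        exact Finset.sum_congr rfl fun j hj => hP j (Finset.mem_range.1 hj) _
      rw [Submodule.coe_norm, h1]
      exact hvT
    have hrest : ‖∑ j ∈ range (m n),
          ((x j).1 • (v (foiW lam f (ζ j (1, 0))) - (Φ (P j (1, 0)) : X)) +
            (x j).2 • (v (foiW lam f (ζ j (0, 1))) - (Φ (P j (0, 1)) : X)))‖ ≤ T := by
      calc _ ≤ ∑ j ∈ range (m n), ‖η n j‖ * T * (2 * θ) := by
            refine (norm_sum_le _ _).trans (Finset.sum_le_sum fun j hj => ?_)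
            have hj := Finset.mem_range.1 hj
            refine (norm_add_le _ _).trans ?_
            rw [norm_smul, norm_smul]
            have h1 : ‖(x j).1‖ ≤ ‖η n j‖ * T := (norm_fst_le (x j)).trans (hx j hj)
            have h2 : ‖(x j).2‖ ≤ ‖η n j‖ * T := (norm_snd_le (x j)).trans (hx j hj)
            have h3 := mul_le_mul h1 (hζ2 j (1, 0)) (norm_nonneg _) (by positivity)
            have h4 := mul_le_mul h2 (hζ2 j (0, 1)) (norm_nonneg _) (by positivity)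
            linarith
        _ = (θ * (2 * R)) * T := by
            rw [← Finset.sum_mul, ← Finset.sum_mul, ← hR]
            ring
        _ ≤ 1 * T := mul_le_mul_of_nonneg_right hθ1 hT0
        _ = T := one_mul T
    change N (∑ j ∈ range (m n), ∑ l ∈ L, vec (lam l.1) (f l.1 l.2) (α l j (x j))) ≤ K * T
    rw [hZ]
    refine (hE _).2.trans ?_
    change C * ‖v _‖ ≤ K * T
    rw [hvZ]
    have h5 : ‖(Φ (∑ j ∈ range (m n), P j (x j)) : X)‖ ≤ F * T := by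
      have h6 : ‖(Φ (∑ j ∈ range (m n), P j (x j)) : X)‖ ≤ F * ‖∑ j ∈ range (m n), P j (x j)‖ :=
        hFle (∑ j ∈ range (m n), P j (x j))
      exact h6.trans (mul_le_mul_of_nonneg_left hPn hF0)
    have h7 := (norm_add_le (Φ (∑ j ∈ range (m n), P j (x j)) : X) (∑ j ∈ range (m n),
          ((x j).1 • (v (foiW lam f (ζ j (1, 0))) - (Φ (P j (1, 0)) : X)) +
            (x j).2 • (v (foiW lam f (ζ j (0, 1))) - (Φ (P j (0, 1)) : X))))).trans
      (add_le_add h5 hrest)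
    calc _ ≤ C * (F * T + T) := mul_le_mul_of_nonneg_left h7 hC
      _ = C * (F + 1) * T := by ring
      _ ≤ K * T := mul_le_mul_of_nonneg_right hK2 hT0
  · intro z
    obtain ⟨hy, hsum⟩ := hβsum z
    have h1 : ∑ j ∈ range (m n), vec (lam n) (f n j) (∑ l ∈ L, β j l (z l)) =
        ∑ j ∈ range (m n), vec (lam n) (f n j)
          (η n j (Φ.symm ⟨v (∑ l ∈ L, vec (lam l.1) (f l.1 l.2) (z l)), hy⟩ : X)) :=
      Finset.sum_congr rfl fun j _ => by rw [hsum j]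
    rw [h1]
    refine (hη2 A n _ (Φ.symm ⟨_, hy⟩).2).trans ?_
    have h2 := hGle ⟨v (∑ l ∈ L, vec (lam l.1) (f l.1 l.2) (z l)), hy⟩
    have h3 : ‖v (∑ l ∈ L, vec (lam l.1) (f l.1 l.2) (z l))‖ ≤
        N (∑ l ∈ L, vec (lam l.1) (f l.1 l.2) (z l)) := (hE _).1
    have h4 : 0 ≤ N (∑ l ∈ L, vec (lam l.1) (f l.1 l.2) (z l)) := hN.nonneg _
    calc C * ‖(Φ.symm ⟨v (∑ l ∈ L, vec (lam l.1) (f l.1 l.2) (z l)), hy⟩ : X)‖
        ≤ C * (G * N (∑ l ∈ L, vec (lam l.1) (f l.1 l.2) (z l))) := by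
          apply mul_le_mul_of_nonneg_left _ hC
          exact h2.trans (mul_le_mul_of_nonneg_left h3 hG0)
      _ = C * G * N (∑ l ∈ L, vec (lam l.1) (f l.1 l.2) (z l)) := by ring
      _ ≤ K * N (∑ l ∈ L, vec (lam l.1) (f l.1 l.2) (z l)) :=
          mul_le_mul_of_nonneg_right hK1 h4
  · intro j hj
    obtain ⟨hy, hsum⟩ := hβsum (ζ j (1, 0))
    have h1 : ∑ l ∈ L, (β j l (α l j (1, 0))).1 = (∑ l ∈ L, β j l (ζ j (1, 0) l)).1 := by
      rw [Prod.fst_sum]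
      refine Finset.sum_congr rfl fun l _ => ?_
      rw [hα]
      simp
    rw [h1, hsum j]
    have h2 : η n j (P j (1, 0) : X) = (1, 0) := by
      rw [hP j hj, hη1 n j hj n j hj, if_pos ⟨rfl, rfl⟩]
    set u := Φ.symm ⟨v (∑ l ∈ L, vec (lam l.1) (f l.1 l.2) (ζ j (1, 0) l)), hy⟩ with hu
    have h3 : ‖u - P j (1, 0)‖ ≤ G * θ := by
      have h4 : u - P j (1, 0) = Φ.symm
          (⟨v (∑ l ∈ L, vec (lam l.1) (f l.1 l.2) (ζ j (1, 0) l)), hy⟩ - Φ (P j (1, 0))) := by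
        rw [map_sub, Φ.symm_apply_apply]
      rw [h4]
      refine (hGle _).trans (mul_le_mul_of_nonneg_left ?_ hG0)
      rw [Submodule.coe_norm, Submodule.coe_sub]
      have h5 := hζ2 j (1, 0)
      rw [foiW_apply lam f _ L (hL1 j hj)] at h5
      exact h5
    have h6 : ‖η n j (u : X) - (1, 0)‖ ≤ 1 / 2 := by
      rw [← h2, ← map_sub]
      refine ((η n j).le_opNorm _).trans ?_
      rw [← Submodule.coe_sub, ← Submodule.coe_norm]
      calc ‖η n j‖ * ‖u - P j (1, 0)‖ ≤ R * (G * θ) :=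
            mul_le_mul (hRj j hj) h3 (norm_nonneg _) hR0
        _ ≤ 1 / 2 := hθ2
    have h7 := (norm_fst_le (η n j (u : X) - (1, 0))).trans h6
    rw [Prod.fst_sub, Real.norm_eq_abs] at h7
    have h8 := (abs_le.1 h7).1
    simp only at h8
    linarith

end Pool.Agent.Helper60.CR
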