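import Pool.Agent.Helper60.CR.NoFac
import Pool.Agent.Helper60.CR.FacOfIso
import Pool.Agent.Helper60.CR.ExistsSys
import Pool.Agent.Helper52.CS.Family

/-! CR-34 (core). Gadgets give continuum many subspaces.
PROOF. `lam n = 5/2 + 1 / (2 (n+1))`, `g n = 1 / (2 (n+1) (n+2))`, `δ n = g n / (n+1)`. For `m ≠ n`: `|lam n - lam m| = |m - n| / (2 (n+1) (m+1)) ≥ g n` (if `m > n` then `(m - n) / (m + 1) ≥ 1 / (n + 2)`; if `m < n` then
`(n - m) / (m + 1) ≥ 1 / n`). `exists_sys` gives `m, f`. `Y A = Ysub e lam m f A`, closed. Key: `Y A ≃ Y B` implies `A \ B` finite: `fac_of_iso` gives `K`; for `n ∈ A \ B`, `nofac` with `L`,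
`mu l = lam l.1` (`l.1 ∈ B`, so `l.1 ≠ n`), `g n ≤ R K² δ n = R K² g n / (n+1)`, so `n + 1 ≤ R K²`: finitely many `n`. (The disjointness hypotheses of `nofac` from `Sys.disj`; for `L` elements `l = (n', j')` with `j' < m n'`.)
The rest (infinite dimension for infinite `A`, the family indexed by `ℝ`) is exactly as in `main_sets` and `main` of `Pool/Agent/Helper52/CS/Final.lean` (monotonicity of `Ysub` in `A`; `family` from
`Pool/Agent/Helper52/CS/Family.lean`; finite-dimensional spaces of the same dimension are isomorphic and there are uncountably many members of the family). -/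

set_option autoImplicit false

namespace Pool.Agent.Helper60.CR

open Finset

private theorem ysub_mono' {X : Type*} [NormedAddCommGroup X] [NormedSpace ℝ X] (e : ℕ → X)
    (lam : ℕ → ℝ) (m : ℕ → ℕ) (f : ℕ → ℕ → Fin 4 → F0) {A B : Set ℕ} (h : A ⊆ B) :
    Ysub e lam m f A ≤ Ysub e lam m f B := by
  unfold Ysub
  apply Submodule.topologicalClosure_mono
  apply Submodule.span_mono
  rintro u ⟨n, hn, j, hj, z, hu⟩
  exact ⟨n, h hn, j, hj, z, hu⟩

private theorem lam_diff {n k : ℕ} (h : k ≠ n) :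
    1 / (2 * ((n : ℝ) + 1) * ((n : ℝ) + 2)) ≤
      |(5 / 2 + 1 / (2 * ((n : ℝ) + 1))) - (5 / 2 + 1 / (2 * ((k : ℝ) + 1)))| := by
  have hn : (0 : ℝ) ≤ n := Nat.cast_nonneg n
  have hk : (0 : ℝ) ≤ k := Nat.cast_nonneg k
  rcases lt_or_gt_of_ne h with h1 | h1
  · have h2 : (k : ℝ) + 1 ≤ n := by exact_mod_cast h1
    rw [abs_sub_comm]
    refine le_trans ?_ (le_abs_self _)
    have h3 : (5 / 2 + 1 / (2 * ((k : ℝ) + 1))) - (5 / 2 + 1 / (2 * ((n : ℝ) + 1)))
        = ((n : ℝ) - k) / (2 * ((n : ℝ) + 1) * ((k : ℝ) + 1)) := by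
      field_simp
      ring
    rw [h3, div_le_div_iff₀ (by positivity) (by positivity)]
    have h4 : (k : ℝ) + 1 ≤ ((n : ℝ) - k) * ((n : ℝ) + 2) := by nlinarith
    have h5 : 0 < 2 * ((n : ℝ) + 1) := by positivity
    nlinarith [mul_le_mul_of_nonneg_left h4 h5.le]
  · have h2 : (n : ℝ) + 1 ≤ k := by exact_mod_cast h1
    refine le_trans ?_ (le_abs_self _)
    have h3 : (5 / 2 + 1 / (2 * ((n : ℝ) + 1))) - (5 / 2 + 1 / (2 * ((k : ℝ) + 1)))
        = ((k : ℝ) - n) / (2 * ((n : ℝ) + 1) * ((k : ℝ) + 1)) := by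
      field_simp
      ring
    rw [h3, div_le_div_iff₀ (by positivity) (by positivity)]
    have h4 : (k : ℝ) + 1 ≤ ((k : ℝ) - n) * ((n : ℝ) + 2) := by nlinarith
    have h5 : 0 < 2 * ((n : ℝ) + 1) := by positivity
    nlinarith [mul_le_mul_of_nonneg_left h4 h5.le]

private theorem core_sets {X : Type*} [NormedAddCommGroup X] [NormedSpace ℝ X] (e : ℕ → X)
    (N : F0 → ℝ)
    (C : ℝ) (hN : Lat N) (hE : Equi N e C) (q : ℕ) (C' : ℝ) (hq : 1 ≤ q) (hC' : 1 ≤ C')
    (hL : LowQ N q C') (hG : HasGadgets N) :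
    ∃ Y : Set ℕ → Submodule ℝ X, (∀ A, IsClosed (Y A : Set X)) ∧
      (∀ A : Set ℕ, A.Infinite → ¬ FiniteDimensional ℝ (Y A)) ∧
      (∀ A B : Set ℕ, Nonempty (Y A ≃L[ℝ] Y B) → (A \ B).Finite ∧ (B \ A).Finite) := by
  let lam : ℕ → ℝ := fun n => 5 / 2 + 1 / (2 * ((n : ℝ) + 1))
  let g : ℕ → ℝ := fun n => 1 / (2 * ((n : ℝ) + 1) * ((n : ℝ) + 2))
  let δ : ℕ → ℝ := fun n => g n / ((n : ℝ) + 1)
  have hlam : ∀ n, 5 / 2 ≤ lam n ∧ lam n ≤ 3 := by
    intro n
    have hn : (0 : ℝ) ≤ n := Nat.cast_nonneg n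
    have h1 : 0 < 1 / (2 * ((n : ℝ) + 1)) := by positivity
    have h2 : 1 / (2 * ((n : ℝ) + 1)) ≤ 1 / 2 := by
      apply one_div_le_one_div_of_le (by norm_num)
      linarith
    refine ⟨?_, ?_⟩
    · show 5 / 2 ≤ 5 / 2 + 1 / (2 * ((n : ℝ) + 1))
      linarith
    · show 5 / 2 + 1 / (2 * ((n : ℝ) + 1)) ≤ 3
      linarith
  have hg : ∀ n, 0 < g n := by
    intro n
    have hn : (0 : ℝ) ≤ n := Nat.cast_nonneg n
    show 0 < 1 / (2 * ((n : ℝ) + 1) * ((n : ℝ) + 2))
    positivity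
  have hδ : ∀ n, 0 < δ n := by
    intro n
    have hn : (0 : ℝ) ≤ n := Nat.cast_nonneg n
    exact div_pos (hg n) (by linarith)
  obtain ⟨m, f, hS⟩ := exists_sys N hG lam δ hlam hδ
  obtain ⟨R, hR0, hR⟩ := nofac N hN q C' hq hC' hL
  have key : ∀ A B : Set ℕ, Nonempty (Ysub e lam m f A ≃L[ℝ] Ysub e lam m f B) →
      (A \ B).Finite := by
    rintro A B ⟨Φ⟩
    obtain ⟨K, hK0, hK⟩ := fac_of_iso e N C hN hE lam δ m f hS A B Φ
    by_contra hinf
    obtain ⟨n0, hn0⟩ := exists_nat_gt (R * K ^ 2)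
    obtain ⟨n, hn, hnn⟩ := Set.Infinite.exists_gt hinf n0
    obtain ⟨L, hLB, hF⟩ := hK n hn.1
    have h1 := hR (ℕ × ℕ) L (fun l => lam l.1) (fun l => f l.1 l.2) (lam n) (g n) (δ n) K (m n)
      (f n)
      (by
        intro l hl l' hl' c c' hne
        refine hS.disj l.1 l'.1 l.2 (hLB l hl).2 l'.2 (hLB l' hl').2 c c' ?_
        rcases hne with hne | hne
        · by_cases h2 : l.1 = l'.1
          · right
            left
            intro h3
            exact hne (Prod.ext h2 h3)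
          · exact Or.inl h2
        · exact Or.inr (Or.inr hne))
      (by
        intro j hj j' hj' c c' hne
        exact hS.disj n n j hj j' hj' c c' (Or.inr hne))
      (hlam n).1 (hlam n).2
      (by
        intro l hl
        refine ⟨(hlam l.1).1, (hlam l.1).2, ?_⟩
        apply lam_diff
        intro h2
        apply hn.2
        rw [← h2]
        exact (hLB l hl).1)
      (hg n) hK0 (hS.star n) hF
    have hn1 : (0 : ℝ) < (n : ℝ) + 1 := by positivity
    have h2 : R * K ^ 2 * δ n = (R * K ^ 2 / ((n : ℝ) + 1)) * g n := by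
      show R * K ^ 2 * (g n / ((n : ℝ) + 1)) = _
      ring
    rw [h2] at h1
    have h3 : 1 ≤ R * K ^ 2 / ((n : ℝ) + 1) := by
      by_contra h4
      push Not at h4
      have h5 := mul_lt_mul_of_pos_right h4 (hg n)
      linarith
    rw [le_div_iff₀ hn1] at h3
    have h6 : (n0 : ℝ) < n := by exact_mod_cast hnn
    linarith
  refine ⟨fun A => Ysub e lam m f A, fun A => Submodule.isClosed_topologicalClosure _, ?_, ?_⟩
  · intro A hA hfin
    obtain ⟨F, hF⟩ := Pool.Agent.Helper52.CS.family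
    -- an enumeration of `A`
    let ι : ℕ → ℕ := fun n => (Set.Infinite.natEmbedding A hA n : ℕ)
    have hι : Function.Injective ι := fun a b hab =>
      (Set.Infinite.natEmbedding A hA).injective (Subtype.ext hab)
    have hιA : ∀ n, ι n ∈ A := fun n => (Set.Infinite.natEmbedding A hA n).2
    let G : ℝ → Set ℕ := fun r => ι '' F r
    have hGA : ∀ r, G r ⊆ A := by
      rintro r _ ⟨n, _, rfl⟩
      exact hιA n
    have hG' : ∀ r t, r ≠ t → (G r \ G t).Infinite := by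
      intro r t hrt
      have h1 : ι '' (F r \ F t) ⊆ G r \ G t := by
        rw [Set.image_diff hι]
      exact Set.Infinite.mono h1 ((hF r t hrt).image hι.injOn)
    have hfd : ∀ r, FiniteDimensional ℝ (Ysub e lam m f (G r)) := fun r =>
      Submodule.finiteDimensional_of_le (ysub_mono' e lam m f (hGA r))
    have hnot : ¬ Function.Injective (fun r : ℝ => Module.finrank ℝ (Ysub e lam m f (G r))) := by
      intro hinj
      exact not_countable (α := ℝ) (hinj.countable)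
    rw [Function.Injective] at hnot
    push Not at hnot
    obtain ⟨r, t, hrt, hne'⟩ := hnot
    have := hfd r
    have := hfd t
    have h2 : Nonempty (Ysub e lam m f (G r) ≃L[ℝ] Ysub e lam m f (G t)) :=
      FiniteDimensional.nonempty_continuousLinearEquiv_of_finrank_eq hrt
    exact (hG' r t hne') (key _ _ h2)
  · intro A B hAB
    exact ⟨key A B hAB, key B A ⟨hAB.some.symm⟩⟩

theorem core {X : Type*} [NormedAddCommGroup X] [NormedSpace ℝ X] (e : ℕ → X) (N : F0 → ℝ)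
    (C : ℝ) (hN : Lat N) (hE : Equi N e C) (q : ℕ) (C' : ℝ) (hq : 1 ≤ q) (hC' : 1 ≤ C')
    (hL : LowQ N q C') (hG : HasGadgets N) :
    ∃ Y : Set ℕ → Submodule ℝ X, (∀ A, IsClosed (Y A : Set X)) ∧
      (∀ A : Set ℕ, A.Infinite → ¬ FiniteDimensional ℝ (Y A)) ∧
      (∀ A B : Set ℕ, Nonempty (Y A ≃L[ℝ] Y B) → (A \ B).Finite ∧ (B \ A).Finite) ∧
      ∃ A : ℝ → Set ℕ, ∀ r t : ℝ, r ≠ t →
        ¬ FiniteDimensional ℝ (Y (A r)) ∧ IsEmpty (Y (A r) ≃L[ℝ] Y (A t)) := by
  obtain ⟨Y, hY, hYd, hYY⟩ := core_sets e N C hN hE q C' hq hC' hL hG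
  obtain ⟨A, hA⟩ := Pool.Agent.Helper52.CS.family
  refine ⟨Y, hY, hYd, hYY, A, ?_⟩
  intro r t hrt
  refine ⟨hYd _ ((hA r t hrt).mono Set.diff_subset), ⟨fun Φ => ?_⟩⟩
  exact (hA r t hrt) (hYY (A r) (A t) ⟨Φ⟩).1

end Pool.Agent.Helper60.CR
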