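import Pool.Agent.Helper60.CR.Pad

/-! CR-71 (exists_sys_even). A system of gadgets in which the gadgets `2 n` and `2 n + 1` have the same size.
PROOF. Choose pairs recursively (as in `ExistsSys.lean`). At stage `n` let `N0` be larger than everything used before. Take a gadget `(m1, f1)` for `δ (2 n)` beyond `N0`, then a gadget `(m2, f2)` for `δ (2 n + 1)` beyond a number `N0' ≥ N0` larger than all elements of the supports of
`f1 j c`, `j < m1`. Let `M = max m1 m2`. `pad` gives `f1'` of size `M` with the new nodes beyond a number `K` larger than all supports of `f1` and `f2`, and then `f2'` of size `M` with the new nodes beyond a number larger than all supports used (`f1'`, `f2`). All supports of `f1'`, `f2'` are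
disjoint and beyond `N0`. -/

set_option autoImplicit false

namespace Pool.Agent.Helper60.CR

open Finset

private lemma bound_ex (m : ℕ) (f : ℕ → Fin 4 → F0) :
    ∃ B, ∀ j < m, ∀ c, ∀ i ∈ (f j c).support, i < B := by
  classical
  obtain ⟨n1, hn1⟩ := ((range m).biUnion fun j => univ.biUnion fun c =>
    (f j c).support).exists_nat_subset_range
  exact ⟨n1, fun j hj c i hi => mem_range.1 (hn1 (mem_biUnion.2
    ⟨j, mem_range.2 hj, mem_biUnion.2 ⟨c, mem_univ _, hi⟩⟩))⟩

private lemma gadget_le {N : F0 → ℝ} {δ : ℝ} {N0 N1 m : ℕ} {f : ℕ → Fin 4 → F0}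
    (h : Gadget N δ N1 m f) (hN : N0 ≤ N1) : Gadget N δ N0 m f :=
  ⟨h.ne, fun j hj c i hi => hN.trans (h.lo j hj c i hi), h.disj, h.star⟩

private lemma pair_ex (N : F0 → ℝ) (hG : HasGadgets N) (δ1 δ2 : ℝ) (h1 : 0 < δ1) (h2 : 0 < δ2)
    (N0 : ℕ) : ∃ (M : ℕ) (f1 f2 : ℕ → Fin 4 → F0) (B : ℕ), N0 ≤ B ∧
      Gadget N δ1 N0 M f1 ∧ Gadget N δ2 N0 M f2 ∧
      (∀ j < M, ∀ j' < M, ∀ c c', Disjoint (f1 j c).support (f2 j' c').support) ∧
      (∀ j < M, ∀ c, ∀ i ∈ (f1 j c).support, i < B) ∧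
      (∀ j < M, ∀ c, ∀ i ∈ (f2 j c).support, i < B) := by
  obtain ⟨m1, g1, hg1⟩ := hG δ1 h1 N0
  obtain ⟨B1, hB1⟩ := bound_ex m1 g1
  obtain ⟨m2, g2, hg2⟩ := hG δ2 h2 (max N0 B1)
  obtain ⟨B2, hB2⟩ := bound_ex m2 g2
  obtain ⟨f1, hf1, e1, n1⟩ := pad N δ1 N0 m1 (max m1 m2) B2 g1 hg1 (le_max_left _ _)
  obtain ⟨B3, hB3⟩ := bound_ex (max m1 m2) f1
  obtain ⟨f2, hf2, e2, n2⟩ := pad N δ2 N0 m2 (max m1 m2) B3 g2
    (gadget_le hg2 (le_max_left _ _)) (le_max_right _ _)
  obtain ⟨B4, hB4⟩ := bound_ex (max m1 m2) f2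
  refine ⟨max m1 m2, f1, f2, max N0 (max B3 B4), le_max_left _ _, hf1, hf2, ?_, ?_, ?_⟩
  · intro j hj j' hj' c c'
    rw [Finset.disjoint_left]
    intro i hi hi'
    have h3 := hB3 j hj c i hi
    by_cases hj2 : j' < m2
    · rw [e2 j' hj2] at hi'
      by_cases hj1 : j < m1
      · rw [e1 j hj1] at hi
        have h4 := hB1 j hj1 c i hi
        have h5 := hg2.lo j' hj2 c' i hi'
        have h6 : B1 ≤ i := (le_max_right N0 B1).trans h5
        omega
      · have h4 := n1 j (not_lt.1 hj1) c i hi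
        have h5 := hB2 j' hj2 c' i hi'
        omega
    · have h4 := n2 j' (not_lt.1 hj2) c' i hi'
      omega
  · intro j hj c i hi
    have h3 := hB3 j hj c i hi
    have : B3 ≤ max N0 (max B3 B4) := (le_max_left _ _).trans (le_max_right _ _)
    omega
  · intro j hj c i hi
    have h3 := hB4 j hj c i hi
    have : B4 ≤ max N0 (max B3 B4) := (le_max_right _ _).trans (le_max_right _ _)
    omega

theorem exists_sys_even (N : F0 → ℝ) (hG : HasGadgets N) (lam δ : ℕ → ℝ)
    (hlam : ∀ n, 5 / 2 ≤ lam n ∧ lam n ≤ 3) (hδ : ∀ n, 0 < δ n) :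
    ∃ (m : ℕ → ℕ) (f : ℕ → ℕ → Fin 4 → F0), Sys N lam δ m f ∧ ∀ n, m (2 * n) = m (2 * n + 1) := by
  choose M f1 f2 B hB hg1 hg2 hd hb1 hb2 using fun (n N0 : ℕ) =>
    pair_ex N hG (δ (2 * n)) (δ (2 * n + 1)) (hδ _) (hδ _) N0
  let a : ℕ → ℕ := fun n => Nat.rec 0 (fun n N0 => B n N0) n
  have ha : ∀ n, a (n + 1) = B n (a n) := fun n => rfl
  have hmono : Monotone a := monotone_nat_of_le_succ (fun n => by
    rw [ha]
    exact hB _ _)
  let f : ℕ → ℕ → Fin 4 → F0 := fun n =>
    if n % 2 = 0 then f1 (n / 2) (a (n / 2)) else f2 (n / 2) (a (n / 2))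
  let m : ℕ → ℕ := fun n => M (n / 2) (a (n / 2))
  have hfe : ∀ n, n % 2 = 0 → f n = f1 (n / 2) (a (n / 2)) := fun n hn => if_pos hn
  have hfo : ∀ n, ¬ n % 2 = 0 → f n = f2 (n / 2) (a (n / 2)) := fun n hn => if_neg hn
  have hgad : ∀ n, Gadget N (δ n) (a (n / 2)) (m n) (f n) := by
    intro n
    by_cases hn : n % 2 = 0
    · rw [hfe n hn]
      have h := hg1 (n / 2) (a (n / 2))
      have e : 2 * (n / 2) = n := by omega
      rw [e] at h
      exact h
    · rw [hfo n hn]
      have h := hg2 (n / 2) (a (n / 2))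
      have e : 2 * (n / 2) + 1 = n := by omega
      rw [e] at h
      exact h
  have hlt : ∀ n, ∀ j < m n, ∀ c, ∀ i ∈ (f n j c).support, i < a (n / 2 + 1) := by
    intro n j hj c i hi
    rw [ha]
    by_cases hn : n % 2 = 0
    · rw [hfe n hn] at hi
      exact hb1 _ _ j hj c i hi
    · rw [hfo n hn] at hi
      exact hb2 _ _ j hj c i hi
  have hdis : ∀ n n', n < n' → ∀ j < m n, ∀ j' < m n', ∀ c c',
      Disjoint (f n j c).support (f n' j' c').support := by
    intro n n' hn j hj j' hj' c c'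
    by_cases hh : n / 2 < n' / 2
    · rw [Finset.disjoint_left]
      intro i hi hi'
      have h1 := hlt n j hj c i hi
      have h2 := (hgad n').lo j' hj' c' i hi'
      have h3 : a (n / 2 + 1) ≤ a (n' / 2) := hmono (Nat.succ_le_of_lt hh)
      omega
    · have e1 : n % 2 = 0 := by omega
      have e2 : ¬ n' % 2 = 0 := by omega
      have e3 : n' / 2 = n / 2 := by omega
      have hj'' : j' < M (n / 2) (a (n / 2)) := by
        have : j' < M (n' / 2) (a (n' / 2)) := hj'
        rwa [e3] at this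
      rw [hfe n e1, hfo n' e2, e3]
      exact hd (n / 2) (a (n / 2)) j hj j' hj'' c c'
  refine ⟨m, f, ⟨fun n j hj c => (hgad n).ne j hj c, ?_, fun n => (hgad n).star, hlam⟩, ?_⟩
  · intro n n' j hj j' hj' c c' hne
    rcases lt_trichotomy n n' with h | h | h
    · exact hdis n n' h j hj j' hj' c c'
    · subst h
      exact (hgad n).disj j hj j' hj' c c' (by
        rcases hne with h | h
        · exact absurd rfl h
        · exact h)
    · exact (hdis n' n h j' hj' j hj c' c).symm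
  · intro n
    show M (2 * n / 2) (a (2 * n / 2)) = M ((2 * n + 1) / 2) (a ((2 * n + 1) / 2))
    have e1 : 2 * n / 2 = n := by omega
    have e2 : (2 * n + 1) / 2 = n := by omega
    rw [e1, e2]

end Pool.Agent.Helper60.CR
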