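import Pool.Agent.Helper60.CR.CoordFun

/-! CR-31 (eta). Coordinates with respect to the planes.
PROOF. For `n`, `j < m n`, `c` choose `i n j c` in the support of `f n j c` (`hS.ne`). With `ξ` from `coord_fun` put `η n j u = (ξ (i n j 0) u / f n j 0 (i n j 0), ξ (i n j 1) u / f n j 1 (i n j 1))` for `j < m n`
(`0` otherwise), a continuous linear map `X → ℝ × ℝ` (`ContinuousLinearMap.prod` of scalar multiples of `ξ i`).
(1) `vec (lam n') (f n' j') z` at the coordinate `i n j 0`: if `(n', j') = (n, j)` only the component `c = 0` contributes and gives `z.1 * f n j 0 (i n j 0)` (`xi _ 0 z = z.1`); otherwise `0` by `hS.disj`. The same for `1`.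
(2) Let `v = linearCombination ℝ e`. For `u = v a`, `a = ∑ l ∈ S, vec (lam l.1) (f l.1 l.2) (z l)` (a finite sum over `S ⊆ {l | l.1 ∈ A, l.2 < m l.1}`; by linearity of `vec` every element of the span of the planes has this form)
`∑ j ∈ range (m n), vec (lam n) (f n j) (η n j u)` is the sum of the terms with `l.1 = n`, so it is coordinatewise at most `|a|` (disjoint supports: at every coordinate `i` at most one `l` contributes) and
`N (...) ≤ N a ≤ C * ‖u‖`. The set of all `u ∈ X` for which the inequality holds is closed: `u ↦ N (∑ j ∈ range (m n), vec (lam n) (f n j) (η n j u))` is continuous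
(`Lat.continuous_bound`, `N (∑ vec (w j)) ≤ ∑_j ∑_c |xi _ c (w j)| * N (f n j c)`). It contains the span of the planes, hence its closure `Ysub`. -/

set_option autoImplicit false

namespace Pool.Agent.Helper60.CR

open Finset

private theorem eta_xi_add (l : ℝ) (c : Fin 4) (z w : ℝ × ℝ) :
    xi l c (z + w) = xi l c z + xi l c w := by
  fin_cases c <;> simp [xi] <;> ring

private theorem eta_xi_smul (l : ℝ) (c : Fin 4) (t : ℝ) (z : ℝ × ℝ) :
    xi l c (t • z) = t * xi l c z := by
  fin_cases c <;> simp [xi] <;> ring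

private theorem eta_vec_add (l : ℝ) (g : Fin 4 → F0) (z w : ℝ × ℝ) :
    vec l g (z + w) = vec l g z + vec l g w := by
  unfold vec
  rw [← Finset.sum_add_distrib]
  exact Finset.sum_congr rfl fun c _ => by rw [eta_xi_add, add_smul]

private theorem eta_vec_smul (l : ℝ) (g : Fin 4 → F0) (t : ℝ) (z : ℝ × ℝ) :
    vec l g (t • z) = t • vec l g z := by
  unfold vec
  rw [Finset.smul_sum]
  exact Finset.sum_congr rfl fun c _ => by rw [eta_xi_smul, mul_smul]

private theorem eta_vec_zero (l : ℝ) (g : Fin 4 → F0) : vec l g 0 = 0 := by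
  have h := eta_vec_smul l g 0 0
  rwa [zero_smul, zero_smul] at h

private theorem eta_vec_apply (l : ℝ) (g : Fin 4 → F0) (z : ℝ × ℝ) (i : ℕ) :
    vec l g z i = ∑ c, xi l c z * g c i := by
  unfold vec
  rw [Finsupp.finsetSum_apply]
  rfl

private theorem eta_xi_cont (l : ℝ) (c : Fin 4) : Continuous (xi l c) := by
  unfold xi
  fin_cases c
  · exact continuous_fst
  · exact continuous_snd
  · exact continuous_fst.add continuous_snd
  · exact continuous_fst.add (continuous_const.mul continuous_snd)

theorem eta {X : Type*} [NormedAddCommGroup X] [NormedSpace ℝ X] (e : ℕ → X) (N : F0 → ℝ)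
    (C : ℝ) (hN : Lat N) (hE : Equi N e C) (lam δ : ℕ → ℝ) (m : ℕ → ℕ)
    (f : ℕ → ℕ → Fin 4 → F0) (hS : Sys N lam δ m f) :
    ∃ η : ℕ → ℕ → (X →L[ℝ] ℝ × ℝ),
      (∀ n, ∀ j < m n, ∀ n', ∀ j' < m n', ∀ z : ℝ × ℝ,
        η n j (Finsupp.linearCombination ℝ e (vec (lam n') (f n' j') z)) =
          if n = n' ∧ j = j' then z else 0) ∧
      ∀ A : Set ℕ, ∀ n, ∀ u ∈ Ysub e lam m f A,
        N (∑ j ∈ range (m n), vec (lam n) (f n j) (η n j u)) ≤ C * ‖u‖ := by
  classical
  obtain ⟨ξ, hξ⟩ := coord_fun e N C hN hE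
  have hex : ∀ n j c, ∃ i, j < m n → f n j c i ≠ 0 := by
    intro n j c
    by_cases hj : j < m n
    · obtain ⟨i, hi⟩ := Finsupp.ne_iff.1 (hS.ne n j hj c)
      exact ⟨i, fun _ => hi⟩
    · exact ⟨0, fun h => absurd h hj⟩
  choose i hi using hex
  have hz0 : ∀ n n', ∀ j < m n, ∀ j' < m n', ∀ c c', (n ≠ n' ∨ j ≠ j' ∨ c ≠ c') →
      ∀ x, f n j c x ≠ 0 → f n' j' c' x = 0 := by
    intro n n' j hj j' hj' c c' hne x hx
    by_contra hcon
    exact Finset.disjoint_left.1 (hS.disj n n' j hj j' hj' c c' hne)
      (Finsupp.mem_support_iff.2 hx) (Finsupp.mem_support_iff.2 hcon)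
  have hat : ∀ n, ∀ j < m n, ∀ n', ∀ j' < m n', ∀ (z : ℝ × ℝ) (c : Fin 4),
      vec (lam n') (f n' j') z (i n j c) =
        if n = n' ∧ j = j' then xi (lam n') c z * f n j c (i n j c) else 0 := by
    intro n j hj n' j' hj' z c
    rw [eta_vec_apply]
    split_ifs with h
    · obtain ⟨rfl, rfl⟩ := h
      rw [Finset.sum_eq_single c]
      · intro c' _ hc'
        rw [hz0 n n j hj j hj c c' (Or.inr (Or.inr hc'.symm)) _ (hi n j c hj), mul_zero]
      · intro h
        exact absurd (Finset.mem_univ c) h
    · apply Finset.sum_eq_zero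
      intro c' _
      have hne : n ≠ n' ∨ j ≠ j' ∨ c ≠ c' := by
        by_cases h1 : n = n'
        · right
          left
          intro h2
          exact h ⟨h1, h2⟩
        · exact Or.inl h1
      rw [hz0 n n' j hj j' hj' c c' hne _ (hi n j c hj), mul_zero]
  let η : ℕ → ℕ → (X →L[ℝ] ℝ × ℝ) := fun n j =>
    ((f n j 0 (i n j 0))⁻¹ • ξ (i n j 0)).prod ((f n j 1 (i n j 1))⁻¹ • ξ (i n j 1))
  have hη : ∀ n j u, η n j u = ((f n j 0 (i n j 0))⁻¹ * ξ (i n j 0) u,
      (f n j 1 (i n j 1))⁻¹ * ξ (i n j 1) u) := fun _ _ _ => rfl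
  have h1 : ∀ n, ∀ j < m n, ∀ n', ∀ j' < m n', ∀ z : ℝ × ℝ,
      η n j (Finsupp.linearCombination ℝ e (vec (lam n') (f n' j') z)) =
        if n = n' ∧ j = j' then z else 0 := by
    intro n j hj n' j' hj' z
    rw [hη, hξ, hξ, hat n j hj n' j' hj' z 0, hat n j hj n' j' hj' z 1]
    have e0 := hi n j 0 hj
    have e1 := hi n j 1 hj
    split_ifs with h
    · apply Prod.ext
      · change (f n j 0 (i n j 0))⁻¹ * (z.1 * f n j 0 (i n j 0)) = z.1
        field_simp
      · change (f n j 1 (i n j 1))⁻¹ * (z.2 * f n j 1 (i n j 1)) = z.2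
        field_simp
    · apply Prod.ext
      · change (f n j 0 (i n j 0))⁻¹ * 0 = 0
        rw [mul_zero]
      · change (f n j 1 (i n j 1))⁻¹ * 0 = 0
        rw [mul_zero]
  refine ⟨η, h1, ?_⟩
  intro A n
  -- the projection
  let T : X → F0 := fun u => ∑ j ∈ range (m n), vec (lam n) (f n j) (η n j u)
  have hTadd : ∀ u v, T (u + v) = T u + T v := by
    intro u v
    change ∑ j ∈ range (m n), _ = ∑ j ∈ range (m n), _ + ∑ j ∈ range (m n), _
    rw [← Finset.sum_add_distrib]
    exact Finset.sum_congr rfl fun j _ => by rw [map_add, eta_vec_add]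
  have hTsmul : ∀ (t : ℝ) (u : X), T (t • u) = t • T u := by
    intro t u
    change ∑ j ∈ range (m n), _ = t • ∑ j ∈ range (m n), _
    rw [Finset.smul_sum]
    exact Finset.sum_congr rfl fun j _ => by rw [map_smul, eta_vec_smul]
  have hT0 : T 0 = 0 := by
    have h := hTsmul 0 0
    rwa [zero_smul, zero_smul] at h
  let U : Set ℕ := {x | ∃ j < m n, ∃ c, f n j c x ≠ 0}
  have hspan : ∀ u ∈ Submodule.span ℝ {u | ∃ n ∈ A, ∃ j < m n, ∃ z : ℝ × ℝ,
      u = Finsupp.linearCombination ℝ e (vec (lam n) (f n j) z)},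
      ∃ a : F0, u = Finsupp.linearCombination ℝ e a ∧
        ∀ x, T u x = if x ∈ U then a x else 0 := by
    intro u hu
    induction hu using Submodule.span_induction with
    | mem u hu =>
      obtain ⟨n', -, j', hj', z, rfl⟩ := hu
      refine ⟨_, rfl, fun x => ?_⟩
      by_cases hnn : n = n'
      · subst hnn
        have h2 : T (Finsupp.linearCombination ℝ e (vec (lam n) (f n j') z)) =
            vec (lam n) (f n j') z := by
          change ∑ j ∈ range (m n), vec (lam n) (f n j) (η n j _) = _
          rw [Finset.sum_eq_single_of_mem j' (Finset.mem_range.2 hj')]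
          · rw [h1 n j' hj' n j' hj' z, if_pos ⟨rfl, rfl⟩]
          · intro j hj hjj
            rw [h1 n j (Finset.mem_range.1 hj) n j' hj' z, if_neg (fun h => hjj h.2),
              eta_vec_zero]
        rw [h2]
        split_ifs with hx
        · rfl
        · rw [eta_vec_apply]
          apply Finset.sum_eq_zero
          intro c _
          have h3 : f n j' c x = 0 := by
            by_contra h3
            exact hx ⟨j', hj', c, h3⟩
          rw [h3, mul_zero]
      · have h2 : T (Finsupp.linearCombination ℝ e (vec (lam n') (f n' j') z)) = 0 := by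
          apply Finset.sum_eq_zero
          intro j hj
          rw [h1 n j (Finset.mem_range.1 hj) n' j' hj' z, if_neg (fun h => hnn h.1),
            eta_vec_zero]
        rw [h2]
        split_ifs with hx
        · obtain ⟨j, hj, c, hc⟩ := hx
          rw [eta_vec_apply]
          symm
          apply Finset.sum_eq_zero
          intro c' _
          rw [hz0 n n' j hj j' hj' c c' (Or.inl hnn) x hc, mul_zero]
        · rfl
    | zero => exact ⟨0, by rw [map_zero], fun x => by rw [hT0]; simp⟩
    | add u v _ _ ihu ihv =>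
      obtain ⟨a, ha, ha'⟩ := ihu
      obtain ⟨b, hb, hb'⟩ := ihv
      refine ⟨a + b, by rw [map_add, ha, hb], fun x => ?_⟩
      rw [hTadd, Finsupp.add_apply, ha', hb']
      split_ifs
      · rfl
      · rw [add_zero]
    | smul t u _ ih =>
      obtain ⟨a, ha, ha'⟩ := ih
      refine ⟨t • a, by rw [map_smul, ha], fun x => ?_⟩
      rw [hTsmul, Finsupp.smul_apply, ha']
      split_ifs
      · rfl
      · rw [smul_zero]
  have hle : ∀ u ∈ Submodule.span ℝ {u | ∃ n ∈ A, ∃ j < m n, ∃ z : ℝ × ℝ,
      u = Finsupp.linearCombination ℝ e (vec (lam n) (f n j) z)}, N (T u) ≤ C * ‖u‖ := by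
    intro u hu
    obtain ⟨a, ha, ha'⟩ := hspan u hu
    have h2 : N (T u) ≤ N a := by
      apply hN.mono
      intro x
      rw [ha']
      split_ifs
      · exact le_rfl
      · rw [abs_zero]
        exact abs_nonneg _
    rw [ha]
    rw [ha] at h2
    exact h2.trans (hE a).2
  -- continuity
  let g : X → ℝ := fun v => ∑ j ∈ range (m n), ∑ c, |xi (lam n) c (η n j v)| * N (f n j c)
  have hgc : Continuous g := by
    apply continuous_finsetSum
    intro j _
    apply continuous_finsetSum
    intro c _
    exact (((eta_xi_cont (lam n) c).comp (η n j).continuous).abs).mul continuous_const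
  have hg0 : g 0 = 0 := by
    apply Finset.sum_eq_zero
    intro j _
    apply Finset.sum_eq_zero
    intro c _
    have h2 : xi (lam n) c 0 = 0 := by
      have h3 := eta_xi_smul (lam n) c 0 0
      rwa [zero_smul, zero_mul] at h3
    rw [map_zero, h2, abs_zero, zero_mul]
  have hTg : ∀ v, N (T v) ≤ g v := by
    intro v
    refine (hN.sum_le _ _).trans (Finset.sum_le_sum fun j _ => ?_)
    exact hN.sum_smul_le Finset.univ (f n j) (fun c => xi (lam n) c (η n j v))
  have hcont : Continuous fun u => N (T u) := by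
    rw [continuous_iff_continuousAt]
    intro u
    rw [ContinuousAt, tendsto_iff_dist_tendsto_zero]
    have h2 : Filter.Tendsto (fun v => g (v - u)) (nhds u) (nhds 0) := by
      have h3 : Continuous fun v => g (v - u) := hgc.comp (continuous_id.sub continuous_const)
      have h4 := h3.tendsto u
      rwa [sub_self, hg0] at h4
    refine squeeze_zero (fun _ => dist_nonneg) (fun v => ?_) h2
    rw [Real.dist_eq]
    refine (hN.continuous_bound _ _).trans ?_
    have h5 : T v - T u = T (v - u) := by
      rw [sub_eq_add_neg, sub_eq_add_neg, ← neg_one_smul ℝ (T u), ← hTsmul, ← hTadd,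
        neg_one_smul]
    rw [h5]
    exact hTg _
  have hclosed : IsClosed {u : X | N (T u) ≤ C * ‖u‖} :=
    isClosed_le hcont (continuous_const.mul continuous_norm)
  intro u hu
  have h6 : u ∈ closure ((Submodule.span ℝ {u | ∃ n ∈ A, ∃ j < m n, ∃ z : ℝ × ℝ,
      u = Finsupp.linearCombination ℝ e (vec (lam n) (f n j) z)} : Submodule ℝ X) : Set X) := hu
  exact closure_minimal (fun v hv => hle v hv) hclosed h6

end Pool.Agent.Helper60.CR
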