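import Mathlib

/-! CR-72 (sup_closed, sup_equiv). Closed subspaces plus finite-dimensional ones.
PROOF. sup_closed: a closed subspace plus a finite-dimensional one is closed (in Mathlib: search `IsClosed`, `sup`, `FiniteDimensional`; or: image of the finite-dimensional space in the quotient `X ⧸ Y` is closed, take the preimage). sup_equiv: `Y × E → Y ⊔ E`, `(y, u) ↦ y + u` is a continuous linear bijection of
Banach spaces (`Y`, `E`, `Y ⊔ E` are closed in `X`), so an isomorphism (`ContinuousLinearEquiv.ofBijective`). `E ≃L E'` by equality of the dimensions (`ContinuousLinearEquiv.ofFinrankEq`). Compose. -/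

set_option autoImplicit false

namespace Pool.Agent.Helper60.CR

theorem sup_closed {X : Type*} [NormedAddCommGroup X] [NormedSpace ℝ X] [CompleteSpace X]
    (Y E : Submodule ℝ X) (hY : IsClosed (Y : Set X)) [FiniteDimensional ℝ E] :
    IsClosed ((Y ⊔ E : Submodule ℝ X) : Set X) :=
  Submodule.isClosed_sup_finiteDimensional Y E hY

private theorem seq_prod {X : Type*} [NormedAddCommGroup X] [NormedSpace ℝ X] [CompleteSpace X]
    (Y E : Submodule ℝ X) (hY : IsClosed (Y : Set X)) [FiniteDimensional ℝ E]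
    (h : Disjoint Y E) : Nonempty ((Y × E) ≃L[ℝ] (Y ⊔ E : Submodule ℝ X)) := by
  have hc : CompleteSpace Y := hY.completeSpace_coe
  have hcE : CompleteSpace E := FiniteDimensional.complete ℝ E
  have hcS : CompleteSpace (Y ⊔ E : Submodule ℝ X) := (sup_closed Y E hY).completeSpace_coe
  let f0 : (Y × E) →L[ℝ] X := Y.subtypeL.coprod E.subtypeL
  have hf0 : ∀ p, f0 p = (p.1 : X) + (p.2 : X) := fun p => rfl
  have hmem : ∀ p, f0 p ∈ (Y ⊔ E : Submodule ℝ X) := fun p => by
    rw [hf0]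
    exact Submodule.add_mem_sup p.1.2 p.2.2
  let f : (Y × E) →L[ℝ] (Y ⊔ E : Submodule ℝ X) := f0.codRestrict _ hmem
  have hf : ∀ p, ((f p : (Y ⊔ E : Submodule ℝ X)) : X) = (p.1 : X) + (p.2 : X) := fun p => rfl
  refine ⟨ContinuousLinearEquiv.ofBijective f ?_ ?_⟩
  · rw [LinearMap.ker_eq_bot']
    rintro ⟨y, u⟩ hyu
    have h1 : (y : X) + (u : X) = 0 := by
      rw [← hf ⟨y, u⟩]
      exact congrArg Subtype.val hyu
    have h2 : (u : X) ∈ Y := by
      rw [← neg_eq_of_add_eq_zero_right h1]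
      exact Y.neg_mem y.2
    have h3 : (u : X) = 0 := Submodule.disjoint_def.1 h _ h2 u.2
    have h4 : (y : X) = 0 := by
      rw [h3, add_zero] at h1
      exact h1
    exact Prod.ext (Subtype.ext h4) (Subtype.ext h3)
  · rw [LinearMap.range_eq_top]
    rintro ⟨x, hx⟩
    obtain ⟨y, hy, u, hu, rfl⟩ := Submodule.mem_sup.1 hx
    exact ⟨(⟨y, hy⟩, ⟨u, hu⟩), Subtype.ext rfl⟩

theorem sup_equiv {X : Type*} [NormedAddCommGroup X] [NormedSpace ℝ X] [CompleteSpace X]
    (Y E E' : Submodule ℝ X) (hY : IsClosed (Y : Set X)) [FiniteDimensional ℝ E]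
    [FiniteDimensional ℝ E'] (h : Disjoint Y E) (h' : Disjoint Y E')
    (hd : Module.finrank ℝ E = Module.finrank ℝ E') :
    Nonempty ((Y ⊔ E : Submodule ℝ X) ≃L[ℝ] (Y ⊔ E' : Submodule ℝ X)) := by
  obtain ⟨φ⟩ := seq_prod Y E hY h
  obtain ⟨φ'⟩ := seq_prod Y E' hY h'
  obtain ⟨ψ⟩ := FiniteDimensional.nonempty_continuousLinearEquiv_of_finrank_eq (𝕜 := ℝ) hd
  exact ⟨(φ.symm.trans ((ContinuousLinearEquiv.refl ℝ Y).prodCongr ψ)).trans φ'⟩

end Pool.Agent.Helper60.CR
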