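import Pool.Agent.Helper60.CR.DefsE
import Pool.Agent.Helper60.CR.Eta
import Pool.Agent.Helper60.CR.SupEquiv

/-! CR-73 (epl_finite, epl_finrank, ysub_disjoint, ysub_insert, ysub_swap). Adding one gadget.
PROOF. `v = linearCombination ℝ e`. epl_finite: `Epl k` is the span of the finitely many vectors `v (vec (lam k) (f k j) (1,0))`, `v (vec (lam k) (f k j) (0,1))`, `j < m k` (`vec` is linear in `z`). epl_finrank: the linear map `(Fin (m k) → ℝ × ℝ) → X`, `z ↦ v (∑ j, vec (lam k) (f k j) (z j))` has range `Epl k`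
and is injective (apply `η k j` from `eta`), and the dimension of `Fin (m k) → ℝ × ℝ` is `2 * m k`.
ysub_disjoint: `η k j` (from `eta`) vanishes on the planes with index `n ≠ k`, hence (continuity) on `Ysub e lam m f A` if `k ∉ A`; and `u = ∑ j < m k, v (vec (lam k) (f k j) (η k j u))` for `u ∈ Epl k`. So `u = 0` for `u` in both.
ysub_insert: the planes with index in `insert k A` are those with index in `A` and those with index `k`, so the span is the sup of the spans; its closure is `Ysub A ⊔ Epl k` (`sup_closed`; `Ysub A` is the closure of the first span). ysub_swap: from the rest and `sup_equiv`. -/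

set_option autoImplicit false

namespace Pool.Agent.Helper60.CR

open Finset

variable {X : Type*} [NormedAddCommGroup X] [NormedSpace ℝ X]

/-- The map `vec` is linear. -/
private noncomputable def ysiVec (l : ℝ) (g : Fin 4 → F0) : ℝ × ℝ →ₗ[ℝ] F0 where
  toFun := vec l g
  map_add' z w := by
    have h1 : ∀ c, xi l c (z + w) = xi l c z + xi l c w := by
      intro c
      fin_cases c <;> simp [xi] <;> ring
    unfold vec
    rw [← Finset.sum_add_distrib]
    exact Finset.sum_congr rfl fun c _ => by rw [h1, add_smul]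
  map_smul' t z := by
    have h1 : ∀ c, xi l c (t • z) = t * xi l c z := by
      intro c
      fin_cases c <;> simp [xi] <;> ring
    unfold vec
    rw [RingHom.id_apply, Finset.smul_sum]
    exact Finset.sum_congr rfl fun c _ => by rw [h1, mul_smul]

/-- The sum map of the planes of the gadget `k`. -/
private noncomputable def ysiMap (e : ℕ → X) (lam : ℕ → ℝ) (m : ℕ → ℕ)
    (f : ℕ → ℕ → Fin 4 → F0) (k : ℕ) : (Fin (m k) → ℝ × ℝ) →ₗ[ℝ] X :=
  ∑ j : Fin (m k), (Finsupp.linearCombination ℝ e).comp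
    ((ysiVec (lam k) (f k j)).comp (LinearMap.proj j))

private theorem ysiMap_apply (e : ℕ → X) (lam : ℕ → ℝ) (m : ℕ → ℕ)
    (f : ℕ → ℕ → Fin 4 → F0) (k : ℕ) (z : Fin (m k) → ℝ × ℝ) :
    ysiMap e lam m f k z =
      ∑ j : Fin (m k), Finsupp.linearCombination ℝ e (vec (lam k) (f k j) (z j)) := by
  unfold ysiMap
  rw [LinearMap.sum_apply]
  rfl

private theorem ysiMap_range (e : ℕ → X) (lam : ℕ → ℝ) (m : ℕ → ℕ)
    (f : ℕ → ℕ → Fin 4 → F0) (k : ℕ) : (ysiMap e lam m f k).range = Epl e lam m f k := by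
  classical
  apply le_antisymm
  · rintro _ ⟨z, rfl⟩
    rw [ysiMap_apply]
    exact Submodule.sum_mem _ fun j _ => Submodule.subset_span ⟨j, j.2, z j, rfl⟩
  · unfold Epl
    rw [Submodule.span_le]
    rintro _ ⟨j, hj, z, rfl⟩
    refine ⟨Pi.single ⟨j, hj⟩ z, ?_⟩
    rw [ysiMap_apply, Finset.sum_eq_single_of_mem ⟨j, hj⟩ (Finset.mem_univ _)]
    · rw [Pi.single_eq_same]
    · intro i _ hi
      rw [Pi.single_eq_of_ne hi]
      have h1 : vec (lam k) (f k i) 0 = 0 := (ysiVec (lam k) (f k i)).map_zero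
      rw [h1, map_zero]

theorem epl_finite (e : ℕ → X) (lam : ℕ → ℝ) (m : ℕ → ℕ) (f : ℕ → ℕ → Fin 4 → F0) (k : ℕ) :
    FiniteDimensional ℝ (Epl e lam m f k) := by
  rw [← ysiMap_range]
  infer_instance

private theorem ysi_eta {e : ℕ → X} {lam : ℕ → ℝ} {m : ℕ → ℕ} {f : ℕ → ℕ → Fin 4 → F0}
    {η : ℕ → ℕ → (X →L[ℝ] ℝ × ℝ)}
    (hη : ∀ n, ∀ j < m n, ∀ n', ∀ j' < m n', ∀ z : ℝ × ℝ,
      η n j (Finsupp.linearCombination ℝ e (vec (lam n') (f n' j') z)) =
        if n = n' ∧ j = j' then z else 0) (k : ℕ) (z : Fin (m k) → ℝ × ℝ) (j : Fin (m k)) :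
    η k j (ysiMap e lam m f k z) = z j := by
  rw [ysiMap_apply, map_sum, Finset.sum_eq_single_of_mem j (Finset.mem_univ _)]
  · rw [hη k j j.2 k j j.2, if_pos ⟨rfl, rfl⟩]
  · intro i _ hi
    rw [hη k j j.2 k i i.2, if_neg]
    exact fun h => hi (Fin.ext h.2.symm)

theorem epl_finrank (e : ℕ → X) (N : F0 → ℝ) (C : ℝ) (hN : Lat N) (hE : Equi N e C)
    (lam δ : ℕ → ℝ) (m : ℕ → ℕ) (f : ℕ → ℕ → Fin 4 → F0) (hS : Sys N lam δ m f) (k : ℕ) :
    Module.finrank ℝ (Epl e lam m f k) = 2 * m k := by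
  obtain ⟨η, hη, -⟩ := eta e N C hN hE lam δ m f hS
  rw [← ysiMap_range, LinearMap.finrank_range_of_inj]
  · rw [Module.finrank_pi_fintype]
    simp only [Module.finrank_prod, Module.finrank_self, Finset.sum_const, Finset.card_univ,
      Fintype.card_fin, smul_eq_mul]
    ring
  · intro z w hzw
    funext j
    rw [← ysi_eta hη k z j, hzw, ysi_eta hη k w j]

theorem ysub_disjoint (e : ℕ → X) (N : F0 → ℝ) (C : ℝ) (hN : Lat N) (hE : Equi N e C)
    (lam δ : ℕ → ℝ) (m : ℕ → ℕ) (f : ℕ → ℕ → Fin 4 → F0) (hS : Sys N lam δ m f) (A : Set ℕ)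
    (k : ℕ) (hk : k ∉ A) : Disjoint (Ysub e lam m f A) (Epl e lam m f k) := by
  obtain ⟨η, hη, -⟩ := eta e N C hN hE lam δ m f hS
  rw [Submodule.disjoint_def]
  intro x hx hx'
  rw [← ysiMap_range] at hx'
  obtain ⟨z, rfl⟩ := hx'
  have h1 : ∀ j < m k, Ysub e lam m f A ≤ (η k j).ker := by
    intro j hj
    apply Submodule.topologicalClosure_minimal
    · rw [Submodule.span_le]
      rintro _ ⟨n, hn, i, hi, w, rfl⟩
      change η k j _ = 0
      rw [hη k j hj n i hi, if_neg]
      rintro ⟨rfl, -⟩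
      exact hk hn
    · exact (η k j).isClosed_ker
  have h2 : z = 0 := by
    funext j
    rw [← ysi_eta hη k z j]
    exact h1 j j.2 hx
  rw [h2, map_zero]

theorem ysub_insert [CompleteSpace X] (e : ℕ → X) (lam : ℕ → ℝ) (m : ℕ → ℕ)
    (f : ℕ → ℕ → Fin 4 → F0) (A : Set ℕ) (k : ℕ) :
    Ysub e lam m f (insert k A) = Ysub e lam m f A ⊔ Epl e lam m f k := by
  have := epl_finite e lam m f k
  apply le_antisymm
  · apply Submodule.topologicalClosure_minimal
    · rw [Submodule.span_le]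
      rintro _ ⟨n, hn, j, hj, z, rfl⟩
      rcases hn with rfl | hn
      · exact (le_sup_right : Epl e lam m f n ≤ _) (Submodule.subset_span ⟨j, hj, z, rfl⟩)
      · exact (le_sup_left : Ysub e lam m f A ≤ _)
          (Submodule.le_topologicalClosure _ (Submodule.subset_span ⟨n, hn, j, hj, z, rfl⟩))
    · exact sup_closed _ _ (Submodule.isClosed_topologicalClosure _)
  · apply sup_le
    · apply Submodule.topologicalClosure_mono
      apply Submodule.span_mono
      rintro _ ⟨n, hn, j, hj, z, rfl⟩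
      exact ⟨n, Set.mem_insert_of_mem _ hn, j, hj, z, rfl⟩
    · unfold Epl
      rw [Submodule.span_le]
      rintro _ ⟨j, hj, z, rfl⟩
      exact Submodule.le_topologicalClosure _
        (Submodule.subset_span ⟨k, Set.mem_insert _ _, j, hj, z, rfl⟩)

theorem ysub_swap [CompleteSpace X] (e : ℕ → X) (N : F0 → ℝ) (C : ℝ) (hN : Lat N)
    (hE : Equi N e C) (lam δ : ℕ → ℝ) (m : ℕ → ℕ) (f : ℕ → ℕ → Fin 4 → F0)
    (hS : Sys N lam δ m f) (A : Set ℕ) (k k' : ℕ) (hk : k ∉ A) (hk' : k' ∉ A) (hm : m k = m k') :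
    Nonempty (Ysub e lam m f (insert k A) ≃L[ℝ] Ysub e lam m f (insert k' A)) := by
  have := epl_finite e lam m f k
  have := epl_finite e lam m f k'
  rw [ysub_insert, ysub_insert]
  apply sup_equiv _ _ _ (Submodule.isClosed_topologicalClosure _)
    (ysub_disjoint e N C hN hE lam δ m f hS A k hk) (ysub_disjoint e N C hN hE lam δ m f hS A k' hk')
  rw [epl_finrank e N C hN hE lam δ m f hS, epl_finrank e N C hN hE lam δ m f hS, hm]

end Pool.Agent.Helper60.CR
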