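import Pool.Agent.Helper60.CR.NoFac
import Pool.Agent.Helper60.CR.FacOfIso
import Pool.Agent.Helper60.CR.ExistsSysE
import Pool.Agent.Helper60.CR.YsubInsert

/-! CR-74 (core_e). Gadgets give a reduction of `E_0` to isomorphism of subspaces.
PROOF. As in `Core.lean`, with `exists_sys_even` instead of `exists_sys`: `lam n = 5/2 + 1/(2(n+1))`, `g n = 1/(2(n+1)(n+2))`, `δ n = g n/(n+1)`; from the isomorphism of `Ysub A` and `Ysub B` follows that `A \ B` is finite (copy this part of the proof of `core`).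
`F n b = Epl e lam m f (2 n + (if b then 1 else 0))`. For `σ : ℕ → Bool` let `A σ = {2 n + (if σ n then 1 else 0) | n}`; `(⨆ n, F n (σ n)).topologicalClosure = Ysub e lam m f (A σ)` (both are closures of the span of the same planes: `Submodule.span_iUnion` or `iSup` of spans).
Finite-dimensional `F n b`: `epl_finite`. Not finite-dimensional: `m k ≥ 1` for all `k` (`Star` with `m = 0` would give `N 0 < δ * N 0`), the vectors `v (vec (lam k) (f k 0) (1,0))`, `k ∈ A σ`, are linearly independent (apply `η k 0` from `eta`), and `A σ` is infinite.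
If `Ysub (A σ) ≃ Ysub (A τ)` then `A σ \ A τ` is finite, and `n ↦ 2 n + (if σ n ..)` maps `{n | σ n ≠ τ n}` injectively into it. Conversely let `{n | σ n ≠ τ n}` be finite: induction on this finite set (change `σ` at one place `n` at a time): if `σ` and `σ'` differ exactly at `n`, then
`A σ = insert k B`, `A σ' = insert k' B` with `B = {2 i + (if σ i ..) | i ≠ n}`, `{k, k'} = {2 n, 2 n + 1}`, `k, k' ∉ B`, `m k = m k'`, and `ysub_swap` applies. -/

set_option autoImplicit false

namespace Pool.Agent.Helper60.CR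

open Finset

private theorem cre_lam_diff {n k : ℕ} (h : k ≠ n) :
    1 / (2 * ((n : ℝ) + 1) * ((n : ℝ) + 2)) ≤
      |(5 / 2 + 1 / (2 * ((n : ℝ) + 1))) - (5 / 2 + 1 / (2 * ((k : ℝ) + 1)))| := by
  have hn : (0 : ℝ) ≤ n := Nat.cast_nonneg n
  have hk : (0 : ℝ) ≤ k := Nat.cast_nonneg k
  rcases lt_or_gt_of_ne h with h1 | h1
  · have h2 : (k : ℝ) + 1 ≤ n := by exact_mod_cast h1
    rw [abs_sub_comm]
    refine le_trans ?_ (le_abs_self _)
    have h3 : (5 / 2 + 1 / (2 * ((k : ℝ) + 1))) - (5 / 2 + 1 / (2 * ((n : ℝ) + 1)))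
        = ((n : ℝ) - k) / (2 * ((n : ℝ) + 1) * ((k : ℝ) + 1)) := by
      field_simp
      ring
    rw [h3, div_le_div_iff₀ (by positivity) (by positivity)]
    have h4 : (k : ℝ) + 1 ≤ ((n : ℝ) - k) * ((n : ℝ) + 2) := by nlinarith
    have h5 : 0 < 2 * ((n : ℝ) + 1) := by positivity
    nlinarith [mul_le_mul_of_nonneg_left h4 h5.le]
  · have h2 : (n : ℝ) + 1 ≤ k := by exact_mod_cast h1
    refine le_trans ?_ (le_abs_self _)
    have h3 : (5 / 2 + 1 / (2 * ((n : ℝ) + 1))) - (5 / 2 + 1 / (2 * ((k : ℝ) + 1)))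
        = ((k : ℝ) - n) / (2 * ((n : ℝ) + 1) * ((k : ℝ) + 1)) := by
      field_simp
      ring
    rw [h3, div_le_div_iff₀ (by positivity) (by positivity)]
    have h4 : (k : ℝ) + 1 ≤ ((k : ℝ) - n) * ((n : ℝ) + 2) := by nlinarith
    have h5 : 0 < 2 * ((n : ℝ) + 1) := by positivity
    nlinarith [mul_le_mul_of_nonneg_left h4 h5.le]

/-- The index chosen by `σ` in the pair `2 n`, `2 n + 1`. -/
private def creIdx (σ : ℕ → Bool) (n : ℕ) : ℕ := 2 * n + (if σ n then 1 else 0)

private theorem creIdx_div {σ τ : ℕ → Bool} {n i : ℕ} (h : creIdx σ n = creIdx τ i) :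
    n = i ∧ σ n = τ i := by
  unfold creIdx at h
  cases h1 : σ n <;> cases h2 : τ i <;> rw [h1, h2] at h
  · exact ⟨by simpa using h, rfl⟩
  · exfalso
    simp only [Bool.false_eq_true, if_true, if_false] at h
    omega
  · exfalso
    simp only [Bool.false_eq_true, if_true, if_false] at h
    omega
  · exact ⟨by simpa using h, rfl⟩

private theorem creIdx_inj (σ : ℕ → Bool) : Function.Injective (creIdx σ) :=
  fun _ _ h => (creIdx_div h).1

private theorem cre_sets {X : Type*} [NormedAddCommGroup X] [NormedSpace ℝ X] (e : ℕ → X)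
    (N : F0 → ℝ)
    (C : ℝ) (hN : Lat N) (hE : Equi N e C) (q : ℕ) (C' : ℝ) (hq : 1 ≤ q) (hC' : 1 ≤ C')
    (hL : LowQ N q C') (hG : HasGadgets N) :
    ∃ (lam δ : ℕ → ℝ) (m : ℕ → ℕ) (f : ℕ → ℕ → Fin 4 → F0), Sys N lam δ m f ∧
      (∀ n, δ n ≤ 1) ∧ (∀ n, m (2 * n) = m (2 * n + 1)) ∧
      ∀ A B : Set ℕ, Nonempty (Ysub e lam m f A ≃L[ℝ] Ysub e lam m f B) → (A \ B).Finite := by
  let lam : ℕ → ℝ := fun n => 5 / 2 + 1 / (2 * ((n : ℝ) + 1))
  let g : ℕ → ℝ := fun n => 1 / (2 * ((n : ℝ) + 1) * ((n : ℝ) + 2))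
  let δ : ℕ → ℝ := fun n => g n / ((n : ℝ) + 1)
  have hlam : ∀ n, 5 / 2 ≤ lam n ∧ lam n ≤ 3 := by
    intro n
    have hn : (0 : ℝ) ≤ n := Nat.cast_nonneg n
    have h1 : 0 < 1 / (2 * ((n : ℝ) + 1)) := by positivity
    have h2 : 1 / (2 * ((n : ℝ) + 1)) ≤ 1 / 2 := by
      apply one_div_le_one_div_of_le (by norm_num)
      linarith
    refine ⟨?_, ?_⟩
    · show 5 / 2 ≤ 5 / 2 + 1 / (2 * ((n : ℝ) + 1))
      linarith
    · show 5 / 2 + 1 / (2 * ((n : ℝ) + 1)) ≤ 3
      linarith
  have hg : ∀ n, 0 < g n := by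
    intro n
    have hn : (0 : ℝ) ≤ n := Nat.cast_nonneg n
    show 0 < 1 / (2 * ((n : ℝ) + 1) * ((n : ℝ) + 2))
    positivity
  have hδ : ∀ n, 0 < δ n := by
    intro n
    have hn : (0 : ℝ) ≤ n := Nat.cast_nonneg n
    exact div_pos (hg n) (by linarith)
  have hδ1 : ∀ n, δ n ≤ 1 := by
    intro n
    have hn : (0 : ℝ) ≤ n := Nat.cast_nonneg n
    have h1 : g n ≤ 1 := by
      show 1 / (2 * ((n : ℝ) + 1) * ((n : ℝ) + 2)) ≤ 1
      rw [div_le_one (by positivity)]
      nlinarith
    show g n / ((n : ℝ) + 1) ≤ 1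
    rw [div_le_one (by positivity)]
    linarith
  obtain ⟨m, f, hS, hm⟩ := exists_sys_even N hG lam δ hlam hδ
  obtain ⟨R, hR0, hR⟩ := nofac N hN q C' hq hC' hL
  refine ⟨lam, δ, m, f, hS, hδ1, hm, ?_⟩
  rintro A B ⟨Φ⟩
  obtain ⟨K, hK0, hK⟩ := fac_of_iso e N C hN hE lam δ m f hS A B Φ
  by_contra hinf
  obtain ⟨n0, hn0⟩ := exists_nat_gt (R * K ^ 2)
  obtain ⟨n, hn, hnn⟩ := Set.Infinite.exists_gt hinf n0
  obtain ⟨L, hLB, hF⟩ := hK n hn.1
  have h1 := hR (ℕ × ℕ) L (fun l => lam l.1) (fun l => f l.1 l.2) (lam n) (g n) (δ n) K (m n)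
    (f n)
    (by
      intro l hl l' hl' c c' hne
      refine hS.disj l.1 l'.1 l.2 (hLB l hl).2 l'.2 (hLB l' hl').2 c c' ?_
      rcases hne with hne | hne
      · by_cases h2 : l.1 = l'.1
        · right
          left
          intro h3
          exact hne (Prod.ext h2 h3)
        · exact Or.inl h2
      · exact Or.inr (Or.inr hne))
    (by
      intro j hj j' hj' c c' hne
      exact hS.disj n n j hj j' hj' c c' (Or.inr hne))
    (hlam n).1 (hlam n).2
    (by
      intro l hl
      refine ⟨(hlam l.1).1, (hlam l.1).2, ?_⟩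
      apply cre_lam_diff
      intro h2
      apply hn.2
      rw [← h2]
      exact (hLB l hl).1)
    (hg n) hK0 (hS.star n) hF
  have hn1 : (0 : ℝ) < (n : ℝ) + 1 := by positivity
  have h2 : R * K ^ 2 * δ n = (R * K ^ 2 / ((n : ℝ) + 1)) * g n := by
    show R * K ^ 2 * (g n / ((n : ℝ) + 1)) = _
    ring
  rw [h2] at h1
  have h3 : 1 ≤ R * K ^ 2 / ((n : ℝ) + 1) := by
    by_contra h4
    push Not at h4
    have h5 := mul_lt_mul_of_pos_right h4 (hg n)
    linarith
  rw [le_div_iff₀ hn1] at h3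
  have h6 : (n0 : ℝ) < n := by exact_mod_cast hnn
  linarith

theorem core_e {X : Type*} [NormedAddCommGroup X] [NormedSpace ℝ X] [CompleteSpace X]
    (e : ℕ → X) (N : F0 → ℝ)
    (C : ℝ) (hN : Lat N) (hE : Equi N e C) (q : ℕ) (C' : ℝ) (hq : 1 ≤ q) (hC' : 1 ≤ C')
    (hL : LowQ N q C') (hG : HasGadgets N) :
    ∃ F : ℕ → Bool → Submodule ℝ X, (∀ n b, FiniteDimensional ℝ (F n b)) ∧
      (∀ n b, F n b ≤ Submodule.span ℝ (Set.range e)) ∧
      (∀ σ : ℕ → Bool, ¬ FiniteDimensional ℝ (⨆ n, F n (σ n)).topologicalClosure) ∧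
      ∀ σ τ : ℕ → Bool, Nonempty ((⨆ n, F n (σ n)).topologicalClosure ≃L[ℝ]
        (⨆ n, F n (τ n)).topologicalClosure) ↔ {n | σ n ≠ τ n}.Finite := by
  classical
  obtain ⟨lam, δ, m, f, hS, hδ1, hm, key⟩ := cre_sets e N C hN hE q C' hq hC' hL hG
  obtain ⟨η, hη, -⟩ := eta e N C hN hE lam δ m f hS
  let F : ℕ → Bool → Submodule ℝ X := fun n b => Epl e lam m f (2 * n + (if b then 1 else 0))
  have hY : ∀ σ : ℕ → Bool, (⨆ n, F n (σ n)).topologicalClosure =
      Ysub e lam m f (Set.range (creIdx σ)) := by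
    intro σ
    have h1 : (⨆ n, F n (σ n)) = Submodule.span ℝ {u | ∃ n ∈ Set.range (creIdx σ), ∃ j < m n,
        ∃ z : ℝ × ℝ, u = Finsupp.linearCombination ℝ e (vec (lam n) (f n j) z)} := by
      change (⨆ n, Submodule.span ℝ {u | ∃ j < m (creIdx σ n), ∃ z : ℝ × ℝ,
        u = Finsupp.linearCombination ℝ e (vec (lam (creIdx σ n)) (f (creIdx σ n) j) z)}) = _
      rw [← Submodule.span_iUnion]
      congr 1
      ext u
      simp only [Set.mem_iUnion, Set.mem_ofPred_eq, Set.mem_range]
      constructor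
      · rintro ⟨n, h2⟩
        exact ⟨_, ⟨n, rfl⟩, h2⟩
      · rintro ⟨_, ⟨n, rfl⟩, h2⟩
        exact ⟨n, h2⟩
    rw [h1]
    rfl
  have hm1 : ∀ k, 0 < m k := by
    intro k
    by_contra hcon
    have hk0 : m k = 0 := by omega
    obtain ⟨c, t, -, -, h1⟩ := hS.star k (fun _ => 0)
    obtain ⟨b, hb⟩ : ∃ b : Fin 4, b ≠ c := exists_ne c
    have h2 := h1 b hb
    rw [hk0] at h2
    simp only [Finset.range_zero, Finset.sum_empty, hN.zero, mul_zero] at h2
    exact lt_irrefl _ h2
  refine ⟨F, fun n b => epl_finite e lam m f _, ?_, ?_, ?_⟩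
  · intro n b
    change Epl e lam m f _ ≤ _
    unfold Epl
    rw [Submodule.span_le]
    rintro _ ⟨j, -, z, rfl⟩
    rw [Finsupp.linearCombination_apply]
    exact Submodule.sum_mem _ fun i _ => Submodule.smul_mem _ _ (Submodule.subset_span ⟨i, rfl⟩)
  · intro σ hfin
    rw [hY σ] at hfin
    let x : ℕ → Ysub e lam m f (Set.range (creIdx σ)) := fun n =>
      ⟨Finsupp.linearCombination ℝ e (vec (lam (creIdx σ n)) (f (creIdx σ n) 0) (1, 0)),
        Submodule.le_topologicalClosure _ (Submodule.subset_span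
          ⟨creIdx σ n, ⟨n, rfl⟩, 0, hm1 _, (1, 0), rfl⟩)⟩
    have hli : LinearIndependent ℝ x := by
      rw [linearIndependent_iff']
      intro s g hg i hi
      have h1 : ∑ n ∈ s, g n • (x n : X) = 0 := by
        have h2 := congrArg Subtype.val hg
        simpa using h2
      have h2 := congrArg (fun u => (η (creIdx σ i) 0 u).1) h1
      simp only [map_sum, map_smul, map_zero] at h2
      rw [Finset.sum_eq_single_of_mem i hi] at h2
      · change (g i • η (creIdx σ i) 0 (Finsupp.linearCombination ℝ e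
          (vec (lam (creIdx σ i)) (f (creIdx σ i) 0) (1, 0)))).1 = 0 at h2
        rw [hη _ 0 (hm1 _) _ 0 (hm1 _), if_pos ⟨rfl, rfl⟩] at h2
        simpa using h2
      · intro n _ hn
        change g n • η (creIdx σ i) 0 (Finsupp.linearCombination ℝ e
          (vec (lam (creIdx σ n)) (f (creIdx σ n) 0) (1, 0))) = 0
        rw [hη _ 0 (hm1 _) _ 0 (hm1 _), if_neg, smul_zero]
        rintro ⟨h3, -⟩
        exact hn (creIdx_inj σ h3).symm
    have := hli.finite_of_isNoetherian
    exact not_finite ℕ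
  · intro σ τ
    rw [hY σ, hY τ]
    constructor
    · intro h1
      have h2 := key _ _ h1
      refine (h2.preimage ((creIdx_inj σ).injOn)).subset ?_
      intro n hn
      refine ⟨⟨n, rfl⟩, ?_⟩
      rintro ⟨i, hi⟩
      obtain ⟨h3, h4⟩ := creIdx_div hi
      subst h3
      exact hn h4.symm
    · intro hfin
      have main : ∀ (s : Finset ℕ) (σ τ : ℕ → Bool), (∀ n, σ n ≠ τ n → n ∈ s) →
          Nonempty (Ysub e lam m f (Set.range (creIdx σ)) ≃L[ℝ]
            Ysub e lam m f (Set.range (creIdx τ))) := by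
        intro s
        induction s using Finset.induction_on with
        | empty =>
          intro σ τ h1
          have h2 : σ = τ := by
            funext n
            by_contra h3
            exact Finset.notMem_empty n (h1 n h3)
          rw [h2]
          exact ⟨ContinuousLinearEquiv.refl ℝ _⟩
        | insert a s ha ih =>
          intro σ τ h1
          let σ' : ℕ → Bool := Function.update σ a (τ a)
          obtain ⟨Ψ⟩ := ih σ' τ (fun n hn => by
            by_cases hna : n = a
            · subst hna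
              exact absurd (Function.update_self n (τ n) σ) hn
            · have h2 : σ' n = σ n := Function.update_of_ne hna _ _
              rw [h2] at hn
              exact (Finset.mem_insert.1 (h1 n hn)).resolve_left hna)
          let B : Set ℕ := creIdx σ '' {i | i ≠ a}
          have hσB : Set.range (creIdx σ) = insert (creIdx σ a) B := by
            ext k
            constructor
            · rintro ⟨i, rfl⟩
              by_cases hia : i = a
              · subst hia
                exact Set.mem_insert _ _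
              · exact Set.mem_insert_of_mem _ ⟨i, hia, rfl⟩
            · rintro (rfl | ⟨i, -, rfl⟩)
              · exact ⟨a, rfl⟩
              · exact ⟨i, rfl⟩
          have hsame : ∀ i, i ≠ a → creIdx σ' i = creIdx σ i := by
            intro i hia
            have h2 : σ' i = σ i := Function.update_of_ne hia _ _
            unfold creIdx
            rw [h2]
          have hσ'B : Set.range (creIdx σ') = insert (creIdx σ' a) B := by
            ext k
            constructor
            · rintro ⟨i, rfl⟩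
              by_cases hia : i = a
              · subst hia
                exact Set.mem_insert _ _
              · exact Set.mem_insert_of_mem _ ⟨i, hia, (hsame i hia).symm⟩
            · rintro (rfl | ⟨i, hi, rfl⟩)
              · exact ⟨a, rfl⟩
              · exact ⟨i, hsame i hi⟩
          have hk : ∀ ρ : ℕ → Bool, creIdx ρ a ∉ B := by
            rintro ρ ⟨i, hi, h2⟩
            exact hi (creIdx_div h2).1
          have hmm : ∀ ρ : ℕ → Bool, m (creIdx ρ a) = m (2 * a) := by
            intro ρ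
            unfold creIdx
            split_ifs
            · exact (hm a).symm
            · rfl
          obtain ⟨Φ⟩ := ysub_swap e N C hN hE lam δ m f hS B (creIdx σ a) (creIdx σ' a) (hk σ)
            (hk σ') ((hmm σ).trans (hmm σ').symm)
          rw [← hσB, ← hσ'B] at Φ
          exact ⟨Φ.trans Ψ⟩
      exact main hfin.toFinset σ τ (fun n hn => hfin.mem_toFinset.2 hn)

end Pool.Agent.Helper60.CR
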