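import Pool.Agent.Helper60.CR.Basic

/-! CR-54 (properties of the doubling operator).
PROOF. sn_zero, sn_nonneg, sn_sum_le: as for `Lat` in `Basic.lean`. dd_add, dd_smul: `Finsupp.mapDomain_add`, `mapDomain_smul`. dd_le: `x ↦ x/2` and `x ↦ (x+1)/2` are injective, so `(f.mapDomain φ) y` is `f x` if `y = φ x` and `0` if `y` is not in the range.
dd_pos01: support of `mapDomain` is contained in the image. dd_iter: induction on `k`: `Dd (∑ i < 2^k, f.mapDomain (fun x => (x+i)/2^k))` is the sum of `f.mapDomain (fun x => (x+i)/2^(k+1))` and `f.mapDomain (fun x => (x+i+2^k)/2^(k+1))`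
(`Finsupp.mapDomain_comp`), `i < 2^k`, that is all `i < 2^(k+1)`. nu_iter_le: `ν (Dd f) ≤ 2 ν f` by `add` and `inv` (both maps are strictly increasing). nu_iter_low: by `dd_iter` `Dd^[k] f` is the sum of `2^k` vectors of norm `ν f` (`inv`), with disjoint supports because
`supp f ⊆ [0,1)`; `low` with `n = 2^k`. -/

set_option autoImplicit false

namespace Pool.Agent.Helper60.CR

open Finset

variable {ν : (ℚ →₀ ℝ) → ℝ} {q : ℕ} {C : ℝ}

theorem sn_zero (h : SNorm ν q C) : ν 0 = 0 := by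
  have := h.smul 0 0
  simpa using this

theorem sn_nonneg (h : SNorm ν q C) (a : ℚ →₀ ℝ) : 0 ≤ ν a := by
  have h1 := h.add a ((-1 : ℝ) • a)
  have h2 : a + (-1 : ℝ) • a = 0 := by simp
  rw [h2, sn_zero h, h.smul, abs_neg, abs_one, one_mul] at h1
  linarith

theorem sn_sum_le (h : SNorm ν q C) {ι : Type} (I : Finset ι) (x : ι → (ℚ →₀ ℝ)) :
    ν (∑ i ∈ I, x i) ≤ ∑ i ∈ I, ν (x i) := by
  classical
  induction I using Finset.induction_on with
  | empty => simp [sn_zero h]
  | insert a s ha ih =>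
    rw [Finset.sum_insert ha, Finset.sum_insert ha]
    exact (h.add _ _).trans (by linarith)

theorem dd_add (f g : ℚ →₀ ℝ) : Dd (f + g) = Dd f + Dd g := by
  unfold Dd
  rw [Finsupp.mapDomain_add, Finsupp.mapDomain_add]
  abel

theorem dd_smul (t : ℝ) (f : ℚ →₀ ℝ) : Dd (t • f) = t • Dd f := by
  unfold Dd
  rw [Finsupp.mapDomain_smul, Finsupp.mapDomain_smul, smul_add]

private theorem ddb_map_le {φ : ℚ → ℚ} (hφ : Function.Injective φ) (f g : ℚ →₀ ℝ)
    (h : ∀ x, f x ≤ g x) (x : ℚ) : f.mapDomain φ x ≤ g.mapDomain φ x := by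
  by_cases hx : x ∈ Set.range φ
  · obtain ⟨y, rfl⟩ := hx
    rw [Finsupp.mapDomain_apply hφ, Finsupp.mapDomain_apply hφ]
    exact h y
  · rw [Finsupp.mapDomain_of_notMem_range _ _ hx, Finsupp.mapDomain_of_notMem_range _ _ hx]

private theorem ddb_mono (i c : ℚ) (hc : 0 < c) : StrictMono fun x : ℚ => (x + i) / c :=
  fun x y hxy => by
    change (x + i) / c < (y + i) / c
    gcongr

private theorem ddb_half : (fun x : ℚ => x / 2) = fun x : ℚ => (x + 0) / 2 := by
  funext x
  rw [add_zero]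

theorem dd_le (f g : ℚ →₀ ℝ) (h : ∀ x, f x ≤ g x) (x : ℚ) : Dd f x ≤ Dd g x := by
  unfold Dd
  rw [ddb_half, Finsupp.add_apply, Finsupp.add_apply]
  exact add_le_add (ddb_map_le (ddb_mono 0 2 two_pos).injective f g h x)
    (ddb_map_le (ddb_mono 1 2 two_pos).injective f g h x)

theorem dd_pos01 (f : ℚ →₀ ℝ) (h : Pos01 f) : Pos01 (Dd f) := by
  classical
  constructor
  · intro x
    have h1 := dd_le 0 f (fun y => h.1 y) x
    have h2 : Dd 0 = 0 := by
      unfold Dd
      rw [Finsupp.mapDomain_zero, Finsupp.mapDomain_zero, add_zero]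
    rw [h2] at h1
    exact h1
  · intro x hx
    unfold Dd at hx
    have h1 := Finsupp.support_add hx
    rw [Finset.mem_union] at h1
    rcases h1 with h1 | h1
    · obtain ⟨y, hy, rfl⟩ := Finset.mem_image.1 (Finsupp.mapDomain_support h1)
      obtain ⟨h2, h3⟩ := h.2 y hy
      constructor
      · linarith
      · linarith
    · obtain ⟨y, hy, rfl⟩ := Finset.mem_image.1 (Finsupp.mapDomain_support h1)
      obtain ⟨h2, h3⟩ := h.2 y hy
      constructor
      · linarith
      · linarith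

theorem dd_iter (f : ℚ →₀ ℝ) (k : ℕ) :
    Dd^[k] f = ∑ i ∈ range (2 ^ k), f.mapDomain (fun x : ℚ => (x + (i : ℚ)) / 2 ^ k) := by
  induction k with
  | zero =>
    rw [Function.iterate_zero, id, pow_zero, Finset.sum_range_one]
    have h1 : (fun x : ℚ => (x + ((0 : ℕ) : ℚ)) / 2 ^ 0) = id := by
      funext x
      simp
    rw [h1, Finsupp.mapDomain_id]
  | succ k ih =>
    rw [Function.iterate_succ_apply', ih]
    have hsum : ∀ (s : Finset ℕ) (g : ℕ → (ℚ →₀ ℝ)), Dd (∑ i ∈ s, g i) = ∑ i ∈ s, Dd (g i) := by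
      intro s g
      induction s using Finset.induction_on with
      | empty =>
        rw [Finset.sum_empty, Finset.sum_empty]
        unfold Dd
        rw [Finsupp.mapDomain_zero, Finsupp.mapDomain_zero, add_zero]
      | insert a s ha ih => rw [Finset.sum_insert ha, Finset.sum_insert ha, dd_add, ih]
    rw [hsum, pow_succ, mul_two, Finset.sum_range_add, ← Finset.sum_add_distrib]
    refine Finset.sum_congr rfl fun i _ => ?_
    unfold Dd
    rw [← Finsupp.mapDomain_comp, ← Finsupp.mapDomain_comp]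
    have h1 : ((fun x : ℚ => x / 2) ∘ fun x : ℚ => (x + (i : ℚ)) / 2 ^ k) =
        fun x : ℚ => (x + (i : ℚ)) / 2 ^ (k + 1) := by
      funext x
      simp only [Function.comp]
      rw [pow_succ, div_div]
    have h2 : ((fun x : ℚ => (x + 1) / 2) ∘ fun x : ℚ => (x + (i : ℚ)) / 2 ^ k) =
        fun x : ℚ => (x + ((2 ^ k + i : ℕ) : ℚ)) / 2 ^ (k + 1) := by
      funext x
      simp only [Function.comp]
      push_cast
      rw [pow_succ]
      field_simp
      ring
    rw [h1, h2]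

private theorem ddb_inv (h : SNorm ν q C) (f : ℚ →₀ ℝ) (i c : ℚ) (hc : 0 < c) :
    ν (f.mapDomain fun x : ℚ => (x + i) / c) = ν f :=
  h.inv f _ ((ddb_mono i c hc).strictMonoOn _)

theorem nu_iter_le (h : SNorm ν q C) (f : ℚ →₀ ℝ) (k : ℕ) : ν (Dd^[k] f) ≤ 2 ^ k * ν f := by
  rw [dd_iter]
  refine (sn_sum_le h _ _).trans (le_of_eq ?_)
  rw [Finset.sum_congr rfl fun (i : ℕ) _ => ddb_inv h f i (2 ^ k) (by positivity),
    Finset.sum_const, Finset.card_range, nsmul_eq_mul]
  push_cast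
  rfl

theorem nu_iter_low (h : SNorm ν q C) (f : ℚ →₀ ℝ) (hf : Pos01 f) (k : ℕ) :
    2 ^ k * ν f ^ q ≤ (C * ν (Dd^[k] f)) ^ q := by
  classical
  have h1 := h.low (2 ^ k) (fun i => f.mapDomain (fun x : ℚ => (x + (i : ℚ)) / 2 ^ k)) (by
    intro i _ j _ hij
    rw [Finset.disjoint_left]
    intro x hx hx'
    obtain ⟨y, hy, rfl⟩ := Finset.mem_image.1 (Finsupp.mapDomain_support hx)
    obtain ⟨z, hz, hyz⟩ := Finset.mem_image.1 (Finsupp.mapDomain_support hx')
    obtain ⟨h2, h3⟩ := hf.2 y hy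
    obtain ⟨h4, h5⟩ := hf.2 z hz
    have h6 : (z + (j : ℚ)) = y + (i : ℚ) := by
      have h7 : (2 : ℚ) ^ k ≠ 0 := by positivity
      have h8 : (z + (j : ℚ)) / 2 ^ k = (y + (i : ℚ)) / 2 ^ k := hyz
      rwa [div_left_inj' h7] at h8
    apply hij
    have h9 : (i : ℚ) < j + 1 := by linarith
    have h10 : (j : ℚ) < i + 1 := by linarith
    have h11 : i < j + 1 := by exact_mod_cast h9
    have h12 : j < i + 1 := by exact_mod_cast h10
    omega)
  rw [← dd_iter] at h1
  refine le_trans (le_of_eq ?_) h1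
  rw [Finset.sum_congr rfl fun (i : ℕ) _ => by
    rw [ddb_inv h f i (2 ^ k) (by positivity)], Finset.sum_const, Finset.card_range, nsmul_eq_mul]
  push_cast
  rfl

end Pool.Agent.Helper60.CR
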