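import Mathlib

/-! Project CR (MP_c423d7_an): continuum many subspaces of spaces with an unconditional basis, finite
cotype and no subspace isomorphic to `ℓ_2`. Definitions. -/

set_option autoImplicit false

namespace Pool.Agent.Helper60.CR

open Finset

/-- Finitely supported real sequences. -/
abbrev F0 : Type := ℕ →₀ ℝ

/-- A normalised lattice norm on finitely supported sequences. -/
structure Lat (N : F0 → ℝ) : Prop where
  add : ∀ a b : F0, N (a + b) ≤ N a + N b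
  smul : ∀ (t : ℝ) (a : F0), N (t • a) = |t| * N a
  mono : ∀ a b : F0, (∀ i, |a i| ≤ |b i|) → N a ≤ N b
  one : ∀ i, N (Finsupp.single i 1) = 1

/-- Lower `q`-estimate with constant `C` for disjointly supported vectors. -/
def LowQ (N : F0 → ℝ) (q : ℕ) (C : ℝ) : Prop :=
  ∀ (ι : Type) (I : Finset ι) (w : ι → F0),
    (∀ k ∈ I, ∀ l ∈ I, k ≠ l → Disjoint (w k).support (w l).support) →
    ∑ k ∈ I, N (w k) ^ q ≤ (C * N (∑ k ∈ I, w k)) ^ q

/-- The norm of `ℓ_p` on the finite set `s`. -/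
noncomputable def Bs (p : ℝ) {ι : Type} (s : Finset ι) (t : ι → ℝ) : ℝ :=
  (∑ i ∈ s, |t i| ^ p) ^ (1 / p)

/-! ### Pieces and the game -/

/-- `P` consists of disjointly supported vectors beyond `N0`, and it is `κ`-equivalent to the unit
vector basis of `ℓ_p ^ n`. -/
structure Piece (N : F0 → ℝ) (p κ : ℝ) (N0 : ℕ) (P : Finset F0) : Prop where
  lo : ∀ y ∈ P, ∀ i ∈ y.support, N0 ≤ i
  disj : ∀ y ∈ P, ∀ y' ∈ P, y ≠ y' → Disjoint y.support y'.support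
  upper : ∀ t : F0 → ℝ, N (∑ y ∈ P, t y • y) ≤ Bs p P t
  lower : ∀ t : F0 → ℝ, Bs p P t ≤ κ * N (∑ y ∈ P, t y • y)

/-- Pieces of every size exist beyond every natural number. -/
def HasPieces (N : F0 → ℝ) (p κ : ℝ) : Prop :=
  ∀ n N0 : ℕ, ∃ P : Finset F0, P.card = n ∧ Piece N p κ N0 P

/-- The game: player I names `n, N0`, player II answers with a piece, player I chooses one vector of
the piece. Player II wants to reach a combination which is large compared with the `ℓ_p` norm.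
`Win D h`: player II wins from the position `h`. -/
inductive Win (N : F0 → ℝ) (p κ D : ℝ) : Finset F0 → Prop
  | test (h : Finset F0) (τ : F0 → ℝ) (hτ : ∀ v, 0 ≤ τ v)
      (hD : D * Bs p h τ < N (∑ v ∈ h, τ v • v)) : Win N p κ D h
  | step (h : Finset F0) (P : ℕ → ℕ → Finset F0)
      (hc : ∀ n N0, (P n N0).card = n) (hP : ∀ n N0, Piece N p κ N0 (P n N0))
      (hw : ∀ n N0, ∀ y ∈ P n N0, Win N p κ D (insert y h)) : Win N p κ D h

/-- A node: its components are vectors (only finitely many of them are used). -/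
abbrev Nd : Type := ℕ → F0

noncomputable instance instDecNd : DecidableEq Nd := Classical.decEq _

/-- Support of the first `c` components. -/
def nsup (c : ℕ) (x : Nd) : Finset ℕ := (range c).biUnion (fun b => (x b).support)

/-- The nodes in `J` have `c` nonzero components beyond `N0`, all disjointly supported. -/
structure Reg (c N0 : ℕ) (J : Finset Nd) : Prop where
  ne : ∀ x ∈ J, ∀ b < c, x b ≠ 0
  lo : ∀ x ∈ J, ∀ b < c, ∀ i ∈ (x b).support, N0 ≤ i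
  disj : ∀ x ∈ J, ∀ x' ∈ J, ∀ b < c, ∀ b' < c, (x ≠ x' ∨ b ≠ b') →
    Disjoint (x b).support (x' b').support
  zero : ∀ x ∈ J, ∀ b, c ≤ b → x b = 0

/-- A test for the colouring `χ`: a combination of nodes of one colour `c' < c` for which the
component `c'` beats all other components below `c` and `M` times the `ℓ_p` norm. -/
def Test (N : F0 → ℝ) (p δ : ℝ) (c : ℕ) (M : ℝ) (J : Finset Nd) (χ : Nd → ℕ) : Prop :=
  ∃ c' < c, ∃ t : Nd → ℝ, (∀ x, 0 ≤ t x) ∧ (∀ x, t x ≠ 0 → x ∈ J ∧ χ x = c') ∧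
    (∀ b < c, b ≠ c' → N (∑ x ∈ J, t x • x b) < δ * N (∑ x ∈ J, t x • x c')) ∧
    M * Bs p J t < δ * N (∑ x ∈ J, t x • x c')

/-- Every colouring of `J` has a test or a node of colour at least `c`. -/
def TS (N : F0 → ℝ) (p δ : ℝ) (c : ℕ) (M : ℝ) (J : Finset Nd) : Prop :=
  ∀ χ : Nd → ℕ, Test N p δ c M J χ ∨ ∃ x ∈ J, c ≤ χ x

/-- Trees of groups. -/
inductive TT {α : Type} [DecidableEq α] (supp : α → Finset ℕ) (Stop : Finset α → Prop)
    (Adm : Finset α → Prop) : Finset α → Prop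
  | stop (s : Finset α) (h : Stop s) : TT supp Stop Adm s
  | step (s : Finset α) (J : ℕ → Finset α) (h1 : ∀ N0, Adm (J N0))
      (h2 : ∀ N0, ∀ x ∈ J N0, ∀ i ∈ supp x, N0 ≤ i)
      (h3 : ∀ N0, ∀ x ∈ J N0, TT supp Stop Adm (insert x s)) : TT supp Stop Adm s

/-- Level `c` groups in the first case (player II wins for all `D`). -/
def UG (N : F0 → ℝ) (p δ : ℝ) (c : ℕ) : Prop :=
  ∀ M ρ : ℝ, 0 < ρ → ∀ N0 : ℕ, ∃ J : Finset Nd, Reg c N0 J ∧ TS N p δ c M J ∧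
    ∀ x ∈ J, ∀ b < c, N (x b) ≤ ρ

/-- Stopping rule in the first case. -/
def StopU (N : F0 → ℝ) (p δ D ρ : ℝ) (c : ℕ) (s : Finset Nd) : Prop :=
  (∃ t : Nd → ℝ, (∀ x, 0 ≤ t x) ∧ ρ * D * Bs p s t < N (∑ x ∈ s, t x • x c)) ∧
    ∀ b < c, ∑ x ∈ s, N (x b) ≤ δ * ρ

/-- Admissible groups in the first case. -/
def AdmU (N : F0 → ℝ) (p δ M ρ : ℝ) (c : ℕ) (J : Finset Nd) : Prop :=
  Reg (c + 1) 0 J ∧ TS N p δ c M J ∧ (∀ x ∈ J, ∀ b < c + 1, N (x b) ≤ ρ) ∧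
    ∀ t : Nd → ℝ, (∀ x, 0 ≤ t x) → N (∑ x ∈ J, t x • x c) ≤ ρ * Bs p J t

/-- Level `c` groups in the second case; `w` are the weights of the components, `Hs` is a finite set
of positions of the game which are lost for player II. -/
def LG (N : F0 → ℝ) (p κ D δ : ℝ) (w : ℕ → ℝ) (c : ℕ) : Prop :=
  ∀ Hs : Finset (Finset F0), (∀ H ∈ Hs, ¬ Win N p κ D H) → ∀ N0 : ℕ, ∃ J : Finset Nd,
    Reg c N0 J ∧ TS N p δ c (w c) J ∧
    ∀ x ∈ J, ∀ b < c, ∃ y : F0, x b = w b • y ∧ ∀ H ∈ Hs, ¬ Win N p κ D (insert y H)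

/-- Stopping rule in the second case. -/
def StopL (N : F0 → ℝ) (p η : ℝ) (c : ℕ) (s : Finset Nd) : Prop :=
  ∃ t : Nd → ℝ, (∀ x, 0 ≤ t x) ∧ N (∑ x ∈ s, t x • ∑ b ∈ range c, x b) < η * Bs p s t

/-- Admissible groups in the second case. -/
def AdmL (N : F0 → ℝ) (p κ D δ : ℝ) (w : ℕ → ℝ) (c : ℕ) (Hs : Finset (Finset F0))
    (J : Finset Nd) : Prop :=
  Reg c 0 J ∧ TS N p δ c (w c) J ∧
    ∀ x ∈ J, ∀ b < c, ∃ y : F0, x b = w b • y ∧ ∀ H ∈ Hs, ¬ Win N p κ D (insert y H)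

/-- There is a block sequence which is equivalent to the unit vector basis of `ℓ_p`. -/
def Block (N : F0 → ℝ) (p : ℝ) : Prop :=
  ∃ (G : ℕ → F0) (c C : ℝ), 0 < c ∧ (∀ k l, k ≠ l → Disjoint (G k).support (G l).support) ∧
    ∀ (s : Finset ℕ) (t : ℕ → ℝ), (∀ i, 0 ≤ t i) →
      c * Bs p s t ≤ N (∑ i ∈ s, t i • G i) ∧ N (∑ i ∈ s, t i • G i) ≤ C * Bs p s t

/-! ### Gadgets -/

/-- The property of a gadget: for every colouring of `{0, ..., m - 1}` by four colours there is a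
combination of indices of one colour `c` whose component `c` beats the other components. -/
def Star (N : F0 → ℝ) (δ : ℝ) (m : ℕ) (f : ℕ → Fin 4 → F0) : Prop :=
  ∀ χ : ℕ → Fin 4, ∃ (c : Fin 4) (t : ℕ → ℝ), (∀ j, 0 ≤ t j) ∧
    (∀ j, t j ≠ 0 → j < m ∧ χ j = c) ∧
    ∀ b, b ≠ c → N (∑ j ∈ range m, t j • f j b) < δ * N (∑ j ∈ range m, t j • f j c)

/-- A gadget beyond `N0`. -/
structure Gadget (N : F0 → ℝ) (δ : ℝ) (N0 m : ℕ) (f : ℕ → Fin 4 → F0) : Prop where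
  ne : ∀ j < m, ∀ c, f j c ≠ 0
  lo : ∀ j < m, ∀ c, ∀ i ∈ (f j c).support, N0 ≤ i
  disj : ∀ j < m, ∀ j' < m, ∀ c c', (j ≠ j' ∨ c ≠ c') → Disjoint (f j c).support (f j' c').support
  star : Star N δ m f

/-- Gadgets exist beyond every number and for every `δ`. -/
def HasGadgets (N : F0 → ℝ) : Prop :=
  ∀ δ : ℝ, 0 < δ → ∀ N0 : ℕ, ∃ (m : ℕ) (f : ℕ → Fin 4 → F0), Gadget N δ N0 m f

/-! ### Two-dimensional pieces with four directions -/

/-- Four linear forms on the plane. -/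
def xi (lam : ℝ) (c : Fin 4) (z : ℝ × ℝ) : ℝ :=
  ![z.1, z.2, z.1 + z.2, z.1 + lam * z.2] c

/-- A vector in the kernel of `xi lam c`. -/
def kx (lam : ℝ) (c : Fin 4) : ℝ × ℝ := ![(0, 1), (1, 0), (1, -1), (lam, -1)] c

/-- The embedding of the plane given by four disjoint vectors. -/
noncomputable def vec (lam : ℝ) (f : Fin 4 → F0) (z : ℝ × ℝ) : F0 := ∑ c, xi lam c z • f c

/-- The identity of the span of the planes of a gadget (`m`, `f`, parameter `lam`) factors with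
constant `K` through the span of finitely many planes (`l ∈ L`, vectors `h l`, parameters `mu l`);
only the diagonal entries of the product are used. -/
def Fac (N : F0 → ℝ) (lam : ℝ) (m : ℕ) (f : ℕ → Fin 4 → F0) {κ : Type} (L : Finset κ) (mu : κ → ℝ)
    (h : κ → Fin 4 → F0) (K : ℝ) : Prop :=
  ∃ (α : κ → ℕ → (ℝ × ℝ →ₗ[ℝ] ℝ × ℝ)) (β : ℕ → κ → (ℝ × ℝ →ₗ[ℝ] ℝ × ℝ)),
    (∀ x : ℕ → ℝ × ℝ, N (∑ j ∈ range m, ∑ l ∈ L, vec (mu l) (h l) (α l j (x j))) ≤
      K * N (∑ j ∈ range m, vec lam (f j) (x j))) ∧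
    (∀ z : κ → ℝ × ℝ, N (∑ j ∈ range m, vec lam (f j) (∑ l ∈ L, β j l (z l))) ≤
      K * N (∑ l ∈ L, vec (mu l) (h l) (z l))) ∧
    ∀ j < m, 1 / 2 ≤ ∑ l ∈ L, (β j l (α l j (1, 0))).1

/-- A system of gadgets. -/
structure Sys (N : F0 → ℝ) (lam δ : ℕ → ℝ) (m : ℕ → ℕ) (f : ℕ → ℕ → Fin 4 → F0) : Prop where
  ne : ∀ n, ∀ j < m n, ∀ c, f n j c ≠ 0
  disj : ∀ n n', ∀ j < m n, ∀ j' < m n', ∀ c c', (n ≠ n' ∨ j ≠ j' ∨ c ≠ c') →
    Disjoint (f n j c).support (f n' j' c').support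
  star : ∀ n, Star N (δ n) (m n) (f n)
  lam_mem : ∀ n, 5 / 2 ≤ lam n ∧ lam n ≤ 3

/-! ### The spreading norm -/

/-- Limit along a nonprincipal ultrafilter. -/
noncomputable def ulim (g : ℕ → ℝ) : ℝ := Filter.limUnder (Filter.hyperfilter ℕ : Filter ℕ) g

/-- Iterated limit of `N (w + ∑ a_k e_{i_k})`. -/
noncomputable def Lf (N : F0 → ℝ) : List ℝ → F0 → ℝ
  | [], w => N w
  | a :: as, w => ulim (fun i => Lf N as (w + Finsupp.single i a))

/-- The spreading norm on finitely supported functions on `ℚ`. -/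
noncomputable def nu (N : F0 → ℝ) (f : ℚ →₀ ℝ) : ℝ :=
  Lf N ((f.support.sort (· ≤ ·)).map f) 0

/-- Abstract spreading lattice norms with a lower `q`-estimate. -/
structure SNorm (ν : (ℚ →₀ ℝ) → ℝ) (q : ℕ) (C : ℝ) : Prop where
  add : ∀ a b, ν (a + b) ≤ ν a + ν b
  smul : ∀ (t : ℝ) a, ν (t • a) = |t| * ν a
  mono : ∀ a b : ℚ →₀ ℝ, (∀ x, |a x| ≤ |b x|) → ν a ≤ ν b
  one : ∀ x, ν (Finsupp.single x 1) = 1
  inv : ∀ (a : ℚ →₀ ℝ) (φ : ℚ → ℚ), StrictMonoOn φ a.support → ν (a.mapDomain φ) = ν a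
  low : ∀ (n : ℕ) (w : ℕ → (ℚ →₀ ℝ)),
    (∀ k < n, ∀ l < n, k ≠ l → Disjoint (w k).support (w l).support) →
    ∑ k ∈ range n, ν (w k) ^ q ≤ (C * ν (∑ k ∈ range n, w k)) ^ q

/-- Doubling: two successive copies, rescaled to `[0, 1)`. -/
noncomputable def Dd (f : ℚ →₀ ℝ) : ℚ →₀ ℝ :=
  f.mapDomain (fun x => x / 2) + f.mapDomain (fun x => (x + 1) / 2)

/-- Support in `[0, 1)` and nonnegative values. -/
def Pos01 (f : ℚ →₀ ℝ) : Prop := (∀ x, 0 ≤ f x) ∧ ∀ x ∈ f.support, 0 ≤ x ∧ x < 1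

/-- Translation by `j`. -/
noncomputable def Sh (j : ℚ) (f : ℚ →₀ ℝ) : ℚ →₀ ℝ := f.mapDomain (fun x => x + j)

/-! ### The mixed norm -/

/-- The `k`-th block of indices; it has `2 ^ k` elements. -/
def blk (k : ℕ) : Finset ℕ := Finset.Ico (2 ^ k - 1) (2 ^ (k + 1) - 1)

/-- The number of the block of an index. -/
def bk (i : ℕ) : ℕ := Nat.log 2 (i + 1)

/-- The norm of the `ℓ_p` sum of the spaces `ℓ_2 ^ (2 ^ k)`. -/
noncomputable def Mx (p : ℝ) (a : F0) : ℝ :=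
  Bs p (a.support.image bk) (fun k => Real.sqrt (∑ i ∈ blk k, a i ^ 2))

/-! ### The Banach space side -/

section banach

variable {X : Type*} [NormedAddCommGroup X] [NormedSpace ℝ X]

/-- `N` is equivalent to the norm of the sequence `e`. -/
def Equi (N : F0 → ℝ) (e : ℕ → X) (C : ℝ) : Prop :=
  ∀ a : F0, ‖Finsupp.linearCombination ℝ e a‖ ≤ N a ∧
    N a ≤ C * ‖Finsupp.linearCombination ℝ e a‖

/-- The closed span of the planes with index in `A`. -/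
noncomputable def Ysub (e : ℕ → X) (lam : ℕ → ℝ) (m : ℕ → ℕ) (f : ℕ → ℕ → Fin 4 → F0)
    (A : Set ℕ) : Submodule ℝ X :=
  (Submodule.span ℝ {u | ∃ n ∈ A, ∃ j < m n, ∃ z : ℝ × ℝ,
    u = Finsupp.linearCombination ℝ e (vec (lam n) (f n j) z)}).topologicalClosure

/-- The sequence `e` is unconditional with constant `C`: its members are not zero and changing signs
of the coefficients changes the norm by a factor at most `C`. -/
structure Uncond (e : ℕ → X) (C : ℝ) : Prop where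
  ne_zero : ∀ i, e i ≠ 0
  sign : ∀ (J : Finset ℕ) (x θ : ℕ → ℝ), (∀ i, θ i = 1 ∨ θ i = -1) →
    ‖∑ i ∈ J, (θ i * x i) • e i‖ ≤ C * ‖∑ i ∈ J, x i • e i‖

/-- Cotype `q` with constant `C` of a subspace `V`: `∑ ‖x_l‖ ^ q` is at most `C ^ q` times the average
over all signs of `‖∑ ± x_l‖ ^ q`. -/
def Cotype (V : Submodule ℝ X) (q : ℕ) (C : ℝ) : Prop :=
  ∀ (I : Finset ℕ) (x : ℕ → X), (∀ l, x l ∈ V) →
    ∑ l ∈ I, ‖x l‖ ^ q ≤
      C ^ q * ((∑ S ∈ I.powerset, ‖∑ l ∈ I, (if l ∈ S then (1 : ℝ) else -1) • x l‖ ^ q) / 2 ^ I.card)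

end banach

end Pool.Agent.Helper60.CR
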