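import Pool.Agent.Helper60.CR.Defs

/-! Project CR: definitions for the version with `E_0`. -/

set_option autoImplicit false

namespace Pool.Agent.Helper60.CR

/-- The span of the planes of the gadget `k`. -/
noncomputable def Epl {X : Type*} [NormedAddCommGroup X] [NormedSpace ℝ X] (e : ℕ → X)
    (lam : ℕ → ℝ) (m : ℕ → ℕ) (f : ℕ → ℕ → Fin 4 → F0) (k : ℕ) : Submodule ℝ X :=
  Submodule.span ℝ {u | ∃ j < m k, ∃ z : ℝ × ℝ,
    u = Finsupp.linearCombination ℝ e (vec (lam k) (f k j) z)}

end Pool.Agent.Helper60.CR
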