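import Pool.Agent.Helper60.CR.DdBasic

/-! CR-56 (eigen). Approximate eigenvectors of the doubling operator.
PROOF. `λ = 2^(1/p)`, `1 ≤ λ`. Choose `r ∈ (0,1)` with `λ (1/r - 1) = η/3` and then `k` with `2 λ r^k ≤ η/3`. Let `x` be as in `h1` for `k`: `Pos01 x`, `ν x ≤ 1`, `ν (Dd^[k] x) ≥ λ^k / 2`. Let `ε > 0` with `(1+ε) r < 1`,
`B` from `h2` for `ε` (`B ≥ 0` may be assumed).
For `J > k` let `w j = r^|j-k|` (distance in `ℕ`) and `F = ∑ j ∈ range (J+1), (w j * λ^(-j)) • Dd^[j] x`. `F` is `Pos01` and `F ≥ λ^(-k) Dd^[k] x` coordinatewise (`w k = 1`, all terms are nonnegative), so `ν F ≥ 1/2`.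
`Dd F - λ • F = w J λ^(-J) • Dd^[J+1] x - w 0 λ • x + ∑ j ∈ range J, (w j - w (j+1)) λ^(-j) • Dd^[j+1] x`. `|w j - w (j+1)| ≤ (1/r - 1) w (j+1)`, so the last sum is coordinatewise at most `λ (1/r - 1) F` in absolute value, hence `ν ≤ (η/3) ν F`. The second term: `ν ≤ λ r^k ≤ 2 λ r^k ν F ≤ (η/3) ν F`.
The first: `ν ≤ r^(J-k) λ^(-J) B ((1+ε) λ)^(J+1) → 0` for `J → ∞`, so it is `≤ η/6 ≤ (η/3) ν F` for large `J`. So `ν (Dd F - λ • F) ≤ η ν F`; take `f = (ν F)⁻¹ • F`. -/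

set_option autoImplicit false

namespace Pool.Agent.Helper60.CR

open Finset

theorem pos01_zero' : Pos01 (0 : ℚ →₀ ℝ) :=
  ⟨fun _ => le_refl _, fun x hx => absurd hx (by simp)⟩

theorem pos01_add' {f g : ℚ →₀ ℝ} (hf : Pos01 f) (hg : Pos01 g) : Pos01 (f + g) := by
  refine ⟨fun x => ?_, fun x hx => ?_⟩
  · rw [Finsupp.add_apply]
    exact add_nonneg (hf.1 x) (hg.1 x)
  · rcases mem_union.1 (Finsupp.support_add hx) with h | h
    · exact hf.2 x h
    · exact hg.2 x h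

theorem pos01_smul' {t : ℝ} (ht : 0 ≤ t) {f : ℚ →₀ ℝ} (hf : Pos01 f) : Pos01 (t • f) := by
  refine ⟨fun x => ?_, fun x hx => ?_⟩
  · rw [Finsupp.smul_apply, smul_eq_mul]
    exact mul_nonneg ht (hf.1 x)
  · exact hf.2 x (Finsupp.support_smul hx)

theorem pos01_sum' {ι : Type} (s : Finset ι) (g : ι → (ℚ →₀ ℝ)) (hg : ∀ i ∈ s, Pos01 (g i)) :
    Pos01 (∑ i ∈ s, g i) :=
  Finset.sum_induction g Pos01 (fun _ _ => pos01_add') pos01_zero' hg

theorem dd_iter_pos01' {f : ℚ →₀ ℝ} (hf : Pos01 f) (k : ℕ) : Pos01 (Dd^[k] f) := by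
  induction k with
  | zero => exact hf
  | succ k ih => rw [Function.iterate_succ_apply']; exact dd_pos01 _ ih

theorem dd_sub' (a b : ℚ →₀ ℝ) : Dd (a - b) = Dd a - Dd b := by
  rw [sub_eq_add_neg, dd_add, ← neg_one_smul ℝ b, dd_smul, neg_one_smul, ← sub_eq_add_neg]

theorem dd_sum' {ι : Type} (s : Finset ι) (g : ι → (ℚ →₀ ℝ)) :
    Dd (∑ i ∈ s, g i) = ∑ i ∈ s, Dd (g i) := by
  classical
  induction s using Finset.induction_on with
  | empty =>
    rw [sum_empty, sum_empty]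
    have h := dd_smul 0 0
    rwa [zero_smul, zero_smul] at h
  | insert a s ha ih => rw [sum_insert ha, sum_insert ha, dd_add, ih]

/-- The weights. -/
noncomputable def wt (r : ℝ) (k j : ℕ) : ℝ := r ^ ((j - k) + (k - j))

theorem wt_pos {r : ℝ} (hr : 0 < r) (k j : ℕ) : 0 < wt r k j := pow_pos hr _

theorem wt_diff {r : ℝ} (hr : 0 < r) (hr1 : r < 1) (k j : ℕ) :
    |wt r k j - wt r k (j + 1)| ≤ (1 / r - 1) * wt r k (j + 1) := by
  unfold wt
  rcases Nat.lt_or_ge j k with h | h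
  · have h1 : (j - k) + (k - j) = (k - (j + 1)) + 1 := by omega
    have h2 : (j + 1 - k) + (k - (j + 1)) = k - (j + 1) := by omega
    rw [h1, h2, pow_succ]
    have h3 : 0 < r ^ (k - (j + 1)) := pow_pos hr _
    have h4 : r ^ (k - (j + 1)) * r - r ^ (k - (j + 1)) = - ((1 - r) * r ^ (k - (j + 1))) := by ring
    rw [h4, abs_neg, abs_of_nonneg (mul_nonneg (by linarith) h3.le)]
    refine mul_le_mul_of_nonneg_right ?_ h3.le
    have h5 : 1 / r - 1 = (1 - r) / r := by field_simp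
    rw [h5, le_div_iff₀ hr]
    nlinarith
  · have h1 : (j - k) + (k - j) = j - k := by omega
    have h2 : (j + 1 - k) + (k - (j + 1)) = (j - k) + 1 := by omega
    rw [h1, h2, pow_succ]
    have h3 : 0 < r ^ (j - k) := pow_pos hr _
    have h4 : r ^ (j - k) - r ^ (j - k) * r = (1 - r) * r ^ (j - k) := by ring
    rw [h4, abs_of_nonneg (mul_nonneg (by linarith) h3.le)]
    have h5 : (1 / r - 1) * (r ^ (j - k) * r) = (1 - r) * r ^ (j - k) := by
      field_simp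
    rw [h5]

theorem eigen (ν : (ℚ →₀ ℝ) → ℝ) (q : ℕ) (C : ℝ) (h : SNorm ν q C) (p : ℝ) (hp : 1 ≤ p)
    (h1 : ∀ k : ℕ, ∃ f, Pos01 f ∧ ν f ≤ 1 ∧ ((2 : ℝ) ^ (1 / p)) ^ k / 2 ≤ ν (Dd^[k] f))
    (h2 : ∀ ε : ℝ, 0 < ε → ∃ B : ℝ, ∀ (k : ℕ) (f : ℚ →₀ ℝ), Pos01 f →
      ν (Dd^[k] f) ≤ B * ((1 + ε) * (2 : ℝ) ^ (1 / p)) ^ k * ν f)
    (η : ℝ) (hη : 0 < η) :
    ∃ f : ℚ →₀ ℝ, Pos01 f ∧ ν f = 1 ∧ ν (Dd f - (2 : ℝ) ^ (1 / p) • f) ≤ η := by
  have hL1 : (1 : ℝ) ≤ (2 : ℝ) ^ (1 / p) := Real.one_le_rpow (by norm_num) (by positivity)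
  set L : ℝ := (2 : ℝ) ^ (1 / p) with hL
  have hL0 : 0 < L := by linarith
  -- the parameter `r`
  obtain ⟨r, hr0, hr1, hrL⟩ : ∃ r : ℝ, 0 < r ∧ r < 1 ∧ L * (1 / r - 1) = η / 3 := by
    refine ⟨3 * L / (3 * L + η), by positivity, ?_, ?_⟩
    · rw [div_lt_one (by positivity)]
      linarith
    · field_simp
      ring
  obtain ⟨k, hk⟩ : ∃ k : ℕ, 2 * L * r ^ k ≤ η / 3 := by
    obtain ⟨k, hk⟩ := exists_pow_lt_of_lt_one (show 0 < η / 3 / (2 * L) by positivity) hr1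
    refine ⟨k, ?_⟩
    rw [lt_div_iff₀ (by positivity)] at hk
    linarith
  obtain ⟨x, hx, hx1, hxk⟩ := h1 k
  obtain ⟨ε, hε, hεr⟩ : ∃ ε : ℝ, 0 < ε ∧ (1 + ε) * r < 1 := by
    refine ⟨(1 - r) / (2 * r), by apply div_pos <;> linarith, ?_⟩
    have : (1 + (1 - r) / (2 * r)) * r = (1 + r) / 2 := by field_simp; ring
    rw [this]
    linarith
  obtain ⟨B0, hB0⟩ := h2 ε hε
  obtain ⟨B, hB, hBn⟩ : ∃ B : ℝ, (∀ (k : ℕ) (f : ℚ →₀ ℝ), Pos01 f →
      ν (Dd^[k] f) ≤ B * ((1 + ε) * L) ^ k * ν f) ∧ 0 ≤ B := by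
    refine ⟨max B0 0, fun k f hf => (hB0 k f hf).trans ?_, le_max_right _ _⟩
    refine mul_le_mul_of_nonneg_right ?_ (sn_nonneg h f)
    exact mul_le_mul_of_nonneg_right (le_max_left _ _) (by positivity)
  -- the length
  obtain ⟨i, hi⟩ : ∃ i : ℕ, B * (1 + ε) ^ (k + 1) * L * ((1 + ε) * r) ^ i ≤ η / 6 := by
    have hD : 0 ≤ B * (1 + ε) ^ (k + 1) * L := by positivity
    obtain ⟨i, hi⟩ := exists_pow_lt_of_lt_one
      (show 0 < η / 6 / (B * (1 + ε) ^ (k + 1) * L + 1) by positivity) hεr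
    refine ⟨i, ?_⟩
    rw [lt_div_iff₀ (by positivity)] at hi
    have h3 : 0 ≤ ((1 + ε) * r) ^ i := by positivity
    nlinarith
  set J : ℕ := k + i with hJ
  -- the coefficients and vectors
  let c : ℕ → ℝ := fun j => wt r k j * (L⁻¹) ^ j
  let g : ℕ → (ℚ →₀ ℝ) := fun j => Dd^[j] x
  have hc : ∀ j, 0 < c j := fun j => mul_pos (wt_pos hr0 k j) (by positivity)
  have hg : ∀ j, Pos01 (g j) := fun j => dd_iter_pos01' hx j
  have hDg : ∀ j, Dd (g j) = g (j + 1) := fun j => (Function.iterate_succ_apply' Dd j x).symm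
  let F : ℚ →₀ ℝ := ∑ j ∈ range (J + 1), c j • g j
  have hF : Pos01 F := pos01_sum' _ _ fun j _ => pos01_smul' (hc j).le (hg j)
  have hFval : ∀ y, F y = ∑ j ∈ range (J + 1), c j * g j y := by
    intro y
    simp only [F, Finsupp.coe_finsetSum, Finset.sum_apply, Finsupp.smul_apply, smul_eq_mul]
  have hFlow : 1 / 2 ≤ ν F := by
    have h3 : ν (c k • g k) ≤ ν F := by
      apply h.mono
      intro y
      rw [Finsupp.smul_apply, smul_eq_mul, abs_of_nonneg (mul_nonneg (hc k).le ((hg k).1 y)),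
        abs_of_nonneg (hF.1 y), hFval]
      exact single_le_sum (f := fun j => c j * g j y)
        (fun j _ => mul_nonneg (hc j).le ((hg j).1 y)) (mem_range.2 (by omega))
    have h4 : c k = (L⁻¹) ^ k := by
      simp only [c, wt]
      rw [Nat.sub_self, Nat.add_zero, pow_zero, one_mul]
    rw [h.smul, abs_of_pos (hc k), h4] at h3
    refine le_trans ?_ h3
    calc (1 / 2 : ℝ) = (L⁻¹) ^ k * (L ^ k / 2) := by
          rw [inv_pow]
          field_simp
      _ ≤ (L⁻¹) ^ k * ν (g k) := mul_le_mul_of_nonneg_left hxk (by positivity)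
  have hF0 : 0 < ν F := by linarith
  -- the difference
  have hdiff : Dd F - L • F = c J • g (J + 1) - (L * c 0) • g 0 +
      ∑ j ∈ range J, (c j - L * c (j + 1)) • g (j + 1) := by
    have h3 : Dd F = ∑ j ∈ range J, c j • g (j + 1) + c J • g (J + 1) := by
      simp only [F]
      rw [dd_sum', ← sum_range_succ]
      exact sum_congr rfl fun j _ => by rw [dd_smul, hDg]
    have h4 : L • F = ∑ j ∈ range J, (L * c (j + 1)) • g (j + 1) + (L * c 0) • g 0 := by
      simp only [F]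
      rw [smul_sum, sum_range_succ']
      simp only [smul_smul]
    rw [h3, h4]
    simp only [sub_smul, sum_sub_distrib]
    abel
  have hthird : ν (∑ j ∈ range J, (c j - L * c (j + 1)) • g (j + 1)) ≤ (η / 3) * ν F := by
    have h3 : ν (∑ j ∈ range J, (c j - L * c (j + 1)) • g (j + 1)) ≤ ν ((η / 3) • F) := by
      apply h.mono
      intro y
      rw [Finsupp.smul_apply, smul_eq_mul, abs_of_nonneg (mul_nonneg (by positivity) (hF.1 y)),
        Finsupp.coe_finsetSum, Finset.sum_apply]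
      refine (abs_sum_le_sum_abs _ _).trans ?_
      have h4 : ∀ j ∈ range J, |((c j - L * c (j + 1)) • g (j + 1)) y| ≤
          (η / 3) * (c (j + 1) * g (j + 1) y) := by
        intro j _
        rw [Finsupp.smul_apply, smul_eq_mul, abs_mul, abs_of_nonneg ((hg (j + 1)).1 y)]
        have h5 : |c j - L * c (j + 1)| ≤ (η / 3) * c (j + 1) := by
          have h6 : c j - L * c (j + 1) = (wt r k j - wt r k (j + 1)) * (L⁻¹) ^ j := by
            simp only [c]
            rw [pow_succ]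
            field_simp
          have h7 : (η / 3) * c (j + 1) = ((1 / r - 1) * wt r k (j + 1)) * (L⁻¹) ^ j := by
            rw [← hrL]
            simp only [c]
            rw [pow_succ]
            field_simp
          rw [h6, h7, abs_mul, abs_of_pos (show 0 < (L⁻¹) ^ j by positivity)]
          exact mul_le_mul_of_nonneg_right (wt_diff hr0 hr1 k j) (by positivity)
        calc |c j - L * c (j + 1)| * g (j + 1) y ≤ (η / 3) * c (j + 1) * g (j + 1) y :=
              mul_le_mul_of_nonneg_right h5 ((hg (j + 1)).1 y)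
          _ = (η / 3) * (c (j + 1) * g (j + 1) y) := by ring
      refine (sum_le_sum h4).trans ?_
      rw [← mul_sum, hFval, sum_range_succ']
      refine mul_le_mul_of_nonneg_left ?_ (by positivity)
      have h8 : 0 ≤ c 0 * g 0 y := mul_nonneg (hc 0).le ((hg 0).1 y)
      linarith
    rw [h.smul, abs_of_pos (by positivity)] at h3
    exact h3
  have hsecond : ν ((L * c 0) • g 0) ≤ (η / 3) * ν F := by
    rw [h.smul, abs_of_pos (mul_pos hL0 (hc 0))]
    have h3 : c 0 = r ^ k := by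
      simp only [c, wt]
      rw [Nat.zero_sub, Nat.sub_zero, Nat.zero_add, pow_zero, mul_one]
    have h4 : ν (g 0) ≤ 1 := hx1
    rw [h3]
    calc L * r ^ k * ν (g 0) ≤ L * r ^ k * 1 := mul_le_mul_of_nonneg_left h4 (by positivity)
      _ = (2 * L * r ^ k) * (1 / 2) := by ring
      _ ≤ (η / 3) * ν F := mul_le_mul hk hFlow (by norm_num) (by positivity)
  have hfirst : ν (c J • g (J + 1)) ≤ (η / 3) * ν F := by
    rw [h.smul, abs_of_pos (hc J)]
    have h3 := hB (J + 1) x hx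
    have h4 : c J = r ^ i * (L⁻¹) ^ J := by
      simp only [c, wt]
      congr 2
      omega
    have h5 : B * ((1 + ε) * L) ^ (J + 1) * ν x ≤ B * ((1 + ε) * L) ^ (J + 1) * 1 :=
      mul_le_mul_of_nonneg_left hx1 (by positivity)
    calc c J * ν (g (J + 1)) ≤ c J * (B * ((1 + ε) * L) ^ (J + 1) * 1) :=
          mul_le_mul_of_nonneg_left (h3.trans h5) (hc J).le
      _ = B * (1 + ε) ^ (k + 1) * L * ((1 + ε) * r) ^ i := by
          rw [h4, hJ, mul_pow, mul_pow, inv_pow, show k + i + 1 = (k + 1) + i by ring,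
            pow_add (1 + ε) (k + 1) i, show (k + 1) + i = (k + i) + 1 by ring, pow_succ L]
          field_simp
      _ ≤ η / 6 := hi
      _ = (η / 3) * (1 / 2) := by ring
      _ ≤ (η / 3) * ν F := mul_le_mul_of_nonneg_left hFlow (by positivity)
  have htot : ν (Dd F - L • F) ≤ η * ν F := by
    rw [hdiff]
    have h3 := h.add (c J • g (J + 1) - (L * c 0) • g 0)
      (∑ j ∈ range J, (c j - L * c (j + 1)) • g (j + 1))
    have h4 : ν (c J • g (J + 1) - (L * c 0) • g 0) ≤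
        ν (c J • g (J + 1)) + ν ((L * c 0) • g 0) := by
      rw [sub_eq_add_neg]
      refine (h.add _ _).trans (le_of_eq ?_)
      have h5 : ν (-((L * c 0) • g 0)) = ν ((L * c 0) • g 0) := by
        rw [← neg_one_smul ℝ ((L * c 0) • g 0), h.smul (-1), abs_neg, abs_one, one_mul]
      rw [h5]
    linarith
  have hinv : 0 < (ν F)⁻¹ := inv_pos.2 hF0
  refine ⟨(ν F)⁻¹ • F, pos01_smul' hinv.le hF, ?_, ?_⟩
  · rw [h.smul, abs_of_pos hinv, inv_mul_cancel₀ hF0.ne']
  · have h3 : Dd ((ν F)⁻¹ • F) - L • (ν F)⁻¹ • F = (ν F)⁻¹ • (Dd F - L • F) := by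
      rw [dd_smul, smul_sub, smul_comm L]
    rw [h3, h.smul, abs_of_pos hinv]
    calc (ν F)⁻¹ * ν (Dd F - L • F) ≤ (ν F)⁻¹ * (η * ν F) :=
          mul_le_mul_of_nonneg_left htot hinv.le
      _ = η := by field_simp

end Pool.Agent.Helper60.CR
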