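import Pool.Agent.Helper60.CR.DdBasic

/-! CR-57 (eigen_pow). Powers of the doubling operator on approximate eigenvectors.
PROOF. `λ = 2^(1/p) ≤ 2`. Take `f` from `he` with `η = θ / (s * 2^s + 1)`. By induction on `j`
`ν (Dd^[j] f - λ^j • f) ≤ j 2^j η`, since `Dd^[j+1] f - λ^(j+1) • f = Dd (Dd^[j] f - λ^j • f) + λ^j • (Dd f - λ • f)`. -/

set_option autoImplicit false

namespace Pool.Agent.Helper60.CR

open Finset

theorem eigen_pow (ν : (ℚ →₀ ℝ) → ℝ) (q : ℕ) (C : ℝ) (h : SNorm ν q C) (p : ℝ) (hp : 1 ≤ p)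
    (he : ∀ η : ℝ, 0 < η → ∃ f : ℚ →₀ ℝ, Pos01 f ∧ ν f = 1 ∧
      ν (Dd f - (2 : ℝ) ^ (1 / p) • f) ≤ η)
    (s : ℕ) (θ : ℝ) (hθ : 0 < θ) :
    ∃ f : ℚ →₀ ℝ, Pos01 f ∧ ν f = 1 ∧
      ∀ j ≤ s, ν (Dd^[j] f - ((2 : ℝ) ^ (1 / p)) ^ j • f) ≤ θ := by
  have hL0 : (0 : ℝ) < (2 : ℝ) ^ (1 / p) := Real.rpow_pos_of_pos (by norm_num) _
  have hL2 : (2 : ℝ) ^ (1 / p) ≤ 2 := by
    have h1 : (1 : ℝ) / p ≤ 1 := by
      rw [div_le_one (by linarith)]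
      exact hp
    calc (2 : ℝ) ^ (1 / p) ≤ (2 : ℝ) ^ (1 : ℝ) := Real.rpow_le_rpow_of_exponent_le (by norm_num) h1
      _ = 2 := Real.rpow_one 2
  have hden : (0 : ℝ) < (s : ℝ) * 2 ^ s + 1 := by positivity
  obtain ⟨f, hf, hf1, hf2⟩ := he (θ / ((s : ℝ) * 2 ^ s + 1)) (div_pos hθ hden)
  refine ⟨f, hf, hf1, fun j hj => ?_⟩
  have hsub : ∀ a b : ℚ →₀ ℝ, Dd (a - b) = Dd a - Dd b := by
    intro a b
    rw [sub_eq_add_neg, dd_add, ← neg_one_smul ℝ b, dd_smul, neg_one_smul, ← sub_eq_add_neg]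
  have hη0 : 0 ≤ θ / ((s : ℝ) * 2 ^ s + 1) := (div_pos hθ hden).le
  have key : ∀ j : ℕ, ν (Dd^[j] f - ((2 : ℝ) ^ (1 / p)) ^ j • f) ≤
      (j : ℝ) * 2 ^ j * (θ / ((s : ℝ) * 2 ^ s + 1)) := by
    intro j
    induction j with
    | zero =>
      simp [sn_zero h]
    | succ j ih =>
      have h1 : Dd^[j + 1] f - ((2 : ℝ) ^ (1 / p)) ^ (j + 1) • f =
          Dd (Dd^[j] f - ((2 : ℝ) ^ (1 / p)) ^ j • f) +
            ((2 : ℝ) ^ (1 / p)) ^ j • (Dd f - (2 : ℝ) ^ (1 / p) • f) := by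
        rw [hsub, dd_smul, smul_sub, smul_smul, ← pow_succ, Function.iterate_succ_apply']
        abel
      have h2 : ν (Dd (Dd^[j] f - ((2 : ℝ) ^ (1 / p)) ^ j • f)) ≤
          2 * ν (Dd^[j] f - ((2 : ℝ) ^ (1 / p)) ^ j • f) := by
        have := nu_iter_le h (Dd^[j] f - ((2 : ℝ) ^ (1 / p)) ^ j • f) 1
        simpa using this
      have h3 : ν (((2 : ℝ) ^ (1 / p)) ^ j • (Dd f - (2 : ℝ) ^ (1 / p) • f)) ≤
          2 ^ j * (θ / ((s : ℝ) * 2 ^ s + 1)) := by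
        rw [h.smul, abs_of_pos (pow_pos hL0 j)]
        exact mul_le_mul (pow_le_pow_left₀ hL0.le hL2 j) hf2 (sn_nonneg h _) (by positivity)
      calc ν (Dd^[j + 1] f - ((2 : ℝ) ^ (1 / p)) ^ (j + 1) • f)
          ≤ ν (Dd (Dd^[j] f - ((2 : ℝ) ^ (1 / p)) ^ j • f)) +
            ν (((2 : ℝ) ^ (1 / p)) ^ j • (Dd f - (2 : ℝ) ^ (1 / p) • f)) := by
            rw [h1]
            exact h.add _ _
        _ ≤ 2 * ((j : ℝ) * 2 ^ j * (θ / ((s : ℝ) * 2 ^ s + 1))) +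
            2 ^ j * (θ / ((s : ℝ) * 2 ^ s + 1)) := by
            refine add_le_add (h2.trans ?_) h3
            linarith
        _ ≤ ((j + 1 : ℕ) : ℝ) * 2 ^ (j + 1) * (θ / ((s : ℝ) * 2 ^ s + 1)) := by
            push_cast
            have h4 : 0 ≤ (2 : ℝ) ^ j * (θ / ((s : ℝ) * 2 ^ s + 1)) := by positivity
            have h6 : ((j : ℝ) + 1) * 2 ^ (j + 1) * (θ / ((s : ℝ) * 2 ^ s + 1)) =
                2 * ((j : ℝ) * 2 ^ j * (θ / ((s : ℝ) * 2 ^ s + 1))) +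
                  2 * (2 ^ j * (θ / ((s : ℝ) * 2 ^ s + 1))) := by
              rw [pow_succ]
              ring
            rw [h6]
            linarith
  refine (key j).trans ?_
  have h5 : (j : ℝ) * 2 ^ j ≤ (s : ℝ) * 2 ^ s := by
    refine mul_le_mul (by exact_mod_cast hj) (pow_le_pow_right₀ (by norm_num) hj) (by positivity)
      (by positivity)
  calc (j : ℝ) * 2 ^ j * (θ / ((s : ℝ) * 2 ^ s + 1))
      ≤ ((s : ℝ) * 2 ^ s + 1) * (θ / ((s : ℝ) * 2 ^ s + 1)) :=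
        mul_le_mul_of_nonneg_right (by linarith) hη0
    _ = θ := by field_simp

end Pool.Agent.Helper60.CR
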