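import Pool.Agent.Helper60.CR.Basic

/-! CR-08 (group_gadget). A group of level four is a gadget.
PROOF. `m = G.card`, `f j c = (G.equivFin.symm ⟨j, _⟩ : Nd) c` for `j < m`, else `0`. `ne`, `lo`, `disj` from `Reg 4` (different `j < m` give different nodes). `star`: for `χ : ℕ → Fin 4` let
`χ' x` be the colour of the index of `x` for `x ∈ G` (a number `< 4`), else `0`. `TS` gives a test `c' < 4`, `t`; put `t' j = t (node j)` for `j < m`, else `0`. The sums over `range m` are the
sums over `G`. For `b ≠ c'`: by the test. -/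

set_option autoImplicit false

namespace Pool.Agent.Helper60.CR

open Finset

/-- The nodes of a group, numbered. -/
noncomputable def gnode (G : Finset Nd) (j : ℕ) : Nd :=
  if h : j < G.card then (G.equivFin.symm ⟨j, h⟩ : Nd) else 0

lemma gnode_of_lt (G : Finset Nd) {j : ℕ} (h : j < G.card) :
    gnode G j = (G.equivFin.symm ⟨j, h⟩ : Nd) := by
  unfold gnode
  rw [dif_pos h]

lemma gnode_mem (G : Finset Nd) {j : ℕ} (h : j < G.card) : gnode G j ∈ G := by
  rw [gnode_of_lt G h]
  exact (G.equivFin.symm ⟨j, h⟩).2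

lemma equivFin_gnode (G : Finset Nd) {j : ℕ} (h : j < G.card) (hx : gnode G j ∈ G) :
    G.equivFin ⟨gnode G j, hx⟩ = ⟨j, h⟩ := by
  have h1 : (⟨gnode G j, hx⟩ : G) = G.equivFin.symm ⟨j, h⟩ := Subtype.ext (gnode_of_lt G h)
  rw [h1, Equiv.apply_symm_apply]

lemma gnode_ne (G : Finset Nd) {j j' : ℕ} (h : j < G.card) (h' : j' < G.card) (hj : j ≠ j') :
    gnode G j ≠ gnode G j' := by
  intro heq
  rw [gnode_of_lt G h, gnode_of_lt G h'] at heq
  have h1 := G.equivFin.symm.injective (Subtype.ext heq)
  exact hj (congrArg Fin.val h1)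

lemma sum_gnode {M : Type*} [AddCommMonoid M] (G : Finset Nd) (g : Nd → M) :
    ∑ j ∈ range G.card, g (gnode G j) = ∑ x ∈ G, g x := by
  rw [Finset.sum_range, ← Finset.sum_coe_sort G g,
    ← Equiv.sum_comp G.equivFin.symm (fun x : G => g (x : Nd))]
  apply Finset.sum_congr rfl
  intro i _
  rw [gnode_of_lt G i.2]

theorem group_gadget (N : F0 → ℝ) (p δ M : ℝ) (N0 : ℕ) (G : Finset Nd) (hG : Reg 4 N0 G)
    (hT : TS N p δ 4 M G) : ∃ (m : ℕ) (f : ℕ → Fin 4 → F0), Gadget N δ N0 m f := by
  classical
  refine ⟨G.card, fun j c => gnode G j c, ?_, ?_, ?_, ?_⟩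
  · intro j hj c
    exact hG.ne _ (gnode_mem G hj) c c.2
  · intro j hj c
    exact hG.lo _ (gnode_mem G hj) c c.2
  · intro j hj j' hj' c c' h
    apply hG.disj _ (gnode_mem G hj) _ (gnode_mem G hj') c c.2 c' c'.2
    rcases h with h | h
    · exact Or.inl (gnode_ne G hj hj' h)
    · exact Or.inr fun h' => h (Fin.ext h')
  · intro χ
    let χ' : Nd → ℕ := fun x => if hx : x ∈ G then (χ (G.equivFin ⟨x, hx⟩ : ℕ) : ℕ) else 0
    have hχ' : ∀ x, χ' x < 4 := by
      intro x
      by_cases hx : x ∈ G
      · simp only [χ', dif_pos hx]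
        exact (χ _).2
      · simp only [χ', dif_neg hx]
        norm_num
    rcases hT χ' with ⟨c', hc', t, ht0, ht, hb, -⟩ | ⟨x, -, hx⟩
    · refine ⟨⟨c', hc'⟩, fun j => if j < G.card then t (gnode G j) else 0, ?_, ?_, ?_⟩
      · intro j
        dsimp only
        split_ifs
        · exact ht0 _
        · exact le_rfl
      · intro j hj
        dsimp only at hj
        by_cases h : j < G.card
        · rw [if_pos h] at hj
          refine ⟨h, ?_⟩
          obtain ⟨h1, h2⟩ := ht _ hj
          simp only [χ', dif_pos h1] at h2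
          rw [equivFin_gnode G h h1] at h2
          exact Fin.ext h2
        · rw [if_neg h] at hj
          exact absurd rfl hj
      · have hsum : ∀ b : Fin 4, ∑ j ∈ range G.card,
            (if j < G.card then t (gnode G j) else 0) • gnode G j b =
            ∑ x ∈ G, t x • x (b : ℕ) := by
          intro b
          rw [← sum_gnode G (fun x => t x • x (b : ℕ))]
          apply Finset.sum_congr rfl
          intro j hj
          rw [if_pos (Finset.mem_range.1 hj)]
        intro b hbc
        rw [hsum b, hsum ⟨c', hc'⟩]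
        apply hb b b.2
        intro h
        exact hbc (Fin.ext h)
    · exact absurd (hχ' x) (by omega)

end Pool.Agent.Helper60.CR
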