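import Pool.Agent.Helper60.CR.DdBasic

/-! CR-55 (growth). The growth rate of the doubling operator.
PROOF. `r k = sSup {ν (Dd^[k] f) | f with Pos01 f, ν f ≤ 1}`. The set is nonempty (`f = single 0 1`, `ν f = 1`) and bounded by `2^k`; `C⁻¹ 2^(k/q) ≤ r k ≤ 2^k` (`nu_iter_low` for `f = single 0 1`: `2^k ≤ (C ν (Dd^[k] f))^q`). `ν (Dd^[k] f) ≤ r k * ν f` for all `Pos01 f` (homogeneity;
`ν f = 0` implies `ν (Dd^[k] f) ≤ 2^k ν f = 0`). `r (k+l) ≤ r k * r l` (`Dd^[k+l] f = Dd^[k] (Dd^[l] f)`, `Dd^[l] f` is `Pos01`). So `u k = Real.log (r k)` is subadditive (`Subadditive`), `u k / k` is bounded below, let `Λ = lim u k / k = inf` (`Subadditive.tendsto_lim`,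
`Subadditive.lim_le_div`). `log 2 / q ≤ Λ ≤ log 2` (limit of `(k log 2 / q - log C) / k`). `p = log 2 / Λ ∈ [1, q]`, `2^(1/p) = exp Λ =: λ`. For all `k`: `r k ≥ λ^k` (`k = 0`: `r 0 = 1`), so there is `f` with `Pos01 f`, `ν f ≤ 1`, `ν (Dd^[k] f) ≥ λ^k / 2`.
For `ε > 0`: `u k / k ≤ Λ + log (1+ε)` for `k ≥ k0`, so `r k ≤ ((1+ε) λ)^k` for `k ≥ k0`; `B = 2^k0`. -/

set_option autoImplicit false

namespace Pool.Agent.Helper60.CR

open Finset

theorem dd_iter_smul (t : ℝ) (f : ℚ →₀ ℝ) (k : ℕ) : Dd^[k] (t • f) = t • Dd^[k] f := by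
  induction k generalizing f with
  | zero => rfl
  | succ k ih => rw [Function.iterate_succ_apply, Function.iterate_succ_apply, dd_smul, ih]

theorem dd_iter_pos01 (f : ℚ →₀ ℝ) (hf : Pos01 f) (k : ℕ) : Pos01 (Dd^[k] f) := by
  induction k with
  | zero => exact hf
  | succ k ih => rw [Function.iterate_succ_apply']; exact dd_pos01 _ ih

theorem pos01_smul (t : ℝ) (ht : 0 ≤ t) (f : ℚ →₀ ℝ) (hf : Pos01 f) : Pos01 (t • f) := by
  refine ⟨fun x => ?_, fun x hx => ?_⟩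
  · rw [Finsupp.smul_apply, smul_eq_mul]
    exact mul_nonneg ht (hf.1 x)
  · exact hf.2 x (Finsupp.support_smul hx)

theorem pos01_single : Pos01 (Finsupp.single (0 : ℚ) (1 : ℝ)) := by
  refine ⟨fun x => ?_, fun x hx => ?_⟩
  · rw [Finsupp.single_apply]
    split_ifs <;> norm_num
  · rw [Finsupp.support_single_ne_zero _ one_ne_zero, mem_singleton] at hx
    subst hx
    exact ⟨le_refl _, by norm_num⟩

/-- The norm of the power of the doubling operator. -/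
noncomputable def rr (ν : (ℚ →₀ ℝ) → ℝ) (k : ℕ) : ℝ :=
  sSup {y | ∃ f, Pos01 f ∧ ν f ≤ 1 ∧ y = ν (Dd^[k] f)}

section

variable {ν : (ℚ →₀ ℝ) → ℝ} {q : ℕ} {C : ℝ}

theorem rr_bdd (h : SNorm ν q C) (k : ℕ) :
    ∀ y ∈ {y | ∃ f, Pos01 f ∧ ν f ≤ 1 ∧ y = ν (Dd^[k] f)}, y ≤ 2 ^ k := by
  rintro y ⟨f, _, hf1, rfl⟩
  refine (nu_iter_le h f k).trans ?_
  calc (2 : ℝ) ^ k * ν f ≤ 2 ^ k * 1 := mul_le_mul_of_nonneg_left hf1 (by positivity)
    _ = 2 ^ k := mul_one _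

theorem rr_nonempty (h : SNorm ν q C) (k : ℕ) :
    {y | ∃ f, Pos01 f ∧ ν f ≤ 1 ∧ y = ν (Dd^[k] f)}.Nonempty :=
  ⟨_, Finsupp.single (0 : ℚ) (1 : ℝ), pos01_single, (h.one 0).le, rfl⟩

theorem le_rr (h : SNorm ν q C) (k : ℕ) (f : ℚ →₀ ℝ) (hf : Pos01 f) (hf1 : ν f ≤ 1) :
    ν (Dd^[k] f) ≤ rr ν k :=
  le_csSup ⟨2 ^ k, rr_bdd h k⟩ ⟨f, hf, hf1, rfl⟩

theorem rr_le (h : SNorm ν q C) (k : ℕ) : rr ν k ≤ 2 ^ k :=
  csSup_le (rr_nonempty h k) (rr_bdd h k)

theorem nu_le_rr (h : SNorm ν q C) (k : ℕ) (f : ℚ →₀ ℝ) (hf : Pos01 f) :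
    ν (Dd^[k] f) ≤ rr ν k * ν f := by
  by_cases h0 : ν f = 0
  · have h1 := nu_iter_le h f k
    rw [h0, mul_zero] at h1 ⊢
    exact h1
  · have hpos : 0 < ν f := lt_of_le_of_ne (sn_nonneg h f) (Ne.symm h0)
    have hinv : 0 < (ν f)⁻¹ := inv_pos.2 hpos
    have h1 := le_rr h k ((ν f)⁻¹ • f) (pos01_smul _ hinv.le f hf) (by
      rw [h.smul, abs_of_pos hinv, inv_mul_cancel₀ h0])
    rw [dd_iter_smul, h.smul, abs_of_pos hinv] at h1
    calc ν (Dd^[k] f) = ((ν f)⁻¹ * ν (Dd^[k] f)) * ν f := by field_simp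
      _ ≤ rr ν k * ν f := mul_le_mul_of_nonneg_right h1 hpos.le

theorem rr_pos (h : SNorm ν q C) (hq : 1 ≤ q) (hC : 1 ≤ C) (k : ℕ) :
    0 < ν (Dd^[k] (Finsupp.single (0 : ℚ) (1 : ℝ))) ∧ 0 < rr ν k := by
  have h1 := nu_iter_low h _ pos01_single k
  rw [h.one, one_pow, mul_one] at h1
  have h2 : 0 < ν (Dd^[k] (Finsupp.single (0 : ℚ) (1 : ℝ))) := by
    rcases (sn_nonneg h (Dd^[k] (Finsupp.single (0 : ℚ) (1 : ℝ)))).lt_or_eq with h3 | h3
    · exact h3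
    · rw [← h3, mul_zero, zero_pow (by omega)] at h1
      exact absurd h1 (not_le.2 (by positivity))
  exact ⟨h2, h2.trans_le (le_rr h k _ pos01_single (h.one 0).le)⟩

theorem log_rr_ge (h : SNorm ν q C) (hq : 1 ≤ q) (hC : 1 ≤ C) (k : ℕ) :
    (k : ℝ) * (Real.log 2 / q) - Real.log C ≤ Real.log (rr ν k) := by
  have h1 := nu_iter_low h _ pos01_single k
  rw [h.one, one_pow, mul_one] at h1
  obtain ⟨h2, h3⟩ := rr_pos h hq hC k
  have h4 : ν (Dd^[k] (Finsupp.single (0 : ℚ) (1 : ℝ))) ≤ rr ν k :=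
    le_rr h k _ pos01_single (h.one 0).le
  have hq0 : (0 : ℝ) < q := by exact_mod_cast hq
  have h5 : (k : ℝ) * Real.log 2 ≤
      q * (Real.log C + Real.log (ν (Dd^[k] (Finsupp.single (0 : ℚ) (1 : ℝ))))) := by
    rw [← Real.log_mul (by linarith) h2.ne', ← Real.log_pow, ← Real.log_pow]
    exact Real.log_le_log (by positivity) h1
  have h6 : Real.log (ν (Dd^[k] (Finsupp.single (0 : ℚ) (1 : ℝ)))) ≤ Real.log (rr ν k) :=
    Real.log_le_log h2 h4
  have h7 : (k : ℝ) * (Real.log 2 / q) ≤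
      Real.log C + Real.log (ν (Dd^[k] (Finsupp.single (0 : ℚ) (1 : ℝ)))) := by
    rw [← mul_div_assoc, div_le_iff₀ hq0]
    linarith
  linarith

theorem rr_mul (h : SNorm ν q C) (hq : 1 ≤ q) (hC : 1 ≤ C) (k l : ℕ) :
    rr ν (k + l) ≤ rr ν k * rr ν l := by
  refine csSup_le (rr_nonempty h _) ?_
  rintro y ⟨f, hf, hf1, rfl⟩
  rw [Function.iterate_add_apply]
  refine (nu_le_rr h k _ (dd_iter_pos01 f hf l)).trans ?_
  exact mul_le_mul_of_nonneg_left (le_rr h l f hf hf1) (rr_pos h hq hC k).2.le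

end

theorem growth (ν : (ℚ →₀ ℝ) → ℝ) (q : ℕ) (C : ℝ) (hq : 1 ≤ q) (hC : 1 ≤ C) (h : SNorm ν q C) :
    ∃ p : ℝ, 1 ≤ p ∧
      (∀ k : ℕ, ∃ f, Pos01 f ∧ ν f ≤ 1 ∧ ((2 : ℝ) ^ (1 / p)) ^ k / 2 ≤ ν (Dd^[k] f)) ∧
      ∀ ε : ℝ, 0 < ε → ∃ B : ℝ, ∀ (k : ℕ) (f : ℚ →₀ ℝ), Pos01 f →
        ν (Dd^[k] f) ≤ B * ((1 + ε) * (2 : ℝ) ^ (1 / p)) ^ k * ν f := by
  have hq0 : (0 : ℝ) < q := by exact_mod_cast hq
  have hlog2 : 0 < Real.log 2 := Real.log_pos (by norm_num)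
  have hlogC : 0 ≤ Real.log C := Real.log_nonneg hC
  have hrpos : ∀ k, 0 < rr ν k := fun k => (rr_pos h hq hC k).2
  have hsub : Subadditive (fun k : ℕ => Real.log (rr ν k)) := by
    intro m n
    have h1 := Real.log_le_log (hrpos (m + n)) (rr_mul h hq hC m n)
    rwa [Real.log_mul (hrpos m).ne' (hrpos n).ne'] at h1
  have hbdd : BddBelow (Set.range fun n : ℕ => Real.log (rr ν n) / n) := by
    refine ⟨-Real.log C, ?_⟩
    rintro y ⟨n, rfl⟩
    rcases Nat.eq_zero_or_pos n with hn | hn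
    · subst hn
      simp only [Nat.cast_zero, div_zero]
      linarith
    · have hn0 : (0 : ℝ) < n := by exact_mod_cast hn
      have hn1 : (1 : ℝ) ≤ n := by exact_mod_cast hn
      simp only
      rw [le_div_iff₀ hn0]
      have h1 := log_rr_ge h hq hC n
      have h2 : 0 ≤ (n : ℝ) * (Real.log 2 / q) := by positivity
      nlinarith
  set Λ := hsub.lim with hΛ
  have htend := hsub.tendsto_lim hbdd
  have hΛlow : Real.log 2 / q ≤ Λ := by
    have h1 : Filter.Tendsto (fun n : ℕ => Real.log 2 / q - Real.log C / n) Filter.atTop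
        (nhds (Real.log 2 / q - 0)) :=
      tendsto_const_nhds.sub (tendsto_const_div_atTop_nhds_zero_nat _)
    rw [sub_zero] at h1
    refine le_of_tendsto_of_tendsto h1 htend ?_
    filter_upwards [Filter.eventually_ge_atTop 1] with n hn
    have hn0 : (0 : ℝ) < n := by exact_mod_cast hn
    rw [le_div_iff₀ hn0, sub_mul, div_mul_cancel₀ _ hn0.ne', mul_comm]
    exact log_rr_ge h hq hC n
  have hΛpos : 0 < Λ := lt_of_lt_of_le (by positivity) hΛlow
  have hΛup : Λ ≤ Real.log 2 := by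
    have h1 := hsub.lim_le_div hbdd (n := 1) one_ne_zero
    simp only [Nat.cast_one, div_one] at h1
    refine h1.trans (Real.log_le_log (hrpos 1) ?_)
    have := rr_le h 1
    simpa using this
  have hp : (1 : ℝ) ≤ Real.log 2 / Λ := by
    rw [le_div_iff₀ hΛpos]
    linarith
  have hexp : (2 : ℝ) ^ (1 / (Real.log 2 / Λ)) = Real.exp Λ := by
    rw [Real.rpow_def_of_pos (by norm_num)]
    congr 1
    field_simp
  refine ⟨Real.log 2 / Λ, hp, ?_, ?_⟩
  · intro k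
    rw [hexp]
    have h1 : Real.exp Λ ^ k ≤ rr ν k := by
      rcases Nat.eq_zero_or_pos k with hk | hk
      · subst hk
        rw [pow_zero]
        have := le_rr h 0 _ pos01_single (h.one 0).le
        simpa [h.one] using this
      · have h2 := hsub.lim_le_div hbdd (n := k) (by omega)
        have hk0 : (0 : ℝ) < k := by exact_mod_cast hk
        rw [le_div_iff₀ hk0] at h2
        rw [← Real.exp_nat_mul, ← Real.le_log_iff_exp_le (hrpos k), mul_comm]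
        exact h2
    have h3 : Real.exp Λ ^ k / 2 < rr ν k := by
      have : 0 < Real.exp Λ ^ k := by positivity
      linarith
    obtain ⟨y, ⟨f, hf, hf1, rfl⟩, hy⟩ := exists_lt_of_lt_csSup (rr_nonempty h k) h3
    exact ⟨f, hf, hf1, hy.le⟩
  · intro ε hε
    rw [hexp]
    have hlogε : 0 < Real.log (1 + ε) := Real.log_pos (by linarith)
    have hev : ∀ᶠ n : ℕ in Filter.atTop, Real.log (rr ν n) / n < Λ + Real.log (1 + ε) :=
      htend.eventually (gt_mem_nhds (by linarith))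
    obtain ⟨k0, hk0⟩ := Filter.eventually_atTop.1 hev
    have hbase : 1 ≤ (1 + ε) * Real.exp Λ := by
      have h1 : 1 ≤ Real.exp Λ := Real.one_le_exp hΛpos.le
      nlinarith
    refine ⟨2 ^ (k0 + 1), fun k f hf => ?_⟩
    refine (nu_le_rr h k f hf).trans (mul_le_mul_of_nonneg_right ?_ (sn_nonneg h f))
    by_cases hk : k0 + 1 ≤ k
    · have hkpos : (0 : ℝ) < k := by
        have : 0 < k := by omega
        exact_mod_cast this
      have h1 := hk0 k (by omega)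
      rw [div_lt_iff₀ hkpos] at h1
      have h2 : rr ν k ≤ ((1 + ε) * Real.exp Λ) ^ k := by
        rw [← Real.log_le_log_iff (hrpos k) (by positivity), Real.log_pow,
          Real.log_mul (by linarith) (Real.exp_pos _).ne', Real.log_exp]
        linarith
      calc rr ν k ≤ 1 * ((1 + ε) * Real.exp Λ) ^ k := by rw [one_mul]; exact h2
        _ ≤ 2 ^ (k0 + 1) * ((1 + ε) * Real.exp Λ) ^ k :=
          mul_le_mul_of_nonneg_right (one_le_pow₀ (by norm_num)) (by positivity)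
    · have h1 : (2 : ℝ) ^ k ≤ 2 ^ (k0 + 1) := pow_le_pow_right₀ (by norm_num) (by omega)
      calc rr ν k ≤ 2 ^ (k0 + 1) * 1 := by rw [mul_one]; exact (rr_le h k).trans h1
        _ ≤ 2 ^ (k0 + 1) * ((1 + ε) * Real.exp Λ) ^ k :=
          mul_le_mul_of_nonneg_left (one_le_pow₀ hbase) (by positivity)

end Pool.Agent.Helper60.CR
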