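import Pool.Agent.Helper60.CR.Basic

/-! CR-10 (l_TT). Second case: the tree of groups without tests is finite, because `ℓ_p` is not a block subspace.
PROOF. Suppose not. Let `im b s = s.image (fun x => (w b)⁻¹ • x b)` and call `s` bad if `Reg c 0 s`, `¬ Win N p κ D (im b s)` for all `b < c`, and `¬ TT ... s`. `∅` is bad (`h0`).
Claim: if `s` is bad, then for every `N0` there is a node `x` with all components `b < c` supported beyond `N0`, such that `insert x s` is bad. Proof: let `N1 ≥ N0` be larger than all elements of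
the supports of `x' b`, `x' ∈ s`, `b < c`. `hL` with `Hs' = Hs ∪ (range c).image (fun b => im b s)` gives for every `N` a group `J' N` beyond `max N N1`; `J' N` is admissible (`AdmL ... Hs`).
If `TT (insert x s)` held for all `N` and all `x ∈ J' N` then `TT.step` would give `TT s`. So there are `N` and `x ∈ J' N` with `¬ TT (insert x s)`. `x b = w b • y` with
`¬ Win (insert y (im b s))` and `(w b)⁻¹ • x b = y`, so `¬ Win (im b (insert x s))` (`Finset.image_insert`). `Reg c 0 (insert x s)`: the new supports are beyond the old ones.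
Iterating the claim we get nodes `x 0, x 1, ...` such that `s k = (range k).image x` is bad for all `k` and the supports of `x k` are beyond those of `x i`, `i < k` (use `N0` larger than all
elements of supports of the previous ones).
Put `G k = ∑ b ∈ range c, x k b`. From `¬ TT (s k)` and `TT.stop`: `¬ StopL N p η c (s k)`, i.e. `η * Bs p (s k) t ≤ N (∑ x ∈ s k, t x • ∑ b ∈ range c, x b)` for all `t ≥ 0`. In particular
`G k ≠ 0` (else the coefficient `1` at `x k`, `0` elsewhere gives `η ≤ 0`), so `c ≥ 1`, and the `x k` are different (disjoint nonzero components). Hence the lower estimate of `Block` with constant `η`: for a finite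
set `S` and `t ≥ 0` choose `k` with `S ⊆ range k` and the coefficients `t i` at `x i`, `i ∈ S`, `0` otherwise (`Bs_image`, `Bs_subset`, `Finset.sum_image`).
Upper estimate with `C = (∑ b ∈ range c, w b) * D` (any real number will do, so take this one): `¬ Win (im b (s k))` and `Win.test` give `N (∑ v ∈ im b (s k), τ v • v) ≤ D * Bs p (im b (s k)) τ` for `τ ≥ 0`, that
is `N (∑ i ∈ S, t i • x i b) ≤ w b * D * Bs p S t` (the map `i ↦ (w b)⁻¹ • x i b` is injective, its values are disjoint and not zero: `Reg`), and sum over `b`. So `Block N p`, a contradiction. -/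

set_option autoImplicit false

namespace Pool.Agent.Helper60.CR

open Finset

private noncomputable def ltIm (w : ℕ → ℝ) (b : ℕ) (s : Finset Nd) : Finset F0 :=
  s.image (fun x => (w b)⁻¹ • x b)

private structure LtBad (N : F0 → ℝ) (p κ D δ η : ℝ) (w : ℕ → ℝ) (c : ℕ)
    (Hs : Finset (Finset F0)) (s : Finset Nd) : Prop where
  reg : Reg c 0 s
  win : ∀ b < c, ¬ Win N p κ D (ltIm w b s)
  tt : ¬ TT (nsup c) (StopL N p η c) (AdmL N p κ D δ w c Hs) s

private noncomputable def ltB (c : ℕ) (s : Finset Nd) : ℕ := (s.biUnion (nsup c)).sup id + 1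

private theorem lt_ltB {c : ℕ} {s : Finset Nd} {x : Nd} (hx : x ∈ s) {b : ℕ} (hb : b < c) {i : ℕ}
    (hi : i ∈ (x b).support) : i < ltB c s := by
  have h1 : i ∈ s.biUnion (nsup c) :=
    mem_biUnion.2 ⟨x, hx, mem_biUnion.2 ⟨b, mem_range.2 hb, hi⟩⟩
  have h2 : id i ≤ (s.biUnion (nsup c)).sup id := Finset.le_sup h1
  exact Nat.lt_succ_of_le h2

private theorem ltClaim {N : F0 → ℝ} {p κ D δ η : ℝ} {w : ℕ → ℝ} (hw : ∀ b, 0 < w b) {c : ℕ}
    (hL : LG N p κ D δ w c) {Hs : Finset (Finset F0)} (hHs : ∀ H ∈ Hs, ¬ Win N p κ D H)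
    {s : Finset Nd} (hs : LtBad N p κ D δ η w c Hs s) :
    ∃ x : Nd, (∀ b < c, ∀ i ∈ (x b).support, ltB c s ≤ i) ∧
      LtBad N p κ D δ η w c Hs (insert x s) := by
  classical
  set M := ltB c s with hM
  have hHs' : ∀ H ∈ Hs ∪ (range c).image (fun b => ltIm w b s), ¬ Win N p κ D H := by
    intro H hH
    rcases mem_union.1 hH with h | h
    · exact hHs H h
    · obtain ⟨b, hb, rfl⟩ := mem_image.1 h
      exact hs.win b (mem_range.1 hb)
  choose J hJ1 hJ2 hJ3 using fun n : ℕ => hL _ hHs' (max n M)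
  have hadm : ∀ n, AdmL N p κ D δ w c Hs (J n) := by
    intro n
    refine ⟨⟨(hJ1 n).ne, fun _ _ _ _ _ _ => Nat.zero_le _, (hJ1 n).disj, (hJ1 n).zero⟩,
      hJ2 n, fun x hx b hb => ?_⟩
    obtain ⟨y, hy1, hy2⟩ := hJ3 n x hx b hb
    exact ⟨y, hy1, fun H hH => hy2 H (mem_union_left _ hH)⟩
  have hex : ∃ n, ∃ x ∈ J n,
      ¬ TT (nsup c) (StopL N p η c) (AdmL N p κ D δ w c Hs) (insert x s) := by
    by_contra hcon
    push Not at hcon
    refine hs.tt (TT.step s J hadm ?_ hcon)
    intro n x hx i hi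
    obtain ⟨b, hb, hib⟩ := mem_biUnion.1 hi
    exact (le_max_left n M).trans ((hJ1 n).lo x hx b (mem_range.1 hb) i hib)
  obtain ⟨n, x, hx, hxt⟩ := hex
  have hlo : ∀ b < c, ∀ i ∈ (x b).support, M ≤ i := fun b hb i hi =>
    (le_max_right n M).trans ((hJ1 n).lo x hx b hb i hi)
  have hdis : ∀ x' ∈ s, ∀ b < c, ∀ b' < c, Disjoint (x b).support (x' b').support := by
    intro x' hx' b hb b' hb'
    rw [Finset.disjoint_left]
    intro i hi hi'
    have h1 := hlo b hb i hi
    have h2 := lt_ltB hx' hb' hi'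
    omega
  refine ⟨x, hlo, ⟨?_, ?_, ?_, ?_⟩, ?_, hxt⟩
  · intro x' hx' b hb
    rcases mem_insert.1 hx' with rfl | h
    · exact (hJ1 n).ne _ hx b hb
    · exact hs.reg.ne x' h b hb
  · intro _ _ _ _ _ _
    exact Nat.zero_le _
  · intro x₁ h₁ x₂ h₂ b hb b' hb' hne
    rcases mem_insert.1 h₁ with e1 | e1 <;> rcases mem_insert.1 h₂ with e2 | e2
    · subst e1
      subst e2
      exact (hJ1 n).disj _ hx _ hx b hb b' hb' hne
    · subst e1
      exact hdis x₂ e2 b hb b' hb'
    · subst e2
      exact (hdis x₁ e1 b' hb' b hb).symm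
    · exact hs.reg.disj x₁ e1 x₂ e2 b hb b' hb' hne
  · intro x' hx' b hb
    rcases mem_insert.1 hx' with rfl | h
    · exact (hJ1 n).zero _ hx b hb
    · exact hs.reg.zero x' h b hb
  · intro b hb
    obtain ⟨y, hy1, hy2⟩ := hJ3 n x hx b hb
    have h1 : ltIm w b (insert x s) = insert y (ltIm w b s) := by
      unfold ltIm
      rw [Finset.image_insert]
      congr 1
      rw [hy1, smul_smul, inv_mul_cancel₀ (hw b).ne', one_smul]
    rw [h1]
    exact hy2 _ (mem_union_right _ (mem_image.2 ⟨b, mem_range.2 hb, rfl⟩))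

private theorem ltCoef {α : Type*} (φ : ℕ → α) (hφ : Function.Injective φ) (I : Finset ℕ)
    (t : ℕ → ℝ) (ht : ∀ i, 0 ≤ t i) :
    ∃ τ : α → ℝ, (∀ z, 0 ≤ τ z) ∧ ∀ j, τ (φ j) = if j ∈ I then t j else 0 := by
  classical
  refine ⟨fun z => ∑ i ∈ I, if φ i = z then t i else 0, fun z => ?_, fun j => ?_⟩
  · refine Finset.sum_nonneg fun i _ => ?_
    split_ifs
    · exact ht i
    · exact le_rfl
  · have h1 : ∀ i ∈ I, (if φ i = φ j then t i else 0) = if i = j then t i else 0 := by
      intro i _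
      simp only [hφ.eq_iff]
    change ∑ i ∈ I, (if φ i = φ j then t i else 0) = _
    rw [Finset.sum_congr rfl h1, Finset.sum_ite_eq']

/-- Transfer of the `ℓ_p` norm. -/
private theorem ltBs {p : ℝ} (hp : 1 ≤ p) {α : Type} [DecidableEq α] (φ : ℕ → α)
    (hφ : Function.Injective φ) {I : Finset ℕ} {k : ℕ} (hI : I ⊆ range k) (t : ℕ → ℝ)
    (τ : α → ℝ) (hτ : ∀ j, τ (φ j) = if j ∈ I then t j else 0) :
    Bs p ((range k).image φ) τ = Bs p I t := by
  rw [Bs_image (range k) φ hφ.injOn τ,
    ← Bs_subset hp hI (t := fun i => τ (φ i)) (fun i _ hi => by rw [hτ, if_neg hi])]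
  exact Bs_congr fun i hi => by rw [hτ, if_pos hi]

/-- Transfer of the sums. -/
private theorem ltSum {α : Type} [DecidableEq α] (φ : ℕ → α)
    (hφ : Function.Injective φ) {I : Finset ℕ} {k : ℕ} (hI : I ⊆ range k) (t : ℕ → ℝ)
    (τ : α → ℝ) (hτ : ∀ j, τ (φ j) = if j ∈ I then t j else 0) (v : α → F0) :
    ∑ z ∈ (range k).image φ, τ z • v z = ∑ i ∈ I, t i • v (φ i) := by
  rw [Finset.sum_image hφ.injOn, ← Finset.sum_subset hI]
  · exact Finset.sum_congr rfl fun i hi => by rw [hτ, if_pos hi]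
  · intro i _ hi
    rw [hτ, if_neg hi, zero_smul]

theorem l_TT (N : F0 → ℝ) (hN : Lat N) (p κ D δ η : ℝ) (hp : 1 ≤ p) (hη : 0 < η) (w : ℕ → ℝ)
    (hw : ∀ b, 0 < w b) (c : ℕ) (h0 : ¬ Win N p κ D ∅) (hB : ¬ Block N p)
    (hL : LG N p κ D δ w c) (Hs : Finset (Finset F0)) (hHs : ∀ H ∈ Hs, ¬ Win N p κ D H) :
    TT (nsup c) (StopL N p η c) (AdmL N p κ D δ w c Hs) ∅ := by
  classical
  by_contra hcon
  have hbad0 : LtBad N p κ D δ η w c Hs ∅ := by
    refine ⟨⟨?_, ?_, ?_, ?_⟩, ?_, hcon⟩
    · intro x hx; simp at hx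
    · intro x hx; simp at hx
    · intro x hx; simp at hx
    · intro x hx; simp at hx
    · intro b _
      unfold ltIm
      rw [Finset.image_empty]
      exact h0
  choose nx hnx1 hnx2 using fun s : {s // LtBad N p κ D δ η w c Hs s} => ltClaim hw hL hHs s.2
  let S : ℕ → {s // LtBad N p κ D δ η w c Hs s} := fun k =>
    Nat.rec ⟨∅, hbad0⟩ (fun _ s => ⟨insert (nx s) s.1, hnx2 s⟩) k
  let x : ℕ → Nd := fun k => nx (S k)
  have hS0 : (S 0).1 = ∅ := rfl
  have hS1 : ∀ k, (S (k + 1)).1 = insert (x k) (S k).1 := fun k => rfl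
  have hS : ∀ k, (S k).1 = (range k).image x := by
    intro k
    induction k with
    | zero => rw [hS0, range_zero, image_empty]
    | succ k ih => rw [hS1, ih, range_add_one, image_insert]
  have hxmem : ∀ i k, i < k → x i ∈ (S k).1 := by
    intro i k hik
    rw [hS]
    exact mem_image_of_mem x (mem_range.2 hik)
  have hdlt : ∀ i k, i < k → ∀ b < c, ∀ b' < c, Disjoint (x i b).support (x k b').support := by
    intro i k hik b hb b' hb'
    rw [Finset.disjoint_left]
    intro j hj hj'
    have h1 := lt_ltB (hxmem i k hik) hb hj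
    have h2 := hnx1 (S k) b' hb' j hj'
    omega
  have hdis : ∀ i k, i ≠ k → ∀ b < c, ∀ b' < c, Disjoint (x i b).support (x k b').support := by
    intro i k hik b hb b' hb'
    rcases lt_or_gt_of_ne hik with h | h
    · exact hdlt i k h b hb b' hb'
    · exact (hdlt k i h b' hb' b hb).symm
  have hne : ∀ i, ∀ b < c, x i b ≠ 0 := fun i b hb =>
    (S (i + 1)).2.reg.ne (x i) (hxmem i (i + 1) (Nat.lt_succ_self i)) b hb
  have hstop : ∀ k, ∀ t : Nd → ℝ, (∀ z, 0 ≤ t z) →
      η * Bs p (S k).1 t ≤ N (∑ z ∈ (S k).1, t z • ∑ b ∈ range c, z b) := by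
    intro k t ht
    by_contra hlt
    push Not at hlt
    exact (S k).2.tt (TT.stop _ ⟨t, ht, hlt⟩)
  have hc : 0 < c := by
    rcases Nat.eq_zero_or_pos c with h | h
    · exfalso
      have h1 := hstop 1 (fun _ => 1) (fun _ => zero_le_one)
      have h2 : (S 1).1 = {x 0} := by
        rw [hS 1, range_one, image_singleton]
      rw [h2, Bs_singleton hp, abs_one, mul_one, sum_singleton, h,
        range_zero, sum_empty, smul_zero, hN.zero] at h1
      linarith
    · exact h
  have hinj : ∀ b < c, ∀ i j, x i b = x j b → i = j := by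
    intro b hb i j hij
    by_contra hne'
    have h1 := hdis i j hne' b hb b hb
    rw [hij, disjoint_self_iff_empty, Finsupp.support_eq_empty] at h1
    exact hne j b hb h1
  have hxinj : Function.Injective x := fun i j hij => hinj 0 hc i j (by rw [hij])
  apply hB
  refine ⟨fun k => ∑ b ∈ range c, x k b, η, (∑ b ∈ range c, w b) * D, hη, ?_, ?_⟩
  · intro k l hkl
    rw [Finset.disjoint_left]
    intro i hi hi'
    have hex : ∀ k, i ∈ (∑ b ∈ range c, x k b).support → ∃ b < c, i ∈ (x k b).support := by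
      intro k hk
      by_contra hcon'
      push Not at hcon'
      rw [Finsupp.mem_support_iff, Finsupp.finsetSum_apply] at hk
      exact hk (Finset.sum_eq_zero fun b hb =>
        Finsupp.notMem_support_iff.1 (hcon' b (mem_range.1 hb)))
    obtain ⟨b, hb, h1⟩ := hex k hi
    obtain ⟨b', hb', h2⟩ := hex l hi'
    exact Finset.disjoint_left.1 (hdis k l hkl b hb b' hb') h1 h2
  · intro I t ht
    obtain ⟨k, hk⟩ : ∃ k, I ⊆ range k := I.exists_nat_subset_range
    constructor
    · obtain ⟨τ, hτ0, hτ⟩ := ltCoef x hxinj I t ht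
      have h1 := hstop k τ hτ0
      rw [hS, ltBs hp x hxinj hk t τ hτ, ltSum x hxinj hk t τ hτ] at h1
      exact h1
    · have hone : ∀ b < c, N (∑ i ∈ I, t i • x i b) ≤ w b * D * Bs p I t := by
        intro b hb
        let φ : ℕ → F0 := fun i => (w b)⁻¹ • x i b
        have hw0 : (w b)⁻¹ ≠ 0 := inv_ne_zero (hw b).ne'
        have hφ : Function.Injective φ := fun i j hij =>
          hinj b hb i j (smul_right_injective F0 hw0 hij)
        obtain ⟨τ, hτ0, hτ⟩ := ltCoef φ hφ I t ht
        have h1 : N (∑ v ∈ ltIm w b (S k).1, τ v • v) ≤ D * Bs p (ltIm w b (S k).1) τ := by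
          by_contra hlt
          push Not at hlt
          exact (S k).2.win b hb (Win.test _ τ hτ0 hlt)
        have h2 : ltIm w b (S k).1 = (range k).image φ := by
          unfold ltIm
          rw [hS, image_image]
          rfl
        rw [h2, ltBs hp φ hφ hk t τ hτ, ltSum φ hφ hk t τ hτ (fun v => v)] at h1
        have h3 : ∑ i ∈ I, t i • φ i = (w b)⁻¹ • ∑ i ∈ I, t i • x i b := by
          rw [Finset.smul_sum]
          exact Finset.sum_congr rfl fun i _ => smul_comm _ _ _
        rw [h3, hN.smul, abs_of_pos (inv_pos.2 (hw b)), inv_mul_le_iff₀ (hw b)] at h1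
        rw [mul_assoc]
        exact h1
      have h4 : ∑ i ∈ I, t i • ∑ b ∈ range c, x i b = ∑ b ∈ range c, ∑ i ∈ I, t i • x i b := by
        rw [Finset.sum_comm]
        exact Finset.sum_congr rfl fun i _ => Finset.smul_sum
      rw [h4]
      calc N (∑ b ∈ range c, ∑ i ∈ I, t i • x i b)
          ≤ ∑ b ∈ range c, N (∑ i ∈ I, t i • x i b) := hN.sum_le _ _
        _ ≤ ∑ b ∈ range c, w b * D * Bs p I t :=
            Finset.sum_le_sum fun b hb => hone b (mem_range.1 hb)
        _ = (∑ b ∈ range c, w b) * D * Bs p I t := by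
            rw [Finset.sum_mul, Finset.sum_mul]

end Pool.Agent.Helper60.CR
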