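import Pool.Agent.Helper60.CR.Basic

/-! CR-09 (safe_piece). Second case: pieces all of whose vectors are safe for finitely many positions.
PROOF. (a) A subset `Q ⊆ P` of a piece is a piece (apply `upper`, `lower` to the coefficients which are `t` on `Q` and `0` on `P \ Q`; `Bs_subset`, `Finset.sum_subset`).
(b) For `H` with `¬ Win H` there are `n_H, N_H` such that every piece `P` beyond `N_H` with `|P| = n_H` contains `y` with `¬ Win (insert y H)`: otherwise for all `n, N0` there would be a piece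
`P n N0` with `Win (insert y H)` for all its vectors, and `Win.step` would give `Win H`.
(c) Let `n' = n + ∑ H ∈ Hs, n_H`, `N' = max` of `N0` and all `N_H`, and `P` a piece with `|P| = n'` beyond `N'`. For `H ∈ Hs` the set `B_H` of `y ∈ P` with `Win (insert y H)` has fewer than
`n_H` elements or `n_H = 0` ... precisely `|B_H| ≤ n_H` : otherwise a subset of `B_H` with `n_H` elements is a piece beyond `N' ≥ N_H` which contradicts (b) (if `|B_H| ≥ n_H` this already works, so
even `|B_H| < n_H`). So at least `n` vectors of `P` lie in no `B_H`; take `n` of them. A piece beyond `N'` is a piece beyond `N0 ≤ N'`. -/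

set_option autoImplicit false

namespace Pool.Agent.Helper60.CR

open Finset

theorem Piece.subset {N : F0 → ℝ} {p κ : ℝ} (hp : 1 ≤ p) {N0 : ℕ} {P Q : Finset F0}
    (h : Piece N p κ N0 P) (hQ : Q ⊆ P) : Piece N p κ N0 Q := by
  have key : ∀ t : F0 → ℝ, ∑ y ∈ P, (if y ∈ Q then t y else 0) • y = ∑ y ∈ Q, t y • y := by
    intro t
    rw [← Finset.sum_subset hQ]
    · refine Finset.sum_congr rfl fun y hy => ?_
      rw [if_pos hy]
    · intro y _ hy
      rw [if_neg hy, zero_smul]
  have key2 : ∀ t : F0 → ℝ, Bs p P (fun y => if y ∈ Q then t y else 0) = Bs p Q t := by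
    intro t
    rw [← Bs_subset hp hQ (t := fun y => if y ∈ Q then t y else 0)]
    · exact Bs_congr fun y hy => by simp only [if_pos hy]
    · intro y _ hy
      simp only [if_neg hy]
  refine ⟨fun y hy => h.lo y (hQ hy), fun y hy y' hy' => h.disj y (hQ hy) y' (hQ hy'),
    fun t => ?_, fun t => ?_⟩
  · have h1 := h.upper (fun y => if y ∈ Q then t y else 0)
    rwa [key t, key2 t] at h1
  · have h1 := h.lower (fun y => if y ∈ Q then t y else 0)
    rwa [key t, key2 t] at h1

theorem Piece.anti {N : F0 → ℝ} {p κ : ℝ} {N0 N1 : ℕ} {P : Finset F0}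
    (h : Piece N p κ N1 P) (hN : N0 ≤ N1) : Piece N p κ N0 P :=
  ⟨fun y hy i hi => hN.trans (h.lo y hy i hi), h.disj, h.upper, h.lower⟩

theorem safe_piece (N : F0 → ℝ) (p κ D : ℝ) (hp : 1 ≤ p) (hP : HasPieces N p κ)
    (Hs : Finset (Finset F0)) (hHs : ∀ H ∈ Hs, ¬ Win N p κ D H) (n N0 : ℕ) :
    ∃ P : Finset F0, P.card = n ∧ Piece N p κ N0 P ∧
      ∀ y ∈ P, ∀ H ∈ Hs, ¬ Win N p κ D (insert y H) := by
  have hb : ∀ H : Finset F0, ∃ nH NH : ℕ, H ∈ Hs → ∀ P : Finset F0, P.card = nH →
      Piece N p κ NH P → ∃ y ∈ P, ¬ Win N p κ D (insert y H) := by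
    intro H
    by_cases hH : H ∈ Hs
    · by_contra hcon
      push Not at hcon
      choose P hP1 hP2 using fun n N0 => (hcon n N0).2
      exact hHs H hH (Win.step H P hP1 (fun n N0 => (hP2 n N0).1) fun n N0 => (hP2 n N0).2)
    · exact ⟨0, 0, fun h => absurd h hH⟩
  choose nH NH hH using hb
  obtain ⟨P, hPc, hPP⟩ := hP (n + ∑ H ∈ Hs, nH H) (N0 + ∑ H ∈ Hs, NH H)
  classical
  let B : Finset F0 → Finset F0 := fun H => P.filter (fun y => Win N p κ D (insert y H))
  have hB : ∀ H ∈ Hs, (B H).card ≤ nH H := by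
    intro H hHs'
    by_contra hcon
    push Not at hcon
    obtain ⟨Q, hQ, hQc⟩ := Finset.exists_subset_card_eq hcon.le
    have h1 : Piece N p κ (NH H) Q := by
      refine (hPP.subset hp (hQ.trans (Finset.filter_subset _ _))).anti ?_
      exact (Finset.single_le_sum (f := NH) (fun _ _ => Nat.zero_le _) hHs').trans
        (Nat.le_add_left _ _)
    obtain ⟨y, hy, hw⟩ := hH H hHs' Q hQc h1
    exact hw (Finset.mem_filter.1 (hQ hy)).2
  have h2 : n ≤ (P \ Hs.biUnion B).card := by
    have h3 : (Hs.biUnion B).card ≤ ∑ H ∈ Hs, nH H :=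
      Finset.card_biUnion_le.trans (Finset.sum_le_sum hB)
    have h4 := Finset.le_card_sdiff (Hs.biUnion B) P
    omega
  obtain ⟨Q, hQ, hQc⟩ := Finset.exists_subset_card_eq h2
  refine ⟨Q, hQc, (hPP.subset hp (hQ.trans Finset.sdiff_subset)).anti (Nat.le_add_right _ _), ?_⟩
  intro y hy H hHs' hw
  have h5 := Finset.mem_sdiff.1 (hQ hy)
  exact h5.2 (Finset.mem_biUnion.2 ⟨H, hHs', Finset.mem_filter.2 ⟨h5.1, hw⟩⟩)

end Pool.Agent.Helper60.CR
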