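import Pool.Agent.Helper60.CR.Basic

/-! CR-04 (TS_assemble). From level `c` to level `c + 1`.
PROOF. Let `χ` be a colouring; if some `x ∈ G` has `c + 1 ≤ χ x` we are done, so suppose `χ x ≤ c` on `G`. Apply `hA` to `R x = (χ x = c)`.
First alternative: `J ⊆ G` with no node of colour `c`, so all colours on `J` are `< c`, and `TS` of `J` gives a test `(c', t)`, `c' < c`, of `J`; `t` vanishes outside `J`.
All sums over `G` with coefficients `t` are sums over `J` (`Finset.sum_subset`), `Bs p G t = Bs p J t` (`Bs_subset`). For `b < c`, `b ≠ c'`: by the test. For `b = c`: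
`N (∑ t x • x c) ≤ M * Bs p J t < δ * N (∑ t x • x c')`. And `M' * Bs ≤ M * Bs < δ * N (...)`.
Second alternative: `T ⊆ G` of colour `c`, coefficients `t`; let `t' x = t x` for `x ∈ T`, else `0`. Then `(c, t')` is a test of `G`. -/

set_option autoImplicit false

namespace Pool.Agent.Helper60.CR

open Finset

theorem TS_assemble (N : F0 → ℝ) (p δ : ℝ) (hp : 1 ≤ p) (c : ℕ) (M M' : ℝ) (G : Finset Nd)
    (hM : M' ≤ M)
    (hA : ∀ R : Nd → Prop,
      (∃ J ⊆ G, TS N p δ c M J ∧
        (∀ t : Nd → ℝ, (∀ x, 0 ≤ t x) → N (∑ x ∈ J, t x • x c) ≤ M * Bs p J t) ∧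
        ∀ x ∈ J, ¬ R x) ∨
      ∃ T ⊆ G, (∀ x ∈ T, R x) ∧ ∃ t : Nd → ℝ, (∀ x, 0 ≤ t x) ∧
        (∀ b < c, N (∑ x ∈ T, t x • x b) < δ * N (∑ x ∈ T, t x • x c)) ∧
        M' * Bs p T t < δ * N (∑ x ∈ T, t x • x c)) :
    TS N p δ (c + 1) M' G := by
  classical
  intro χ
  by_cases hex : ∃ x ∈ G, c + 1 ≤ χ x
  · exact Or.inr hex
  refine Or.inl ?_
  have hlt : ∀ x ∈ G, χ x < c + 1 := fun x hx => by
    by_contra hcon
    exact hex ⟨x, hx, not_lt.mp hcon⟩
  rcases hA (fun x => χ x = c) with ⟨J, hJG, hTS, hb, hJ⟩ | ⟨T, hTG, hT, t, ht, hd, hM'⟩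
  · rcases hTS χ with ⟨c', hc', t, ht0, hts, hdom, hMt⟩ | ⟨x, hx, hcx⟩
    · have hz : ∀ x ∈ G, x ∉ J → t x = 0 := fun x _ hxJ => by
        by_contra hne
        exact hxJ (hts x hne).1
      have hsum : ∀ b, ∑ x ∈ G, t x • x b = ∑ x ∈ J, t x • x b := fun b =>
        (Finset.sum_subset hJG fun x hx hxJ => by rw [hz x hx hxJ, zero_smul]).symm
      have hBs : Bs p J t = Bs p G t := Bs_subset hp hJG hz
      refine ⟨c', by omega, t, ht0, fun x hx => ⟨hJG (hts x hx).1, (hts x hx).2⟩,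
        fun b hb1 hb2 => ?_, ?_⟩
      · rw [hsum, hsum]
        rcases Nat.lt_succ_iff_lt_or_eq.mp hb1 with h1 | h1
        · exact hdom b h1 hb2
        · rw [h1]
          exact lt_of_le_of_lt (hb t ht0) hMt
      · rw [hsum, ← hBs]
        exact lt_of_le_of_lt (mul_le_mul_of_nonneg_right hM (Bs_nonneg _ _)) hMt
    · have h1 := hlt x (hJG hx)
      exact absurd (show χ x = c by omega) (hJ x hx)
  · have hz : ∀ x ∈ G, x ∉ T → (if x ∈ T then t x else 0) = 0 := fun x _ hx => if_neg hx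
    have hsum : ∀ b, ∑ x ∈ G, (if x ∈ T then t x else 0) • x b = ∑ x ∈ T, t x • x b := fun b => by
      rw [← Finset.sum_subset hTG fun x hx hxT => by rw [hz x hx hxT, zero_smul]]
      exact Finset.sum_congr rfl fun x hx => by rw [if_pos hx]
    have hBs : Bs p G (fun x => if x ∈ T then t x else 0) = Bs p T t := by
      rw [← Bs_subset hp hTG hz]
      exact Bs_congr fun x hx => by rw [if_pos hx]
    refine ⟨c, Nat.lt_succ_self c, fun x => if x ∈ T then t x else 0, fun x => ?_, fun x hx => ?_,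
      fun b hb1 hb2 => ?_, ?_⟩
    · simp only
      split_ifs
      · exact ht x
      · exact le_rfl
    · have hxT : x ∈ T := by
        by_contra hcon
        exact hx (if_neg hcon)
      exact ⟨hTG hxT, hT x hxT⟩
    · simp only
      rw [hsum, hsum]
      exact hd b (by omega)
    · simp only
      rw [hsum, hBs]
      exact hM'

end Pool.Agent.Helper60.CR
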