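import Pool.Agent.Helper60.CR.Basic

/-! CR-03 (TS_image). Changing the components `≥ c`.
PROOF. Let `ψ` be an inverse of `φ` on `J.image φ` (`Function.invFunOn φ J`). Given `χ'` apply `h` to `χ = χ' ∘ φ`. A node `x ∈ J` with `c ≤ χ x` gives `φ x`. A test `(c', t)` for `χ` gives the test
`(c', t')`, `t' x' = t (ψ x')` for `x' ∈ J.image φ`, else `0`: `∑ x' ∈ J.image φ, t' x' • x' b = ∑ x ∈ J, t x • x b` for `b < c` (`Finset.sum_image`, `ψ (φ x) = x`), `Bs p (J.image φ) t' = Bs p J t`
(`Bs_image`, `Bs_congr`). -/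

set_option autoImplicit false

namespace Pool.Agent.Helper60.CR

open Finset

theorem TS_image (N : F0 → ℝ) (p δ : ℝ) (c : ℕ) (M : ℝ) (J : Finset Nd) (φ : Nd → Nd)
    (hφ : ∀ x ∈ J, ∀ b < c, φ x b = x b) (hinj : Set.InjOn φ J) (h : TS N p δ c M J) :
    TS N p δ c M (J.image φ) := by
  classical
  intro χ'
  rcases h (fun x => χ' (φ x)) with ht | ⟨x, hx, hc⟩
  · left
    obtain ⟨c', hc', t, ht0, hts, hb, hM⟩ := ht
    set ψ : Nd → Nd := Function.invFunOn φ J with hψ
    have hψφ : ∀ x ∈ J, ψ (φ x) = x := fun x hx => hinj.leftInvOn_invFunOn hx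
    set t' : Nd → ℝ := fun x' => if x' ∈ J.image φ then t (ψ x') else 0 with ht'
    have ht'φ : ∀ x ∈ J, t' (φ x) = t x := by
      intro x hx
      have : φ x ∈ J.image φ := mem_image_of_mem φ hx
      simp only [ht']
      rw [if_pos this, hψφ x hx]
    have hsum : ∀ b < c, ∑ x' ∈ J.image φ, t' x' • x' b = ∑ x ∈ J, t x • x b := by
      intro b hb
      rw [sum_image (fun x hx y hy hxy => hinj hx hy hxy)]
      exact sum_congr rfl (fun x hx => by rw [ht'φ x hx, hφ x hx b hb])
    have hBs : Bs p (J.image φ) t' = Bs p J t := by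
      unfold Bs
      rw [sum_image (fun x hx y hy hxy => hinj hx hy hxy)]
      congr 1
      exact sum_congr rfl (fun x hx => by rw [ht'φ x hx])
    refine ⟨c', hc', t', ?_, ?_, ?_, ?_⟩
    · intro x
      simp only [ht']
      split_ifs
      · exact ht0 _
      · exact le_rfl
    · intro x' hx'
      by_cases hm : x' ∈ J.image φ
      · refine ⟨hm, ?_⟩
        obtain ⟨x, hx, rfl⟩ := mem_image.1 hm
        rw [ht'φ x hx] at hx'
        exact (hts x hx').2
      · exfalso
        apply hx'
        simp only [ht']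
        rw [if_neg hm]
    · intro b hbc hne
      rw [hsum b hbc, hsum c' hc']
      exact hb b hbc hne
    · rw [hBs, hsum c' hc']
      exact hM
  · right
    exact ⟨φ x, mem_image_of_mem φ hx, hc⟩

end Pool.Agent.Helper60.CR
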