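import Pool.Agent.Helper60.CR.Basic

/-! CR-01 (tree). Finite unions of groups.
PROOF. Induction on `hs` (for all `N0`).
stop: `G = ∅`; for every `R` take the second alternative with `T = ∅` (`s ∪ ∅ = s`).
step (data `J`, `h1`, `h2`, `h3`, induction hypothesis for every `insert x s`, `x ∈ J N`): put `J0 = J N0` and let `N1 ≥ N0` be larger than all elements of `supp x`, `x ∈ J0`.
Choose one after the other (induction on a finite subset of `J0`: state a private lemma for an arbitrary `Finset` `A ⊆ J0`) for `x ∈ J0` sets `G_x` as in the induction hypothesis for `insert x s`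
such that all `supp y`, `y ∈ G_x`, are beyond `N1`, and `supp y`, `supp y'` are disjoint for `y ∈ G_x`, `y' ∈ G_x'`, `x ≠ x'` (take the next one beyond everything used before). Let `G = J0 ∪ ⋃ G_x`.
Beyond `N0`: `h2` and `N0 ≤ N1`. Pairwise disjoint: two elements of `J0`: `hd` with `h1`; one in `J0`, one in `G_x`: `N1`; both in the same `G_x`: induction; in different ones: choice.
(In case of equal elements `y = y'` nothing is to be proved, so overlaps of the sets do not matter.) Third clause: `J0` itself is admissible, otherwise induction hypothesis.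
Let `R` be given. If for some `x ∈ J0` the first alternative holds for `G_x`: done. If no `x ∈ J0` satisfies `R`: first alternative with `J0`. Otherwise take `x ∈ J0` with `R x` and the
second alternative for `G_x`: `T ⊆ G_x`, `Stop (insert x s ∪ T)`; take `T' = insert x T`, `s ∪ T' = insert x s ∪ T`. -/

set_option autoImplicit false

namespace Pool.Agent.Helper60.CR

open Finset

private theorem Tree_bound {α : Type} (supp : α → Finset ℕ) (B : Finset α) :
    ∃ M : ℕ, ∀ y ∈ B, ∀ i ∈ supp y, i < M := by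
  refine ⟨B.sup (fun y => (supp y).sup id) + 1, fun y hy i hi => ?_⟩
  have h1 : i ≤ (supp y).sup id := Finset.le_sup (f := id) hi
  have h2 : (supp y).sup id ≤ B.sup (fun y => (supp y).sup id) :=
    Finset.le_sup (f := fun y => (supp y).sup id) hy
  omega

private theorem Tree_fam {α : Type} [DecidableEq α] (supp : α → Finset ℕ)
    (Q : α → Finset α → Prop) (N1 : ℕ) (A : Finset α)
    (h : ∀ x ∈ A, ∀ N : ℕ, ∃ G : Finset α, (∀ y ∈ G, ∀ i ∈ supp y, N ≤ i) ∧ Q x G) :
    ∃ Gf : α → Finset α, (∀ x ∈ A, (∀ y ∈ Gf x, ∀ i ∈ supp y, N1 ≤ i) ∧ Q x (Gf x)) ∧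
      ∀ x ∈ A, ∀ x' ∈ A, x ≠ x' → ∀ y ∈ Gf x, ∀ y' ∈ Gf x', Disjoint (supp y) (supp y') := by
  induction A using Finset.induction_on with
  | empty =>
    exact ⟨fun _ => ∅, fun x hx => absurd hx (Finset.notMem_empty x),
      fun x hx => absurd hx (Finset.notMem_empty x)⟩
  | insert a A ha ih =>
    obtain ⟨Gf, h1, h2⟩ := ih fun x hx => h x (Finset.mem_insert_of_mem hx)
    obtain ⟨M, hM⟩ := Tree_bound supp (A.biUnion Gf)
    obtain ⟨G, hG1, hG2⟩ := h a (Finset.mem_insert_self a A) (max N1 M)
    have key : ∀ x ∈ A, ∀ y ∈ G, ∀ y' ∈ Gf x, Disjoint (supp y) (supp y') := by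
      intro x hx y hy y' hy'
      rw [Finset.disjoint_left]
      intro i hi hi'
      have h3 := hG1 y hy i hi
      have h4 := hM y' (Finset.mem_biUnion.2 ⟨x, hx, hy'⟩) i hi'
      have := le_max_right N1 M
      omega
    refine ⟨fun x => if x = a then G else Gf x, fun x hx => ?_, fun x hx x' hx' hne => ?_⟩
    · by_cases hxa : x = a
      · subst hxa
        simp only [if_true]
        exact ⟨fun y hy i hi => (le_max_left _ _).trans (hG1 y hy i hi), hG2⟩
      · simp only [if_neg hxa]
        exact h1 x ((Finset.mem_insert.1 hx).resolve_left hxa)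
    · by_cases hxa : x = a
      · subst hxa
        have hx'a : x' ≠ x := Ne.symm hne
        simp only [if_true, if_neg hx'a]
        exact key x' ((Finset.mem_insert.1 hx').resolve_left hx'a)
      · by_cases hx'a : x' = a
        · subst hx'a
          simp only [if_true, if_neg hxa]
          intro y hy y' hy'
          exact (key x ((Finset.mem_insert.1 hx).resolve_left hxa) y' hy' y hy).symm
        · simp only [if_neg hxa, if_neg hx'a]
          exact h2 x ((Finset.mem_insert.1 hx).resolve_left hxa) x'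
            ((Finset.mem_insert.1 hx').resolve_left hx'a) hne

theorem tree {α : Type} [DecidableEq α] (supp : α → Finset ℕ) (Stop Adm : Finset α → Prop)
    (hd : ∀ J, Adm J → ∀ x ∈ J, ∀ y ∈ J, x ≠ y → Disjoint (supp x) (supp y))
    (s : Finset α) (hs : TT supp Stop Adm s) (N0 : ℕ) :
    ∃ G : Finset α, (∀ x ∈ G, ∀ i ∈ supp x, N0 ≤ i) ∧
      (∀ x ∈ G, ∀ y ∈ G, x ≠ y → Disjoint (supp x) (supp y)) ∧
      (∀ x ∈ G, ∃ J, Adm J ∧ x ∈ J ∧ J ⊆ G) ∧
      ∀ R : α → Prop, (∃ J, Adm J ∧ J ⊆ G ∧ ∀ x ∈ J, ¬ R x) ∨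
        ∃ T ⊆ G, (∀ x ∈ T, R x) ∧ Stop (s ∪ T) := by
  induction hs generalizing N0 with
  | stop s h =>
    refine ⟨∅, fun x hx => absurd hx (Finset.notMem_empty x),
      fun x hx => absurd hx (Finset.notMem_empty x),
      fun x hx => absurd hx (Finset.notMem_empty x), fun R => Or.inr ⟨∅, subset_rfl,
        fun x hx => absurd hx (Finset.notMem_empty x), ?_⟩⟩
    rw [Finset.union_empty]
    exact h
  | step s J h1 h2 h3 ih =>
    set J0 := J N0 with hJ0
    obtain ⟨M, hM⟩ := Tree_bound supp J0
    obtain ⟨Gf, hG1, hG2⟩ := Tree_fam supp (fun x G =>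
      (∀ y ∈ G, ∀ y' ∈ G, y ≠ y' → Disjoint (supp y) (supp y')) ∧
      (∀ y ∈ G, ∃ J, Adm J ∧ y ∈ J ∧ J ⊆ G) ∧
      ∀ R : α → Prop, (∃ J, Adm J ∧ J ⊆ G ∧ ∀ x ∈ J, ¬ R x) ∨
        ∃ T ⊆ G, (∀ x ∈ T, R x) ∧ Stop (insert x s ∪ T)) (max N0 M) J0
      (fun x hx N => by
        obtain ⟨G, g1, g2, g3, g4⟩ := ih N0 x hx N
        exact ⟨G, g1, g2, g3, g4⟩)
    have hkey : ∀ x ∈ J0, ∀ x' ∈ J0, ∀ y ∈ Gf x', Disjoint (supp x) (supp y) := by
      intro x hx x' hx' y hy
      rw [Finset.disjoint_left]
      intro i hi hi'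
      have h4 := (hG1 x' hx').1 y hy i hi'
      have h5 := hM x hx i hi
      have := le_max_right N0 M
      omega
    refine ⟨J0 ∪ J0.biUnion Gf, ?_, ?_, ?_, ?_⟩
    · intro x hx i hi
      rcases Finset.mem_union.1 hx with hx | hx
      · exact h2 N0 x hx i hi
      · obtain ⟨x', hx', hx⟩ := Finset.mem_biUnion.1 hx
        exact (le_max_left _ _).trans ((hG1 x' hx').1 x hx i hi)
    · intro x hx y hy hne
      rcases Finset.mem_union.1 hx with hx | hx
      · rcases Finset.mem_union.1 hy with hy | hy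
        · exact hd J0 (h1 N0) x hx y hy hne
        · obtain ⟨y', hy', hy⟩ := Finset.mem_biUnion.1 hy
          exact hkey x hx y' hy' y hy
      · obtain ⟨x', hx', hx⟩ := Finset.mem_biUnion.1 hx
        rcases Finset.mem_union.1 hy with hy | hy
        · exact (hkey y hy x' hx' x hx).symm
        · obtain ⟨y', hy', hy⟩ := Finset.mem_biUnion.1 hy
          by_cases hxy : x' = y'
          · subst hxy
            exact (hG1 x' hx').2.1 x hx y hy hne
          · exact hG2 x' hx' y' hy' hxy x hx y hy
    · intro x hx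
      rcases Finset.mem_union.1 hx with hx | hx
      · exact ⟨J0, h1 N0, hx, Finset.subset_union_left⟩
      · obtain ⟨x', hx', hx⟩ := Finset.mem_biUnion.1 hx
        obtain ⟨J', j1, j2, j3⟩ := (hG1 x' hx').2.2.1 x hx
        exact ⟨J', j1, j2, j3.trans ((Finset.subset_biUnion_of_mem Gf hx').trans
          Finset.subset_union_right)⟩
    · intro R
      by_cases hR : ∃ x ∈ J0, R x
      · obtain ⟨x, hx, hRx⟩ := hR
        have hsub : Gf x ⊆ J0 ∪ J0.biUnion Gf :=
          (Finset.subset_biUnion_of_mem Gf hx).trans Finset.subset_union_right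
        rcases (hG1 x hx).2.2.2 R with ⟨J', j1, j2, j3⟩ | ⟨T, t1, t2, t3⟩
        · exact Or.inl ⟨J', j1, j2.trans hsub, j3⟩
        · refine Or.inr ⟨insert x T, ?_, ?_, ?_⟩
          · intro y hy
            rcases Finset.mem_insert.1 hy with rfl | hy
            · exact Finset.mem_union_left _ hx
            · exact hsub (t1 hy)
          · intro y hy
            rcases Finset.mem_insert.1 hy with rfl | hy
            · exact hRx
            · exact t2 y hy
          · rw [Finset.union_insert, ← Finset.insert_union]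
            exact t3
      · push Not at hR
        exact Or.inl ⟨J0, h1 N0, Finset.subset_union_left, hR⟩

end Pool.Agent.Helper60.CR
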