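import Pool.Agent.Helper60.CR.Basic
import Pool.Agent.Helper60.CR.Tree
import Pool.Agent.Helper60.CR.AddComp
import Pool.Agent.Helper60.CR.TSImage
import Pool.Agent.Helper60.CR.TSAssemble
import Pool.Agent.Helper60.CR.SafePiece
import Pool.Agent.Helper60.CR.LTree

/-! CR-11 (lg_zero, lg_succ). Second case: groups of all levels.
PROOF. lg_zero: `J = {0}`; `Reg 0`, `TS` (second alternative) and the last clause are clear.
lg_succ: let `Hs` and `N0` be given. `l_TT` with `η = δ * w c / κ` and `tree` (hypothesis `hd` from `Reg c 0 J`) give `G0` with: `Reg c N0 G0` (`ne`, `zero`, disjointness inside one node from the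
third clause of `tree`, the rest from the first two clauses), every `x ∈ G0` has `x b = w b • y` with `y` safe for `Hs`, `b < c` (third clause), and for every `R` the alternative of `tree`.
Let `N1 ≥ N0` be larger than all elements of `nsup c x`, `x ∈ G0`. `safe_piece` gives a piece `P` beyond `N1`, `|P| = |G0|`, all of whose vectors are safe for `Hs` (they are not zero: `lower`).
`add_comp` with `ρ := w c` gives `φ`; `G = G0.image φ` is `Reg (c+1) N0`. For `x ∈ G`: `x b = w b • y` for `b ≤ c` with safe `y`. It remains to prove `TS N p δ (c+1) (w (c+1)) G`: `TS_assemble` with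
`M = w c`, `M' = w (c+1)` (`w (c+1) ≤ w c` from `hw2`, `δ ≤ 1 ≤ κ`). Given `R`, apply the alternative of `G0` to `R ∘ φ`.
First alternative: `J ⊆ G0`, `AdmL J`; take `J.image φ`: `TS_image`, `N (∑ x ∈ J.image φ, t x • x c) ≤ w c * Bs p (J.image φ) t` (last clause of `add_comp` applied to `t` cut off outside `J.image φ`,
`upper` of the piece), and no node in `R`.
Second alternative: `T0 ⊆ G0` with `StopL`: `t0 ≥ 0` with `N (∑ x ∈ T0, t0 x • ∑ b ∈ range c, x b) < η * Bs p T0 t0`. Take `T = T0.image φ`, `t x = t0 (Function.update x c 0)` (so `t (φ x) = t0 x` on `G0`).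
`Bs p T t = Bs p T0 t0 > 0`. For `b < c`: `N (∑ x ∈ T, t x • x b) = N (∑ x ∈ T0, t0 x • x b) ≤ N (∑ x ∈ T0, t0 x • ∑ b ∈ range c, x b)` (lattice norm: at every coordinate the components `x b`, `x ∈ T0`,
`b < c`, are disjointly supported, so the left vector is coordinatewise at most the right one in absolute value) `< η * Bs p T t = δ * (w c / κ) * Bs p T t ≤ δ * N (∑ x ∈ T, t x • x c)`, the last by
`lower` of the piece and the last clause of `add_comp` (with `t` cut off outside `T`): `N (∑ t x • x c) = w c * N (∑ τ y • y) ≥ w c / κ * Bs`. And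
`w (c+1) * Bs p T t < δ * (w c / κ) * Bs p T t ≤ δ * N (∑ x ∈ T, t x • x c)` by `hw2`. -/

set_option autoImplicit false

namespace Pool.Agent.Helper60.CR

open Finset

theorem lg_zero (N : F0 → ℝ) (p κ D δ : ℝ) (w : ℕ → ℝ) : LG N p κ D δ w 0 := by
  intro Hs _ N0
  refine ⟨{0}, ⟨fun x _ b hb => absurd hb (Nat.not_lt_zero b),
    fun x _ b hb => absurd hb (Nat.not_lt_zero b),
    fun x _ x' _ b hb => absurd hb (Nat.not_lt_zero b), fun x hx b _ => ?_⟩, fun χ => ?_,
    fun x _ b hb => absurd hb (Nat.not_lt_zero b)⟩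
  · rw [Finset.mem_singleton.mp hx]
    rfl
  · exact Or.inr ⟨0, Finset.mem_singleton_self 0, Nat.zero_le _⟩

private theorem ls_mem_nsup {c : ℕ} {x : Nd} {b : ℕ} (hb : b < c) {i : ℕ}
    (hi : i ∈ (x b).support) : i ∈ nsup c x :=
  Finset.mem_biUnion.mpr ⟨b, Finset.mem_range.mpr hb, hi⟩

/-- The component `b` is dominated by the sum of all components. -/
private theorem ls_dom {c : ℕ} {N0 : ℕ} {J : Finset Nd} (hJ : Reg c N0 J) (N : F0 → ℝ) (hN : Lat N)
    (t : Nd → ℝ) {b : ℕ} (hb : b < c) :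
    N (∑ x ∈ J, t x • x b) ≤ N (∑ x ∈ J, t x • ∑ b ∈ range c, x b) := by
  classical
  have hv : ∀ x ∈ J, ∀ i, |(∑ b ∈ range c, x b) i| = ∑ b ∈ range c, |x b i| := by
    intro x hx i
    have h1 := Lat.sum_apply_abs (range c) (fun b => x b) (fun b hb b' hb' hbb =>
      hJ.disj x hx x hx b (Finset.mem_range.mp hb) b' (Finset.mem_range.mp hb') (Or.inr hbb))
      (fun _ => 1) i
    simpa using h1
  have hsupp : ∀ x ∈ J, ∀ i ∈ (∑ b ∈ range c, x b).support, ∃ b < c, i ∈ (x b).support := by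
    intro x hx i hi
    by_contra hcon
    push Not at hcon
    have h2 := hv x hx i
    have h3 : ∑ b ∈ range c, |x b i| = 0 := Finset.sum_eq_zero fun b hb => by
      rw [Finsupp.notMem_support_iff.mp (hcon b (Finset.mem_range.mp hb)), abs_zero]
    rw [h3] at h2
    exact Finsupp.mem_support_iff.mp hi (abs_eq_zero.mp h2)
  refine hN.mono _ _ fun i => ?_
  rw [Lat.sum_apply_abs J (fun x => x b)
      (fun x hx y hy hxy => hJ.disj x hx y hy b hb b hb (Or.inl hxy)),
    Lat.sum_apply_abs J (fun x => ∑ b ∈ range c, x b) (fun x hx y hy hxy => by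
      rw [Finset.disjoint_left]
      intro j hj hj'
      obtain ⟨b1, hb1, h1⟩ := hsupp x hx j hj
      obtain ⟨b2, hb2, h2⟩ := hsupp y hy j hj'
      exact Finset.disjoint_left.mp (hJ.disj x hx y hy b1 hb1 b2 hb2 (Or.inl hxy)) h1 h2)]
  refine Finset.sum_le_sum fun x hx => mul_le_mul_of_nonneg_left ?_ (abs_nonneg _)
  rw [hv x hx i]
  exact Finset.single_le_sum (f := fun b => |x b i|) (fun _ _ => abs_nonneg _)
    (Finset.mem_range.mpr hb)

theorem lg_succ (N : F0 → ℝ) (hN : Lat N) (p κ D δ : ℝ) (hp : 1 ≤ p) (hκ : 1 ≤ κ) (hδ : 0 < δ)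
    (hδ1 : δ ≤ 1) (w : ℕ → ℝ) (hw : ∀ b, 0 < w b) (hw2 : ∀ b, w (b + 1) * κ < δ * w b)
    (hP : HasPieces N p κ) (h0 : ¬ Win N p κ D ∅) (hB : ¬ Block N p) (c : ℕ)
    (hL : LG N p κ D δ w c) : LG N p κ D δ w (c + 1) := by
  classical
  intro Hs hHs N0
  have hκ0 : 0 < κ := by linarith
  have hwc := hw c
  have hη : 0 < δ * w c / κ := by positivity
  have hTT := l_TT N hN p κ D δ (δ * w c / κ) hp hη w hw c h0 hB hL Hs hHs
  obtain ⟨G0, hG1, hG2, hG3, hG4⟩ := tree (nsup c) (StopL N p (δ * w c / κ) c)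
    (AdmL N p κ D δ w c Hs) (by
      rintro J ⟨hJ, -, -⟩ x hx y hy hxy
      rw [Finset.disjoint_left]
      intro i hi hi'
      obtain ⟨b, hb, h1⟩ := Finset.mem_biUnion.mp hi
      obtain ⟨b', hb', h2⟩ := Finset.mem_biUnion.mp hi'
      exact Finset.disjoint_left.mp (hJ.disj x hx y hy b (Finset.mem_range.mp hb) b'
        (Finset.mem_range.mp hb') (Or.inl hxy)) h1 h2) ∅ hTT N0
  -- `G0` is regular
  have hReg : Reg c N0 G0 := by
    refine ⟨fun x hx b hb => ?_, fun x hx b hb i hi => hG1 x hx i (ls_mem_nsup hb hi),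
      fun x hx x' hx' b hb b' hb' hne => ?_, fun x hx b hb => ?_⟩
    · obtain ⟨J, ⟨hJ, -, -⟩, hxJ, -⟩ := hG3 x hx
      exact hJ.ne x hxJ b hb
    · by_cases hxx : x = x'
      · subst hxx
        obtain ⟨J, ⟨hJ, -, -⟩, hxJ, -⟩ := hG3 x hx
        exact hJ.disj x hxJ x hxJ b hb b' hb' hne
      · rw [Finset.disjoint_left]
        intro i hi hi'
        exact Finset.disjoint_left.mp (hG2 x hx x' hx' hxx) (ls_mem_nsup hb hi)
          (ls_mem_nsup hb' hi')
    · obtain ⟨J, ⟨hJ, -, -⟩, hxJ, -⟩ := hG3 x hx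
      exact hJ.zero x hxJ b hb
  set N1 : ℕ := N0 + 1 + (G0.biUnion (nsup c)).sup id with hN1
  have hlt : ∀ x ∈ G0, ∀ b < c, ∀ i ∈ (x b).support, i < N1 := by
    intro x hx b hb i hi
    have h1 : i ∈ G0.biUnion (nsup c) := Finset.mem_biUnion.mpr ⟨x, hx, ls_mem_nsup hb hi⟩
    have h2 : i ≤ (G0.biUnion (nsup c)).sup id := Finset.le_sup (f := id) h1
    omega
  obtain ⟨P, hPc, hPP, hPs⟩ := safe_piece N p κ D hp hP Hs hHs G0.card N1
  have hP0 : ∀ y ∈ P, y ≠ 0 := by
    intro y hy hy0
    have h1 := hPP.lower (fun v => if v = y then 1 else 0)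
    have h2 : ∑ v ∈ P, (if v = y then (1 : ℝ) else 0) • v = y := by
      rw [Finset.sum_eq_single_of_mem y hy]
      · rw [if_pos rfl, one_smul]
      · intro v _ hv
        rw [if_neg hv, zero_smul]
    rw [h2, hy0, hN.zero, mul_zero] at h1
    have h3 := abs_le_Bs hp hy (fun v : F0 => if v = y then (1 : ℝ) else 0)
    rw [if_pos rfl, abs_one, hy0] at h3
    linarith
  obtain ⟨φ, φ1, φ2, φ3, φ4, φ5⟩ := add_comp p c N0 N1 (by omega) G0 hReg hlt P hPc hP0 hPP.lo
    hPP.disj (w c) hwc.ne'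
  have hinj : Set.InjOn φ (G0 : Set Nd) := by
    intro x hx y hy hxy
    rw [← φ3 x hx, ← φ3 y hy, hxy]
  -- estimates of the new component
  have hK : ∀ J' ⊆ G0.image φ, ∀ t : Nd → ℝ, (∀ x, 0 ≤ t x) →
      N (∑ x ∈ J', t x • x c) ≤ w c * Bs p J' t ∧
      w c / κ * Bs p J' t ≤ N (∑ x ∈ J', t x • x c) := by
    intro J' hJ' t ht
    obtain ⟨τ, hτ, h1, h2⟩ := φ5 (fun x => if x ∈ J' then t x else 0) (fun x => by
      split_ifs
      · exact ht x
      · exact le_rfl)
    have h3 : ∑ x ∈ G0.image φ, (if x ∈ J' then t x else 0) • x c = ∑ x ∈ J', t x • x c := by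
      rw [← Finset.sum_subset hJ' (fun x _ hx => by rw [if_neg hx, zero_smul])]
      exact Finset.sum_congr rfl fun x hx => by rw [if_pos hx]
    have h4 : Bs p (G0.image φ) (fun x => if x ∈ J' then t x else 0) = Bs p J' t := by
      rw [← Bs_subset hp hJ' (fun x _ hx => if_neg hx)]
      exact Bs_congr fun x hx => by rw [if_pos hx]
    rw [h3] at h2
    rw [h4] at h1
    rw [h2, h1, hN.smul, abs_of_pos hwc]
    constructor
    · exact mul_le_mul_of_nonneg_left (hPP.upper τ) hwc.le
    · rw [div_mul_eq_mul_div, div_le_iff₀ hκ0, mul_assoc]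
      refine mul_le_mul_of_nonneg_left ?_ hwc.le
      rw [mul_comm]
      exact hPP.lower τ
  refine ⟨G0.image φ, φ4, ?_, ?_⟩
  · refine TS_assemble N p δ hp c (w c) (w (c + 1)) (G0.image φ) ?_ ?_
    · have h1 := hw2 c
      have h2 := (hw (c + 1)).le
      nlinarith
    · intro R
      rcases hG4 (fun x => R (φ x)) with ⟨J, hJA, hJG, hJR⟩ | ⟨T0, hT0, hTR, hTS⟩
      · left
        refine ⟨J.image φ, Finset.image_subset_image hJG, ?_, fun t ht => (hK _ (Finset.image_subset_image hJG) t ht).1,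
          ?_⟩
        · exact TS_image N p δ c (w c) J φ (fun x _ b hb => φ1 x b (by omega))
            (hinj.mono (by exact_mod_cast hJG)) hJA.2.1
        · intro x hx
          obtain ⟨x0, hx0, rfl⟩ := Finset.mem_image.mp hx
          exact hJR x0 hx0
      · right
        rw [Finset.empty_union] at hTS
        obtain ⟨t0, ht0, hlt0⟩ := hTS
        set t : Nd → ℝ := fun x => t0 (Function.update x c 0) with ht
        have htn : ∀ x, 0 ≤ t x := fun x => ht0 _
        have htφ : ∀ x ∈ T0, t (φ x) = t0 x := fun x hx => by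
          rw [ht]
          show t0 (Function.update (φ x) c 0) = t0 x
          rw [φ3 x (hT0 hx)]
        have hinjT : Set.InjOn φ (T0 : Set Nd) := hinj.mono (by exact_mod_cast hT0)
        have hBs : Bs p (T0.image φ) t = Bs p T0 t0 := by
          rw [Bs_image T0 φ hinjT]
          exact Bs_congr fun x hx => by rw [htφ x hx]
        have hRegT : Reg c N0 T0 :=
          ⟨fun x hx => hReg.ne x (hT0 hx), fun x hx => hReg.lo x (hT0 hx),
            fun x hx x' hx' => hReg.disj x (hT0 hx) x' (hT0 hx'),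
            fun x hx => hReg.zero x (hT0 hx)⟩
        have hBpos : 0 < Bs p T0 t0 := by
          have h1 := hN.nonneg (∑ x ∈ T0, t0 x • ∑ b ∈ range c, x b)
          have h2 := lt_of_le_of_lt h1 hlt0
          exact (mul_pos_iff_of_pos_left hη).mp h2
        have hlow := (hK _ (Finset.image_subset_image hT0) t htn).2
        have hlow2 : δ * w c / κ * Bs p (T0.image φ) t ≤
            δ * N (∑ x ∈ T0.image φ, t x • x c) := by
          calc δ * w c / κ * Bs p (T0.image φ) t = δ * (w c / κ * Bs p (T0.image φ) t) := by ring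
            _ ≤ _ := mul_le_mul_of_nonneg_left hlow hδ.le
        refine ⟨T0.image φ, Finset.image_subset_image hT0, ?_, t, htn, fun b hb => ?_, ?_⟩
        · intro x hx
          obtain ⟨x0, hx0, rfl⟩ := Finset.mem_image.mp hx
          exact hTR x0 hx0
        · refine lt_of_lt_of_le ?_ hlow2
          have h1 : ∑ x ∈ T0.image φ, t x • x b = ∑ x ∈ T0, t0 x • x b := by
            rw [Finset.sum_image hinjT]
            refine Finset.sum_congr rfl fun x hx => ?_
            rw [htφ x hx, φ1 x b (by omega)]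
          rw [h1, hBs]
          exact lt_of_le_of_lt (ls_dom hRegT N hN t0 hb) hlt0
        · refine lt_of_lt_of_le ?_ hlow2
          rw [hBs]
          refine mul_lt_mul_of_pos_right ?_ hBpos
          rw [lt_div_iff₀ hκ0]
          exact hw2 c
  · intro x hx b hb
    obtain ⟨x0, hx0, rfl⟩ := Finset.mem_image.mp hx
    by_cases hbc : b = c
    · subst hbc
      obtain ⟨y, hy, hxy⟩ := φ2 x0 hx0
      exact ⟨y, hxy, fun H hH => hPs y hy H hH⟩
    · obtain ⟨J, ⟨-, -, hJs⟩, hxJ, -⟩ := hG3 x0 hx0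
      rw [φ1 x0 b hbc]
      exact hJs x0 hxJ b (by omega)

end Pool.Agent.Helper60.CR
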