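import Pool.Agent.Helper60.CR.Basic
import Pool.Agent.Helper60.CR.AddComp
import Pool.Agent.Helper60.CR.TSImage
import Pool.Agent.Helper60.CR.TSAssemble

/-! CR-07 (u_final). First case: groups of level three give groups of level four with the full property.
PROOF. `UG 3` with `M = 1`, `ρ = δ / (2 κ)` and `N0` gives `J`. Let `N1 ≥ N0` be larger than all elements of all supports of `x b`, `x ∈ J`, `b < 3`; `hP` gives a piece `P` with `|P| = |J|` beyond `N1`
(its vectors are not zero: `1 ≤ κ * N y` by `lower`). `add_comp` with `c = 3`, `ρ := 1` gives `φ`, `G = J.image φ`, `Reg 4 N0 G`. `TS N p δ 4 0 G` by `TS_assemble` with `c = 3`, `M = 1`, `M' = 0`: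
given `R`, if no node of `G` satisfies `R`, take `J := G` itself: `TS_image`, and `N (∑ t x • x 3) ≤ 1 * Bs` by the last clause of `add_comp` and `upper`. Otherwise let `x ∈ G`, `R x`, `T = {x}`, `t = 1`:
`N (x b) ≤ ρ = δ / (2 κ) < δ * N (x 3)` since `N (x 3) = N y ≥ 1 / κ`; and `0 * Bs = 0 < δ * N (x 3)`. -/

set_option autoImplicit false

namespace Pool.Agent.Helper60.CR

open Finset

theorem u_final (N : F0 → ℝ) (hN : Lat N) (p κ δ : ℝ) (hp : 1 ≤ p) (hκ : 1 ≤ κ) (hδ : 0 < δ)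
    (hP : HasPieces N p κ) (hU : UG N p δ 3) (N0 : ℕ) :
    ∃ G : Finset Nd, Reg 4 N0 G ∧ TS N p δ 4 0 G := by
  classical
  have hκ0 : 0 < κ := by linarith
  obtain ⟨J, hJreg, hJTS, hJρ⟩ := hU 1 (δ / (2 * κ)) (by positivity) N0
  set S : Finset ℕ := J.biUnion (fun x => nsup 3 x) with hS
  obtain ⟨P, hPc, hPi⟩ := hP J.card (N0 + (S.sup id + 1))
  have hJ1 : ∀ x ∈ J, ∀ b < 3, ∀ i ∈ (x b).support, i < N0 + (S.sup id + 1) := by
    intro x hx b hb i hi
    have h1 : i ∈ S := by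
      rw [hS, Finset.mem_biUnion]
      refine ⟨x, hx, ?_⟩
      unfold nsup
      rw [Finset.mem_biUnion]
      exact ⟨b, Finset.mem_range.mpr hb, hi⟩
    have h2 : i ≤ S.sup id := Finset.le_sup (f := id) h1
    omega
  have hPn : ∀ y ∈ P, 1 ≤ κ * N y := by
    intro y hy
    have h1 := hPi.lower (fun v => if v = y then 1 else 0)
    have h2 : ∑ v ∈ P, (if v = y then (1 : ℝ) else 0) • v = y := by
      rw [Finset.sum_eq_single_of_mem y hy]
      · rw [if_pos rfl, one_smul]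
      · intro v _ hv
        rw [if_neg hv, zero_smul]
    rw [h2] at h1
    have h3 := abs_le_Bs hp hy (fun v => if v = y then (1 : ℝ) else 0)
    simp only [if_true, abs_one] at h3
    exact h3.trans h1
  have hP0 : ∀ y ∈ P, y ≠ 0 := by
    intro y hy h0
    have h1 := hPn y hy
    rw [h0, hN.zero, mul_zero] at h1
    linarith
  obtain ⟨φ, hφ1, hφ2, hφ3, hφ4, hφ5⟩ := add_comp p 3 N0 (N0 + (S.sup id + 1)) (Nat.le_add_right _ _)
    J hJreg hJ1 P hPc hP0 hPi.lo hPi.disj 1 one_ne_zero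
  refine ⟨J.image φ, hφ4, TS_assemble N p δ hp 3 1 0 (J.image φ) zero_le_one fun R => ?_⟩
  by_cases hR : ∀ x ∈ J.image φ, ¬ R x
  · refine Or.inl ⟨J.image φ, Finset.Subset.refl _, TS_image N p δ 3 1 J φ
      (fun x _ b hb => hφ1 x b (by omega)) (fun x hx y hy hxy => ?_) hJTS, fun t ht => ?_, hR⟩
    · rw [← hφ3 x hx, ← hφ3 y hy, hxy]
    · obtain ⟨τ, hτ0, hτ1, hτ2⟩ := hφ5 t ht
      rw [hτ2, hτ1, one_smul, one_mul]
      exact hPi.upper τ
  · push Not at hR
    obtain ⟨x, hx, hRx⟩ := hR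
    obtain ⟨x0, hx0, rfl⟩ := Finset.mem_image.mp hx
    obtain ⟨y, hy, hxy⟩ := hφ2 x0 hx0
    have hNy := hPn y hy
    have h3 : N (φ x0 3) = N y := by rw [hxy, one_smul]
    have h4 : 0 < N y := hN.pos (hP0 y hy)
    refine Or.inr ⟨{φ x0}, Finset.singleton_subset_iff.mpr hx, fun v hv => ?_, fun _ => 1,
      fun _ => zero_le_one, fun b hb => ?_, ?_⟩
    · rw [Finset.mem_singleton.mp hv]
      exact hRx
    · rw [Finset.sum_singleton, Finset.sum_singleton, one_smul, one_smul, h3,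
        hφ1 x0 b (by omega)]
      refine lt_of_le_of_lt (hJρ x0 hx0 b hb) ?_
      rw [div_lt_iff₀ (by positivity)]
      have h5 : δ * 1 ≤ δ * (κ * N y) := mul_le_mul_of_nonneg_left hNy hδ.le
      nlinarith
    · rw [Finset.sum_singleton, one_smul, h3, zero_mul]
      positivity

end Pool.Agent.Helper60.CR
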