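import Pool.Agent.Helper60.CR.Basic
import Pool.Agent.Helper60.CR.AddComp
import Pool.Agent.Helper60.CR.TSImage

/-! CR-05 (win_TT). First case: the game tree gives a tree of groups.
PROOF. Induction on `Win N p κ D h` for all `s`.
test `τ`: `StopU` holds for `s`: take `t x = τ (ρ⁻¹ • x c)`. As `x ↦ ρ⁻¹ • x c` is injective on `s` with image `h`: `Bs p s t = Bs p h τ` (`Bs_image`), `∑ x ∈ s, t x • x c = ρ • ∑ v ∈ h, τ v • v`
(`Finset.sum_image`), so `N (∑ t x • x c) = ρ * N (∑ τ v • v) > ρ * D * Bs p h τ`; and `∑ x ∈ s, N (x b) ≤ (1 - (1/2)^|s|) * (δ * ρ) ≤ δ * ρ`.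
step (`P`, `hc`, `hP`, `hw`): for every `N0` let `N1 ≥ N0` be larger than all elements of the supports of all vectors of `h` and of all `x b`, `x ∈ s`, `b ≤ c` (that is of `nsup (c+1) x`). Apply `hU` with
`ρ' = min ρ ((1/2)^(|s|+1) * δ * ρ)` and `N1`: a group `J0`. Let `N2 ≥ N1` be larger than all elements of the supports of `x b`, `x ∈ J0`, `b < c`. The piece `P |J0| N2`; `add_comp` with this `ρ`
gives `φ`; `J N0 := J0.image φ` (`choose`). It is admissible: `Reg (c+1) N1` gives `Reg (c+1) 0`; `TS_image`; `N (x b) ≤ ρ' ≤ ρ` for `b < c`, `N (x c) = ρ * N y ≤ ρ` (`upper` of the piece with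
`t = 1` on `{y}`, else `0`; `Bs_singleton`/`Bs_subset`); the last clause from the last clause of `add_comp` and `upper`. For `x ∈ J N0`: `x c = ρ • y`, `y ∈ P |J0| N2`, so `ρ⁻¹ • x c = y` and
`(insert x s).image (fun x => ρ⁻¹ • x c) = insert y h`; the map is injective on `insert x s` because `y ≠ 0` (`lower` of the piece: `1 ≤ κ * N y`) has support beyond the supports of all vectors of
`h`, so `y ∉ h`. Also `x ∉ s` (as `y ∉ h`), so `|insert x s| = |s| + 1` and the sums of the norms are `≤ (1 - (1/2)^|s|) δ ρ + (1/2)^(|s|+1) δ ρ = (1 - (1/2)^(|s|+1)) δ ρ`. Apply the induction hypothesis. -/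

set_option autoImplicit false

namespace Pool.Agent.Helper60.CR

open Finset

theorem win_TT_sum_single (P : Finset F0) (y : F0) (hy : y ∈ P) :
    ∑ v ∈ P, (if v = y then (1 : ℝ) else 0) • v = y := by
  rw [Finset.sum_eq_single_of_mem y hy]
  · rw [if_pos rfl, one_smul]
  · intro v _ hv
    rw [if_neg hv, zero_smul]

theorem win_TT_Bs_single (p : ℝ) (hp : 1 ≤ p) (P : Finset F0) (y : F0) (hy : y ∈ P) :
    Bs p P (fun v => if v = y then (1 : ℝ) else 0) = 1 := by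
  rw [← Bs_subset hp (Finset.singleton_subset_iff.2 hy)]
  · rw [Bs_singleton hp, if_pos rfl, abs_one]
  · intro v _ hv
    rw [if_neg]
    exact fun h => hv (Finset.mem_singleton.2 h)

theorem win_TT_step (N : F0 → ℝ) (hN : Lat N) (p κ δ M ρ : ℝ) (hp : 1 ≤ p) (hδ : 0 < δ)
    (hρ : 0 < ρ) (c : ℕ)
    (hU : ∀ ρ' : ℝ, 0 < ρ' → ∀ N0 : ℕ, ∃ J : Finset Nd, Reg c N0 J ∧ TS N p δ c M J ∧
      ∀ x ∈ J, ∀ b < c, N (x b) ≤ ρ')
    (h : Finset F0) (P : ℕ → ℕ → Finset F0) (hc : ∀ n N0, (P n N0).card = n)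
    (hP : ∀ n N0, Piece N p κ N0 (P n N0)) (s : Finset Nd)
    (hs : s.image (fun x => ρ⁻¹ • x c) = h) (hinj : Set.InjOn (fun x : Nd => ρ⁻¹ • x c) s)
    (hsum : ∀ b < c, ∑ x ∈ s, N (x b) ≤ (1 - (1 / 2) ^ s.card) * (δ * ρ)) (N0 : ℕ) :
    ∃ J : Finset Nd, AdmU N p δ M ρ c J ∧ (∀ x ∈ J, ∀ i ∈ nsup (c + 1) x, N0 ≤ i) ∧
      ∀ x ∈ J, ∃ n N2, ∃ y ∈ P n N2,
        (insert x s).image (fun x => ρ⁻¹ • x c) = insert y h ∧
        Set.InjOn (fun x : Nd => ρ⁻¹ • x c) (insert x s : Finset Nd) ∧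
        ∀ b < c, ∑ x ∈ insert x s, N (x b) ≤ (1 - (1 / 2) ^ (insert x s).card) * (δ * ρ) := by
  obtain ⟨n1, hn1⟩ := (h.biUnion fun v => v.support).exists_nat_subset_range
  set N1 := max N0 n1 with hN1
  have hρ' : 0 < min ρ ((1 / 2) ^ (s.card + 1) * (δ * ρ)) := by positivity
  obtain ⟨J0, hreg, hTS, hsmall⟩ := hU _ hρ' N1
  obtain ⟨n2, hn2⟩ := (J0.biUnion fun x => nsup c x).exists_nat_subset_range
  set N2 := max N1 n2 with hN2
  have hPc := hc J0.card N2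
  have hPP := hP J0.card N2
  set Q := P J0.card N2 with hQ
  have hQ0 : ∀ y ∈ Q, y ≠ 0 := by
    intro y hy hy0
    have h1 := hPP.lower (fun v => if v = y then (1 : ℝ) else 0)
    rw [win_TT_Bs_single p hp Q y hy, win_TT_sum_single Q y hy, hy0, hN.zero, mul_zero] at h1
    linarith
  have hJ1 : ∀ x ∈ J0, ∀ b < c, ∀ i ∈ (x b).support, i < N2 := by
    intro x hx b hb i hi
    have h1 : i ∈ (J0.biUnion fun x => nsup c x) := by
      rw [Finset.mem_biUnion]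
      refine ⟨x, hx, ?_⟩
      unfold nsup
      rw [Finset.mem_biUnion]
      exact ⟨b, Finset.mem_range.2 hb, hi⟩
    have h2 := Finset.mem_range.1 (hn2 h1)
    exact lt_of_lt_of_le h2 (le_max_right _ _)
  obtain ⟨φ, h1, h2, h3, h4, h5⟩ := add_comp p c N1 N2 (le_max_left _ _) J0 hreg hJ1 Q hPc hQ0
    hPP.lo hPP.disj ρ hρ.ne'
  have hφinj : Set.InjOn φ J0 := by
    intro x hx x' hx' hxx
    rw [← h3 x hx, ← h3 x' hx', hxx]
  refine ⟨J0.image φ, ⟨?_, ?_, ?_, ?_⟩, ?_, ?_⟩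
  · exact ⟨h4.ne, fun _ _ _ _ _ _ => Nat.zero_le _, h4.disj, h4.zero⟩
  · exact TS_image N p δ c M J0 φ (fun x _ b hb => h1 x b hb.ne) hφinj hTS
  · intro x hx b hb
    obtain ⟨x0, hx0, rfl⟩ := Finset.mem_image.1 hx
    by_cases hbc : b = c
    · subst hbc
      obtain ⟨y, hy, hxy⟩ := h2 x0 hx0
      rw [hxy, hN.smul, abs_of_pos hρ]
      have h6 := hPP.upper (fun v => if v = y then (1 : ℝ) else 0)
      rw [win_TT_Bs_single p hp Q y hy, win_TT_sum_single Q y hy] at h6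
      nlinarith
    · rw [h1 x0 b hbc]
      exact (hsmall x0 hx0 b (by omega)).trans (min_le_left _ _)
  · intro t ht
    obtain ⟨τ, _, h6, h7⟩ := h5 t ht
    rw [h6, h7, hN.smul, abs_of_pos hρ]
    exact mul_le_mul_of_nonneg_left (hPP.upper τ) hρ.le
  · intro x hx i hi
    unfold nsup at hi
    rw [Finset.mem_biUnion] at hi
    obtain ⟨b, hb, hi⟩ := hi
    exact (le_max_left _ _).trans (h4.lo x hx b (Finset.mem_range.1 hb) i hi)
  · intro x hx
    obtain ⟨x0, hx0, rfl⟩ := Finset.mem_image.1 hx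
    obtain ⟨y, hy, hxy⟩ := h2 x0 hx0
    have hgx : ρ⁻¹ • (φ x0) c = y := by
      rw [hxy, smul_smul, inv_mul_cancel₀ hρ.ne', one_smul]
    have hyh : y ∉ h := by
      intro hyh
      obtain ⟨i, hi⟩ := Finsupp.support_nonempty_iff.2 (hQ0 y hy)
      have h6 : N2 ≤ i := hPP.lo y hy i hi
      have h7 : i < n1 := Finset.mem_range.1 (hn1 (Finset.mem_biUnion.2 ⟨y, hyh, hi⟩))
      have h8 : n1 ≤ N1 := le_max_right _ _
      have h9 : N1 ≤ N2 := le_max_left _ _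
      omega
    have hxs : φ x0 ∉ s := by
      intro hxs
      apply hyh
      rw [← hs, ← hgx]
      exact Finset.mem_image_of_mem _ hxs
    refine ⟨J0.card, N2, y, hy, ?_, ?_, ?_⟩
    · rw [Finset.image_insert, hs, hgx]
    · rw [Finset.coe_insert, Set.injOn_insert (by exact_mod_cast hxs)]
      refine ⟨hinj, ?_⟩
      rintro ⟨x', hx', hxx'⟩
      apply hyh
      rw [← hs, ← hgx]
      simp only at hxx'
      rw [← hxx']
      exact Finset.mem_image_of_mem _ hx'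
    · intro b hb
      rw [Finset.sum_insert hxs, Finset.card_insert_of_notMem hxs, h1 x0 b hb.ne]
      have h6 := (hsmall x0 hx0 b hb).trans (min_le_right _ _)
      have h7 := hsum b hb
      have h8 : (1 / 2 : ℝ) ^ s.card = 2 * (1 / 2) ^ (s.card + 1) := by
        rw [pow_succ]
        ring
      rw [h8] at h7
      linarith

theorem win_TT (N : F0 → ℝ) (hN : Lat N) (p κ δ D M ρ : ℝ) (hp : 1 ≤ p) (hδ : 0 < δ) (hρ : 0 < ρ)
    (c : ℕ)
    (hU : ∀ ρ' : ℝ, 0 < ρ' → ∀ N0 : ℕ, ∃ J : Finset Nd, Reg c N0 J ∧ TS N p δ c M J ∧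
      ∀ x ∈ J, ∀ b < c, N (x b) ≤ ρ')
    (h : Finset F0) (hW : Win N p κ D h) (s : Finset Nd)
    (hs : s.image (fun x => ρ⁻¹ • x c) = h) (hinj : Set.InjOn (fun x : Nd => ρ⁻¹ • x c) s)
    (hsum : ∀ b < c, ∑ x ∈ s, N (x b) ≤ (1 - (1 / 2) ^ s.card) * (δ * ρ)) :
    TT (nsup (c + 1)) (StopU N p δ D ρ c) (AdmU N p δ M ρ c) s := by
  induction hW generalizing s with
  | test h τ hτ hD =>
    apply TT.stop
    refine ⟨⟨fun x => τ (ρ⁻¹ • x c), fun x => hτ _, ?_⟩, ?_⟩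
    · have h1 : Bs p h τ = Bs p s (fun x => τ (ρ⁻¹ • x c)) := by
        rw [← hs]
        exact Bs_image s _ hinj τ
      have h2 : ∑ x ∈ s, τ (ρ⁻¹ • x c) • x c = ρ • ∑ v ∈ h, τ v • v := by
        rw [← hs, Finset.sum_image hinj, Finset.smul_sum]
        refine Finset.sum_congr rfl fun x _ => ?_
        rw [smul_comm, smul_smul ρ ρ⁻¹, mul_inv_cancel₀ hρ.ne', one_smul]
      rw [← h1, h2, hN.smul, abs_of_pos hρ, mul_assoc]
      exact mul_lt_mul_of_pos_left hD hρ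
    · intro b hb
      refine (hsum b hb).trans ?_
      have h1 : (0 : ℝ) ≤ (1 / 2) ^ s.card := by positivity
      have h2 : 0 < δ * ρ := by positivity
      nlinarith
  | step h P hc hP hw ih =>
    choose J hJ using win_TT_step N hN p κ δ M ρ hp hδ hρ c hU h P hc hP s hs hinj hsum
    refine TT.step s J (fun N0 => (hJ N0).1) (fun N0 => (hJ N0).2.1) (fun N0 x hx => ?_)
    obtain ⟨n, N2, y, hy, h1, h2, h3⟩ := (hJ N0).2.2 x hx
    exact ih n N2 y hy (insert x s) h1 h2 h3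

end Pool.Agent.Helper60.CR
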