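import Pool.Agent.Helper60.CR.Basic
import Pool.Agent.Helper60.CR.Tree
import Pool.Agent.Helper60.CR.TSAssemble
import Pool.Agent.Helper60.CR.WinTT

/-! CR-06 (ug_zero, ug_succ). First case: groups of all levels.
PROOF. ug_zero: `J = {0}` (the node with all components `0`): `Reg 0` is clear, `TS`: second alternative.
ug_succ: let `M, ρ, N0` be given. Put `M1 = max M ρ` and `D = max 1 (M / (δ * ρ))`. `win_TT` with `h = ∅`, `s = ∅`, and `M := M1` (its hypothesis `hU` is `UG c` with `M1`) gives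
`TT (nsup (c+1)) (StopU N p δ D ρ c) (AdmU N p δ M1 ρ c) ∅`. `tree` (hypothesis `hd` from `Reg (c+1) 0 J`: `nsup` of different nodes are disjoint) gives `G`.
`Reg (c+1) N0 G`: `ne`, `zero` and the disjointness inside one node from the admissible `J ∋ x` (third clause of `tree`), `lo` and the disjointness for different nodes from the first two clauses.
`N (x b) ≤ ρ` for `b < c + 1` also from the third clause. `TS N p δ (c+1) M G` by `TS_assemble` with `M := M1`, `M' := M`: given `R`, `tree` gives either an admissible `J ⊆ G` without nodes in `R`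
(`N (∑ t x • x c) ≤ ρ * Bs ≤ M1 * Bs`) or `T ⊆ G`, `T ⊆ R`, with `StopU` of `∅ ∪ T = T`: `t ≥ 0` with `ρ * D * Bs p T t < N (∑ x ∈ T, t x • x c)` and `∑ x ∈ T, N (x b) ≤ δ * ρ`.
Then for `b < c`: `N (∑ x ∈ T, t x • x b) ≤ ∑ t x * N (x b) ≤ Bs p T t * (δ * ρ)` (`abs_le_Bs`) `≤ δ * (ρ * D * Bs p T t) < δ * N (∑ t x • x c)` (`D ≥ 1`), and
`M * Bs ≤ δ * ρ * D * Bs < δ * N (∑ t x • x c)` as `D ≥ M / (δ ρ)`. -/

set_option autoImplicit false

namespace Pool.Agent.Helper60.CR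

open Finset

theorem ug_zero (N : F0 → ℝ) (p δ : ℝ) : UG N p δ 0 := by
  intro M ρ _ N0
  refine ⟨{fun _ => 0}, ⟨fun x _ b hb => absurd hb (Nat.not_lt_zero _),
    fun x _ b hb => absurd hb (Nat.not_lt_zero _),
    fun x _ x' _ b hb => absurd hb (Nat.not_lt_zero _), ?_⟩, ?_,
    fun x _ b hb => absurd hb (Nat.not_lt_zero _)⟩
  · intro x hx b _
    rw [Finset.mem_singleton.1 hx]
  · intro χ
    exact Or.inr ⟨_, Finset.mem_singleton_self _, Nat.zero_le _⟩

private theorem supp_subset_nsup {c b : ℕ} (hb : b < c) (x : Nd) :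
    (x b).support ⊆ nsup c x := by
  intro i hi
  unfold nsup
  rw [Finset.mem_biUnion]
  exact ⟨b, Finset.mem_range.2 hb, hi⟩

private theorem nsup_disjoint {c N0 : ℕ} {J : Finset Nd} (h : Reg c N0 J) :
    ∀ x ∈ J, ∀ y ∈ J, x ≠ y → Disjoint (nsup c x) (nsup c y) := by
  intro x hx y hy hxy
  unfold nsup
  rw [Finset.disjoint_biUnion_left]
  intro b hb
  rw [Finset.disjoint_biUnion_right]
  intro b' hb'
  exact h.disj x hx y hy b (Finset.mem_range.1 hb) b' (Finset.mem_range.1 hb') (Or.inl hxy)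

theorem ug_succ (N : F0 → ℝ) (hN : Lat N) (p κ δ : ℝ) (hp : 1 ≤ p) (hδ : 0 < δ) (c : ℕ)
    (hW : ∀ D : ℝ, Win N p κ D ∅) (hU : UG N p δ c) : UG N p δ (c + 1) := by
  intro M ρ hρ N0
  set M1 : ℝ := max M ρ with hM1
  set D : ℝ := max 1 (M / (δ * ρ)) with hD
  have hδρ : 0 < δ * ρ := mul_pos hδ hρ
  have hD1 : 1 ≤ D := le_max_left _ _
  have hD2 : M ≤ δ * ρ * D := by
    have h1 : M / (δ * ρ) ≤ D := le_max_right _ _
    rw [div_le_iff₀ hδρ] at h1
    linarith
  have hTT : TT (nsup (c + 1)) (StopU N p δ D ρ c) (AdmU N p δ M1 ρ c) ∅ := by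
    refine win_TT N hN p κ δ D M1 ρ hp hδ hρ c (fun ρ' hρ' N0 => hU M1 ρ' hρ' N0) ∅ (hW D) ∅
      ?_ ?_ ?_
    · rw [Finset.image_empty]
    · rw [Finset.coe_empty]
      exact Set.injOn_empty _
    · intro b _
      rw [Finset.sum_empty, Finset.card_empty, pow_zero, sub_self, zero_mul]
  obtain ⟨G, hG1, hG2, hG3, hG4⟩ := tree (nsup (c + 1)) (StopU N p δ D ρ c)
    (AdmU N p δ M1 ρ c) (fun J hJ => nsup_disjoint hJ.1) ∅ hTT N0
  refine ⟨G, ⟨?_, ?_, ?_, ?_⟩, ?_, ?_⟩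
  · intro x hx
    obtain ⟨J, hJ, hxJ, _⟩ := hG3 x hx
    exact hJ.1.ne x hxJ
  · intro x hx b hb i hi
    exact hG1 x hx i (supp_subset_nsup hb x hi)
  · intro x hx x' hx' b hb b' hb' hne
    by_cases hxx : x = x'
    · subst hxx
      obtain ⟨J, hJ, hxJ, _⟩ := hG3 x hx
      exact hJ.1.disj x hxJ x hxJ b hb b' hb' hne
    · exact (hG2 x hx x' hx' hxx).mono (supp_subset_nsup hb x) (supp_subset_nsup hb' x')
  · intro x hx
    obtain ⟨J, hJ, hxJ, _⟩ := hG3 x hx
    exact hJ.1.zero x hxJ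
  · refine TS_assemble N p δ hp c M1 M G (le_max_left _ _) ?_
    intro R
    rcases hG4 R with ⟨J, hJ, hJG, hR⟩ | ⟨T, hTG, hR, hS⟩
    · refine Or.inl ⟨J, hJG, hJ.2.1, fun t ht => ?_, hR⟩
      exact (hJ.2.2.2 t ht).trans
        (mul_le_mul_of_nonneg_right (le_max_right _ _) (Bs_nonneg _ _))
    · rw [Finset.empty_union] at hS
      obtain ⟨⟨t, ht, h1⟩, h2⟩ := hS
      have hB : 0 ≤ Bs p T t := Bs_nonneg _ _
      refine Or.inr ⟨T, hTG, hR, t, ht, fun b hb => ?_, ?_⟩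
      · have h3 : N (∑ x ∈ T, t x • x b) ≤ Bs p T t * ∑ x ∈ T, N (x b) := by
          refine (hN.sum_smul_le T (fun x => x b) t).trans ?_
          rw [Finset.mul_sum]
          exact Finset.sum_le_sum fun x hx =>
            mul_le_mul_of_nonneg_right (abs_le_Bs hp hx t) (hN.nonneg _)
        have h4 : Bs p T t * ∑ x ∈ T, N (x b) ≤ Bs p T t * (δ * ρ) :=
          mul_le_mul_of_nonneg_left (h2 b hb) hB
        have h5 : Bs p T t * (δ * ρ) ≤ δ * (ρ * D * Bs p T t) := by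
          have h6 : 0 ≤ Bs p T t * (δ * ρ) := mul_nonneg hB hδρ.le
          nlinarith
        have h7 : δ * (ρ * D * Bs p T t) < δ * N (∑ x ∈ T, t x • x c) :=
          mul_lt_mul_of_pos_left h1 hδ
        linarith
      · have h5 : M * Bs p T t ≤ δ * (ρ * D * Bs p T t) := by
          have h6 := mul_le_mul_of_nonneg_right hD2 hB
          linarith
        have h7 : δ * (ρ * D * Bs p T t) < δ * N (∑ x ∈ T, t x • x c) :=
          mul_lt_mul_of_pos_left h1 hδ
        linarith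
  · intro x hx
    obtain ⟨J, hJ, hxJ, _⟩ := hG3 x hx
    exact hJ.2.2.1 x hxJ

end Pool.Agent.Helper60.CR
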