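import Pool.Agent.Helper60.CR.Basic
import Pool.Agent.Helper60.CR.UStep
import Pool.Agent.Helper60.CR.UFinal
import Pool.Agent.Helper60.CR.GroupGadget
import Pool.Agent.Helper60.CR.LStep

/-! CR-12 (has_gadgets). If pieces exist and `ℓ_p` is not a block subspace then there are gadgets.
PROOF. Let `δ > 0`, `N0`. A gadget for a smaller `δ` is a gadget for `δ` (`N ≥ 0`), so `δ ≤ 1` may be assumed (`min δ 1`). If `Win N p κ D ∅` for all `D`: `ug_zero`, `ug_succ` three times, `u_final`,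
`group_gadget`. Otherwise fix `D` with `¬ Win N p κ D ∅`, and let `w b = (δ / (2 κ)) ^ b`: `w (b+1) * κ = δ / 2 * w b < δ * w b`; `lg_zero`, `lg_succ` four times, `LG 4` with `Hs = ∅`, `group_gadget`. -/

set_option autoImplicit false

namespace Pool.Agent.Helper60.CR

open Finset

theorem Star.mono_delta {N : F0 → ℝ} (hN : Lat N) {δ δ' : ℝ} (h : δ ≤ δ') {m : ℕ}
    {f : ℕ → Fin 4 → F0} (hs : Star N δ m f) : Star N δ' m f := by
  intro χ
  obtain ⟨c, t, h1, h2, h3⟩ := hs χ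
  refine ⟨c, t, h1, h2, fun b hb => (h3 b hb).trans_le ?_⟩
  exact mul_le_mul_of_nonneg_right h (hN.nonneg _)

theorem has_gadgets_small (N : F0 → ℝ) (hN : Lat N) (p κ : ℝ) (hp : 1 ≤ p) (hκ : 1 ≤ κ)
    (hP : HasPieces N p κ) (hB : ¬ Block N p) (δ : ℝ) (hδ : 0 < δ) (hδ1 : δ ≤ 1) (N0 : ℕ) :
    ∃ (m : ℕ) (f : ℕ → Fin 4 → F0), Gadget N δ N0 m f := by
  by_cases hW : ∀ D : ℝ, Win N p κ D ∅
  · have h1 : UG N p δ 1 := ug_succ N hN p κ δ hp hδ 0 hW (ug_zero N p δ)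
    have h2 : UG N p δ 2 := ug_succ N hN p κ δ hp hδ 1 hW h1
    have h3 : UG N p δ 3 := ug_succ N hN p κ δ hp hδ 2 hW h2
    obtain ⟨G, hG, hT⟩ := u_final N hN p κ δ hp hκ hδ hP h3 N0
    exact group_gadget N p δ 0 N0 G hG hT
  · push Not at hW
    obtain ⟨D, hD⟩ := hW
    have hκ0 : 0 < κ := zero_lt_one.trans_le hκ
    set w : ℕ → ℝ := fun b => (δ / (2 * κ)) ^ b with hw
    have hw1 : ∀ b, 0 < w b := fun b => by simp only [hw]; positivity
    have hw2 : ∀ b, w (b + 1) * κ < δ * w b := by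
      intro b
      have h1 : w (b + 1) * κ = δ / 2 * w b := by
        simp only [hw, pow_succ]
        field_simp
      rw [h1]
      exact mul_lt_mul_of_pos_right (by linarith) (hw1 b)
    have h0 : LG N p κ D δ w 0 := lg_zero N p κ D δ w
    have h1 := lg_succ N hN p κ D δ hp hκ hδ hδ1 w hw1 hw2 hP hD hB 0 h0
    have h2 := lg_succ N hN p κ D δ hp hκ hδ hδ1 w hw1 hw2 hP hD hB 1 h1
    have h3 := lg_succ N hN p κ D δ hp hκ hδ hδ1 w hw1 hw2 hP hD hB 2 h2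
    have h4 := lg_succ N hN p κ D δ hp hκ hδ hδ1 w hw1 hw2 hP hD hB 3 h3
    obtain ⟨J, hJ, hT, _⟩ := h4 ∅ (fun H hH => absurd hH (Finset.notMem_empty H)) N0
    exact group_gadget N p δ (w 4) N0 J hJ hT

theorem has_gadgets (N : F0 → ℝ) (hN : Lat N) (p κ : ℝ) (hp : 1 ≤ p) (hκ : 1 ≤ κ)
    (hP : HasPieces N p κ) (hB : ¬ Block N p) : HasGadgets N := by
  intro δ hδ N0
  obtain ⟨m, f, hf⟩ := has_gadgets_small N hN p κ hp hκ hP hB (min δ 1) (lt_min hδ one_pos)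
    (min_le_right _ _) N0
  exact ⟨m, f, hf.ne, hf.lo, hf.disj, hf.star.mono_delta hN (min_le_left _ _)⟩

end Pool.Agent.Helper60.CR
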