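import Pool.Agent.Helper60.CR.NuNorm
import Pool.Agent.Helper60.CR.Growth
import Pool.Agent.Helper60.CR.Eigen
import Pool.Agent.Helper60.CR.EigenPow
import Pool.Agent.Helper60.CR.Copies

/-! CR-60 (real_pieces, has_pieces). Krivine's theorem for lattice norms with a lower estimate: pieces exist for some `p` (with `κ = 96`).
PROOF. real_pieces: `n = 0`: `P = ∅`. Let `n ≥ 1`, `R = 100 n`, `u j = Sh j f` for `j < n` (disjoint supports, since `supp f ⊆ [0,1)`; nonnegative), `s` the union of their supports. Apply `nu_real` to the finitely many functions `F_c = ∑ j < n, (c_j / R) • u j`, `c ∈ {0,...,R+1}^n` (enumerate them by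
natural numbers), with `θ = 1/100` and `N0`: `ψ`. `Y j = (u j).mapDomain ψ`: nonnegative, disjoint supports beyond `N0`. `N (Y j) ≤ ν (u j) + θ ≤ 5 + 1/100 ≤ 6` (`c = R e_j`; `hc` with `t = e_j`). `N (∑ (c_j/R) • Y j)` is within `θ` of `ν (F_c)`.
Let `τ ≥ 0` with `Bs p (range n) τ = 1`; `c_j = ⌊R τ_j⌋ ∈ {0,...,R}`. Lower: `c/R ≤ τ ≤ (c+1)/R`: `N (∑ τ_j • Y j) ≥ N (∑ (c_j/R) • Y j) ≥ ν (F_c) - θ ≥ ν (F_(c+1)) - ν (∑ (1/R) u j) - θ ≥ Bs p ((c+1)/R) / 8 - 5 n / R - θ ≥ 1/8 - 1/20 - 1/100 ≥ 1/16`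
(`Bs_mono`; `ν (u j) ≤ 5`). Upper: `N (∑ τ_j • Y j) ≤ N (∑ (c_j/R) • Y j) + ∑ (1/R) N (Y j) ≤ ν (F_c) + θ + 6 n / R ≤ 5 Bs p (c/R) + 1/100 + 6/100 ≤ 6`. By homogeneity `Bs / 16 ≤ N (∑ τ_j • Y j) ≤ 6 Bs` for all `τ ≥ 0`, and for real `τ` by `Lat.sum_abs` and `Bs_congr`.
`P = {(1/6) • Y j | j < n}`: `n` different vectors (nonzero, disjoint supports); `N (∑ t y • y) ≤ Bs` and `Bs ≤ 96 N (∑ t y • y)`.
has_pieces: `ν = nu N` is an `SNorm` (`nu_snorm`); `growth` gives `p`; `eigen` and `eigen_pow`; for given `n, N0` choose `s ≥ 2` with `2 n ≤ 2^s`, `θ = 1/(16 n)`, `f` from `eigen_pow`, `copies`, `real_pieces`. -/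

set_option autoImplicit false

namespace Pool.Agent.Helper60.CR

open Finset

private theorem hp_empty (N : F0 → ℝ) (hN : Lat N) (p : ℝ) (hp : 1 ≤ p) (N0 : ℕ) :
    Piece N p 96 N0 ∅ := by
  refine ⟨by simp, by simp, fun t => ?_, fun t => ?_⟩
  · rw [Finset.sum_empty, hN.zero, Bs_empty hp]
  · rw [Finset.sum_empty, hN.zero, Bs_empty hp, mul_zero]

private theorem hp_apply (j : ℚ) (f : ℚ →₀ ℝ) (x : ℚ) : Sh j f x = f (x - j) := by
  unfold Sh
  have h1 : (Finsupp.mapDomain (fun x => x + j) f) ((fun x => x + j) (x - j)) = f (x - j) :=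
    Finsupp.mapDomain_apply (fun a b h => by simpa using h) f (x - j)
  simpa using h1

private theorem hp_disj (f : ℚ →₀ ℝ) (hf : Pos01 f) {j j' : ℕ} (hj : j < j') (x : ℚ)
    (h1 : Sh (j : ℚ) f x ≠ 0) (h2 : Sh (j' : ℚ) f x ≠ 0) : False := by
  rw [hp_apply] at h1 h2
  have h3 := (hf.2 _ (Finsupp.mem_support_iff.2 h1)).2
  have h4 := (hf.2 _ (Finsupp.mem_support_iff.2 h2)).1
  have h5 : ((j : ℕ) : ℚ) + 1 ≤ (j' : ℕ) := by exact_mod_cast hj
  linarith

private theorem hp_realise (N : F0 → ℝ) (hN : Lat N) (n : ℕ) (f : ℚ →₀ ℝ) (hf : Pos01 f) (N0 R : ℕ) :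
    ∃ Y : ℕ → F0, (∀ j < n, ∀ i ∈ (Y j).support, N0 ≤ i) ∧
      (∀ j < n, ∀ j' < n, j ≠ j' → Disjoint (Y j).support (Y j').support) ∧
      ∀ c : ℕ → ℕ, (∀ j < n, c j ≤ R) →
        |N (∑ j ∈ range n, ((c j : ℝ) / R) • Y j) -
          nu N (∑ j ∈ range n, ((c j : ℝ) / R) • Sh (j : ℚ) f)| ≤ 1 / 100 := by
  classical
  set s : Finset ℚ := (range n).biUnion (fun j => (Sh (j : ℚ) f).support) with hs
  have hsj : ∀ j < n, (Sh (j : ℚ) f).support ⊆ s := fun j hj x hx =>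
    Finset.mem_biUnion.mpr ⟨j, Finset.mem_range.mpr hj, hx⟩
  let e := Fintype.equivFin (Fin n → Fin (R + 1))
  let G : (Fin n → Fin (R + 1)) → (ℚ →₀ ℝ) := fun c =>
    ∑ j ∈ range n, (((if hj : j < n then ((c ⟨j, hj⟩ : Fin (R + 1)) : ℕ) else 0 : ℕ) : ℝ) / R) •
      Sh (j : ℚ) f
  let F : ℕ → (ℚ →₀ ℝ) := fun m =>
    if hm : m < Fintype.card (Fin n → Fin (R + 1)) then G (e.symm ⟨m, hm⟩) else 0
  have hF : ∀ m < Fintype.card (Fin n → Fin (R + 1)), (F m).support ⊆ s := by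
    intro m hm x hx
    by_contra hxs
    apply Finsupp.mem_support_iff.1 hx
    have h1 : F m = G (e.symm ⟨m, hm⟩) := dif_pos hm
    rw [h1]
    change (∑ j ∈ range n, _ : ℚ →₀ ℝ) x = 0
    rw [Finsupp.finsetSum_apply]
    refine Finset.sum_eq_zero fun j hj => ?_
    rw [Finsupp.smul_apply]
    have h2 : Sh (j : ℚ) f x = 0 := by
      by_contra hne
      exact hxs (hsj j (Finset.mem_range.mp hj) (Finsupp.mem_support_iff.2 hne))
    rw [h2, smul_zero]
  obtain ⟨ψ, hψ1, hψ2, hψ3⟩ := nu_real N hN s _ F hF (1 / 100) (by norm_num) N0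
  refine ⟨fun j => (Sh (j : ℚ) f).mapDomain ψ, fun j hj i hi => ?_, fun j hj j' hj' hne => ?_,
    fun c hc => ?_⟩
  · have h1 := Finsupp.mapDomain_support hi
    obtain ⟨x, hx, rfl⟩ := Finset.mem_image.mp h1
    exact hψ2 x (hsj j hj hx)
  · rw [Finset.disjoint_left]
    intro i hi hi'
    obtain ⟨x, hx, hxi⟩ := Finset.mem_image.mp (Finsupp.mapDomain_support hi)
    obtain ⟨x', hx', hxi'⟩ := Finset.mem_image.mp (Finsupp.mapDomain_support hi')
    have h1 : x = x' := hψ1.injOn (hsj j hj hx) (hsj j' hj' hx') (hxi.trans hxi'.symm)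
    subst h1
    rcases lt_or_gt_of_ne hne with h2 | h2
    · exact hp_disj f hf h2 x (Finsupp.mem_support_iff.1 hx) (Finsupp.mem_support_iff.1 hx')
    · exact hp_disj f hf h2 x (Finsupp.mem_support_iff.1 hx') (Finsupp.mem_support_iff.1 hx)
  · let c' : Fin n → Fin (R + 1) := fun j => ⟨c j, by have := hc j j.2; omega⟩
    have h1 : G c' = ∑ j ∈ range n, ((c j : ℝ) / R) • Sh (j : ℚ) f := by
      refine Finset.sum_congr rfl fun j hj => ?_
      rw [dif_pos (Finset.mem_range.mp hj)]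
    have h2 := hψ3 (e c') (e c').2
    have h3 : F (e c') = G c' := by
      change (if hm : ((e c' : Fin _) : ℕ) < Fintype.card (Fin n → Fin (R + 1)) then
        G (e.symm ⟨(e c' : Fin _), hm⟩) else 0) = G c'
      rw [dif_pos (e c').2]
      simp
    rw [h3, h1] at h2
    have h4 : Finsupp.mapDomain ψ (∑ j ∈ range n, ((c j : ℝ) / R) • Sh (j : ℚ) f) =
        ∑ j ∈ range n, ((c j : ℝ) / R) • Finsupp.mapDomain ψ (Sh (j : ℚ) f) := by
      rw [Finsupp.mapDomain_finsetSum]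
      exact Finset.sum_congr rfl fun j _ => Finsupp.mapDomain_smul _ _
    rw [h4] at h2
    exact h2

private theorem hp_est (N : F0 → ℝ) (hN : Lat N) (q : ℕ) (C : ℝ) (h : SNorm (nu N) q C) (p : ℝ)
    (hp : 1 ≤ p) (n : ℕ) (hn : 1 ≤ n) (f : ℚ →₀ ℝ)
    (hc : ∀ t : ℕ → ℝ, (∀ j, 0 ≤ t j) →
      Bs p (range n) t / 8 ≤ nu N (∑ j ∈ range n, t j • Sh (j : ℚ) f) ∧
        nu N (∑ j ∈ range n, t j • Sh (j : ℚ) f) ≤ 5 * Bs p (range n) t) (Y : ℕ → F0)
    (hYd : ∀ j < n, ∀ j' < n, j ≠ j' → Disjoint (Y j).support (Y j').support)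
    (hY : ∀ c : ℕ → ℕ, (∀ j < n, c j ≤ 100 * n) →
        |N (∑ j ∈ range n, ((c j : ℝ) / (100 * n : ℕ)) • Y j) -
          nu N (∑ j ∈ range n, ((c j : ℝ) / (100 * n : ℕ)) • Sh (j : ℚ) f)| ≤ 1 / 100)
    (τ : ℕ → ℝ) (hτ : ∀ j, 0 ≤ τ j) (hτ1 : Bs p (range n) τ = 1) :
    1 / 16 ≤ N (∑ j ∈ range n, τ j • Y j) ∧ N (∑ j ∈ range n, τ j • Y j) ≤ 6 := by
  classical
  have hn0 : (0 : ℝ) < n := by exact_mod_cast hn
  set R : ℝ := ((100 * n : ℕ) : ℝ) with hR
  have hR1 : R = 100 * n := by rw [hR]; push_cast; ring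
  have hR0 : 0 < R := by rw [hR1]; positivity
  have hvd : ∀ x ∈ range n, ∀ y ∈ range n, x ≠ y → Disjoint (Y x).support (Y y).support :=
    fun x hx y hy => hYd x (Finset.mem_range.mp hx) y (Finset.mem_range.mp hy)
  have hle1 : ∀ j ∈ range n, τ j ≤ 1 := by
    intro j hj
    have := abs_le_Bs hp hj τ
    rw [hτ1, abs_of_nonneg (hτ j)] at this
    exact this
  -- unit vectors
  have hunit : ∀ j ∈ range n, nu N (Sh (j : ℚ) f) ≤ 5 ∧ N (Y j) ≤ 6 := by
    intro j hj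
    have h1 := (hc (fun i => if i = j then 1 else 0) (fun i => by split_ifs <;> norm_num)).2
    have h2 : ∑ i ∈ range n, (if i = j then (1 : ℝ) else 0) • Sh (i : ℚ) f = Sh (j : ℚ) f := by
      rw [Finset.sum_eq_single_of_mem j hj]
      · rw [if_pos rfl, one_smul]
      · intro i _ hi
        rw [if_neg hi, zero_smul]
    have h3 : Bs p (range n) (fun i => if i = j then (1 : ℝ) else 0) = 1 := by
      rw [← Bs_subset hp (Finset.singleton_subset_iff.mpr hj) (fun i _ hi => if_neg fun h => hi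
        (Finset.mem_singleton.mpr h)), Bs_singleton hp, if_pos rfl, abs_one]
    rw [h2, h3, mul_one] at h1
    refine ⟨h1, ?_⟩
    have h4 := hY (fun i => if i = j then 100 * n else 0) (fun i _ => by split_ifs <;> omega)
    have h5 : ∀ (u : ℕ → F0), ∑ i ∈ range n, ((((if i = j then 100 * n else 0 : ℕ) : ℕ) : ℝ) / R) • u i =
        u j := by
      intro u
      rw [Finset.sum_eq_single_of_mem j hj]
      · rw [if_pos rfl, div_self hR0.ne', one_smul]
      · intro i _ hi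
        rw [if_neg hi, Nat.cast_zero, zero_div, zero_smul]
    have h6 : ∑ i ∈ range n, ((((if i = j then 100 * n else 0 : ℕ) : ℕ) : ℝ) / R) • Sh (i : ℚ) f =
        Sh (j : ℚ) f := by
      rw [Finset.sum_eq_single_of_mem j hj]
      · rw [if_pos rfl, div_self hR0.ne', one_smul]
      · intro i _ hi
        rw [if_neg hi, Nat.cast_zero, zero_div, zero_smul]
    rw [h5, h6] at h4
    have h7 := (abs_le.mp h4).2
    linarith
  set c : ℕ → ℕ := fun j => ⌊R * τ j⌋₊ with hcdef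
  have hc1 : ∀ j, (c j : ℝ) ≤ R * τ j := fun j => Nat.floor_le (mul_nonneg hR0.le (hτ j))
  have hc2 : ∀ j, R * τ j ≤ c j + 1 := fun j => (Nat.lt_floor_add_one _).le
  have hcR : ∀ j < n, c j ≤ 100 * n := by
    intro j hj
    have h1 := hc1 j
    have h2 := hle1 j (Finset.mem_range.mpr hj)
    have h3 : (c j : ℝ) ≤ ((100 * n : ℕ) : ℝ) := by
      rw [← hR]
      nlinarith
    exact_mod_cast h3
  have hYc := abs_le.mp (hY c hcR)
  have hcd0 : ∀ j, 0 ≤ (c j : ℝ) / R := fun j => by positivity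
  have hcd1 : ∀ j, (c j : ℝ) / R ≤ τ j := fun j => by
    rw [div_le_iff₀ hR0, mul_comm]
    exact hc1 j
  have hcd2 : ∀ j, τ j ≤ (c j : ℝ) / R + 1 / R := fun j => by
    rw [← add_div, le_div_iff₀ hR0, mul_comm]
    exact hc2 j
  constructor
  · have h1 : N (∑ j ∈ range n, ((c j : ℝ) / R) • Y j) ≤ N (∑ j ∈ range n, τ j • Y j) :=
      hN.sum_mono _ Y hvd _ _ fun j _ => by
        rw [abs_of_nonneg (hcd0 j), abs_of_nonneg (hτ j)]
        exact hcd1 j
    have h2 := (hc (fun j => (c j : ℝ) / R + 1 / R) fun j => by positivity).1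
    have h3 : (1 : ℝ) ≤ Bs p (range n) (fun j => (c j : ℝ) / R + 1 / R) := by
      refine hτ1.symm.le.trans (Bs_mono hp fun j _ => ?_)
      rw [abs_of_nonneg (hτ j), abs_of_nonneg (by positivity)]
      exact hcd2 j
    have h4 : ∑ j ∈ range n, ((c j : ℝ) / R + 1 / R) • Sh (j : ℚ) f =
        ∑ j ∈ range n, ((c j : ℝ) / R) • Sh (j : ℚ) f + ∑ j ∈ range n, (1 / R) • Sh (j : ℚ) f := by
      rw [← Finset.sum_add_distrib]
      exact Finset.sum_congr rfl fun j _ => add_smul _ _ _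
    have h5 : nu N (∑ j ∈ range n, (1 / R) • Sh (j : ℚ) f) ≤ 1 / 20 := by
      refine (sn_sum_le h _ _).trans ?_
      calc ∑ j ∈ range n, nu N ((1 / R) • Sh (j : ℚ) f) ≤ ∑ j ∈ range n, (1 / R) * 5 := by
            refine Finset.sum_le_sum fun j hj => ?_
            rw [h.smul, abs_of_pos (by positivity)]
            exact mul_le_mul_of_nonneg_left (hunit j hj).1 (by positivity)
        _ = 1 / 20 := by
            rw [Finset.sum_const, Finset.card_range, nsmul_eq_mul, hR1]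
            field_simp
            norm_num
    have h6 := h.add (∑ j ∈ range n, ((c j : ℝ) / R) • Sh (j : ℚ) f)
      (∑ j ∈ range n, (1 / R) • Sh (j : ℚ) f)
    rw [← h4] at h6
    have h7 := hYc.1
    linarith
  · have h1 : N (∑ j ∈ range n, τ j • Y j) ≤
        N (∑ j ∈ range n, ((c j : ℝ) / R + 1 / R) • Y j) :=
      hN.sum_mono _ Y hvd _ _ fun j _ => by
        rw [abs_of_nonneg (hτ j), abs_of_nonneg (by positivity)]
        exact hcd2 j
    have h4 : ∑ j ∈ range n, ((c j : ℝ) / R + 1 / R) • Y j =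
        ∑ j ∈ range n, ((c j : ℝ) / R) • Y j + ∑ j ∈ range n, (1 / R) • Y j := by
      rw [← Finset.sum_add_distrib]
      exact Finset.sum_congr rfl fun j _ => add_smul _ _ _
    have h5 : N (∑ j ∈ range n, (1 / R) • Y j) ≤ 6 / 100 := by
      refine (hN.sum_le _ _).trans ?_
      calc ∑ j ∈ range n, N ((1 / R) • Y j) ≤ ∑ j ∈ range n, (1 / R) * 6 := by
            refine Finset.sum_le_sum fun j hj => ?_
            rw [hN.smul, abs_of_pos (by positivity)]
            exact mul_le_mul_of_nonneg_left (hunit j hj).2 (by positivity)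
        _ = 6 / 100 := by
            rw [Finset.sum_const, Finset.card_range, nsmul_eq_mul, hR1]
            field_simp
    have h6 := hN.add (∑ j ∈ range n, ((c j : ℝ) / R) • Y j) (∑ j ∈ range n, (1 / R) • Y j)
    rw [← h4] at h6
    have h7 := hYc.2
    have h8 := (hc (fun j => (c j : ℝ) / R) hcd0).2
    have h9 : Bs p (range n) (fun j => (c j : ℝ) / R) ≤ 1 := by
      refine (Bs_mono hp fun j _ => ?_).trans hτ1.le
      rw [abs_of_nonneg (hτ j), abs_of_nonneg (hcd0 j)]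
      exact hcd1 j
    linarith

private theorem hp_est2 (N : F0 → ℝ) (hN : Lat N) (p : ℝ)
    (hp : 1 ≤ p) (n : ℕ) (Y : ℕ → F0)
    (hYd : ∀ j < n, ∀ j' < n, j ≠ j' → Disjoint (Y j).support (Y j').support)
    (hY : ∀ τ : ℕ → ℝ, (∀ j, 0 ≤ τ j) → Bs p (range n) τ = 1 →
      1 / 16 ≤ N (∑ j ∈ range n, τ j • Y j) ∧ N (∑ j ∈ range n, τ j • Y j) ≤ 6) (τ : ℕ → ℝ) :
    Bs p (range n) τ / 16 ≤ N (∑ j ∈ range n, τ j • Y j) ∧
      N (∑ j ∈ range n, τ j • Y j) ≤ 6 * Bs p (range n) τ := by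
  have hvd : ∀ x ∈ range n, ∀ y ∈ range n, x ≠ y → Disjoint (Y x).support (Y y).support :=
    fun x hx y hy => hYd x (Finset.mem_range.mp hx) y (Finset.mem_range.mp hy)
  rw [← hN.sum_abs _ Y hvd τ]
  have hB : Bs p (range n) τ = Bs p (range n) (fun j => |τ j|) := Bs_congr fun j _ => by rw [abs_abs]
  rcases (Bs_nonneg (p := p) (range n) τ).eq_or_lt with h0 | h0
  · have hz : ∀ j ∈ range n, τ j = 0 := by
      intro j hj
      by_contra hne
      have := Bs_pos hp hj hne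
      linarith
    have hs0 : ∑ j ∈ range n, |τ j| • Y j = 0 :=
      Finset.sum_eq_zero fun j hj => by rw [hz j hj, abs_zero, zero_smul]
    rw [hs0, hN.zero, ← h0]
    norm_num
  · set T := Bs p (range n) τ with hT
    have h1 := hY (fun j => T⁻¹ * |τ j|)
      (fun j => mul_nonneg (inv_nonneg.mpr h0.le) (abs_nonneg _)) (by
        rw [Bs_smul hp, ← hB, abs_of_pos (inv_pos.mpr h0), inv_mul_cancel₀ h0.ne'])
    have h2 : ∑ j ∈ range n, (T⁻¹ * |τ j|) • Y j = T⁻¹ • ∑ j ∈ range n, |τ j| • Y j := by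
      rw [Finset.smul_sum]
      exact Finset.sum_congr rfl fun j _ => by rw [smul_smul]
    rw [h2, hN.smul, abs_of_pos (inv_pos.mpr h0)] at h1
    constructor
    · have h3 := mul_le_mul_of_nonneg_left h1.1 h0.le
      rw [← mul_assoc, mul_inv_cancel₀ h0.ne', one_mul] at h3
      linarith
    · have h3 := mul_le_mul_of_nonneg_left h1.2 h0.le
      rw [← mul_assoc, mul_inv_cancel₀ h0.ne', one_mul] at h3
      linarith

theorem real_pieces (N : F0 → ℝ) (hN : Lat N) (q : ℕ) (C : ℝ) (h : SNorm (nu N) q C) (p : ℝ)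
    (hp : 1 ≤ p) (n : ℕ) (f : ℚ →₀ ℝ) (hf : Pos01 f)
    (hc : ∀ t : ℕ → ℝ, (∀ j, 0 ≤ t j) →
      Bs p (range n) t / 8 ≤ nu N (∑ j ∈ range n, t j • Sh j f) ∧
        nu N (∑ j ∈ range n, t j • Sh j f) ≤ 5 * Bs p (range n) t) (N0 : ℕ) :
    ∃ P : Finset F0, P.card = n ∧ Piece N p 96 N0 P := by
  classical
  rcases Nat.eq_zero_or_pos n with rfl | hn
  · exact ⟨∅, rfl, hp_empty N hN p hp N0⟩
  obtain ⟨Y, hY1, hY2, hY3⟩ := hp_realise N hN n f hf N0 (100 * n)
  have hest := hp_est2 N hN p hp n Y hY2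
    (hp_est N hN q C h p hp n hn f hc Y hY2 hY3)
  have hYne : ∀ j < n, Y j ≠ 0 := by
    intro j hj h0
    have h1 := (hest (fun i => if i = j then 1 else 0)).1
    have h2 : ∑ i ∈ range n, (if i = j then (1 : ℝ) else 0) • Y i = Y j := by
      rw [Finset.sum_eq_single_of_mem j (Finset.mem_range.mpr hj)]
      · rw [if_pos rfl, one_smul]
      · intro i _ hi
        rw [if_neg hi, zero_smul]
    have h3 := abs_le_Bs hp (Finset.mem_range.mpr hj) (fun i => if i = j then (1 : ℝ) else 0)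
    simp only [if_true, abs_one] at h3
    rw [h2, h0, hN.zero] at h1
    linarith
  have hsupp : ∀ j, ((1 / 6 : ℝ) • Y j).support ⊆ (Y j).support := fun j => Finsupp.support_smul
  have hinj : Set.InjOn (fun j => (1 / 6 : ℝ) • Y j) (range n : Finset ℕ) := by
    intro j hj j' hj' he
    by_contra hne
    rw [Finset.mem_coe, Finset.mem_range] at hj hj'
    have h1 : Y j = Y j' := by
      have h2 := congrArg (fun v => (6 : ℝ) • v) he
      simpa [smul_smul] using h2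
    have h2 := hY2 j hj j' hj' hne
    rw [← h1, disjoint_self, Finset.bot_eq_empty, Finsupp.support_eq_empty] at h2
    exact hYne j hj h2
  refine ⟨(range n).image (fun j => (1 / 6 : ℝ) • Y j), ?_, ?_, ?_, fun t => ?_, fun t => ?_⟩
  · rw [Finset.card_image_of_injOn hinj, Finset.card_range]
  · intro y hy i hi
    obtain ⟨j, hj, rfl⟩ := Finset.mem_image.mp hy
    exact hY1 j (Finset.mem_range.mp hj) i (hsupp j hi)
  · intro y hy y' hy' hne
    obtain ⟨j, hj, rfl⟩ := Finset.mem_image.mp hy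
    obtain ⟨j', hj', rfl⟩ := Finset.mem_image.mp hy'
    have hjj : j ≠ j' := fun h => hne (by rw [h])
    exact Finset.disjoint_of_subset_left (hsupp j) (Finset.disjoint_of_subset_right (hsupp j')
      (hY2 j (Finset.mem_range.mp hj) j' (Finset.mem_range.mp hj') hjj))
  · rw [Bs_image _ _ hinj, Finset.sum_image hinj]
    have h1 := (hest (fun j => (1 / 6) * t ((1 / 6 : ℝ) • Y j))).2
    rw [Bs_smul hp, abs_of_pos (by norm_num : (0 : ℝ) < 1 / 6)] at h1
    have h2 : ∑ x ∈ range n, t ((1 / 6 : ℝ) • Y x) • (1 / 6 : ℝ) • Y x =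
        ∑ x ∈ range n, ((1 / 6) * t ((1 / 6 : ℝ) • Y x)) • Y x :=
      Finset.sum_congr rfl fun j _ => by rw [smul_smul, mul_comm]
    rw [h2]
    refine h1.trans (le_of_eq ?_)
    ring
  · rw [Bs_image _ _ hinj, Finset.sum_image hinj]
    have h1 := (hest (fun j => (1 / 6) * t ((1 / 6 : ℝ) • Y j))).1
    rw [Bs_smul hp, abs_of_pos (by norm_num : (0 : ℝ) < 1 / 6)] at h1
    have h2 : ∑ x ∈ range n, t ((1 / 6 : ℝ) • Y x) • (1 / 6 : ℝ) • Y x =
        ∑ x ∈ range n, ((1 / 6) * t ((1 / 6 : ℝ) • Y x)) • Y x :=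
      Finset.sum_congr rfl fun j _ => by rw [smul_smul, mul_comm]
    rw [h2]
    linarith

theorem has_pieces (N : F0 → ℝ) (hN : Lat N) (q : ℕ) (C : ℝ) (hq : 1 ≤ q) (hC : 1 ≤ C)
    (hL : LowQ N q C) : ∃ p : ℝ, 1 ≤ p ∧ HasPieces N p 96 := by
  have hS := nu_snorm N hN q C hL
  obtain ⟨p, hp, h1, h2⟩ := growth (nu N) q C hq hC hS
  refine ⟨p, hp, fun n N0 => ?_⟩
  rcases Nat.eq_zero_or_pos n with rfl | hn
  · exact ⟨∅, rfl, hp_empty N hN p hp N0⟩
  have hn0 : (0 : ℝ) < n := by exact_mod_cast hn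
  obtain ⟨f, hf, hf1, hf3⟩ := eigen_pow (nu N) q C hS p hp
    (fun η hη => eigen (nu N) q C hS p hp h1 h2 η hη) (n + 2) (1 / (16 * n)) (by positivity)
  refine real_pieces N hN q C hS p hp n f hf (fun t ht => ?_) N0
  refine copies hS p hp n (n + 2) hn (by omega) ?_ (1 / (16 * n)) (by positivity) le_rfl f hf hf1
    hf3 t ht
  have := Nat.lt_two_pow_self (n := n)
  rw [pow_add]
  omega

end Pool.Agent.Helper60.CR
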