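import Pool.Agent.Helper60.CR.Mom

/-! CR-43 (khin_p). Khintchine's inequality for the exponent `p ≥ 1`.
PROOF. Lower: `khin`: `sqrt (nsq I a) ≤ 2 avg |S|`, and Jensen `(avg |S|)^p ≤ avg |S|^p` (`Real.rpow_arith_mean_le_arith_mean_rpow`), so `c = (1/2)^p`. Upper: let `q` be a natural number with `p ≤ 2 q`; for `x ≥ 0`: `x^p ≤ 1 + x^(2q)`. With
`σ = sqrt (nsq I a)` (if `σ = 0` all `a i = 0`, both sides vanish): `avg |S/σ|^p ≤ 1 + 2 (2q)!` by `mom`, `C = 1 + 2 (2q)!`. -/

set_option autoImplicit false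

namespace Pool.Agent.Helper60.CR

open Finset
open Pool.Agent.Helper52.CS (avgOn sgn nsq avgOn_insert khin)

private theorem avg_mono {I : Finset ℕ} {F G : (ℕ → ℝ) → ℝ} (h : ∀ ε, F ε ≤ G ε) :
    avgOn I F ≤ avgOn I G := by
  unfold avgOn
  exact div_le_div_of_nonneg_right (Finset.sum_le_sum fun T _ => h _) (by positivity)

private theorem avg_mul (I : Finset ℕ) (c : ℝ) (F : (ℕ → ℝ) → ℝ) :
    avgOn I (fun ε => c * F ε) = c * avgOn I F := by
  unfold avgOn
  rw [← Finset.mul_sum, mul_div_assoc]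

private theorem avg_add (I : Finset ℕ) (F G : (ℕ → ℝ) → ℝ) :
    avgOn I (fun ε => F ε + G ε) = avgOn I F + avgOn I G := by
  unfold avgOn
  rw [Finset.sum_add_distrib, add_div]

private theorem avg_const (I : Finset ℕ) (c : ℝ) : avgOn I (fun _ => c) = c := by
  unfold avgOn
  rw [Finset.sum_const, Finset.card_powerset, nsmul_eq_mul]
  push_cast
  have : (2 : ℝ) ^ I.card ≠ 0 := by positivity
  field_simp

private theorem avg_jensen (I : Finset ℕ) {p : ℝ} (hp : 1 ≤ p) (F : (ℕ → ℝ) → ℝ) (hF : ∀ ε, 0 ≤ F ε) :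
    avgOn I F ^ p ≤ avgOn I (fun ε => F ε ^ p) := by
  have h := Real.rpow_arith_mean_le_arith_mean_rpow I.powerset
    (fun _ => 1 / (2 : ℝ) ^ I.card) (fun T => F (sgn T)) (fun _ _ => by positivity) (by
      rw [Finset.sum_const, Finset.card_powerset, nsmul_eq_mul]
      push_cast
      have : (2 : ℝ) ^ I.card ≠ 0 := by positivity
      field_simp) (fun T _ => hF _) hp
  rw [← Finset.mul_sum, ← Finset.mul_sum] at h
  unfold avgOn
  rw [div_eq_mul_one_div, mul_comm]
  rw [div_eq_mul_one_div (∑ T ∈ I.powerset, F (sgn T) ^ p), mul_comm (∑ T ∈ I.powerset, F (sgn T) ^ p)]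
  exact h

theorem khin_p (p : ℝ) (hp : 1 ≤ p) : ∃ c C : ℝ, 0 < c ∧ ∀ (I : Finset ℕ) (a : ℕ → ℝ),
    c * Real.sqrt (nsq I a) ^ p ≤ avgOn I (fun ε => |∑ i ∈ I, ε i * a i| ^ p) ∧
    avgOn I (fun ε => |∑ i ∈ I, ε i * a i| ^ p) ≤ C * Real.sqrt (nsq I a) ^ p := by
  have hp0 : 0 < p := by linarith
  set q : ℕ := ⌈p⌉₊ with hq
  have hpq : p ≤ (2 * q : ℕ) := by
    have h1 : p ≤ q := Nat.le_ceil p
    have h2 : (q : ℝ) ≤ (2 * q : ℕ) := by
      push_cast
      have : (0 : ℝ) ≤ q := Nat.cast_nonneg _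
      linarith
    linarith
  refine ⟨(1 / 2) ^ p, 1 + 2 * (2 * q).factorial, by positivity, fun I a => ⟨?_, ?_⟩⟩
  · have h1 := khin I a
    have h2 := avg_jensen I hp (fun ε => |∑ i ∈ I, ε i * a i|) (fun ε => abs_nonneg _)
    have h3 : (1 / 2 * Real.sqrt (nsq I a)) ^ p ≤
        (avgOn I (fun ε => |∑ i ∈ I, ε i * a i|)) ^ p := by
      apply Real.rpow_le_rpow (by positivity) _ hp0.le
      linarith
    rw [Real.mul_rpow (by norm_num) (Real.sqrt_nonneg _)] at h3
    exact h3.trans h2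
  · set σ := Real.sqrt (nsq I a) with hσ
    have hnn : 0 ≤ nsq I a := Finset.sum_nonneg fun i _ => sq_nonneg _
    rcases (Real.sqrt_nonneg (nsq I a)).eq_or_lt with h0 | h0
    · have h1 : nsq I a = 0 := (Real.sqrt_eq_zero hnn).1 h0.symm
      have h2 : ∀ i ∈ I, a i = 0 := by
        intro i hi
        have h3 := (Finset.sum_eq_zero_iff_of_nonneg (fun i _ => sq_nonneg (a i))).1 h1 i hi
        exact pow_eq_zero_iff (two_ne_zero) |>.1 h3
      have h3 : (fun ε : ℕ → ℝ => |∑ i ∈ I, ε i * a i| ^ p) = fun _ => (0 : ℝ) := by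
        funext ε
        rw [Finset.sum_eq_zero (fun i hi => by rw [h2 i hi, mul_zero]), abs_zero,
          Real.zero_rpow hp0.ne']
      rw [h3, avg_const]
      positivity
    · have hσ0 : 0 < σ := h0
      have hσ2 : σ ^ 2 = nsq I a := Real.sq_sqrt hnn
      have key : ∀ ε : ℕ → ℝ, |∑ i ∈ I, ε i * a i| ^ p ≤
          σ ^ p * 1 + σ ^ p / σ ^ (2 * q) * (∑ i ∈ I, ε i * a i) ^ (2 * q) := by
        intro ε
        set S := ∑ i ∈ I, ε i * a i with hS
        have h1 : (|S| / σ) ^ p ≤ 1 + (|S| / σ) ^ (2 * q) := by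
          have hx : 0 ≤ |S| / σ := by positivity
          rcases le_total (|S| / σ) 1 with h2 | h2
          · have h3 : (|S| / σ) ^ p ≤ 1 := Real.rpow_le_one hx h2 hp0.le
            have h4 : 0 ≤ (|S| / σ) ^ (2 * q) := by positivity
            linarith
          · have h3 := Real.rpow_le_rpow_of_exponent_le h2 hpq
            rw [Real.rpow_natCast] at h3
            linarith
        have h2 : |S| ^ p = σ ^ p * (|S| / σ) ^ p := by
          rw [← Real.mul_rpow hσ0.le (by positivity)]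
          congr 1
          field_simp
        have h3 : |S| ^ (2 * q) = S ^ (2 * q) := by
          rw [pow_mul, pow_mul, sq_abs]
        rw [h2]
        calc σ ^ p * (|S| / σ) ^ p ≤ σ ^ p * (1 + (|S| / σ) ^ (2 * q)) :=
              mul_le_mul_of_nonneg_left h1 (by positivity)
          _ = _ := by
            rw [div_pow, h3]
            ring
      have h1 := avg_mono (I := I) key
      rw [avg_add, avg_mul, avg_mul, avg_const] at h1
      have h2 := mom q I a
      have h3 : σ ^ p / σ ^ (2 * q) * avgOn I (fun ε => (∑ i ∈ I, ε i * a i) ^ (2 * q)) ≤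
          σ ^ p / σ ^ (2 * q) * (2 * (2 * q).factorial * nsq I a ^ q) :=
        mul_le_mul_of_nonneg_left h2 (by positivity)
      have h4 : σ ^ p / σ ^ (2 * q) * (2 * (2 * q).factorial * nsq I a ^ q) =
          2 * (2 * q).factorial * σ ^ p := by
        rw [← hσ2, ← pow_mul]
        field_simp
      calc _ ≤ _ := h1
        _ ≤ σ ^ p * 1 + 2 * (2 * q).factorial * σ ^ p := by linarith
        _ = _ := by ring

end Pool.Agent.Helper60.CR
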