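import Pool.Agent.Helper60.CR.Basic

/-! CR-42 (l2_of_block). A block sequence equivalent to the unit vector basis of `ℓ_2` spans a copy of `ℓ_2`.
PROOF. `v = linearCombination ℝ e`, `G` the block sequence with constants `c, C2`, `x i = v (G i)`. For real coefficients: `N (∑ t i • G i) = N (∑ |t i| • G i)` (`Lat.sum_abs`), so `(c / C) * Bs 2 s t ≤ ‖∑ i ∈ s, t i • x i‖ ≤ C2 * Bs 2 s t` (`C > 0`),
`Bs 2 s t = sqrt (∑ t i ^ 2)`. Now exactly as in `l2_iso` of `Pool/Agent/Helper52/CS/L2iso.lean`: the map `lp (fun _ => ℝ) 2 → X`, `f ↦ ∑' i, f i • x i` is bounded and bounded below, its range is closed; `Z` = its range, contained in the closed span of `e`. -/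

set_option autoImplicit false

namespace Pool.Agent.Helper60.CR

open Finset

private theorem l2b_Bs (s : Finset ℕ) (t : ℕ → ℝ) :
    Bs 2 s t = Real.sqrt (∑ i ∈ s, t i ^ 2) := by
  unfold Bs
  rw [Real.sqrt_eq_rpow]
  congr 1
  refine Finset.sum_congr rfl fun i _ => ?_
  rw [Real.rpow_two, sq_abs]

/-- A sequence which is equivalent to the unit vector basis of `ℓ_2`. -/
private theorem l2b_iso {X : Type*} [NormedAddCommGroup X] [NormedSpace ℝ X] [CompleteSpace X]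
    (x : ℕ → X) (A B : ℝ) (hA : 0 ≤ A) (hB : 0 < B)
    (hup : ∀ (J : Finset ℕ) (t : ℕ → ℝ), ‖∑ i ∈ J, t i • x i‖ ≤ B * Real.sqrt (∑ i ∈ J, t i ^ 2))
    (hlo : ∀ (J : Finset ℕ) (t : ℕ → ℝ), Real.sqrt (∑ i ∈ J, t i ^ 2) ≤ A * ‖∑ i ∈ J, t i • x i‖) :
    ∃ Z : Submodule ℝ X, Z ≤ (Submodule.span ℝ (Set.range x)).topologicalClosure ∧
      Nonempty (Z ≃L[ℝ] lp (fun _ : ℕ => ℝ) 2) := by
  have hS : ∀ f : lp (fun _ : ℕ => ℝ) 2, HasSum (fun i => f i ^ 2) (‖f‖ ^ 2) := by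
    intro f
    have h1 := lp.hasSum_norm (p := 2) (by norm_num) f
    simpa using h1
  have hsum : ∀ f : lp (fun _ : ℕ => ℝ) 2, Summable (fun i => f i • x i) := by
    intro f
    rw [summable_iff_vanishing_norm]
    intro ε hε
    have h1 := (hS f).summable
    obtain ⟨s, hs⟩ := (summable_iff_vanishing_norm.1 h1) ((ε / B) ^ 2) (by positivity)
    refine ⟨s, fun t ht => ?_⟩
    have h2 := hs t ht
    have h3 : ∑ i ∈ t, f i ^ 2 < (ε / B) ^ 2 := (le_abs_self _).trans_lt h2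
    have h4 : Real.sqrt (∑ i ∈ t, f i ^ 2) < ε / B := (Real.sqrt_lt' (by positivity)).2 h3
    calc ‖∑ i ∈ t, f i • x i‖ ≤ B * Real.sqrt (∑ i ∈ t, f i ^ 2) := hup t f
      _ < B * (ε / B) := by gcongr
      _ = ε := by field_simp
  let T0 : lp (fun _ : ℕ => ℝ) 2 →ₗ[ℝ] X :=
    { toFun := fun f => ∑' i, f i • x i
      map_add' := by
        intro f g
        rw [← (hsum f).tsum_add (hsum g)]
        congr 1
        ext i
        rw [lp.coeFn_add, Pi.add_apply, add_smul]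
      map_smul' := by
        intro c f
        rw [RingHom.id_apply, ← (hsum f).tsum_const_smul c]
        congr 1
        ext i
        rw [lp.coeFn_smul, Pi.smul_apply, smul_eq_mul, mul_smul] }
  have hlim : ∀ f : lp (fun _ : ℕ => ℝ) 2,
      Filter.Tendsto (fun k => ∑ i ∈ Finset.range k, f i • x i) Filter.atTop (nhds (T0 f)) :=
    fun f => (hsum f).hasSum.tendsto_sum_nat
  have hbd : ∀ f, ‖T0 f‖ ≤ B * ‖f‖ := by
    intro f
    refine le_of_tendsto' (hlim f).norm (fun k => ?_)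
    refine (hup _ _).trans ?_
    have h1 : Real.sqrt (∑ i ∈ Finset.range k, f i ^ 2) ≤ ‖f‖ := by
      rw [Real.sqrt_le_iff]
      exact ⟨norm_nonneg _, sum_le_hasSum _ (fun i _ => sq_nonneg _) (hS f)⟩
    gcongr
  let T : lp (fun _ : ℕ => ℝ) 2 →L[ℝ] X := T0.mkContinuous B hbd
  have hT : ∀ f, T f = T0 f := fun f => rfl
  have hlow : ∀ f, ‖f‖ ≤ A * ‖T f‖ := by
    intro f
    have h1 : Filter.Tendsto (fun k => Real.sqrt (∑ i ∈ Finset.range k, f i ^ 2)) Filter.atTop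
        (nhds ‖f‖) := by
      have h2 := (Real.continuous_sqrt.tendsto _).comp (hS f).tendsto_sum_nat
      rw [Real.sqrt_sq (norm_nonneg _)] at h2
      exact h2
    exact le_of_tendsto_of_tendsto' h1 ((hlim f).norm.const_mul A) (fun k => hlo _ _)
  have hanti : AntilipschitzWith ⟨A, hA⟩ T := T.antilipschitz_of_bound hlow
  have hclo : IsClosed (Set.range T) := hanti.isClosed_range T.uniformContinuous
  refine ⟨T.range, ?_, ⟨(T.equivRange hanti.injective hclo).symm⟩⟩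
  rintro _ ⟨f, rfl⟩
  exact mem_closure_of_tendsto (hlim f) (Filter.Eventually.of_forall fun k =>
    Submodule.sum_mem _ fun i _ => Submodule.smul_mem _ _ (Submodule.subset_span ⟨i, rfl⟩))

theorem l2_of_block {X : Type*} [NormedAddCommGroup X] [NormedSpace ℝ X] [CompleteSpace X]
    (e : ℕ → X) (N : F0 → ℝ) (C : ℝ) (hN : Lat N) (hE : Equi N e C) (hB : Block N 2) :
    ∃ Z : Submodule ℝ X, Z ≤ (Submodule.span ℝ (Set.range e)).topologicalClosure ∧
      Nonempty (Z ≃L[ℝ] lp (fun _ : ℕ => ℝ) 2) := by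
  obtain ⟨G, c, C2, hc, hdisj, hG⟩ := hB
  set v := Finsupp.linearCombination ℝ e with hv
  have hd : ∀ J : Finset ℕ, ∀ k ∈ J, ∀ l ∈ J, k ≠ l → Disjoint (G k).support (G l).support :=
    fun J k _ l _ hkl => hdisj k l hkl
  have hN2 : ∀ (J : Finset ℕ) (t : ℕ → ℝ),
      c * Real.sqrt (∑ i ∈ J, t i ^ 2) ≤ N (∑ i ∈ J, t i • G i) ∧
      N (∑ i ∈ J, t i • G i) ≤ C2 * Real.sqrt (∑ i ∈ J, t i ^ 2) := by
    intro J t
    have h1 := hG J (fun i => |t i|) (fun i => abs_nonneg _)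
    rw [hN.sum_abs J G (hd J)] at h1
    have h2 : Bs 2 J (fun i => |t i|) = Real.sqrt (∑ i ∈ J, t i ^ 2) := by
      rw [← l2b_Bs]
      exact Bs_congr fun i _ => abs_abs _
    rwa [h2] at h1
  have hv2 : ∀ (J : Finset ℕ) (t : ℕ → ℝ), ∑ i ∈ J, t i • v (G i) = v (∑ i ∈ J, t i • G i) := by
    intro J t
    rw [map_sum]
    exact Finset.sum_congr rfl fun i _ => (map_smul _ _ _).symm
  have hup : ∀ (J : Finset ℕ) (t : ℕ → ℝ),
      ‖∑ i ∈ J, t i • v (G i)‖ ≤ max C2 1 * Real.sqrt (∑ i ∈ J, t i ^ 2) := by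
    intro J t
    rw [hv2]
    refine ((hE _).1).trans ((hN2 J t).2.trans ?_)
    exact mul_le_mul_of_nonneg_right (le_max_left _ _) (Real.sqrt_nonneg _)
  have hlo : ∀ (J : Finset ℕ) (t : ℕ → ℝ),
      Real.sqrt (∑ i ∈ J, t i ^ 2) ≤ |C| / c * ‖∑ i ∈ J, t i • v (G i)‖ := by
    intro J t
    rw [hv2]
    have h1 := (hN2 J t).1.trans (hE _).2
    rw [div_mul_eq_mul_div, le_div_iff₀ hc, mul_comm]
    exact h1.trans (mul_le_mul_of_nonneg_right (le_abs_self C) (norm_nonneg _))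
  obtain ⟨Z, hZ, hiso⟩ := l2b_iso (fun i => v (G i)) (|C| / c) (max C2 1)
    (by positivity) (by positivity) hup hlo
  refine ⟨Z, hZ.trans ?_, hiso⟩
  apply Submodule.topologicalClosure_mono
  rw [Submodule.span_le]
  rintro _ ⟨i, rfl⟩
  change v (G i) ∈ _
  rw [hv, Finsupp.linearCombination_apply]
  exact Submodule.sum_mem _ fun j _ => Submodule.smul_mem _ _ (Submodule.subset_span ⟨j, rfl⟩)

end Pool.Agent.Helper60.CR
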