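import Pool.Agent.Helper60.CR.Basic

/-! CR-20 (la). The linear algebra lemma (cross ratios). Checked numerically: the best constant is about `g / 7`.
PROOF. Let `e = g / 1000` (`0 < e ≤ 1/2000`), `a = (β (α (1,0))).1`. If `a = 0` take `y = 0`, `c = 0`. Suppose `a ≠ 0` and that the claim is false: (*) for all `c` and all `y` with
`|xi mu b y| ≤ |xi mu b (α (kx lam c))|` for all `b`: `|xi lam c (β y)| < e |a|`. Let `M = β ∘ α`, `M (1,0) = (a, c')`, `M (0,1) = (b', d')`.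
(*) for `y = α (kx lam c)`: `c = 0`: `|b'| < e|a|`; `c = 1`: `|c'| < e|a|`; `c = 2`: `|a - b' + c' - d'| < e|a|`, so `|a - d'| < 3e|a|`. Hence `det M = a d' - b' c' ≠ 0` and `α` is injective.
Let `v 0 = (1,0)`, `v 1 = (0,1)`, `v 2 = v 3 = (1,0)`: `xi lam c (v c) = 1` and `|xi lam c (M (v c))| ≥ |a|/2`: the values are `a`, `d'`, `a + c'`, `a + lam c'`.
For every `c` there is `b(c)` with `|xi mu b(c) (α (kx lam c))| < 4e |xi mu b(c) (α (v c))|`: otherwise `y = 4e • α (v c)` satisfies the hypothesis of (*) and `|xi lam c (β y)| = 4e |xi lam c (M (v c))| ≥ 2e|a|`.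
Let `s_c = xi mu b(c) (α (v c)) ≠ 0`. For all `z`: `z = xi lam c z • v c + ζ_c z • kx lam c` where `ζ_0 z = z.2`, `ζ_1 z = z.1`, `ζ_2 z = ζ_3 z = -z.2`. So `xi mu b(c) (α z) = s_c (xi lam c z + τ_c ζ_c z)`,
`|τ_c| < 4e =: θ ≤ 1/500`. Let `η_c` be the row vector of `xi lam c + τ_c ζ_c`: `η_0 = (1, τ_0)`, `η_1 = (τ_1, 1)`, `η_2 = (1, 1 - τ_2)`, `η_3 = (1, lam - τ_3)`; bracket `[u, w] = u.1 w.2 - u.2 w.1`.
All brackets `[η_c, η_c']`, `c ≠ c'`, are different from `0` (they are within `5θ` of `1, 1, lam, -1, -1, lam - 1` for `01, 02, 03, 12, 13, 23`). With `r_b` the row vector of `xi mu b`: `s_c s_c' [η_c, η_c'] = det α [r_b(c), r_b(c')]`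
(bracket of the row vectors of `xi mu b(c) ∘ α`). So `b` is injective, a permutation of the four indices, and, multiplying, with `U = [η_0,η_2][η_1,η_3]`, `V = [η_0,η_3][η_1,η_2]`:
`U [r_b0, r_b3][r_b1, r_b2] = V [r_b0, r_b2][r_b1, r_b3]` (both sides times `s_0 s_1 s_2 s_3` are `det α ^ 2` times a symmetric expression; `det α ≠ 0`).
Now `U = (1 - τ_2 - τ_0) (τ_1 (lam - τ_3) - 1)`, `V = (lam - τ_3 - τ_0) (τ_1 (1 - τ_2) - 1)`: `|U + 1| ≤ 7θ`, `|V + lam| ≤ 7θ`. The brackets of the `r_b`: `[r_0,r_1] = 1`, `[r_0,r_2] = 1`, `[r_0,r_3] = mu`, `[r_1,r_2] = -1`,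
`[r_1,r_3] = -1`, `[r_2,r_3] = mu - 1`. For the 24 permutations (`fin_cases`, or a `decide`-free case split on the four values) `P = [r_b0, r_b2][r_b1, r_b3]` and `Q = [r_b0, r_b3][r_b1, r_b2]` satisfy: `{P, Q}` (up to a common sign) is one of
`(P,Q) = (-1, -mu)`: then `|U Q - V P| = |mu U - V| ≥ |lam - mu| - 28θ - ... > 0` as `28 θ + 7θ < g` (`θ = 4g/1000`); `(P,Q) = (-mu, -1)`; `(mu - 1, mu)`, `(mu, mu - 1)`; `(mu - 1, -1)`, `(-1, mu - 1)` (check the signs): in these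
five cases `Q/P` is `1/mu`, `mu/(mu-1)`, `(mu-1)/mu`, `-1/(mu-1)`, `1 - mu`, all at distance at least `1/2` from `[5/2, 3]`, while `V/U` is within `30θ` of `lam`. Every case is a contradiction (`nlinarith`, or write `U = -1 + u`, `V = -lam + v` with small `u, v`). -/

set_option autoImplicit false

namespace Pool.Agent.Helper60.CR

open Finset

/-- First coordinates of the rows of `xi mu`. -/
def larx (b : Fin 4) : ℝ := ![1, 0, 1, 1] b

/-- Second coordinates of the rows of `xi mu`. -/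
def lary (mu : ℝ) (b : Fin 4) : ℝ := ![0, 1, 1, mu] b

/-- Brackets of the rows. -/
def labr (mu : ℝ) (i j : Fin 4) : ℝ := larx i * lary mu j - lary mu i * larx j

theorem la_xi (mu : ℝ) (b : Fin 4) (z : ℝ × ℝ) : xi mu b z = larx b * z.1 + lary mu b * z.2 := by
  fin_cases b <;> simp [xi, larx, lary]

theorem la_xi_smul (mu t : ℝ) (b : Fin 4) (z : ℝ × ℝ) : xi mu b (t • z) = t * xi mu b z := by
  rw [la_xi, la_xi, Prod.smul_fst, Prod.smul_snd, smul_eq_mul, smul_eq_mul]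
  ring

theorem la_perm (lam mu g θ u v : ℝ) (hl : 5 / 2 ≤ lam) (hl' : lam ≤ 3) (hm : 5 / 2 ≤ mu)
    (hm' : mu ≤ 3) (hg : 0 < g) (hgap : g ≤ |lam - mu|) (hθ : θ = 4 * (g / 1000))
    (hg2 : g ≤ 1 / 2) (hu : |u| ≤ 6 * θ) (hv : |v| ≤ 6 * θ) (b0 b1 b2 b3 : Fin 4)
    (h01 : b0 ≠ b1) (h02 : b0 ≠ b2) (h03 : b0 ≠ b3) (h12 : b1 ≠ b2) (h13 : b1 ≠ b3)
    (h23 : b2 ≠ b3)
    (h : (-1 + u) * (labr mu b0 b3 * labr mu b1 b2) =
      (-lam + v) * (labr mu b0 b2 * labr mu b1 b3)) : False := by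
  have hθ0 : 0 ≤ θ := by rw [hθ]; positivity
  have hmu : |mu * u| ≤ 18 * θ := by
    rw [abs_mul, abs_of_pos (by linarith : (0 : ℝ) < mu)]
    calc mu * |u| ≤ 3 * (6 * θ) := mul_le_mul hm' hu (abs_nonneg _) (by norm_num)
      _ = 18 * θ := by ring
  have hmv : |mu * v| ≤ 18 * θ := by
    rw [abs_mul, abs_of_pos (by linarith : (0 : ℝ) < mu)]
    calc mu * |v| ≤ 3 * (6 * θ) := mul_le_mul hm' hv (abs_nonneg _) (by norm_num)
      _ = 18 * θ := by ring
  have hlm : 25 / 4 ≤ lam * mu := by nlinarith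
  have hlm2 : 9 / 4 ≤ (lam - 1) * (mu - 1) := by nlinarith
  have hlm3 : 15 / 4 ≤ lam * (mu - 1) := by nlinarith
  have hlm4 : 15 / 4 ≤ mu * (lam - 1) := by nlinarith
  obtain ⟨hu1, hu2⟩ := abs_le.1 hu
  obtain ⟨hv1, hv2⟩ := abs_le.1 hv
  obtain ⟨hmu1, hmu2⟩ := abs_le.1 hmu
  obtain ⟨hmv1, hmv2⟩ := abs_le.1 hmv
  have hgap2 : g ≤ lam - mu ∨ g ≤ mu - lam := by
    rcases le_total 0 (lam - mu) with h0 | h0
    · left; rwa [abs_of_nonneg h0] at hgap
    · right; rw [abs_of_nonpos h0] at hgap; linarith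
  fin_cases b0 <;> fin_cases b1 <;> first
    | exact absurd rfl h01
    | (fin_cases b2 <;> first
        | exact absurd rfl h02
        | exact absurd rfl h12
        | (fin_cases b3 <;> first
            | exact absurd rfl h03
            | exact absurd rfl h13
            | exact absurd rfl h23
            | (simp [labr, larx, lary] at h
               rcases hgap2 with hgap2 | hgap2 <;> nlinarith)))

theorem la_bound (lam θ t1 t2 t3 t0 : ℝ) (hl : 5 / 2 ≤ lam) (hl' : lam ≤ 3) (hθ : θ ≤ 1 / 500)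
    (h0 : |t0| ≤ θ) (h1 : |t1| ≤ θ) (h2 : |t2| ≤ θ) (h3 : |t3| ≤ θ) :
    |(1 - t2 - t0) * (t1 * (lam - t3) - 1) + 1| ≤ 6 * θ ∧
      |(lam - t3 - t0) * (t1 * (1 - t2) - 1) + lam| ≤ 6 * θ := by
  have hθ0 : 0 ≤ θ := (abs_nonneg _).trans h0
  have e1 : (1 - t2 - t0) * (t1 * (lam - t3) - 1) + 1 =
      t1 * ((lam - t3) * (1 - t2 - t0)) + (t2 + t0) := by ring
  have e2 : (lam - t3 - t0) * (t1 * (1 - t2) - 1) + lam =
      t1 * ((1 - t2) * (lam - t3 - t0)) + (t3 + t0) := by ring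
  obtain ⟨a0, a0'⟩ := abs_le.1 h0
  obtain ⟨a2, a2'⟩ := abs_le.1 h2
  obtain ⟨a3, a3'⟩ := abs_le.1 h3
  have f1 : |lam - t3| ≤ 7 / 2 := abs_le.2 ⟨by linarith, by linarith⟩
  have f2 : |1 - t2 - t0| ≤ 11 / 10 := abs_le.2 ⟨by linarith, by linarith⟩
  have f3 : |1 - t2| ≤ 11 / 10 := abs_le.2 ⟨by linarith, by linarith⟩
  have f4 : |lam - t3 - t0| ≤ 7 / 2 := abs_le.2 ⟨by linarith, by linarith⟩
  have g1 : |(lam - t3) * (1 - t2 - t0)| ≤ 4 := by
    rw [abs_mul]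
    calc |lam - t3| * |1 - t2 - t0| ≤ (7 / 2) * (11 / 10) :=
          mul_le_mul f1 f2 (abs_nonneg _) (by norm_num)
      _ ≤ 4 := by norm_num
  have g2 : |(1 - t2) * (lam - t3 - t0)| ≤ 4 := by
    rw [abs_mul]
    calc |1 - t2| * |lam - t3 - t0| ≤ (11 / 10) * (7 / 2) :=
          mul_le_mul f3 f4 (abs_nonneg _) (by norm_num)
      _ ≤ 4 := by norm_num
  constructor
  · rw [e1]
    have k1 : |t1 * ((lam - t3) * (1 - t2 - t0))| ≤ θ * 4 := by
      rw [abs_mul]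
      exact mul_le_mul h1 g1 (abs_nonneg _) hθ0
    have k2 := abs_add_le (t1 * ((lam - t3) * (1 - t2 - t0))) (t2 + t0)
    have k3 := abs_add_le t2 t0
    linarith
  · rw [e2]
    have k1 : |t1 * ((1 - t2) * (lam - t3 - t0))| ≤ θ * 4 := by
      rw [abs_mul]
      exact mul_le_mul h1 g2 (abs_nonneg _) hθ0
    have k2 := abs_add_le (t1 * ((1 - t2) * (lam - t3 - t0))) (t3 + t0)
    have k3 := abs_add_le t3 t0
    linarith

theorem la (lam mu g : ℝ) (hl : 5 / 2 ≤ lam) (hl' : lam ≤ 3) (hm : 5 / 2 ≤ mu) (hm' : mu ≤ 3)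
    (hg : 0 < g) (hgap : g ≤ |lam - mu|) (α β : ℝ × ℝ →ₗ[ℝ] ℝ × ℝ) :
    ∃ (c : Fin 4) (y : ℝ × ℝ), (∀ b, |xi mu b y| ≤ |xi mu b (α (kx lam c))|) ∧
      g / 1000 * |(β (α (1, 0))).1| ≤ |xi lam c (β y)| := by
  by_contra hcon
  push Not at hcon
  set a : ℝ := (β (α (1, 0))).1 with ha
  set e : ℝ := g / 1000 with he
  have he0 : 0 < e := by rw [he]; positivity
  have hg2 : g ≤ 1 / 2 := hgap.trans (abs_le.2 ⟨by linarith, by linarith⟩)
  have he1 : e ≤ 1 / 2000 := by rw [he]; linarith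
  -- a is not zero
  have ha0 : 0 < |a| := by
    by_contra h
    have h1 : |a| = 0 := le_antisymm (not_lt.1 h) (abs_nonneg _)
    have h2 := hcon 0 0 (fun b => by
      rw [la_xi]; simp)
    rw [h1, mul_zero] at h2
    exact absurd h2 (not_lt.2 (abs_nonneg _))
  -- linear maps in coordinates
  have hlin : ∀ (f : ℝ × ℝ →ₗ[ℝ] ℝ × ℝ) (x y : ℝ), f (x, y) = x • f (1, 0) + y • f (0, 1) := by
    intro f x y
    rw [← map_smul, ← map_smul, ← map_add]
    congr 1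
    simp
  have hb' := hcon 0 (α (kx lam 0)) (fun b => le_refl _)
  have hc' := hcon 1 (α (kx lam 1)) (fun b => le_refl _)
  have hd' := hcon 2 (α (kx lam 2)) (fun b => le_refl _)
  have k0 : kx lam 0 = (0, 1) := rfl
  have k1 : kx lam 1 = (1, 0) := rfl
  have k2 : kx lam 2 = (1, -1) := rfl
  have k3 : kx lam 3 = (lam, -1) := rfl
  have x0 : ∀ (m : ℝ) (z : ℝ × ℝ), xi m 0 z = z.1 := fun m z => rfl
  have x1 : ∀ (m : ℝ) (z : ℝ × ℝ), xi m 1 z = z.2 := fun m z => rfl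
  have x2 : ∀ (m : ℝ) (z : ℝ × ℝ), xi m 2 z = z.1 + z.2 := fun m z => rfl
  have x3 : ∀ (m : ℝ) (z : ℝ × ℝ), xi m 3 z = z.1 + m * z.2 := fun m z => rfl
  rw [k0, x0] at hb'
  rw [k1, x1] at hc'
  rw [k2, x2, hlin α 1 (-1)] at hd'
  simp only [one_smul, neg_smul, map_add, map_neg, Prod.fst_add, Prod.snd_add, Prod.fst_neg,
    Prod.snd_neg] at hd'
  rw [← ha] at hd'
  set b' : ℝ := (β (α (0, 1))).1 with hb'def
  set c' : ℝ := (β (α (1, 0))).2 with hc'def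
  set d' : ℝ := (β (α (0, 1))).2 with hd'def
  have hea : e * |a| ≤ |a| / 2000 := by
    have := mul_le_mul_of_nonneg_right he1 ha0.le
    linarith
  obtain ⟨hb1, hb2⟩ := abs_lt.1 hb'
  obtain ⟨hc1, hc2⟩ := abs_lt.1 hc'
  obtain ⟨hd1, hd2⟩ := abs_lt.1 hd'
  have hgen : ∀ (c : Fin 4) (v : ℝ × ℝ), |a| / 2 ≤ |xi lam c (β (α v))| →
      ∃ b, |xi mu b (α (kx lam c))| < 4 * e * |xi mu b (α v)| := by
    intro c v hv
    by_contra h
    push Not at h
    have h1 := hcon c ((4 * e) • α v) (fun b => by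
      rw [la_xi_smul, abs_mul, abs_of_pos (by positivity : (0 : ℝ) < 4 * e)]
      exact h b)
    rw [map_smul, la_xi_smul, abs_mul, abs_of_pos (by positivity : (0 : ℝ) < 4 * e)] at h1
    have h2 := mul_le_mul_of_nonneg_left hv (by positivity : (0 : ℝ) ≤ 4 * e)
    have h3 : 0 < e * |a| := by positivity
    nlinarith
  -- the four indices
  obtain ⟨b0, hb0⟩ := hgen 0 (1, 0) (by rw [x0, ← ha]; linarith)
  obtain ⟨b1, hb1'⟩ := hgen 1 (0, 1) (by
    rw [x1, ← hd'def]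
    have h1 : |a| ≤ |d'| + 3 * (e * |a|) := by
      have h2 : a = d' + (a - d') := by ring
      have h3 : |a - d'| ≤ 3 * (e * |a|) := abs_le.2 ⟨by linarith, by linarith⟩
      calc |a| = |d' + (a - d')| := by rw [← h2]
        _ ≤ |d'| + |a - d'| := abs_add_le _ _
        _ ≤ _ := by linarith
    linarith)
  obtain ⟨b2, hb2'⟩ := hgen 2 (1, 0) (by
    rw [x2, ← ha, ← hc'def]
    have h1 : |a| ≤ |a + c'| + e * |a| := by
      calc |a| = |(a + c') + (-c')| := by congr 1; ring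
        _ ≤ |a + c'| + |-c'| := abs_add_le _ _
        _ ≤ _ := by rw [abs_neg]; linarith
    linarith)
  obtain ⟨b3, hb3'⟩ := hgen 3 (1, 0) (by
    rw [x3, ← ha, ← hc'def]
    have h1 : |a| ≤ |a + lam * c'| + 3 * (e * |a|) := by
      calc |a| = |(a + lam * c') + (-(lam * c'))| := by congr 1; ring
        _ ≤ |a + lam * c'| + |-(lam * c')| := abs_add_le _ _
        _ ≤ _ := by
          rw [abs_neg, abs_mul, abs_of_pos (by linarith : (0 : ℝ) < lam)]
          have := mul_le_mul hl' hc'.le (abs_nonneg _) (by norm_num)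
          linarith
    linarith)
  rw [k0] at hb0
  rw [k1] at hb1'
  rw [k2, hlin α 1 (-1)] at hb2'
  rw [k3, hlin α lam (-1)] at hb3'
  set p : ℝ := (α (1, 0)).1 with hp
  set r : ℝ := (α (1, 0)).2 with hr
  set q : ℝ := (α (0, 1)).1 with hq
  set s : ℝ := (α (0, 1)).2 with hs
  let X : Fin 4 → ℝ := fun b => larx b * p + lary mu b * r
  let Y : Fin 4 → ℝ := fun b => larx b * q + lary mu b * s
  have hX : ∀ b, xi mu b (α (1, 0)) = X b := fun b => la_xi mu b _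
  have hY : ∀ b, xi mu b (α (0, 1)) = Y b := fun b => la_xi mu b _
  have hadd : ∀ b (x y : ℝ), xi mu b (x • α (1, 0) + y • α (0, 1)) = x * X b + y * Y b := by
    intro b x y
    rw [la_xi]
    simp only [Prod.fst_add, Prod.snd_add, Prod.smul_fst, Prod.smul_snd, smul_eq_mul]
    simp only [X, Y]
    rw [← hp, ← hr, ← hq, ← hs]
    ring
  rw [hX, hY] at hb0
  rw [hX, hY] at hb1'
  rw [hadd, hX] at hb2'
  rw [hadd, hX] at hb3'
  set D : ℝ := p * s - q * r with hD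
  have hbr : ∀ i j, X i * Y j - Y i * X j = D * labr mu i j := by
    intro i j
    simp only [X, Y, labr, hD]
    ring
  set θ : ℝ := 4 * e with hθ
  have hθ0 : 0 < θ := by positivity
  have hθ1 : θ ≤ 1 / 500 := by rw [hθ]; linarith
  have hX0 : X b0 ≠ 0 := by
    intro h
    rw [h, abs_zero, mul_zero] at hb0
    exact absurd hb0 (not_lt.2 (abs_nonneg _))
  have hY1 : Y b1 ≠ 0 := by
    intro h
    rw [h, abs_zero, mul_zero] at hb1'
    exact absurd hb1' (not_lt.2 (abs_nonneg _))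
  have hX2 : X b2 ≠ 0 := by
    intro h
    have h1 : θ * |X b2| = 0 := by rw [h, abs_zero, mul_zero]
    rw [h1] at hb2'
    exact absurd hb2' (not_lt.2 (abs_nonneg _))
  have hX3 : X b3 ≠ 0 := by
    intro h
    have h1 : θ * |X b3| = 0 := by rw [h, abs_zero, mul_zero]
    rw [h1] at hb3'
    exact absurd hb3' (not_lt.2 (abs_nonneg _))
  obtain ⟨t0, ht0, hY0⟩ : ∃ t, |t| ≤ θ ∧ Y b0 = X b0 * t := by
    refine ⟨Y b0 / X b0, ?_, by field_simp⟩
    rw [abs_div, div_le_iff₀ (abs_pos.2 hX0)]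
    exact hb0.le
  obtain ⟨t1, ht1, hX1⟩ : ∃ t, |t| ≤ θ ∧ X b1 = Y b1 * t := by
    refine ⟨X b1 / Y b1, ?_, by field_simp⟩
    rw [abs_div, div_le_iff₀ (abs_pos.2 hY1)]
    exact hb1'.le
  obtain ⟨t2, ht2, hY2⟩ : ∃ t, |t| ≤ θ ∧ Y b2 = X b2 * (1 - t) := by
    refine ⟨(1 * X b2 + -1 * Y b2) / X b2, ?_, by field_simp; ring⟩
    rw [abs_div, div_le_iff₀ (abs_pos.2 hX2)]
    exact hb2'.le
  obtain ⟨t3, ht3, hY3⟩ : ∃ t, |t| ≤ θ ∧ Y b3 = X b3 * (lam - t) := by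
    refine ⟨(lam * X b3 + -1 * Y b3) / X b3, ?_, by field_simp; ring⟩
    rw [abs_div, div_le_iff₀ (abs_pos.2 hX3)]
    exact hb3'.le
  obtain ⟨hU, hV⟩ := la_bound lam θ t1 t2 t3 t0 hl hl' hθ1 ht0 ht1 ht2 ht3
  have e02 : X b0 * X b2 * (1 - t2 - t0) = D * labr mu b0 b2 := by
    rw [← hbr, hY0, hY2]; ring
  have e13 : Y b1 * X b3 * (t1 * (lam - t3) - 1) = D * labr mu b1 b3 := by
    rw [← hbr, hX1, hY3]; ring
  have e03 : X b0 * X b3 * (lam - t3 - t0) = D * labr mu b0 b3 := by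
    rw [← hbr, hY0, hY3]; ring
  have e12 : Y b1 * X b2 * (t1 * (1 - t2) - 1) = D * labr mu b1 b2 := by
    rw [← hbr, hX1, hY2]; ring
  have e01 : X b0 * Y b1 * (1 - t0 * t1) = D * labr mu b0 b1 := by
    rw [← hbr, hY0, hX1]; ring
  have e23 : X b2 * X b3 * (lam - t3 - 1 + t2) = D * labr mu b2 b3 := by
    rw [← hbr, hY2, hY3]; ring
  obtain ⟨a0, a0'⟩ := abs_le.1 ht0
  obtain ⟨a1, a1'⟩ := abs_le.1 ht1
  obtain ⟨a2, a2'⟩ := abs_le.1 ht2
  obtain ⟨a3, a3'⟩ := abs_le.1 ht3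
  have hself : ∀ i, labr mu i i = 0 := fun i => by simp only [labr]; ring
  have hsm : ∀ x y : ℝ, |x| ≤ θ → |y| ≤ 4 → x * y < 1 := by
    intro x y hx hy
    have h1 : |x * y| ≤ θ * 4 := by
      rw [abs_mul]
      exact mul_le_mul hx hy (abs_nonneg _) hθ0.le
    linarith [le_abs_self (x * y)]
  have n02 : (1 - t2 - t0) ≠ 0 := by
    intro h; linarith
  have n13 : (t1 * (lam - t3) - 1) ≠ 0 := by
    have := hsm t1 (lam - t3) ht1 (abs_le.2 ⟨by linarith, by linarith⟩)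
    intro h; linarith
  have n03 : (lam - t3 - t0) ≠ 0 := by
    intro h; linarith
  have n12 : (t1 * (1 - t2) - 1) ≠ 0 := by
    have := hsm t1 (1 - t2) ht1 (abs_le.2 ⟨by linarith, by linarith⟩)
    intro h; linarith
  have n01 : (1 - t0 * t1) ≠ 0 := by
    have := hsm t0 t1 ht0 (by linarith)
    intro h; linarith
  have n23 : (lam - t3 - 1 + t2) ≠ 0 := by
    intro h; linarith
  have hne : ∀ (i j : Fin 4) (x : ℝ), x ≠ 0 → x = D * labr mu i j → i ≠ j := by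
    intro i j x hx hxe hij
    rw [hij, hself, mul_zero] at hxe
    exact hx hxe
  have d01 := hne b0 b1 _ (mul_ne_zero (mul_ne_zero hX0 hY1) n01) e01
  have d02 := hne b0 b2 _ (mul_ne_zero (mul_ne_zero hX0 hX2) n02) e02
  have d03 := hne b0 b3 _ (mul_ne_zero (mul_ne_zero hX0 hX3) n03) e03
  have d12 := hne b1 b2 _ (mul_ne_zero (mul_ne_zero hY1 hX2) n12) e12
  have d13 := hne b1 b3 _ (mul_ne_zero (mul_ne_zero hY1 hX3) n13) e13
  have d23 := hne b2 b3 _ (mul_ne_zero (mul_ne_zero hX2 hX3) n23) e23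
  have hD0 : D ≠ 0 := by
    intro h
    rw [h, zero_mul] at e01
    exact mul_ne_zero (mul_ne_zero hX0 hY1) n01 e01
  have hmain : ((1 - t2 - t0) * (t1 * (lam - t3) - 1)) * (labr mu b0 b3 * labr mu b1 b2) =
      ((lam - t3 - t0) * (t1 * (1 - t2) - 1)) * (labr mu b0 b2 * labr mu b1 b3) := by
    have h1 : D ^ 2 * (((1 - t2 - t0) * (t1 * (lam - t3) - 1)) *
        (labr mu b0 b3 * labr mu b1 b2)) =
        D ^ 2 * (((lam - t3 - t0) * (t1 * (1 - t2) - 1)) *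
          (labr mu b0 b2 * labr mu b1 b3)) := by
      calc D ^ 2 * (((1 - t2 - t0) * (t1 * (lam - t3) - 1)) * (labr mu b0 b3 * labr mu b1 b2))
          = ((1 - t2 - t0) * (t1 * (lam - t3) - 1)) *
            ((D * labr mu b0 b3) * (D * labr mu b1 b2)) := by ring
        _ = ((1 - t2 - t0) * (t1 * (lam - t3) - 1)) *
            ((X b0 * X b3 * (lam - t3 - t0)) * (Y b1 * X b2 * (t1 * (1 - t2) - 1))) := by
            rw [e03, e12]
        _ = ((lam - t3 - t0) * (t1 * (1 - t2) - 1)) *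
            ((X b0 * X b2 * (1 - t2 - t0)) * (Y b1 * X b3 * (t1 * (lam - t3) - 1))) := by ring
        _ = ((lam - t3 - t0) * (t1 * (1 - t2) - 1)) *
            ((D * labr mu b0 b2) * (D * labr mu b1 b3)) := by rw [e02, e13]
        _ = _ := by ring
    exact mul_left_cancel₀ (pow_ne_zero 2 hD0) h1
  refine la_perm lam mu g θ _ _ hl hl' hm hm' hg hgap (by rw [hθ, he]) hg2 hU hV b0 b1 b2 b3
    d01 d02 d03 d12 d13 d23 ?_
  linear_combination hmain

end Pool.Agent.Helper60.CR
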