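import Pool.Agent.Helper60.CR.ULim

/-! CR-51 (lf_real). Realisation of the iterated limits by far out coordinates.
PROOF. Induction on `k` (for all `as, w, θ, N0`). `k = 0`: the lists are empty, `Lf N [] w = N w`; any strictly increasing `i` beyond `N0`. `k + 1`: `as m = a m :: as' m`. `Lf N (as m) (w m)` is the ultralimit of `i ↦ Lf N (as' m) (w m + single i (a m))`
(`ulim_tendsto`, bounded by `lf_bound`), so for each `m < M` this is within `θ/2` of the limit for all `i` in a set of the ultrafilter; intersect these finitely many sets and the set `{i | N0 ≤ i}` (cofinite): there is `i0` (the filter is nontrivial).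
Apply the induction hypothesis to `as'`, `w m + single i0 (a m)`, `θ/2`, `i0 + 1`: `i'`. Put `i 0 = i0`, `i (j+1) = i' j`; `Finset.sum_range_succ'`. -/

set_option autoImplicit false

namespace Pool.Agent.Helper60.CR

open Finset

theorem lf_real (N : F0 → ℝ) (hN : Lat N) (k M : ℕ) (as : ℕ → List ℝ)
    (has : ∀ m < M, (as m).length = k) (w : ℕ → F0) (θ : ℝ) (hθ : 0 < θ) (N0 : ℕ) :
    ∃ i : ℕ → ℕ, StrictMono i ∧ (∀ j, N0 ≤ i j) ∧ ∀ m < M,
      |N (w m + ∑ j ∈ range k, Finsupp.single (i j) ((as m).getD j 0)) - Lf N (as m) (w m)| ≤ θ := by
  induction k generalizing as w θ N0 with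
  | zero =>
    refine ⟨fun j => N0 + j, fun a b h => Nat.add_lt_add_left h N0, fun j => Nat.le_add_right _ _, ?_⟩
    intro m hm
    have h0 : as m = [] := List.eq_nil_of_length_eq_zero (has m hm)
    simp [h0, Lf, hθ.le]
  | succ k ih =>
    -- head and tail
    have hcons : ∀ m < M, as m = (as m).headD 0 :: (as m).tail := by
      intro m hm
      have h1 := has m hm
      cases h2 : as m with
      | nil => rw [h2] at h1; simp at h1
      | cons a l => rfl
    have htail : ∀ m < M, ((as m).tail).length = k := by
      intro m hm
      rw [List.length_tail, has m hm]; rfl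
    have hev : ∀ m ∈ range M, ∀ᶠ i in (Filter.hyperfilter ℕ : Filter ℕ),
        |Lf N (as m).tail (w m + Finsupp.single i ((as m).headD 0)) - Lf N (as m) (w m)| < θ / 2 := by
      intro m hm
      have hm' : m < M := Finset.mem_range.1 hm
      set a := (as m).headD 0 with ha
      have hb : ∀ i, |Lf N (as m).tail (w m + Finsupp.single i a)| ≤
          N (w m) + |a| + ((as m).tail.map (fun a => |a|)).sum := by
        intro i
        refine (lf_bound N hN _ _).trans ?_
        have h1 := hN.add (w m) (Finsupp.single i a)
        rw [hN.single] at h1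
        linarith
      have ht := ulim_tendsto (fun i => Lf N (as m).tail (w m + Finsupp.single i a)) _ hb
      have he : Lf N (as m) (w m) = ulim (fun i => Lf N (as m).tail (w m + Finsupp.single i a)) := by
        conv_lhs => rw [hcons m hm']
        rfl
      rw [he]
      have h2 := (Metric.tendsto_nhds.1 ht) (θ / 2) (by linarith)
      filter_upwards [h2] with i hi
      rwa [Real.dist_eq] at hi
    have hall := (Filter.eventually_all_finset (range M)).2 hev
    have hN0 : ∀ᶠ i in (Filter.hyperfilter ℕ : Filter ℕ), N0 ≤ i := by
      have h1 : ∀ᶠ i in (Filter.cofinite : Filter ℕ), N0 ≤ i := by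
        rw [Nat.cofinite_eq_atTop]
        exact Filter.eventually_ge_atTop N0
      exact Filter.hyperfilter_le_cofinite h1
    obtain ⟨i0, h1, h2⟩ := (hall.and hN0).exists
    obtain ⟨i', hi1, hi2, hi3⟩ := ih (fun m => (as m).tail) htail
      (fun m => w m + Finsupp.single i0 ((as m).headD 0)) (θ / 2) (by linarith) (i0 + 1)
    refine ⟨fun j => Nat.casesOn j i0 i', ?_, ?_, ?_⟩
    · apply strictMono_nat_of_lt_succ
      intro j
      cases j with
      | zero => exact hi2 0
      | succ j => exact hi1 (Nat.lt_succ_self j)
    · intro j
      cases j with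
      | zero => exact h2
      | succ j => exact h2.trans ((Nat.le_succ i0).trans (hi2 j))
    · intro m hm
      have h3 := hi3 m hm
      have h4 := h1 m (Finset.mem_range.2 hm)
      have h5 : w m + ∑ j ∈ range (k + 1), Finsupp.single ((Nat.casesOn j i0 i' : ℕ)) ((as m).getD j 0)
          = w m + Finsupp.single i0 ((as m).headD 0) +
            ∑ j ∈ range k, Finsupp.single (i' j) ((as m).tail.getD j 0) := by
        rw [Finset.sum_range_succ', add_assoc, add_comm (Finsupp.single i0 ((as m).headD 0))]
        congr 2
        · refine Finset.sum_congr rfl fun j _ => ?_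
          conv_lhs => rw [hcons m hm]
          simp
        · conv_lhs => rw [hcons m hm]
          simp
      rw [h5]
      have h6 := abs_add_le
        (N (w m + Finsupp.single i0 ((as m).headD 0) +
            ∑ j ∈ range k, Finsupp.single (i' j) ((as m).tail.getD j 0)) -
          Lf N (as m).tail (w m + Finsupp.single i0 ((as m).headD 0)))
        (Lf N (as m).tail (w m + Finsupp.single i0 ((as m).headD 0)) - Lf N (as m) (w m))
      rw [sub_add_sub_cancel] at h6
      linarith

end Pool.Agent.Helper60.CR
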