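import Pool.Agent.Helper60.CR.Basic

/-! CR-41 (lowq_of_cotype). Cotype gives a lower `q`-estimate.
PROOF. `v = linearCombination ℝ e`; `v a ∈ V`. `C' = max 1 (|C| * |Cq|)` (`C > 0` since `1 = N (single 0 1) ≤ C ‖v _‖`). Let `w k`, `k ∈ I`, be disjointly supported; transport `I` to a finite set of natural numbers (`Finset.equivFin`) so that `Cotype` applies to
`x k = v (w k)`: `∑ N (w k)^q ≤ C^q ∑ ‖x k‖^q ≤ C^q Cq^q avg ‖∑ ± x k‖^q ≤ C^q |Cq|^q avg N (∑ ± w k)^q`, and `N (∑ ± w k) = N (∑ w k)` for every choice of signs (`Lat.congr_abs`, `Lat.sum_apply_abs`). The average of a constant. -/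

set_option autoImplicit false

namespace Pool.Agent.Helper60.CR

open Finset

private theorem lqc_nat {X : Type*} [NormedAddCommGroup X] [NormedSpace ℝ X] (e : ℕ → X)
    (N : F0 → ℝ) (C : ℝ) (hN : Lat N) (hE : Equi N e C) (hC : 0 ≤ C) (V : Submodule ℝ X)
    (hV : ∀ i, e i ∈ V) (q : ℕ) (Cq : ℝ) (hc : Cotype V q Cq) (I : Finset ℕ) (w : ℕ → F0)
    (hw : ∀ k ∈ I, ∀ l ∈ I, k ≠ l → Disjoint (w k).support (w l).support) :
    ∑ k ∈ I, N (w k) ^ q ≤ (C * |Cq| * N (∑ k ∈ I, w k)) ^ q := by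
  set v := Finsupp.linearCombination ℝ e with hv
  have hvV : ∀ a, v a ∈ V := by
    intro a
    rw [hv, Finsupp.linearCombination_apply]
    exact Submodule.sum_mem _ fun i _ => Submodule.smul_mem _ _ (hV i)
  have h1 := hc I (fun l => v (w l)) (fun l => hvV _)
  have h2 : ∀ S ∈ I.powerset, ‖∑ l ∈ I, (if l ∈ S then (1 : ℝ) else -1) • v (w l)‖ ^ q ≤
      N (∑ k ∈ I, w k) ^ q := by
    intro S hS
    apply pow_le_pow_left₀ (norm_nonneg _)
    have h3 : ∑ l ∈ I, (if l ∈ S then (1 : ℝ) else -1) • v (w l) =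
        v (∑ l ∈ I, (if l ∈ S then (1 : ℝ) else -1) • w l) := by
      rw [map_sum]
      refine Finset.sum_congr rfl fun l _ => ?_
      rw [map_smul]
    rw [h3]
    refine ((hE _).1).trans ?_
    refine (hN.sum_mono I w hw _ (fun _ => 1) ?_).trans (le_of_eq ?_)
    · intro l _
      split_ifs <;> simp
    · simp
  have h4 : (∑ S ∈ I.powerset, ‖∑ l ∈ I, (if l ∈ S then (1 : ℝ) else -1) • v (w l)‖ ^ q) /
      2 ^ I.card ≤ N (∑ k ∈ I, w k) ^ q := by
    rw [div_le_iff₀ (by positivity)]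
    refine (Finset.sum_le_card_nsmul _ _ _ h2).trans ?_
    rw [Finset.card_powerset, nsmul_eq_mul]
    push_cast
    rw [mul_comm]
  have h5 : 0 ≤ (∑ S ∈ I.powerset, ‖∑ l ∈ I, (if l ∈ S then (1 : ℝ) else -1) • v (w l)‖ ^ q) /
      2 ^ I.card := by positivity
  have h6 : ∑ k ∈ I, ‖v (w k)‖ ^ q ≤ |Cq| ^ q * N (∑ k ∈ I, w k) ^ q := by
    refine h1.trans ?_
    refine (mul_le_mul_of_nonneg_right (b := Cq ^ q) (c := |Cq| ^ q) ?_ h5).trans ?_
    · rw [← abs_pow]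
      exact le_abs_self _
    · exact mul_le_mul_of_nonneg_left h4 (pow_nonneg (abs_nonneg _) _)
  calc ∑ k ∈ I, N (w k) ^ q ≤ ∑ k ∈ I, C ^ q * ‖v (w k)‖ ^ q := by
        refine Finset.sum_le_sum fun k _ => ?_
        rw [← mul_pow]
        exact pow_le_pow_left₀ (hN.nonneg _) (hE _).2 q
    _ = C ^ q * ∑ k ∈ I, ‖v (w k)‖ ^ q := by rw [Finset.mul_sum]
    _ ≤ C ^ q * (|Cq| ^ q * N (∑ k ∈ I, w k) ^ q) :=
        mul_le_mul_of_nonneg_left h6 (pow_nonneg hC _)
    _ = (C * |Cq| * N (∑ k ∈ I, w k)) ^ q := by ring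

theorem lowq_of_cotype {X : Type*} [NormedAddCommGroup X] [NormedSpace ℝ X] (e : ℕ → X)
    (N : F0 → ℝ) (C : ℝ) (hN : Lat N) (hE : Equi N e C) (V : Submodule ℝ X) (hV : ∀ i, e i ∈ V)
    (q : ℕ) (Cq : ℝ) (hc : Cotype V q Cq) : ∃ C' : ℝ, 1 ≤ C' ∧ LowQ N q C' := by
  classical
  have hC : 0 ≤ C := by
    by_contra hcon
    push Not at hcon
    have h1 := (hE (Finsupp.single 0 1)).2
    rw [hN.one] at h1
    have h2 := mul_nonneg_of_nonpos_of_nonpos hcon.le
      (neg_nonpos.2 (norm_nonneg (Finsupp.linearCombination ℝ e (Finsupp.single 0 1))))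
    linarith
  refine ⟨max 1 (C * |Cq|), le_max_left _ _, fun ι I w hw => ?_⟩
  set φ := I.equivFin with hφ
  let w' : ℕ → F0 := fun l => if h : l < I.card then w (φ.symm ⟨l, h⟩) else 0
  have hw' : ∀ j : Fin I.card, w' j = w (φ.symm j) := by
    intro j
    change (if h : (j : ℕ) < I.card then w (φ.symm ⟨j, h⟩) else 0) = _
    rw [dif_pos j.2]
  have hs1 : ∑ k ∈ I, w k = ∑ l ∈ range I.card, w' l := by
    rw [Finset.sum_range]
    simp only [hw']
    rw [φ.symm.sum_comp (fun k : I => w k), Finset.sum_coe_sort I w]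
  have hs2 : ∑ k ∈ I, N (w k) ^ q = ∑ l ∈ range I.card, N (w' l) ^ q := by
    rw [Finset.sum_range]
    simp only [hw']
    rw [φ.symm.sum_comp (fun k : I => N (w k) ^ q), Finset.sum_coe_sort I (fun k => N (w k) ^ q)]
  rw [hs1, hs2]
  refine (lqc_nat e N C hN hE hC V hV q Cq hc _ w' ?_).trans ?_
  · intro k hk l hl hkl
    have e1 := hw' ⟨k, Finset.mem_range.1 hk⟩
    have e2 := hw' ⟨l, Finset.mem_range.1 hl⟩
    simp only at e1 e2
    rw [e1, e2]
    apply hw _ (Subtype.coe_prop _) _ (Subtype.coe_prop _)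
    intro h3
    have h4 := φ.symm.injective (Subtype.ext h3)
    exact hkl (congrArg Fin.val h4)
  · apply pow_le_pow_left₀
    · exact mul_nonneg (mul_nonneg hC (abs_nonneg _)) (hN.nonneg _)
    · exact mul_le_mul_of_nonneg_right (le_max_right _ _) (hN.nonneg _)

end Pool.Agent.Helper60.CR
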