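import Pool.Agent.Helper60.CR.MxBasic
import Pool.Agent.Helper60.CR.KhinP

/-! CR-46 (lp_seq). Inside `ℓ_p` there is a sequence equivalent to the basis of `ℓ_p(ℓ_2^(2^k))` (Rademacher vectors).
PROOF. `v = linearCombination ℝ e`. Let `G, c1, C1` be as in `Block N p`; for real coefficients (`Lat.sum_abs`): `c1 * Bs p s t ≤ N (∑ t i • G i) ≤ C1 * Bs p s t`. For `k : ℕ` and `T ⊆ range (2^k)` let `G' k T = G (Encodable.encode (k, T))` (an injective choice of indices).
`E i = ∑ T ∈ (range (2^k)).powerset, (2 ^ (2^k)) ^ (-1/p) * sgn T l • G' k T` for `k = bk i`, `l = i - (2^k - 1)` (`< 2^k`). For `a : F0` and a finite set `K ⊇ bk '' supp a`: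
`∑ i, a i • E i = ∑ k ∈ K, ∑ T, (2^(2^k))^(-1/p) (∑ l < 2^k, sgn T l * a (2^k - 1 + l)) • G' k T`, so its norm `N` is between `c1` and `C1` times
`(∑ k ∈ K, avgOn (range (2^k)) |∑ l, ε l * a (2^k-1+l)|^p)^(1/p)`, which by `khin_p` is between `c^(1/p)` and `C^(1/p)` times `Mx p a` (`mx_eq`; sum over `blk k` reindexed by `l`). So `κ1 * Mx p a ≤ N (∑ a i • E i) ≤ κ2 * Mx p a`, `κ1 > 0`, and with `hE` the same for
`‖v (∑ a i • E i)‖` with other constants `κ1', κ2' > 0`. Put `e'' i = κ2'⁻¹ • v (E i)`. -/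

set_option autoImplicit false

namespace Pool.Agent.Helper60.CR

open Finset
open Pool.Agent.Helper52.CS (avgOn sgn nsq avgOn_insert khin)

/-- The weight of the block `k`. -/
private noncomputable def lpW (p : ℝ) (k : ℕ) : ℝ := ((2 : ℝ) ^ (2 ^ k : ℕ)) ^ (-(1 / p))

private theorem lpW_pos (p : ℝ) (k : ℕ) : 0 < lpW p k := Real.rpow_pos_of_pos (by positivity) _

private theorem lpW_pow (p : ℝ) (hp : 1 ≤ p) (k : ℕ) : lpW p k ^ p = 1 / 2 ^ (range (2 ^ k)).card := by
  have hp0 : 0 < p := by linarith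
  unfold lpW
  rw [← Real.rpow_mul (by positivity), neg_mul, one_div_mul_cancel hp0.ne', Real.rpow_neg_one,
    Finset.card_range, one_div]

/-- The Rademacher vectors. -/
private noncomputable def lpE (G : ℕ → F0) (p : ℝ) (i : ℕ) : F0 :=
  ∑ T ∈ (range (2 ^ bk i)).powerset, (lpW p (bk i) * sgn T (i - (2 ^ bk i - 1))) •
    G (Encodable.encode ((bk i, T) : ℕ × Finset ℕ))

/-- The coefficient of the vector `(k, T)`. -/
private noncomputable def lpC (p : ℝ) (a : F0) (x : Σ _ : ℕ, Finset ℕ) : ℝ :=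
  lpW p x.1 * ∑ l ∈ range (2 ^ x.1), sgn x.2 l * a (2 ^ x.1 - 1 + l)

private def lpEnc (x : Σ _ : ℕ, Finset ℕ) : ℕ := Encodable.encode ((x.1, x.2) : ℕ × Finset ℕ)

private theorem lpEnc_inj : Function.Injective lpEnc := by
  rintro ⟨k, T⟩ ⟨k', T'⟩ h
  have h1 := Encodable.encode_injective h
  simp only [Prod.mk.injEq] at h1
  obtain ⟨rfl, rfl⟩ := h1
  rfl

private theorem blk_sum {M : Type*} [AddCommMonoid M] (k : ℕ) (f : ℕ → M) :
    ∑ i ∈ blk k, f i = ∑ l ∈ range (2 ^ k), f (2 ^ k - 1 + l) := by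
  unfold blk
  rw [Finset.sum_Ico_eq_sum_range]
  have h1 : 1 ≤ 2 ^ k := Nat.one_le_two_pow
  have h2 : 2 ^ (k + 1) - 1 - (2 ^ k - 1) = 2 ^ k := by
    rw [pow_succ]
    omega
  rw [h2]

private theorem lp_identity (G : ℕ → F0) (p : ℝ) (a : F0) :
    ∑ i ∈ a.support, a i • lpE G p i =
      ∑ x ∈ (a.support.image bk).sigma (fun k => (range (2 ^ k)).powerset), lpC p a x • G (lpEnc x) := by
  classical
  have h1 : ∑ k ∈ a.support.image bk, ∑ i ∈ a.support.filter (fun i => bk i = k), a i • lpE G p i =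
      ∑ i ∈ a.support, a i • lpE G p i :=
    Finset.sum_fiberwise_of_maps_to (fun i hi => Finset.mem_image_of_mem _ hi) _
  rw [← h1, Finset.sum_sigma]
  refine Finset.sum_congr rfl fun k _ => ?_
  have h2 : ∑ i ∈ a.support.filter (fun i => bk i = k), a i • lpE G p i =
      ∑ i ∈ blk k, a i • lpE G p i := by
    refine Finset.sum_subset ?_ ?_
    · intro i hi
      exact (mem_blk i k).2 (Finset.mem_filter.1 hi).2
    · intro i hi hni
      have h3 : i ∉ a.support := fun h => hni (Finset.mem_filter.2 ⟨h, (mem_blk i k).1 hi⟩)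
      rw [Finsupp.notMem_support_iff.1 h3, zero_smul]
  rw [h2, blk_sum]
  have h3 : ∀ l ∈ range (2 ^ k), a (2 ^ k - 1 + l) • lpE G p (2 ^ k - 1 + l) =
      ∑ T ∈ (range (2 ^ k)).powerset, (lpW p k * (sgn T l * a (2 ^ k - 1 + l))) • G (lpEnc ⟨k, T⟩) := by
    intro l hl
    have h4 : 2 ^ k - 1 + l ∈ blk k := by
      unfold blk
      rw [Finset.mem_Ico]
      have h5 : 1 ≤ 2 ^ k := Nat.one_le_two_pow
      have h6 := Finset.mem_range.1 hl
      have h7 : 2 ^ (k + 1) = 2 ^ k * 2 := pow_succ _ _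
      omega
    have h5 : bk (2 ^ k - 1 + l) = k := (mem_blk _ _).1 h4
    unfold lpE
    rw [h5, Nat.add_sub_cancel_left, Finset.smul_sum]
    refine Finset.sum_congr rfl fun T _ => ?_
    rw [smul_smul]
    congr 1
    ring
  rw [Finset.sum_congr rfl h3, Finset.sum_comm]
  refine Finset.sum_congr rfl fun T _ => ?_
  rw [← Finset.sum_smul, ← Finset.mul_sum]
  rfl

private theorem lp_Bs (p : ℝ) (hp : 1 ≤ p) (a : F0) :
    Bs p ((a.support.image bk).sigma (fun k => (range (2 ^ k)).powerset)) (lpC p a) =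
      (∑ k ∈ a.support.image bk, avgOn (range (2 ^ k))
        (fun ε => |∑ l ∈ range (2 ^ k), ε l * a (2 ^ k - 1 + l)| ^ p)) ^ (1 / p) := by
  unfold Bs
  congr 1
  rw [Finset.sum_sigma]
  refine Finset.sum_congr rfl fun k _ => ?_
  unfold avgOn
  rw [Finset.sum_div]
  refine Finset.sum_congr rfl fun T _ => ?_
  unfold lpC
  simp only
  rw [abs_mul, abs_of_pos (lpW_pos p k), Real.mul_rpow (lpW_pos p k).le (abs_nonneg _), lpW_pow p hp]
  ring

theorem lp_seq {X : Type*} [NormedAddCommGroup X] [NormedSpace ℝ X] (e : ℕ → X) (N : F0 → ℝ)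
    (C : ℝ) (hN : Lat N) (hE : Equi N e C) (p : ℝ) (hp : 1 ≤ p) (hB : Block N p) :
    ∃ (e'' : ℕ → X) (C'' : ℝ), (∀ i, e'' i ∈ Submodule.span ℝ (Set.range e)) ∧
      Equi (Mx p) e'' C'' := by
  classical
  obtain ⟨G, c1, C1, hc1, hd, hb⟩ := hB
  obtain ⟨c2, C2, hc2, hk⟩ := khin_p p hp
  have hp0 : 0 < p := by linarith
  set v : F0 →ₗ[ℝ] X := Finsupp.linearCombination ℝ e with hv
  -- the norm of a combination
  have hmain : ∀ a : F0, c1 * c2 ^ (1 / p) * Mx p a ≤ N (∑ i ∈ a.support, a i • lpE G p i) ∧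
      N (∑ i ∈ a.support, a i • lpE G p i) ≤ |C1| * |C2| ^ (1 / p) * Mx p a := by
    intro a
    set σ := (a.support.image bk).sigma (fun k => (range (2 ^ k)).powerset) with hσ
    set t : ℕ → ℝ := fun j => match (Encodable.decode j : Option (ℕ × Finset ℕ)) with
      | some y => lpC p a ⟨y.1, y.2⟩
      | none => 0 with ht
    have ht1 : ∀ x, t (lpEnc x) = lpC p a x := by
      intro x
      simp only [ht, lpEnc, Encodable.encodek]
    have h1 : ∑ i ∈ a.support, a i • lpE G p i = ∑ j ∈ σ.image lpEnc, t j • G j := by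
      rw [lp_identity, Finset.sum_image (fun x _ y _ h => lpEnc_inj h)]
      exact Finset.sum_congr rfl fun x _ => by rw [ht1]
    have h2 := hb (σ.image lpEnc) (fun j => |t j|) (fun j => abs_nonneg _)
    have h3 : N (∑ j ∈ σ.image lpEnc, |t j| • G j) = N (∑ j ∈ σ.image lpEnc, t j • G j) :=
      hN.sum_abs _ G (fun x _ y _ hxy => hd x y hxy) t
    rw [h3, ← h1] at h2
    have h4 : Bs p (σ.image lpEnc) (fun j => |t j|) = Bs p σ (lpC p a) := by
      rw [Bs_image σ lpEnc (fun x _ y _ h => lpEnc_inj h)]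
      refine Bs_congr fun x _ => ?_
      rw [ht1, abs_abs]
    rw [h4, lp_Bs p hp a] at h2
    set A : ℝ := ∑ k ∈ a.support.image bk, avgOn (range (2 ^ k))
        (fun ε => |∑ l ∈ range (2 ^ k), ε l * a (2 ^ k - 1 + l)| ^ p) with hA
    set M : ℝ := Mx p a with hM
    have hM0 : 0 ≤ M := (mx_lat p hp).nonneg a
    have hMp : M ^ p = ∑ k ∈ a.support.image bk,
        Real.sqrt (nsq (range (2 ^ k)) (fun l => a (2 ^ k - 1 + l))) ^ p := by
      have h5 : M = Bs p (a.support.image bk) (fun k => Real.sqrt (∑ i ∈ blk k, a i ^ 2)) := rfl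
      rw [h5, Bs_rpow hp]
      refine Finset.sum_congr rfl fun k _ => ?_
      rw [abs_of_nonneg (Real.sqrt_nonneg _), blk_sum]
      rfl
    have h5 : c2 * M ^ p ≤ A := by
      rw [hMp, Finset.mul_sum]
      exact Finset.sum_le_sum fun k _ => (hk (range (2 ^ k)) (fun l => a (2 ^ k - 1 + l))).1
    have h6 : A ≤ |C2| * M ^ p := by
      rw [hMp, Finset.mul_sum]
      refine Finset.sum_le_sum fun k _ => ?_
      refine (hk (range (2 ^ k)) (fun l => a (2 ^ k - 1 + l))).2.trans ?_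
      exact mul_le_mul_of_nonneg_right (le_abs_self _) (Real.rpow_nonneg (Real.sqrt_nonneg _) _)
    have hA0 : 0 ≤ A := le_trans (mul_nonneg hc2.le (Real.rpow_nonneg hM0 _)) h5
    have h7 : ∀ x : ℝ, 0 ≤ x → (x * M ^ p) ^ (1 / p) = x ^ (1 / p) * M := by
      intro x hx
      rw [Real.mul_rpow hx (Real.rpow_nonneg hM0 _), ← Real.rpow_mul hM0,
        mul_one_div_cancel hp0.ne', Real.rpow_one]
    have h8 : c2 ^ (1 / p) * M ≤ A ^ (1 / p) := by
      rw [← h7 c2 hc2.le]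
      exact Real.rpow_le_rpow (mul_nonneg hc2.le (Real.rpow_nonneg hM0 _)) h5 (by positivity)
    have h9 : A ^ (1 / p) ≤ |C2| ^ (1 / p) * M := by
      rw [← h7 |C2| (abs_nonneg _)]
      exact Real.rpow_le_rpow hA0 h6 (by positivity)
    constructor
    · calc c1 * c2 ^ (1 / p) * M = c1 * (c2 ^ (1 / p) * M) := by ring
        _ ≤ c1 * A ^ (1 / p) := mul_le_mul_of_nonneg_left h8 hc1.le
        _ ≤ _ := h2.1
    · calc N (∑ i ∈ a.support, a i • lpE G p i) ≤ C1 * A ^ (1 / p) := h2.2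
        _ ≤ |C1| * A ^ (1 / p) :=
            mul_le_mul_of_nonneg_right (le_abs_self _) (Real.rpow_nonneg hA0 _)
        _ ≤ |C1| * (|C2| ^ (1 / p) * M) := mul_le_mul_of_nonneg_left h9 (abs_nonneg _)
        _ = _ := by ring
  set κ1 : ℝ := c1 * c2 ^ (1 / p) with hκ1
  have hκ1p : 0 < κ1 := mul_pos hc1 (Real.rpow_pos_of_pos hc2 _)
  set κ2 : ℝ := |C1| * |C2| ^ (1 / p) + 1 with hκ2
  have hκ2p : 0 < κ2 := by
    have : 0 ≤ |C1| * |C2| ^ (1 / p) := mul_nonneg (abs_nonneg _) (Real.rpow_nonneg (abs_nonneg _) _)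
    linarith
  refine ⟨fun i => κ2⁻¹ • v (lpE G p i), |C| * κ2 / κ1, fun i => ?_, fun a => ?_⟩
  · refine Submodule.smul_mem _ _ ?_
    rw [← Finsupp.range_linearCombination]
    exact LinearMap.mem_range_self _ _
  · have h1 : Finsupp.linearCombination ℝ (fun i => κ2⁻¹ • v (lpE G p i)) a =
        κ2⁻¹ • v (∑ i ∈ a.support, a i • lpE G p i) := by
      rw [Finsupp.linearCombination_apply, Finsupp.sum, map_sum, Finset.smul_sum]
      refine Finset.sum_congr rfl fun i _ => ?_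
      rw [map_smul, smul_comm]
    rw [h1, norm_smul, Real.norm_eq_abs, abs_of_pos (inv_pos.2 hκ2p)]
    obtain ⟨h2, h3⟩ := hmain a
    obtain ⟨h4, h5⟩ := hE (∑ i ∈ a.support, a i • lpE G p i)
    have hM0 : 0 ≤ Mx p a := (mx_lat p hp).nonneg a
    set y : ℝ := ‖v (∑ i ∈ a.support, a i • lpE G p i)‖ with hy
    have hy0 : 0 ≤ y := norm_nonneg _
    constructor
    · rw [inv_mul_le_iff₀ hκ2p]
      calc y ≤ N (∑ i ∈ a.support, a i • lpE G p i) := h4
        _ ≤ |C1| * |C2| ^ (1 / p) * Mx p a := h3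
        _ ≤ κ2 * Mx p a := mul_le_mul_of_nonneg_right (by rw [hκ2]; linarith) hM0
    · have h6 : κ1 * Mx p a ≤ |C| * y := by
        calc κ1 * Mx p a ≤ N (∑ i ∈ a.support, a i • lpE G p i) := h2
          _ ≤ C * y := h5
          _ ≤ |C| * y := mul_le_mul_of_nonneg_right (le_abs_self _) hy0
      have h7 : |C| * κ2 / κ1 * (κ2⁻¹ * y) = |C| * y / κ1 := by
        field_simp
      rw [h7, le_div_iff₀ hκ1p]
      linarith

end Pool.Agent.Helper60.CR
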