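import Pool.Agent.Helper60.CR.MxBasic

/-! CR-45 (mx_noblock). For `p ≠ 2` the mixed norm has no block sequence equivalent to the basis of `ℓ_2`.
PROOF. Let `G, c, C` be as in `Block (Mx p) 2`. `G i ≠ 0` (coefficient `1`: `c ≤ Mx p (G i) ≤ C`). For every `K` only finitely many `i` are such that the support of `G i` meets `⋃ k < K, blk k` (the supports are disjoint). So there is a strictly increasing
`i : ℕ → ℕ` such that all blocks met by `G (i (j+1))` have a number larger than all blocks met by `G (i j)`, hence the sets of blocks met by the `G (i j)` are pairwise disjoint. By `mx_eq`, for `n` terms: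
`Mx p (∑ j < n, G (i j)) ^ p = ∑ j < n, Mx p (G (i j)) ^ p ∈ [n c^p, n C^p]`, while `Block` gives `c sqrt n ≤ Mx p (∑ j < n, G (i j)) ≤ C sqrt n`. So `c n^(1/2) ≤ C n^(1/p)` and `c n^(1/p) ≤ C n^(1/2)` for all `n`; since `p ≠ 2` one of the two fails for large `n`. -/

set_option autoImplicit false

namespace Pool.Agent.Helper60.CR

open Finset

/-- The blocks met by the support. -/
private def mxBL (a : F0) : Finset ℕ := a.support.image bk

private theorem mxBL_sum_pow (p : ℝ) (hp : 1 ≤ p) (S : Finset ℕ) (G : ℕ → F0)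
    (hd : ∀ i ∈ S, ∀ j ∈ S, i ≠ j → Disjoint (mxBL (G i)) (mxBL (G j))) :
    Mx p (∑ i ∈ S, G i) ^ p = ∑ i ∈ S, Mx p (G i) ^ p := by
  classical
  set K : Finset ℕ := S.biUnion (fun i => mxBL (G i)) with hK
  have h1 : ∀ m ∈ (∑ i ∈ S, G i).support, bk m ∈ K := by
    intro m hm
    have h2 := Finsupp.support_finsetSum hm
    rw [Finset.mem_biUnion] at h2
    obtain ⟨i, hi, him⟩ := h2
    exact Finset.mem_biUnion.2 ⟨i, hi, Finset.mem_image_of_mem _ him⟩
  rw [mx_eq p hp _ K h1, Bs_rpow hp, hK, Finset.sum_biUnion (fun i hi j hj hij => hd i hi j hj hij)]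
  refine Finset.sum_congr rfl fun i hi => ?_
  have h2 : Mx p (G i) = Bs p (mxBL (G i)) (fun k => Real.sqrt (∑ m ∈ blk k, (G i) m ^ 2)) := rfl
  rw [h2, Bs_rpow hp]
  refine Finset.sum_congr rfl fun k hk => ?_
  have h3 : ∑ m ∈ blk k, (∑ j ∈ S, G j) m ^ 2 = ∑ m ∈ blk k, (G i) m ^ 2 := by
    refine Finset.sum_congr rfl fun m hm => ?_
    have h4 : (∑ j ∈ S, G j) m = (G i) m := by
      rw [Finsupp.finsetSum_apply]
      refine Finset.sum_eq_single_of_mem i hi fun j hj hji => ?_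
      by_contra hne
      have h5 : m ∈ (G j).support := Finsupp.mem_support_iff.2 hne
      have h6 : bk m ∈ mxBL (G j) := Finset.mem_image_of_mem _ h5
      rw [(mem_blk m k).1 hm] at h6
      exact (Finset.disjoint_left.1 (hd j hj i hi hji)) h6 hk
    rw [h4]
  rw [h3]

private theorem mxBL_avoid (G : ℕ → F0) (hd : ∀ k l, k ≠ l → Disjoint (G k).support (G l).support)
    (K : Finset ℕ) : ∃ i, Disjoint (mxBL (G i)) K := by
  classical
  by_contra hcon
  push Not at hcon
  have h1 : ∀ i, ∃ m ∈ (G i).support, m ∈ K.biUnion blk := by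
    intro i
    have h2 := hcon i
    rw [Finset.not_disjoint_iff] at h2
    obtain ⟨k, hk, hkK⟩ := h2
    obtain ⟨m, hm, rfl⟩ := Finset.mem_image.1 hk
    exact ⟨m, hm, Finset.mem_biUnion.2 ⟨bk m, hkK, (mem_blk m _).2 rfl⟩⟩
  choose f hf hfU using h1
  have hinj : Function.Injective f := by
    intro i j hij
    by_contra hne
    exact Finset.disjoint_left.1 (hd i j hne) (hf i) (hij ▸ hf j)
  have hfin : (Set.range f).Finite :=
    (K.biUnion blk).finite_toSet.subset (by rintro _ ⟨i, rfl⟩; exact hfU i)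
  exact Set.infinite_range_of_injective hinj hfin

private theorem mxBL_choose (G : ℕ → F0) (hd : ∀ k l, k ≠ l → Disjoint (G k).support (G l).support)
    (hne : ∀ i, G i ≠ 0) (n : ℕ) : ∃ S : Finset ℕ, S.card = n ∧
      ∀ i ∈ S, ∀ j ∈ S, i ≠ j → Disjoint (mxBL (G i)) (mxBL (G j)) := by
  classical
  induction n with
  | zero => exact ⟨∅, rfl, by simp⟩
  | succ n ih =>
    obtain ⟨S, hS, hSd⟩ := ih
    obtain ⟨i, hi⟩ := mxBL_avoid G hd (S.biUnion (fun i => mxBL (G i)))
    have hi' : ∀ j ∈ S, Disjoint (mxBL (G i)) (mxBL (G j)) := fun j hj =>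
      Finset.disjoint_of_subset_right
        (Finset.subset_biUnion_of_mem (fun i => mxBL (G i)) hj) hi
    have hnot : i ∉ S := by
      intro hiS
      have h1 := hi' i hiS
      rw [disjoint_self] at h1
      have h2 : (G i).support = ∅ := Finset.image_eq_empty.1 h1
      exact hne i (Finsupp.support_eq_empty.1 h2)
    refine ⟨insert i S, by rw [Finset.card_insert_of_notMem hnot, hS], ?_⟩
    intro a ha b hb hab
    rcases Finset.mem_insert.1 ha with ha1 | ha1 <;> rcases Finset.mem_insert.1 hb with hb1 | hb1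
    · exact absurd (ha1.trans hb1.symm) hab
    · rw [ha1]; exact hi' b hb1
    · rw [hb1]; exact (hi' a ha1).symm
    · exact hSd a ha1 b hb1 hab

theorem mx_noblock (p : ℝ) (hp : 1 ≤ p) (hp2 : p ≠ 2) : ¬ Block (Mx p) 2 := by
  classical
  rintro ⟨G, c, C, hc, hd, hb⟩
  have hp0 : 0 < p := by linarith
  have hB1 : ∀ S : Finset ℕ, Bs 2 S (fun _ => (1 : ℝ)) = (S.card : ℝ) ^ (1 / 2 : ℝ) := by
    intro S
    unfold Bs
    simp
  -- one vector
  have h1 : ∀ i, c ≤ Mx p (G i) ∧ Mx p (G i) ≤ C := by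
    intro i
    have h2 := hb {i} (fun _ => 1) (fun _ => zero_le_one)
    rw [hB1] at h2
    simpa using h2
  have hC : 0 < C := lt_of_lt_of_le hc ((h1 0).1.trans (h1 0).2)
  have hne : ∀ i, G i ≠ 0 := by
    intro i h0
    have h2 := (h1 i).1
    rw [h0, (mx_lat p hp).zero] at h2
    linarith
  -- many vectors
  have h2 : ∀ n : ℕ, 1 ≤ n → c * (n : ℝ) ^ (1 / 2 : ℝ) ≤ C * (n : ℝ) ^ (1 / p) ∧
      c * (n : ℝ) ^ (1 / p) ≤ C * (n : ℝ) ^ (1 / 2 : ℝ) := by
    intro n hn
    obtain ⟨S, hS, hSd⟩ := mxBL_choose G hd hne n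
    have h3 := hb S (fun _ => 1) (fun _ => zero_le_one)
    rw [hB1, hS] at h3
    simp only [one_smul] at h3
    have h4 := mxBL_sum_pow p hp S G hSd
    set A : ℝ := Mx p (∑ i ∈ S, G i) with hA
    have hA0 : 0 ≤ A := (mx_lat p hp).nonneg _
    have hn0 : (0 : ℝ) ≤ n := Nat.cast_nonneg n
    have h5 : (n : ℝ) * c ^ p ≤ A ^ p := by
      rw [h4, ← hS, ← nsmul_eq_mul]
      exact Finset.card_nsmul_le_sum S _ _ fun i _ => Real.rpow_le_rpow hc.le (h1 i).1 hp0.le
    have h6 : A ^ p ≤ (n : ℝ) * C ^ p := by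
      rw [h4, ← hS, ← nsmul_eq_mul]
      exact Finset.sum_le_card_nsmul S _ _ fun i _ =>
        Real.rpow_le_rpow ((mx_lat p hp).nonneg _) (h1 i).2 hp0.le
    have h7 : ∀ x : ℝ, 0 ≤ x → ((n : ℝ) * x ^ p) ^ (1 / p) = x * (n : ℝ) ^ (1 / p) := by
      intro x hx
      rw [Real.mul_rpow hn0 (Real.rpow_nonneg hx _), ← Real.rpow_mul hx,
        mul_one_div_cancel hp0.ne', Real.rpow_one, mul_comm]
    have h8 : (A ^ p) ^ (1 / p) = A := by
      rw [← Real.rpow_mul hA0, mul_one_div_cancel hp0.ne', Real.rpow_one]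
    have h9 : c * (n : ℝ) ^ (1 / p) ≤ A := by
      rw [← h7 c hc.le, ← h8]
      exact Real.rpow_le_rpow (by positivity) h5 (by positivity)
    have h10 : A ≤ C * (n : ℝ) ^ (1 / p) := by
      rw [← h7 C hC.le, ← h8]
      exact Real.rpow_le_rpow (Real.rpow_nonneg hA0 _) h6 (by positivity)
    exact ⟨h3.1.trans h10, h9.trans h3.2⟩
  -- contradiction
  have h3 : ∀ γ : ℝ, 0 < γ → ¬ ∀ n : ℕ, 1 ≤ n → (n : ℝ) ^ γ ≤ C / c := by
    intro γ hγ hall
    have h4 := (tendsto_rpow_atTop hγ).comp tendsto_natCast_atTop_atTop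
    have h5 := (Filter.tendsto_atTop.1 h4 (C / c + 1)).and (Filter.eventually_ge_atTop 1)
    obtain ⟨n, hn, hn1⟩ := h5.exists
    have := hall n hn1
    simp only [Function.comp] at hn
    linarith
  rcases lt_or_gt_of_ne hp2 with h4 | h4
  · -- p < 2: 1/p > 1/2
    have hγ : 0 < 1 / p - 1 / 2 := by
      rw [sub_pos]
      exact one_div_lt_one_div_of_lt hp0 h4
    refine h3 _ hγ fun n hn => ?_
    have hn0 : (0 : ℝ) < n := by exact_mod_cast hn
    rw [Real.rpow_sub hn0, div_le_div_iff₀ (by positivity) hc]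
    have := (h2 n hn).2
    linarith
  · have hγ : 0 < 1 / 2 - 1 / p := by
      rw [sub_pos]
      exact one_div_lt_one_div_of_lt (by norm_num) h4
    refine h3 _ hγ fun n hn => ?_
    have hn0 : (0 : ℝ) < n := by exact_mod_cast hn
    rw [Real.rpow_sub hn0, div_le_div_iff₀ (by positivity) hc]
    have := (h2 n hn).1
    linarith

end Pool.Agent.Helper60.CR
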