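import Pool.Agent.Helper60.CR.Basic

/-! CR-40 (renorm). A lattice norm for an unconditional sequence.
PROOF. `e' i = ‖e i‖⁻¹ • e i` (norm one), `v = linearCombination ℝ e'`. (1) For `θ : ℕ → ℝ` with `|θ i| ≤ 1` and `a : F0`: `‖∑ i ∈ a.support, (θ i * a i) • e' i‖ ≤ C' ‖v a‖` with `C' = C`: for signs `θ i = ±1` this is `Uncond.sign`
(apply it to `x i = a i * ‖e i‖⁻¹`); in general the left side is a convex function of every single `θ i ∈ [-1, 1]`, so it is at most its value at one of the end points; change the coordinates one after the other (induction over a finite set of indices `i` where `θ i` is not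
`±1`). (2) Let `N a = ⨆ θ` of `‖∑ i ∈ a.support, (θ i * a i) • e' i‖` over all `θ : ℕ → ℝ` with `|θ i| ≤ 1` (`sSup` of the image, bounded by (1), nonempty). `‖v a‖ ≤ N a` (`θ = 1`), `N a ≤ C' ‖v a‖`. `add`, `smul`: clear (sum over a bigger finite set does not change).
`mono`: if `|a i| ≤ |b i|` then `a i = η i * b i` with `|η i| ≤ 1`, so every vector in the supremum for `a` occurs for `b`. `one`: `N (single i 1) = sup |θ i| ‖e' i‖ = 1`. -/

set_option autoImplicit false

namespace Pool.Agent.Helper60.CR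

open Finset

theorem Uncond.renormConv {X : Type*} [NormedAddCommGroup X] [NormedSpace ℝ X] {e : ℕ → X} {C : ℝ}
    (hU : Uncond e C) (J K : Finset ℕ) (x : ℕ → ℝ) : ∀ θ : ℕ → ℝ, (∀ i, |θ i| ≤ 1) →
      (∀ i, i ∉ K → θ i = 1 ∨ θ i = -1) →
      ‖∑ i ∈ J, (θ i * x i) • e i‖ ≤ C * ‖∑ i ∈ J, x i • e i‖ := by
  classical
  induction K using Finset.induction_on with
  | empty => exact fun θ _ h => hU.sign J x θ fun i => h i (Finset.notMem_empty i)
  | insert k K hk ih =>
    intro θ h1 h2
    have hup : ∀ c : ℝ, |c| ≤ 1 → (c = 1 ∨ c = -1) →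
        ‖∑ i ∈ J, (Function.update θ k c i * x i) • e i‖ ≤ C * ‖∑ i ∈ J, x i • e i‖ := by
      intro c hc hc'
      apply ih
      · intro i
        by_cases hik : i = k
        · rw [hik, Function.update_self]; exact hc
        · rw [Function.update_of_ne hik]; exact h1 i
      · intro i hi
        by_cases hik : i = k
        · rw [hik, Function.update_self]; exact hc'
        · rw [Function.update_of_ne hik]
          exact h2 i (by simp [hik, hi])
    have hp := hup 1 (by simp) (Or.inl rfl)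
    have hm := hup (-1) (by simp) (Or.inr rfl)
    have hs := abs_le.1 (h1 k)
    have hdec : ∑ i ∈ J, (θ i * x i) • e i =
        ((1 + θ k) / 2) • ∑ i ∈ J, (Function.update θ k 1 i * x i) • e i +
        ((1 - θ k) / 2) • ∑ i ∈ J, (Function.update θ k (-1) i * x i) • e i := by
      rw [Finset.smul_sum, Finset.smul_sum, ← Finset.sum_add_distrib]
      refine Finset.sum_congr rfl fun i _ => ?_
      rw [smul_smul, smul_smul, ← add_smul]
      congr 1
      by_cases hik : i = k
      · rw [hik, Function.update_self, Function.update_self]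
        ring
      · rw [Function.update_of_ne hik, Function.update_of_ne hik]
        ring
    rw [hdec]
    refine (norm_add_le _ _).trans ?_
    rw [norm_smul, norm_smul, Real.norm_of_nonneg (by linarith : 0 ≤ (1 + θ k) / 2),
      Real.norm_of_nonneg (by linarith : 0 ≤ (1 - θ k) / 2)]
    have h3 := mul_le_mul_of_nonneg_left hp (by linarith : 0 ≤ (1 + θ k) / 2)
    have h4 := mul_le_mul_of_nonneg_left hm (by linarith : 0 ≤ (1 - θ k) / 2)
    calc _ ≤ (1 + θ k) / 2 * (C * ‖∑ i ∈ J, x i • e i‖) +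
          (1 - θ k) / 2 * (C * ‖∑ i ∈ J, x i • e i‖) := add_le_add h3 h4
      _ = _ := by ring

theorem renorm {X : Type*} [NormedAddCommGroup X] [NormedSpace ℝ X] (e : ℕ → X) (C : ℝ)
    (hU : Uncond e C) :
    ∃ N : F0 → ℝ, Lat N ∧ ∃ C' : ℝ, Equi N (fun i => ‖e i‖⁻¹ • e i) C' := by
  classical
  set e' : ℕ → X := fun i => ‖e i‖⁻¹ • e i with he'
  have hnorm : ∀ i, ‖e' i‖ = 1 := by
    intro i
    have h1 : ‖e i‖ ≠ 0 := norm_ne_zero_iff.2 (hU.ne_zero i)
    simp only [he']
    rw [norm_smul, norm_inv, norm_norm, inv_mul_cancel₀ h1]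
  set W : (ℕ → ℝ) → F0 → X := fun θ a => Finsupp.linearCombination ℝ (fun i => θ i • e' i) a
    with hW
  have hWJ : ∀ (θ : ℕ → ℝ) (a : F0) (J : Finset ℕ), a.support ⊆ J →
      W θ a = ∑ i ∈ J, (θ i * a i) • e' i := by
    intro θ a J hJ
    simp only [hW]
    rw [Finsupp.linearCombination_apply, Finsupp.sum_of_support_subset a hJ]
    · refine Finset.sum_congr rfl fun i _ => ?_
      rw [smul_smul, mul_comm]
    · intro i _
      rw [zero_smul]
  have hW1 : ∀ a, W (fun _ => 1) a = Finsupp.linearCombination ℝ e' a := by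
    intro a
    simp only [hW, one_smul]
  have hbd : ∀ (a : F0) (θ : ℕ → ℝ), (∀ i, |θ i| ≤ 1) →
      ‖W θ a‖ ≤ C * ‖Finsupp.linearCombination ℝ e' a‖ := by
    intro a θ hθ
    rw [← hW1, hWJ θ a a.support subset_rfl, hWJ (fun _ => 1) a a.support subset_rfl]
    have h1 := hU.renormConv a.support a.support (fun i => a i * ‖e i‖⁻¹)
      (fun i => if i ∈ a.support then θ i else 1) (by
        intro i
        by_cases hi : i ∈ a.support
        · simp only [hi, if_true]; exact hθ i
        · simp only [hi, if_false]; simp) (by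
        intro i hi
        simp only [hi, if_false]
        exact Or.inl trivial)
    have h2 : ∑ i ∈ a.support, ((if i ∈ a.support then θ i else 1) * (a i * ‖e i‖⁻¹)) • e i =
        ∑ i ∈ a.support, (θ i * a i) • e' i := by
      refine Finset.sum_congr rfl fun i hi => ?_
      rw [if_pos hi]
      simp only [he']
      rw [smul_smul, mul_assoc]
    have h3 : ∑ i ∈ a.support, (a i * ‖e i‖⁻¹) • e i =
        ∑ i ∈ a.support, (1 * a i) • e' i := by
      refine Finset.sum_congr rfl fun i hi => ?_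
      simp only [he']
      rw [smul_smul, one_mul]
    rw [h2, h3] at h1
    exact h1
  set S : F0 → Set ℝ := fun a => {r | ∃ θ : ℕ → ℝ, (∀ i, |θ i| ≤ 1) ∧ r = ‖W θ a‖} with hS
  have hne : ∀ a, (S a).Nonempty := fun a => ⟨_, fun _ => 1, fun _ => by simp, rfl⟩
  have hbdd : ∀ a, BddAbove (S a) := by
    intro a
    refine ⟨C * ‖Finsupp.linearCombination ℝ e' a‖, ?_⟩
    rintro r ⟨θ, hθ, rfl⟩
    exact hbd a θ hθ
  set N : F0 → ℝ := fun a => sSup (S a) with hN
  have hle : ∀ a θ, (∀ i, |θ i| ≤ 1) → ‖W θ a‖ ≤ N a := fun a θ hθ =>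
    le_csSup (hbdd a) ⟨θ, hθ, rfl⟩
  have hub : ∀ a c, (∀ θ : ℕ → ℝ, (∀ i, |θ i| ≤ 1) → ‖W θ a‖ ≤ c) → N a ≤ c := by
    intro a c hc
    refine csSup_le (hne a) ?_
    rintro r ⟨θ, hθ, rfl⟩
    exact hc θ hθ
  have hsmul : ∀ (t : ℝ) (a : F0), N (t • a) ≤ |t| * N a := by
    intro t a
    apply hub
    intro θ hθ
    have h1 : W θ (t • a) = t • W θ a := map_smul _ _ _
    rw [h1, norm_smul, Real.norm_eq_abs]
    exact mul_le_mul_of_nonneg_left (hle a θ hθ) (abs_nonneg _)
  have hnn : ∀ a, 0 ≤ N a := fun a => (norm_nonneg _).trans (hle a (fun _ => 1) fun _ => by simp)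
  refine ⟨N, ⟨?_, ?_, ?_, ?_⟩, C, fun a => ⟨?_, ?_⟩⟩
  · intro a b
    apply hub
    intro θ hθ
    have h1 : W θ (a + b) = W θ a + W θ b := map_add _ _ _
    rw [h1]
    exact (norm_add_le _ _).trans (add_le_add (hle a θ hθ) (hle b θ hθ))
  · intro t a
    refine le_antisymm (hsmul t a) ?_
    by_cases ht : t = 0
    · rw [ht, abs_zero, zero_mul]
      exact hnn _
    · have h1 := hsmul t⁻¹ (t • a)
      rw [smul_smul, inv_mul_cancel₀ ht, one_smul, abs_inv] at h1
      have h2 : 0 < |t| := abs_pos.2 ht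
      calc |t| * N a ≤ |t| * (|t|⁻¹ * N (t • a)) := mul_le_mul_of_nonneg_left h1 h2.le
        _ = N (t • a) := by rw [← mul_assoc, mul_inv_cancel₀ h2.ne', one_mul]
  · intro a b hab
    apply hub
    intro θ hθ
    have hsub : a.support ⊆ b.support := by
      intro i hi
      rw [Finsupp.mem_support_iff] at hi ⊢
      intro hb
      have := hab i
      rw [hb, abs_zero] at this
      exact hi (abs_nonpos_iff.1 this)
    have h1 : W θ a = W (fun i => θ i * (a i / b i)) b := by
      rw [hWJ θ a b.support hsub, hWJ _ b b.support subset_rfl]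
      refine Finset.sum_congr rfl fun i hi => ?_
      have hb : b i ≠ 0 := Finsupp.mem_support_iff.1 hi
      congr 1
      field_simp
    rw [h1]
    apply hle
    intro i
    rw [abs_mul, abs_div]
    have h2 : |a i| / |b i| ≤ 1 := div_le_one_of_le₀ (hab i) (abs_nonneg _)
    exact mul_le_one₀ (hθ i) (by positivity) h2
  · intro i
    have h1 : ∀ θ : ℕ → ℝ, ‖W θ (Finsupp.single i 1)‖ = |θ i| := by
      intro θ
      simp only [hW, Finsupp.linearCombination_single, one_smul]
      rw [norm_smul, hnorm, mul_one, Real.norm_eq_abs]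
    refine le_antisymm (hub _ _ fun θ hθ => ?_) ?_
    · rw [h1]; exact hθ i
    · have h2 := hle (Finsupp.single i 1) (fun _ => 1) (fun _ => by simp)
      rw [h1, abs_one] at h2
      exact h2
  · rw [← hW1]
    exact hle a _ fun _ => by simp
  · exact hub _ _ fun θ hθ => hbd a θ hθ

end Pool.Agent.Helper60.CR
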