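import Pool.Agent.Helper60.CR.HasGad
import Pool.Agent.Helper60.CR.Core
import Pool.Agent.Helper60.CR.Renorm
import Pool.Agent.Helper60.CR.LowQCot
import Pool.Agent.Helper60.CR.L2Block
import Pool.Agent.Helper60.CR.MxNoBlock
import Pool.Agent.Helper60.CR.LpSeq
import Pool.Agent.Helper60.CR.HasPieces

/-! CR-61. The main theorem.
PROOF. Normalise the sequence (`renorm`), the closed span does not change; `lowq_of_cotype`; `has_pieces` gives `p`. If `ℓ_p` is not a block subspace: `has_gadgets`, `core`. Otherwise `p = 2` is excluded by `l2_of_block`, and for `p ≠ 2` `lp_seq` gives a sequence equivalent to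
the basis of `ℓ_p(ℓ_2^(2^k))`, to which `mx_lat`, `lowq_of_cotype`, `mx_pieces`, `mx_noblock`, `has_gadgets`, `core` apply. -/

set_option autoImplicit false

namespace Pool.Agent.Helper60.CR

open Finset

variable {X : Type*} [NormedAddCommGroup X] [NormedSpace ℝ X]

theorem span_normalised (e : ℕ → X) (he : ∀ i, e i ≠ 0) :
    Submodule.span ℝ (Set.range fun i => ‖e i‖⁻¹ • e i) = Submodule.span ℝ (Set.range e) := by
  apply le_antisymm
  · rw [Submodule.span_le]
    rintro _ ⟨i, rfl⟩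
    exact Submodule.smul_mem _ _ (Submodule.subset_span ⟨i, rfl⟩)
  · rw [Submodule.span_le]
    rintro _ ⟨i, rfl⟩
    have h1 : e i = ‖e i‖ • (‖e i‖⁻¹ • e i) := by
      rw [smul_smul, mul_inv_cancel₀ (norm_ne_zero_iff.2 (he i)), one_smul]
    rw [h1]
    exact Submodule.smul_mem _ _ (Submodule.subset_span ⟨i, rfl⟩)

theorem cotype_zero (V : Submodule ℝ X) (Cq : ℝ) : ¬ Cotype V 0 Cq := by
  intro h
  have h1 := h {0, 1} (fun _ => 0) (fun _ => V.zero_mem)
  simp only [pow_zero, Finset.sum_const, nsmul_eq_mul, mul_one, one_mul] at h1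
  rw [Finset.card_powerset] at h1
  norm_num at h1

theorem main [CompleteSpace X]
    (e : ℕ → X) (C : ℝ) (hU : Uncond e C) (q : ℕ) (Cq : ℝ)
    (hcot : Cotype (Submodule.span ℝ (Set.range e)).topologicalClosure q Cq)
    (hne : ∀ Z : Submodule ℝ X, Z ≤ (Submodule.span ℝ (Set.range e)).topologicalClosure →
      IsEmpty (Z ≃L[ℝ] lp (fun _ : ℕ => ℝ) 2)) :
    ∃ Y : Set ℕ → Submodule ℝ X, (∀ A, IsClosed (Y A : Set X)) ∧
      (∀ A : Set ℕ, A.Infinite → ¬ FiniteDimensional ℝ (Y A)) ∧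
      (∀ A B : Set ℕ, Nonempty (Y A ≃L[ℝ] Y B) → (A \ B).Finite ∧ (B \ A).Finite) ∧
      ∃ A : ℝ → Set ℕ, ∀ r t : ℝ, r ≠ t →
        ¬ FiniteDimensional ℝ (Y (A r)) ∧ IsEmpty (Y (A r) ≃L[ℝ] Y (A t)) := by
  have hq : 1 ≤ q := by
    rcases Nat.eq_zero_or_pos q with rfl | h
    · exact absurd hcot (cotype_zero _ _)
    · exact h
  set V := (Submodule.span ℝ (Set.range e)).topologicalClosure with hV
  obtain ⟨N, hN, C', hE⟩ := renorm e C hU
  set e' : ℕ → X := fun i => ‖e i‖⁻¹ • e i with he'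
  have hspan : Submodule.span ℝ (Set.range e') = Submodule.span ℝ (Set.range e) :=
    span_normalised e hU.ne_zero
  have heV : ∀ i, e' i ∈ V := fun i => Submodule.le_topologicalClosure _ (by
    rw [← hspan]; exact Submodule.subset_span ⟨i, rfl⟩)
  obtain ⟨C1, hC1, hL⟩ := lowq_of_cotype e' N C' hN hE V heV q Cq hcot
  obtain ⟨p, hp, hP⟩ := has_pieces N hN q C1 hq hC1 hL
  by_cases hB : Block N p
  · have hp2 : p ≠ 2 := by
      rintro rfl
      obtain ⟨Z, hZ, hZ2⟩ := l2_of_block e' N C' hN hE hB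
      rw [hspan] at hZ
      exact (hne Z hZ).false hZ2.some
    obtain ⟨e'', C'', he'', hE''⟩ := lp_seq e' N C' hN hE p hp hB
    have heV'' : ∀ i, e'' i ∈ V := fun i => Submodule.le_topologicalClosure _ (by
      rw [← hspan]; exact he'' i)
    obtain ⟨C2, hC2, hL2⟩ := lowq_of_cotype e'' (Mx p) C'' (mx_lat p hp) hE'' V heV'' q Cq hcot
    have hG := has_gadgets (Mx p) (mx_lat p hp) 2 1 (by norm_num) le_rfl (mx_pieces p hp)
      (mx_noblock p hp hp2)
    exact core e'' (Mx p) C'' (mx_lat p hp) hE'' q C2 hq hC2 hL2 hG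
  · have hG := has_gadgets N hN p 96 hp (by norm_num) hP hB
    exact core e' N C' hN hE q C1 hq hC1 hL hG

end Pool.Agent.Helper60.CR
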