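import Pool.Agent.Helper60.CR.Main
import Pool.Agent.Helper60.CR.CoreE

/-! CR-75. The main theorem, version with `E_0`. -/

set_option autoImplicit false

namespace Pool.Agent.Helper60.CR

open Finset

variable {X : Type*} [NormedAddCommGroup X] [NormedSpace ℝ X]

theorem main_e [CompleteSpace X]
    (e : ℕ → X) (C : ℝ) (hU : Uncond e C) (q : ℕ) (Cq : ℝ)
    (hcot : Cotype (Submodule.span ℝ (Set.range e)).topologicalClosure q Cq)
    (hne : ∀ Z : Submodule ℝ X, Z ≤ (Submodule.span ℝ (Set.range e)).topologicalClosure →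
      IsEmpty (Z ≃L[ℝ] lp (fun _ : ℕ => ℝ) 2)) :
    ∃ F : ℕ → Bool → Submodule ℝ X, (∀ n b, FiniteDimensional ℝ (F n b)) ∧
      (∀ n b, F n b ≤ Submodule.span ℝ (Set.range e)) ∧
      (∀ σ : ℕ → Bool, ¬ FiniteDimensional ℝ (⨆ n, F n (σ n)).topologicalClosure) ∧
      ∀ σ τ : ℕ → Bool, Nonempty ((⨆ n, F n (σ n)).topologicalClosure ≃L[ℝ]
        (⨆ n, F n (τ n)).topologicalClosure) ↔ {n | σ n ≠ τ n}.Finite := by
  have hq : 1 ≤ q := by
    rcases Nat.eq_zero_or_pos q with rfl | h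
    · exact absurd hcot (cotype_zero _ _)
    · exact h
  set V := (Submodule.span ℝ (Set.range e)).topologicalClosure with hV
  obtain ⟨N, hN, C', hE⟩ := renorm e C hU
  set e' : ℕ → X := fun i => ‖e i‖⁻¹ • e i with he'
  have hspan : Submodule.span ℝ (Set.range e') = Submodule.span ℝ (Set.range e) :=
    span_normalised e hU.ne_zero
  have heV : ∀ i, e' i ∈ V := fun i => Submodule.le_topologicalClosure _ (by
    rw [← hspan]; exact Submodule.subset_span ⟨i, rfl⟩)
  obtain ⟨C1, hC1, hL⟩ := lowq_of_cotype e' N C' hN hE V heV q Cq hcot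
  obtain ⟨p, hp, hP⟩ := has_pieces N hN q C1 hq hC1 hL
  by_cases hB : Block N p
  · have hp2 : p ≠ 2 := by
      rintro rfl
      obtain ⟨Z, hZ, hZ2⟩ := l2_of_block e' N C' hN hE hB
      rw [hspan] at hZ
      exact (hne Z hZ).false hZ2.some
    obtain ⟨e'', C'', he'', hE''⟩ := lp_seq e' N C' hN hE p hp hB
    have hsp'' : Submodule.span ℝ (Set.range e'') ≤ Submodule.span ℝ (Set.range e) := by
      rw [Submodule.span_le]
      rintro _ ⟨i, rfl⟩
      rw [← hspan]
      exact he'' i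
    have heV'' : ∀ i, e'' i ∈ V := fun i => Submodule.le_topologicalClosure _
      (hsp'' (Submodule.subset_span ⟨i, rfl⟩))
    obtain ⟨C2, hC2, hL2⟩ := lowq_of_cotype e'' (Mx p) C'' (mx_lat p hp) hE'' V heV'' q Cq hcot
    have hG := has_gadgets (Mx p) (mx_lat p hp) 2 1 (by norm_num) le_rfl (mx_pieces p hp)
      (mx_noblock p hp hp2)
    obtain ⟨F, h1, h2, h3, h4⟩ :=
      core_e e'' (Mx p) C'' (mx_lat p hp) hE'' q C2 hq hC2 hL2 hG
    exact ⟨F, h1, fun n b => (h2 n b).trans hsp'', h3, h4⟩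
  · have hG := has_gadgets N hN p 96 hp (by norm_num) hP hB
    obtain ⟨F, h1, h2, h3, h4⟩ := core_e e' N C' hN hE q C1 hq hC1 hL hG
    exact ⟨F, h1, fun n b => (h2 n b).trans hspan.le, h3, h4⟩

end Pool.Agent.Helper60.CR
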