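import Pool.Agent.Helper52.CS.Khin

/-! CR-23 (mom). Moments of Rademacher sums.
PROOF. `E := avgOn I`. (1) `E cosh (∑ ε_i a_i) = ∏ cosh (a_i)` by induction with `avgOn_insert` (in the two halves the sign of the new index `j` is `-1` resp. `1`; see the private lemmas in
`Pool/Agent/Helper52/CS/Khin.lean` for the pattern; `cosh (S + a) + cosh (S - a) = 2 cosh S cosh a`), and `cosh x ≤ exp (x^2/2)` (`Real.cosh_le_exp_half_sq`), so `E cosh S ≤ exp (nsq I a / 2)`.
(2) `x^(2q) ≤ (2q)! cosh x` (power series `Real.hasSum_cosh`, all terms are nonnegative). (3) If `nsq I a = 0` all `a i = 0` on `I` (for `q = 0` both sides: `1 ≤ 2`). Otherwise apply (1), (2) to `a / σ`, `σ = sqrt (nsq I a)`: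
`E (S/σ)^(2q) ≤ (2q)! exp (1/2) ≤ 2 (2q)!`. -/

set_option autoImplicit false

namespace Pool.Agent.Helper60.CR

open Finset
open Pool.Agent.Helper52.CS (avgOn sgn nsq avgOn_insert khin)

private theorem mo_congr {I : Finset ℕ} {F G : (ℕ → ℝ) → ℝ}
    (h : ∀ T, T ⊆ I → F (sgn T) = G (sgn T)) : avgOn I F = avgOn I G := by
  unfold avgOn
  congr 1
  exact Finset.sum_congr rfl fun T hT => h T (Finset.mem_powerset.mp hT)

private theorem mo_add (I : Finset ℕ) (F G : (ℕ → ℝ) → ℝ) :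
    avgOn I (fun ε => F ε + G ε) = avgOn I F + avgOn I G := by
  unfold avgOn
  rw [Finset.sum_add_distrib, add_div]

private theorem mo_mul (I : Finset ℕ) (c : ℝ) (F : (ℕ → ℝ) → ℝ) :
    avgOn I (fun ε => c * F ε) = c * avgOn I F := by
  unfold avgOn
  rw [← Finset.mul_sum, mul_div_assoc]

private theorem mo_const (I : Finset ℕ) (c : ℝ) : avgOn I (fun _ => c) = c := by
  unfold avgOn
  rw [Finset.sum_const, Finset.card_powerset, nsmul_eq_mul]
  push_cast
  have : (2 : ℝ) ^ I.card ≠ 0 := by positivity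
  field_simp

private theorem mo_mono {I : Finset ℕ} {F G : (ℕ → ℝ) → ℝ} (h : ∀ ε, F ε ≤ G ε) :
    avgOn I F ≤ avgOn I G := by
  unfold avgOn
  exact div_le_div_of_nonneg_right (Finset.sum_le_sum fun T _ => h _) (by positivity)

private theorem mo_ins {I T : Finset ℕ} {j : ℕ} (hj : j ∉ I) (hT : T ⊆ I) (a : ℕ → ℝ) :
    ∑ i ∈ insert j I, sgn T i * a i = (∑ i ∈ I, sgn T i * a i) - a j := by
  rw [Finset.sum_insert hj]
  have : sgn T j = -1 := by
    unfold sgn
    rw [if_neg fun h => hj (hT h)]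
  rw [this]
  ring

private theorem mo_ins' {I : Finset ℕ} {j : ℕ} (hj : j ∉ I) (ε a : ℕ → ℝ) :
    ∑ i ∈ insert j I, (if i = j then 1 else ε i) * a i = (∑ i ∈ I, ε i * a i) + a j := by
  rw [Finset.sum_insert hj, if_pos rfl, one_mul, add_comm]
  congr 1
  refine Finset.sum_congr rfl fun i hi => ?_
  rw [if_neg]
  rintro rfl
  exact hj hi

private theorem mo_cosh (I : Finset ℕ) (a : ℕ → ℝ) :
    avgOn I (fun ε => Real.cosh (∑ i ∈ I, ε i * a i)) = ∏ i ∈ I, Real.cosh (a i) := by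
  induction I using Finset.induction_on with
  | empty => simp [avgOn]
  | insert j I hj ih =>
    rw [avgOn_insert I j hj]
    have h1 : avgOn I (fun ε => Real.cosh (∑ i ∈ insert j I, ε i * a i))
        = avgOn I (fun ε => Real.cosh ((∑ i ∈ I, ε i * a i) - a j)) :=
      mo_congr fun T hT => by rw [mo_ins hj hT]
    have h2 : avgOn I (fun ε => Real.cosh (∑ i ∈ insert j I, (if i = j then 1 else ε i) * a i))
        = avgOn I (fun ε => Real.cosh ((∑ i ∈ I, ε i * a i) + a j)) :=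
      mo_congr fun T _ => by rw [mo_ins' hj]
    rw [h1, h2, ← mo_add]
    have h3 : avgOn I (fun ε => Real.cosh ((∑ i ∈ I, ε i * a i) - a j)
        + Real.cosh ((∑ i ∈ I, ε i * a i) + a j))
        = avgOn I (fun ε => (2 * Real.cosh (a j)) * Real.cosh (∑ i ∈ I, ε i * a i)) :=
      mo_congr fun T _ => by rw [Real.cosh_sub, Real.cosh_add]; ring
    rw [h3, mo_mul, ih, Finset.prod_insert hj]
    ring

private theorem mo_pow_le (x : ℝ) (q : ℕ) :
    x ^ (2 * q) ≤ (2 * q).factorial * Real.cosh x := by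
  have h := Real.hasSum_cosh x
  have h1 : x ^ (2 * q) / ((2 * q).factorial : ℝ) ≤ Real.cosh x :=
    le_hasSum h q fun n _ => div_nonneg ((even_two_mul n).pow_nonneg x) (Nat.cast_nonneg _)
  have h2 : (0 : ℝ) < ((2 * q).factorial : ℝ) := by exact_mod_cast Nat.factorial_pos _
  rw [div_le_iff₀ h2] at h1
  linarith

private theorem mo_nonneg (I : Finset ℕ) (a : ℕ → ℝ) : 0 ≤ nsq I a :=
  Finset.sum_nonneg fun _ _ => sq_nonneg _

private theorem mo_one (q : ℕ) (I : Finset ℕ) (a : ℕ → ℝ) (h1 : nsq I a = 1) :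
    avgOn I (fun ε => (∑ i ∈ I, ε i * a i) ^ (2 * q)) ≤ 2 * (2 * q).factorial := by
  have h2 : avgOn I (fun ε => (∑ i ∈ I, ε i * a i) ^ (2 * q)) ≤
      (2 * q).factorial * avgOn I (fun ε => Real.cosh (∑ i ∈ I, ε i * a i)) := by
    rw [← mo_mul]
    exact mo_mono fun ε => mo_pow_le _ q
  rw [mo_cosh] at h2
  have h3 : ∏ i ∈ I, Real.cosh (a i) ≤ Real.exp (1 / 2) := by
    calc ∏ i ∈ I, Real.cosh (a i) ≤ ∏ i ∈ I, Real.exp (a i ^ 2 / 2) :=
          Finset.prod_le_prod (fun i _ => (Real.cosh_pos _).le)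
            fun i _ => Real.cosh_le_exp_half_sq _
      _ = Real.exp (∑ i ∈ I, a i ^ 2 / 2) := (Real.exp_sum _ _).symm
      _ = Real.exp (1 / 2) := by
          rw [← Finset.sum_div]
          unfold nsq at h1
          rw [h1]
  have h4 : Real.exp (1 / 2) ≤ 2 := by
    have h5 : Real.exp (1 / 2) ^ 2 = Real.exp 1 := by
      rw [← Real.exp_nat_mul]
      norm_num
    have h6 := Real.exp_one_lt_d9
    nlinarith [Real.exp_pos (1 / 2 : ℝ)]
  have h5 : (0 : ℝ) ≤ ((2 * q).factorial : ℝ) := Nat.cast_nonneg _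
  nlinarith

theorem mom (q : ℕ) (I : Finset ℕ) (a : ℕ → ℝ) :
    avgOn I (fun ε => (∑ i ∈ I, ε i * a i) ^ (2 * q)) ≤ 2 * (2 * q).factorial * nsq I a ^ q := by
  rcases (mo_nonneg I a).eq_or_lt with h0 | h0
  · have ha : ∀ i ∈ I, a i = 0 := by
      intro i hi
      have h1 := (Finset.sum_eq_zero_iff_of_nonneg (fun i _ => sq_nonneg (a i))).1
        (show ∑ i ∈ I, a i ^ 2 = 0 from h0.symm) i hi
      exact pow_eq_zero_iff (two_ne_zero) |>.1 h1
    have h2 : avgOn I (fun ε => (∑ i ∈ I, ε i * a i) ^ (2 * q)) =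
        avgOn I (fun _ => (0 : ℝ) ^ (2 * q)) :=
      mo_congr fun T _ => by
        rw [Finset.sum_eq_zero fun i hi => by rw [ha i hi, mul_zero]]
    rw [h2, mo_const, ← h0]
    rcases Nat.eq_zero_or_pos q with hq | hq
    · subst hq
      norm_num
    · rw [zero_pow (by omega), zero_pow (by omega), mul_zero]
  · set σ := Real.sqrt (nsq I a) with hσ
    have hσ0 : 0 < σ := Real.sqrt_pos.2 h0
    have hσ2 : σ ^ 2 = nsq I a := Real.sq_sqrt h0.le
    have h1 : nsq I (fun i => a i / σ) = 1 := by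
      have h2 : nsq I (fun i => a i / σ) = nsq I a / σ ^ 2 := by
        unfold nsq
        rw [Finset.sum_div]
        exact Finset.sum_congr rfl fun i _ => div_pow _ _ _
      rw [h2, hσ2, div_self h0.ne']
    have h2 := mo_one q I (fun i => a i / σ) h1
    have h3 : avgOn I (fun ε => (∑ i ∈ I, ε i * a i) ^ (2 * q)) =
        σ ^ (2 * q) * avgOn I (fun ε => (∑ i ∈ I, ε i * (a i / σ)) ^ (2 * q)) := by
      rw [← mo_mul]
      refine mo_congr fun T _ => ?_
      rw [← mul_pow]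
      congr 1
      rw [Finset.mul_sum]
      refine Finset.sum_congr rfl fun i _ => ?_
      field_simp
    rw [h3, pow_mul, hσ2]
    have h4 : 0 ≤ nsq I a ^ q := pow_nonneg h0.le q
    calc nsq I a ^ q * avgOn I (fun ε => (∑ i ∈ I, ε i * (a i / σ)) ^ (2 * q))
        ≤ nsq I a ^ q * (2 * (2 * q).factorial) := mul_le_mul_of_nonneg_left h2 h4
      _ = 2 * (2 * q).factorial * nsq I a ^ q := by ring

end Pool.Agent.Helper60.CR
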