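import Pool.Agent.Helper60.CR.Basic

/-! CR-44 (mx_eq, mx_lat, mx_pieces). The mixed norm `ℓ_p(ℓ_2^(2^k))`.
PROOF. `i ∈ blk k ↔ bk i = k` (`Nat.log` and powers of two). mx_eq: for `k ∉ a.support.image bk` the sum of squares over `blk k` is `0` (`Bs_subset`). mx_lat: `add` by `mx_eq` with a common finite set `K`, Minkowski in `ℓ_2` on every block
(`sqrt (∑ (x+y)^2) ≤ sqrt (∑ x^2) + sqrt (∑ y^2)`, for instance `Real.Lp_add_le` with `p = 2` or the norm of `EuclideanSpace`) and in `ℓ_p` on `K` (`Real.Lp_add_le`), `Bs_mono`; `smul` by `Bs_smul`; `mono` by `Bs_mono`; `one`: one block, `Bs_singleton`.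
mx_pieces: given `n, N0` choose `k` with `n ≤ 2^k` and `N0 ≤ 2^k - 1` and let `P = {single (2^k - 1 + l) 1 | l < n}`: all in `blk k`, so `Mx p (∑ y ∈ P, t y • y) = sqrt (∑ t y ^ 2) = Bs 2 P t` (`Real.sqrt_eq_rpow`, `Real.rpow_two`/`rpow_natCast`). -/

set_option autoImplicit false

namespace Pool.Agent.Helper60.CR

open Finset

theorem mem_blk (i k : ℕ) : i ∈ blk k ↔ bk i = k := by
  unfold blk bk
  rw [Finset.mem_Ico, Nat.log_eq_iff (Or.inr ⟨one_lt_two, by omega⟩)]
  have h1 : 0 < 2 ^ k := by positivity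
  have h2 : 0 < 2 ^ (k + 1) := by positivity
  omega

theorem mx_eq (p : ℝ) (hp : 1 ≤ p) (a : F0) (K : Finset ℕ) (hK : ∀ i ∈ a.support, bk i ∈ K) :
    Mx p a = Bs p K (fun k => Real.sqrt (∑ i ∈ blk k, a i ^ 2)) := by
  unfold Mx
  apply Bs_subset hp
  · intro k hk
    obtain ⟨i, hi, rfl⟩ := Finset.mem_image.1 hk
    exact hK i hi
  · intro k _ hk
    rw [Finset.sum_eq_zero, Real.sqrt_zero]
    intro i hi
    have h1 : a i = 0 := by
      by_contra hne
      exact hk (Finset.mem_image.2 ⟨i, Finsupp.mem_support_iff.2 hne, (mem_blk i k).1 hi⟩)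
    rw [h1]
    ring

private theorem mxb_mink2 (s : Finset ℕ) (a b : ℕ → ℝ) :
    Real.sqrt (∑ i ∈ s, (a i + b i) ^ 2) ≤
      Real.sqrt (∑ i ∈ s, a i ^ 2) + Real.sqrt (∑ i ∈ s, b i ^ 2) := by
  have h1 := Real.Lp_add_le s a b (p := 2) one_le_two
  simp only [Real.rpow_two, sq_abs, ← Real.sqrt_eq_rpow] at h1
  exact h1

private theorem mxb_minkp (p : ℝ) (hp : 1 ≤ p) (K : Finset ℕ) (f g : ℕ → ℝ) :
    Bs p K (fun k => f k + g k) ≤ Bs p K f + Bs p K g :=
  Real.Lp_add_le K f g hp

theorem mx_lat (p : ℝ) (hp : 1 ≤ p) : Lat (Mx p) := by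
  classical
  refine ⟨fun a b => ?_, fun t a => ?_, fun a b hab => ?_, fun i => ?_⟩
  · set K := (a.support ∪ b.support).image bk with hK
    have ha : ∀ i ∈ a.support, bk i ∈ K := fun i hi =>
      Finset.mem_image_of_mem _ (Finset.mem_union_left _ hi)
    have hb : ∀ i ∈ b.support, bk i ∈ K := fun i hi =>
      Finset.mem_image_of_mem _ (Finset.mem_union_right _ hi)
    have hab : ∀ i ∈ (a + b).support, bk i ∈ K := fun i hi =>
      Finset.mem_image_of_mem _ (Finsupp.support_add hi)
    rw [mx_eq p hp a K ha, mx_eq p hp b K hb, mx_eq p hp (a + b) K hab]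
    refine (Bs_mono hp fun k _ => ?_).trans (mxb_minkp p hp K _ _)
    rw [abs_of_nonneg (Real.sqrt_nonneg _),
      abs_of_nonneg (add_nonneg (Real.sqrt_nonneg _) (Real.sqrt_nonneg _))]
    exact mxb_mink2 (blk k) a b
  · have ha : ∀ i ∈ a.support, bk i ∈ a.support.image bk := fun i hi =>
      Finset.mem_image_of_mem _ hi
    have hta : ∀ i ∈ (t • a).support, bk i ∈ a.support.image bk := fun i hi =>
      ha i (Finsupp.support_smul hi)
    rw [mx_eq p hp a _ ha, mx_eq p hp (t • a) _ hta, ← Bs_smul hp]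
    refine Bs_congr fun k _ => ?_
    have h1 : ∑ i ∈ blk k, (t • a) i ^ 2 = t ^ 2 * ∑ i ∈ blk k, a i ^ 2 := by
      rw [Finset.mul_sum]
      refine Finset.sum_congr rfl fun i _ => ?_
      rw [Finsupp.smul_apply, smul_eq_mul, mul_pow]
    rw [h1, Real.sqrt_mul (sq_nonneg t), Real.sqrt_sq_eq_abs, abs_mul, abs_mul, abs_abs]
  · have hb : ∀ i ∈ b.support, bk i ∈ b.support.image bk := fun i hi =>
      Finset.mem_image_of_mem _ hi
    have ha : ∀ i ∈ a.support, bk i ∈ b.support.image bk := by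
      intro i hi
      apply hb
      rw [Finsupp.mem_support_iff] at hi ⊢
      intro h0
      have h1 := hab i
      rw [h0, abs_zero] at h1
      exact hi (abs_eq_zero.1 (le_antisymm h1 (abs_nonneg _)))
    rw [mx_eq p hp a _ ha, mx_eq p hp b _ hb]
    refine Bs_mono hp fun k _ => ?_
    rw [abs_of_nonneg (Real.sqrt_nonneg _), abs_of_nonneg (Real.sqrt_nonneg _)]
    apply Real.sqrt_le_sqrt
    exact Finset.sum_le_sum fun i _ => sq_le_sq.2 (hab i)
  · have h1 : ∀ j ∈ (Finsupp.single i (1 : ℝ) : F0).support, bk j ∈ ({bk i} : Finset ℕ) := by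
      intro j hj
      have h2 := Finsupp.support_single_subset hj
      rw [Finset.mem_singleton] at h2 ⊢
      rw [h2]
    rw [mx_eq p hp _ _ h1, Bs_singleton hp, Finset.sum_eq_single_of_mem i ((mem_blk _ _).2 rfl)]
    · simp
    · intro j _ hj
      rw [Finsupp.single_eq_of_ne hj]
      ring

theorem mx_pieces (p : ℝ) (hp : 1 ≤ p) : HasPieces (Mx p) 2 1 := by
  classical
  intro n N0
  set k := n + N0 + 1 with hk
  have hk1 : n + N0 + 1 < 2 ^ k := by
    rw [hk]
    exact Nat.lt_two_pow_self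
  set φ : ℕ → ℕ := fun l => 2 ^ k - 1 + l with hφ
  have hφi : Function.Injective φ := fun x y h => by
    simp only [hφ] at h
    omega
  set u : ℕ → F0 := fun l => Finsupp.single (φ l) 1 with hu
  have hui : Function.Injective u := fun x y h =>
    hφi (Finsupp.single_left_injective one_ne_zero h)
  have hblk : ∀ l ∈ range n, φ l ∈ blk k := by
    intro l hl
    have h1 := Finset.mem_range.1 hl
    have h2 : 2 ^ (k + 1) = 2 * 2 ^ k := by ring
    unfold blk
    rw [Finset.mem_Ico]
    change 2 ^ k - 1 ≤ 2 ^ k - 1 + l ∧ 2 ^ k - 1 + l < 2 ^ (k + 1) - 1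
    rw [h2]
    omega
  have hmain : ∀ t : F0 → ℝ, Mx p (∑ y ∈ (range n).image u, t y • y) =
      Bs 2 ((range n).image u) t := by
    intro t
    rw [Bs_image _ _ hui.injOn, Finset.sum_image hui.injOn]
    set S : F0 := ∑ l ∈ range n, t (u l) • u l with hS
    have hSφ : ∀ j ∈ range n, S (φ j) = t (u j) := by
      intro j hj
      rw [hS, Finsupp.finsetSum_apply, Finset.sum_eq_single_of_mem j hj]
      · rw [Finsupp.smul_apply, hu]
        simp
      · intro l _ hlj
        rw [Finsupp.smul_apply, hu]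
        simp only
        rw [Finsupp.single_eq_of_ne (fun h => hlj (hφi h.symm)), smul_zero]
    have hS0 : ∀ i, i ∉ (range n).image φ → S i = 0 := by
      intro i hi
      rw [hS, Finsupp.finsetSum_apply]
      refine Finset.sum_eq_zero fun l hl => ?_
      rw [Finsupp.smul_apply, hu]
      simp only
      rw [Finsupp.single_eq_of_ne, smul_zero]
      rintro rfl
      exact hi (Finset.mem_image_of_mem _ hl)
    have hsub : (range n).image φ ⊆ blk k := by
      intro i hi
      obtain ⟨l, hl, rfl⟩ := Finset.mem_image.1 hi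
      exact hblk l hl
    have h1 : ∀ i ∈ S.support, bk i ∈ ({k} : Finset ℕ) := by
      intro i hi
      rw [Finset.mem_singleton, ← mem_blk]
      apply hsub
      by_contra hcon
      exact (Finsupp.mem_support_iff.1 hi) (hS0 i hcon)
    rw [mx_eq p hp S {k} h1, Bs_singleton hp, abs_of_nonneg (Real.sqrt_nonneg _)]
    unfold Bs
    rw [Real.sqrt_eq_rpow]
    congr 1
    rw [← Finset.sum_subset hsub (fun i _ hi => by rw [hS0 i hi]; ring),
      Finset.sum_image hφi.injOn]
    refine Finset.sum_congr rfl fun l hl => ?_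
    rw [hSφ l hl, Real.rpow_two, sq_abs]
  refine ⟨(range n).image u, ?_, ?_, ?_, fun t => (hmain t).le, fun t => ?_⟩
  · rw [Finset.card_image_of_injective _ hui, Finset.card_range]
  · intro y hy i hi
    obtain ⟨l, -, rfl⟩ := Finset.mem_image.1 hy
    have h2 := Finsupp.support_single_subset hi
    rw [Finset.mem_singleton] at h2
    rw [h2]
    change N0 ≤ 2 ^ k - 1 + l
    omega
  · intro y hy y' hy' hne
    obtain ⟨l, -, rfl⟩ := Finset.mem_image.1 hy
    obtain ⟨l', -, rfl⟩ := Finset.mem_image.1 hy'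
    rw [Finset.disjoint_left]
    intro i hi hi'
    have h2 := Finsupp.support_single_subset hi
    have h3 := Finsupp.support_single_subset hi'
    rw [Finset.mem_singleton] at h2 h3
    exact hne (congrArg u (hφi (h2.symm.trans h3)))
  · rw [one_mul]
    exact (hmain t).ge

end Pool.Agent.Helper60.CR
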