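import Pool.Agent.Helper60.CR.Basic

/-! CR-22 (norming). A positive norming functional on the span of finitely many disjoint vectors.
PROOF. `P a = N (∑ j ∈ range m, a j • v j)` is a seminorm on `ℕ → ℝ` (sublinear). Hahn-Banach (`exists_extension_of_le_sublinear` for the functional `r • t ↦ r * P t` on the line spanned by `t`; `r * P t ≤ P (r • t)`;
if `t = 0` or `P t = 0` take `s = 0`): a linear `φ` with `φ a ≤ P a` and `φ t = P t`. Let `s j = |φ (Pi.single j 1)|` for `j < m`, else `0`. For `a` let `a' = ∑_{j < m} σ_j |a j| e_j` with `σ_j` the sign of `φ (e_j)`: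
`∑_{j<m} s j |a j| = φ a' ≤ P a' = P a` (`Lat.sum_mono`, disjoint supports). And `P t = φ t = φ (t cut off to j < m) + φ (rest)`, `φ (rest) ≤ P (rest) = 0` (and the same for `-rest`), so
`P t = ∑_{j<m} t j φ (e_j) ≤ ∑ s j t j`. -/

set_option autoImplicit false

namespace Pool.Agent.Helper60.CR

open Finset

theorem norming (N : F0 → ℝ) (hN : Lat N) (m : ℕ) (v : ℕ → F0)
    (hd : ∀ j < m, ∀ j' < m, j ≠ j' → Disjoint (v j).support (v j').support)
    (t : ℕ → ℝ) (ht : ∀ j, 0 ≤ t j) :
    ∃ s : ℕ → ℝ, (∀ j, 0 ≤ s j) ∧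
      (∀ a : ℕ → ℝ, ∑ j ∈ range m, s j * |a j| ≤ N (∑ j ∈ range m, a j • v j)) ∧
      N (∑ j ∈ range m, t j • v j) ≤ ∑ j ∈ range m, s j * t j := by
  classical
  set P : (ℕ → ℝ) → ℝ := fun a => N (∑ j ∈ range m, a j • v j) with hP
  have hd' : ∀ x ∈ range m, ∀ y ∈ range m, x ≠ y → Disjoint (v x).support (v y).support :=
    fun x hx y hy hxy => hd x (mem_range.1 hx) y (mem_range.1 hy) hxy
  have hhom : ∀ (c : ℝ) (x : ℕ → ℝ), P (c • x) = |c| * P x := by
    intro c x
    simp only [hP]
    rw [← hN.smul, Finset.smul_sum]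
    congr 1
    refine Finset.sum_congr rfl fun j _ => ?_
    rw [Pi.smul_apply, smul_eq_mul, mul_smul]
  have hadd : ∀ x y : ℕ → ℝ, P (x + y) ≤ P x + P y := by
    intro x y
    simp only [hP]
    refine le_trans (le_of_eq ?_) (hN.add _ _)
    congr 1
    rw [← Finset.sum_add_distrib]
    refine Finset.sum_congr rfl fun j _ => ?_
    rw [Pi.add_apply, add_smul]
  have hnn : ∀ x, 0 ≤ P x := fun x => hN.nonneg _
  have hP0 : P 0 = 0 := by
    have := hhom 0 0
    simpa using this
  by_cases hPt : P t = 0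
  · refine ⟨fun _ => 0, fun _ => le_rfl, fun a => ?_, ?_⟩
    · simp only [zero_mul, Finset.sum_const_zero]
      exact hN.nonneg _
    · simp only [zero_mul, Finset.sum_const_zero]
      exact hPt.le
  have ht0 : t ≠ 0 := fun h => hPt (by rw [h, hP0])
  obtain ⟨φ, hφ1, hφ2⟩ := exists_extension_of_le_sublinear
    (LinearPMap.mkSpanSingleton (σ := RingHom.id ℝ) t (P t) ht0) P
    (fun c hc x => by rw [hhom, abs_of_pos hc]) hadd (by
      rintro ⟨x, hx⟩
      obtain ⟨c, rfl⟩ := Submodule.mem_span_singleton.1 hx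
      rw [LinearPMap.mkSpanSingleton'_apply]
      change c • P t ≤ P (c • t)
      rw [hhom, smul_eq_mul]
      exact mul_le_mul_of_nonneg_right (le_abs_self c) (hnn t))
  have hφt : φ t = P t := by
    have h1 := hφ1 ⟨t, Submodule.mem_span_singleton_self t⟩
    have h2 : (LinearPMap.mkSpanSingleton (σ := RingHom.id ℝ) t (P t) ht0)
        ⟨t, Submodule.mem_span_singleton_self t⟩ = P t :=
      LinearPMap.mkSpanSingleton'_apply_self _ _ _ _
    rw [h2] at h1
    exact h1
  set u : ℕ → ℝ := fun j => φ (Pi.single j 1) with hu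
  let cut : (ℕ → ℝ) → (ℕ → ℝ) := fun b => ∑ j ∈ range m, b j • (Pi.single j (1 : ℝ) : ℕ → ℝ)
  have hcut : ∀ b k, k ∈ range m → cut b k = b k := by
    intro b k hk
    simp only [cut, Finset.sum_apply, Pi.smul_apply, smul_eq_mul]
    rw [Finset.sum_eq_single_of_mem k hk]
    · simp
    · intro j _ hj
      rw [Pi.single_eq_of_ne (Ne.symm hj), mul_zero]
  have hφcut : ∀ b, φ (cut b) = ∑ j ∈ range m, b j * u j := by
    intro b
    simp only [cut, map_sum, map_smul, smul_eq_mul, hu]
  have hPcut : ∀ b, P (cut b) = P b := by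
    intro b
    simp only [hP]
    congr 1
    exact Finset.sum_congr rfl fun j hj => by rw [hcut b j hj]
  refine ⟨fun j => |u j|, fun j => abs_nonneg _, fun a => ?_, ?_⟩
  · -- upper bound
    have h1 := hφ2 (cut (fun j => (SignType.sign (u j) : ℝ) * |a j|))
    rw [hφcut, hPcut] at h1
    have h2 : ∑ j ∈ range m, (SignType.sign (u j) : ℝ) * |a j| * u j =
        ∑ j ∈ range m, |u j| * |a j| := by
      refine Finset.sum_congr rfl fun j _ => ?_
      have h3 : (SignType.sign (u j) : ℝ) * u j = |u j| := sign_mul_self (u j)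
      rw [← h3]
      ring
    rw [h2] at h1
    refine h1.trans ?_
    refine hN.sum_mono (range m) v hd' _ _ fun x _ => ?_
    rw [abs_mul, abs_abs]
    have h4 : |(SignType.sign (u x) : ℝ)| ≤ 1 := by
      rcases lt_trichotomy (u x) 0 with h5 | h5 | h5
      · simp [sign_neg h5]
      · simp [h5]
      · simp [sign_pos h5]
    exact mul_le_of_le_one_left (abs_nonneg _) h4
  · have h1 : P t = φ (cut t) + φ (t - cut t) := by
      rw [← map_add, add_sub_cancel, hφt]
    have h2 : P (t - cut t) = 0 := by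
      simp only [hP]
      rw [Finset.sum_eq_zero, hN.zero]
      intro j hj
      rw [Pi.sub_apply, hcut t j hj, sub_self, zero_smul]
    have h3 := hφ2 (t - cut t)
    rw [h2] at h3
    have h4 : ∑ j ∈ range m, t j * u j ≤ ∑ j ∈ range m, |u j| * t j :=
      Finset.sum_le_sum fun j _ => by
        rw [mul_comm]
        exact mul_le_mul_of_nonneg_right (le_abs_self _) (ht j)
    change P t ≤ _
    rw [h1, hφcut]
    linarith

end Pool.Agent.Helper60.CR
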