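import Pool.Agent.Helper60.CR.LA

/-! CR-21 (select). Choice of a colour.
PROOF. For `l ∈ L` apply `la` to `α l, β l`: `c l`, `y l` with `|xi (mu l) b (y l)| ≤ |xi (mu l) b (α l (kx lam (c l)))|` and `g / 1000 * |a l| ≤ |xi lam (c l) (β l (y l))|`, `a l = (β l (α l (1,0))).1`.
`∑ |a l| ≥ 1/2`, so for some `c` the sum of `|a l|` over the `l` with `c l = c` is at least `1/8`. Put `z l = σ l • y l` if `c l = c`, else `0`, where `σ l = 1` or `-1` is such that
`xi lam c (β l (z l)) = |xi lam c (β l (y l))|`. `xi lam c` is linear, so `xi lam c (∑ β l (z l)) = ∑_{c l = c} |xi lam c (β l (y l))| ≥ g / 1000 * 1/8`. -/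

set_option autoImplicit false

namespace Pool.Agent.Helper60.CR

open Finset

theorem select_xi_add (lam : ℝ) (c : Fin 4) (z w : ℝ × ℝ) :
    xi lam c (z + w) = xi lam c z + xi lam c w := by
  fin_cases c <;> simp [xi] <;> ring

theorem select_xi_smul (lam : ℝ) (c : Fin 4) (t : ℝ) (z : ℝ × ℝ) :
    xi lam c (t • z) = t * xi lam c z := by
  fin_cases c <;> simp [xi] <;> ring

theorem select_xi_zero (lam : ℝ) (c : Fin 4) : xi lam c 0 = 0 := by
  have := select_xi_smul lam c 0 0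
  rwa [zero_smul, zero_mul] at this

theorem select_xi_sum {κ : Type} (lam : ℝ) (c : Fin 4) (L : Finset κ) (w : κ → ℝ × ℝ) :
    xi lam c (∑ l ∈ L, w l) = ∑ l ∈ L, xi lam c (w l) := by
  classical
  induction L using Finset.induction_on with
  | empty => rw [Finset.sum_empty, Finset.sum_empty, select_xi_zero]
  | insert a s ha ih => rw [Finset.sum_insert ha, Finset.sum_insert ha, select_xi_add, ih]

theorem select {κ : Type} (L : Finset κ) (mu : κ → ℝ) (lam g : ℝ) (hl : 5 / 2 ≤ lam) (hl' : lam ≤ 3)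
    (hmu : ∀ l ∈ L, 5 / 2 ≤ mu l ∧ mu l ≤ 3 ∧ g ≤ |lam - mu l|) (hg : 0 < g)
    (α β : κ → (ℝ × ℝ →ₗ[ℝ] ℝ × ℝ)) (h : 1 / 2 ≤ ∑ l ∈ L, (β l (α l (1, 0))).1) :
    ∃ (c : Fin 4) (z : κ → ℝ × ℝ),
      (∀ l ∈ L, ∀ b, |xi (mu l) b (z l)| ≤ |xi (mu l) b (α l (kx lam c))|) ∧
      g / 8000 ≤ xi lam c (∑ l ∈ L, β l (z l)) := by
  classical
  have hex : ∀ l, ∃ (c : Fin 4) (y : ℝ × ℝ), l ∈ L →
      (∀ b, |xi (mu l) b y| ≤ |xi (mu l) b (α l (kx lam c))|) ∧
      g / 1000 * |(β l (α l (1, 0))).1| ≤ |xi lam c (β l y)| := by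
    intro l
    by_cases hlL : l ∈ L
    · obtain ⟨h1, h2, h3⟩ := hmu l hlL
      obtain ⟨c, y, h4, h5⟩ := la lam (mu l) g hl hl' h1 h2 hg h3 (α l) (β l)
      exact ⟨c, y, fun _ => ⟨h4, h5⟩⟩
    · exact ⟨0, 0, fun h => absurd h hlL⟩
  choose cl y hcy using hex
  set a : κ → ℝ := fun l => |(β l (α l (1, 0))).1| with ha
  have h1 : 1 / 2 ≤ ∑ l ∈ L, a l := h.trans (Finset.sum_le_sum fun l _ => le_abs_self _)
  have h2 : ∑ c : Fin 4, ∑ l ∈ L.filter (fun l => cl l = c), a l = ∑ l ∈ L, a l :=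
    Finset.sum_fiberwise L cl a
  obtain ⟨c, hc⟩ : ∃ c : Fin 4, 1 / 8 ≤ ∑ l ∈ L.filter (fun l => cl l = c), a l := by
    by_contra hcon
    push Not at hcon
    have h3 : ∑ c : Fin 4, ∑ l ∈ L.filter (fun l => cl l = c), a l < ∑ _c : Fin 4, (1 / 8 : ℝ) :=
      Finset.sum_lt_sum_of_nonempty Finset.univ_nonempty fun c _ => hcon c
    rw [h2, Finset.sum_const, Finset.card_univ, Fintype.card_fin] at h3
    norm_num at h3
    linarith
  let σ : κ → ℝ := fun l => if 0 ≤ xi lam c (β l (y l)) then 1 else -1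
  have hσ : ∀ l, |σ l| = 1 := by
    intro l
    simp only [σ]
    split_ifs <;> simp
  have hσ2 : ∀ l, σ l * xi lam c (β l (y l)) = |xi lam c (β l (y l))| := by
    intro l
    simp only [σ]
    split_ifs with h0
    · rw [one_mul, abs_of_nonneg h0]
    · rw [abs_of_neg (lt_of_not_ge h0)]
      ring
  refine ⟨c, fun l => if cl l = c then σ l • y l else 0, ?_, ?_⟩
  · intro l hlL b
    by_cases hlc : cl l = c
    · simp only [hlc, if_true]
      rw [select_xi_smul, abs_mul, hσ, one_mul]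
      have := (hcy l hlL).1 b
      rwa [hlc] at this
    · simp only [hlc, if_false]
      rw [select_xi_zero, abs_zero]
      exact abs_nonneg _
  · rw [select_xi_sum]
    have h3 : ∑ l ∈ L, xi lam c (β l (if cl l = c then σ l • y l else 0)) =
        ∑ l ∈ L.filter (fun l => cl l = c), |xi lam c (β l (y l))| := by
      rw [Finset.sum_filter]
      refine Finset.sum_congr rfl fun l _ => ?_
      split_ifs with hlc
      · rw [map_smul, select_xi_smul, hσ2]
      · rw [map_zero, select_xi_zero]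
    rw [h3]
    calc g / 8000 = g / 1000 * (1 / 8) := by ring
      _ ≤ g / 1000 * ∑ l ∈ L.filter (fun l => cl l = c), a l :=
          mul_le_mul_of_nonneg_left hc (by positivity)
      _ = ∑ l ∈ L.filter (fun l => cl l = c), g / 1000 * a l := Finset.mul_sum _ _ _
      _ ≤ _ := by
          refine Finset.sum_le_sum fun l hl2 => ?_
          obtain ⟨hlL, hlc⟩ := Finset.mem_filter.1 hl2
          have := (hcy l hlL).2
          rwa [hlc] at this

end Pool.Agent.Helper60.CR
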