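import Pool.Agent.Helper60.CR.CM
import Pool.Agent.Helper60.CR.Select
import Pool.Agent.Helper60.CR.Norming

/-! CR-27 (nofac). The identity of a gadget does not factor through planes with other cross ratios.
PROOF. `R = 72000 * CM` with `CM` from `cm`. Let `α, β` be as in `Fac`. For `j < m` `select` (with `α · j`, `β j ·`) gives a colour `χ j` and `z j : κ → ℝ × ℝ` with
(1) `|xi (mu l) b (z j l)| ≤ |xi (mu l) b (α l j (kx lam (χ j)))|`, (2) `g / 8000 ≤ xi lam (χ j) (∑ l, β j l (z j l))`. (`χ j = 0` for `j ≥ m`.) `Star` with `χ`: `c`, `t ≥ 0`, `t j ≠ 0 → j < m ∧ χ j = c`,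
`N (∑ t j • f j b) < δ * v` for `b ≠ c`, `v = N (∑ j ∈ range m, t j • f j c)`; so `δ * v > 0`. As `v ≥ 0` also `v > 0`. `norming` for the vectors `f j c`: `s ≥ 0`, `v ≤ ∑ s j t j`, `∑ s j |a j| ≤ N (∑ a j • f j c)`.
For signs `ε` let `Z ε l = ∑ j ∈ range m, (ε j * t j) • z j l` and `W ε k = ∑ l, β k l (Z ε l)`. Sign averaging (`avgOn (range m)` of `ε k * ε j` is `1` if `k = j`, else `0`):
`t k * xi lam c (∑ l, β k l (z k l)) = avgOn (ε k * xi lam c (W ε k))`. Hence
`g / 8000 * v ≤ ∑ s k t k (g/8000) ≤ ∑_k s k t k xi lam c (∑ l, β k l (z k l))` (if `t k ≠ 0` then `χ k = c`) `= avg ∑_k s k ε k xi lam c (W ε k) ≤ avg ∑_k s k |xi lam c (W ε k)| ≤ avg N (∑_k xi lam c (W ε k) • f k c)`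
`≤ avg N (∑_k vec lam (f k) (W ε k))` (lattice norm; the components of `vec` are disjointly supported, see `vec`) `≤ K avg N (∑_l vec (mu l) (h l) (Z ε l)) = K avg N (∑_j ε j • (t j • Y j))` with `Y j = ∑_l vec (mu l) (h l) (z j l)`
(`vec` is linear in `z`). By (1) and disjointness of the `h l b`: `|Y j i| ≤ |B j i|`, `B j = ∑_l vec (mu l) (h l) (α l j (kx lam (χ j)))` (at a coordinate `i` at most one `(l, b)` contributes). `cm` for `t j • Y j`, `t j • B j`:
`≤ K CM avg N (∑_j ε j • (t j • B j)) = K CM avg N (∑_j ∑_l vec (mu l) (h l) (α l j (x j)))` with `x j = (ε j * t j) • kx lam (χ j)`, `≤ K^2 CM avg N (∑_j vec lam (f j) (x j))`. As `t j ≠ 0 → χ j = c`: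
`∑_j vec lam (f j) (x j) = ∑_b xi lam b (kx lam c) • ∑_j (ε j * t j) • f j b`, `xi lam c (kx lam c) = 0`, `|xi lam b (kx lam c)| ≤ 3`, and `N (∑_j (ε j * t j) • f j b) = N (∑ t j • f j b) ≤ δ v` for `b ≠ c` (`Lat.sum_mono`).
So the norm is at most `9 δ v`, and `g / 8000 * v ≤ 9 CM K^2 δ v`. -/

set_option autoImplicit false

namespace Pool.Agent.Helper60.CR

open Finset
open Pool.Agent.Helper52.CS (avgOn sgn nsq avgOn_insert khin)

private theorem nf_xi_add (lam : ℝ) (c : Fin 4) (z w : ℝ × ℝ) :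
    xi lam c (z + w) = xi lam c z + xi lam c w := by
  unfold xi
  fin_cases c <;> simp <;> ring

private theorem nf_xi_smul (lam : ℝ) (c : Fin 4) (a : ℝ) (z : ℝ × ℝ) :
    xi lam c (a • z) = a * xi lam c z := by
  unfold xi
  fin_cases c <;> simp <;> ring

private theorem nf_xi_zero (lam : ℝ) (c : Fin 4) : xi lam c 0 = 0 := by
  have h := nf_xi_smul lam c 0 0
  rwa [zero_smul, zero_mul] at h

private theorem nf_xi_sum {ι : Type*} (lam : ℝ) (c : Fin 4) (s : Finset ι) (w : ι → ℝ × ℝ) :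
    xi lam c (∑ j ∈ s, w j) = ∑ j ∈ s, xi lam c (w j) := by
  classical
  induction s using Finset.induction_on with
  | empty => rw [Finset.sum_empty, Finset.sum_empty, nf_xi_zero]
  | insert a s ha ih => rw [Finset.sum_insert ha, Finset.sum_insert ha, nf_xi_add, ih]

private theorem nf_vec_smul (lam : ℝ) (f : Fin 4 → F0) (a : ℝ) (z : ℝ × ℝ) :
    vec lam f (a • z) = a • vec lam f z := by
  unfold vec
  rw [Finset.smul_sum]
  exact Finset.sum_congr rfl fun c _ => by rw [nf_xi_smul, mul_smul]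

private theorem nf_vec_sum {ι : Type*} (lam : ℝ) (f : Fin 4 → F0) (s : Finset ι)
    (w : ι → ℝ × ℝ) : vec lam f (∑ j ∈ s, w j) = ∑ j ∈ s, vec lam f (w j) := by
  unfold vec
  rw [Finset.sum_comm]
  exact Finset.sum_congr rfl fun c _ => by rw [nf_xi_sum, Finset.sum_smul]

private theorem nf_avg (I : Finset ℕ) (k : ℕ) (hk : k ∈ I) (a : ℕ → ℝ) :
    avgOn I (fun ε => ε k * ∑ j ∈ I, ε j * a j) = a k := by
  have h1 := Pool.Agent.Helper52.CS.avgOn_sq I (fun i => a i + if i = k then 1 else 0)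
  have h2 := Pool.Agent.Helper52.CS.avgOn_sq I (fun i => a i - if i = k then 1 else 0)
  have e1 : ∀ ε : ℕ → ℝ, ∑ i ∈ I, ε i * (a i + if i = k then 1 else 0) =
      (∑ i ∈ I, ε i * a i) + ε k := by
    intro ε
    simp_rw [mul_add, Finset.sum_add_distrib]
    simp [hk]
  have e2 : ∀ ε : ℕ → ℝ, ∑ i ∈ I, ε i * (a i - if i = k then 1 else 0) =
      (∑ i ∈ I, ε i * a i) - ε k := by
    intro ε
    simp_rw [mul_sub, Finset.sum_sub_distrib]
    simp [hk]
  simp only [e1] at h1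
  simp only [e2] at h2
  have e3 : nsq I (fun i => a i + if i = k then 1 else 0) -
      nsq I (fun i => a i - if i = k then 1 else 0) = 4 * a k := by
    unfold nsq
    rw [← Finset.sum_sub_distrib]
    have e5 : ∀ i ∈ I, (a i + if i = k then (1 : ℝ) else 0) ^ 2 -
        (a i - if i = k then (1 : ℝ) else 0) ^ 2 = if i = k then 4 * a i else 0 := by
      intro i _
      split_ifs <;> ring
    rw [Finset.sum_congr rfl e5]
    simp [hk]
  have e4 : avgOn I (fun ε => ((∑ i ∈ I, ε i * a i) + ε k) ^ 2) -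
      avgOn I (fun ε => ((∑ i ∈ I, ε i * a i) - ε k) ^ 2) =
      4 * avgOn I (fun ε => ε k * ∑ j ∈ I, ε j * a j) := by
    unfold avgOn
    rw [← sub_div, ← Finset.sum_sub_distrib, ← mul_div_assoc, Finset.mul_sum]
    congr 1
    refine Finset.sum_congr rfl fun T _ => ?_
    ring
  rw [h1, h2, e3] at e4
  linarith

private theorem nf_mono {I : Finset ℕ} {F G : (ℕ → ℝ) → ℝ}
    (hFG : ∀ T, F (sgn T) ≤ G (sgn T)) : avgOn I F ≤ avgOn I G := by
  unfold avgOn
  exact div_le_div_of_nonneg_right (Finset.sum_le_sum fun T _ => hFG T) (by positivity)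

private theorem nf_sum (I J : Finset ℕ) (s : ℕ → ℝ) (F : ℕ → (ℕ → ℝ) → ℝ) :
    ∑ i ∈ J, s i * avgOn I (F i) = avgOn I (fun ε => ∑ i ∈ J, s i * F i ε) := by
  unfold avgOn
  rw [Finset.sum_comm, Finset.sum_div]
  refine Finset.sum_congr rfl fun i _ => ?_
  rw [← Finset.mul_sum, mul_div_assoc]

private theorem nf_const_mul (I : Finset ℕ) (c : ℝ) (F : (ℕ → ℝ) → ℝ) :
    avgOn I (fun ε => c * F ε) = c * avgOn I F := by
  unfold avgOn
  rw [← Finset.mul_sum, mul_div_assoc]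

private theorem nf_const (I : Finset ℕ) (c : ℝ) : avgOn I (fun _ => c) = c := by
  unfold avgOn
  rw [Finset.sum_const, Finset.card_powerset, nsmul_eq_mul]
  push_cast
  have : (2 : ℝ) ^ I.card ≠ 0 := by positivity
  field_simp

private theorem nf_sgn (T : Finset ℕ) (i : ℕ) : |sgn T i| = 1 := by
  unfold sgn
  split_ifs <;> simp

private theorem nf_vec_pair {κ : Type} (L : Finset κ) (mu : κ → ℝ) (h : κ → Fin 4 → F0)
    (z : κ → ℝ × ℝ) : ∑ l ∈ L, vec (mu l) (h l) (z l) =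
      ∑ p ∈ L ×ˢ (Finset.univ : Finset (Fin 4)), xi (mu p.1) p.2 (z p.1) • h p.1 p.2 := by
  rw [Finset.sum_product]
  rfl

private theorem nf_disj {κ : Type} (L : Finset κ) (h : κ → Fin 4 → F0)
    (hh : ∀ l ∈ L, ∀ l' ∈ L, ∀ c c', (l ≠ l' ∨ c ≠ c') →
      Disjoint (h l c).support (h l' c').support) :
    ∀ x ∈ L ×ˢ (Finset.univ : Finset (Fin 4)), ∀ y ∈ L ×ˢ (Finset.univ : Finset (Fin 4)),
      x ≠ y → Disjoint ((fun p : κ × Fin 4 => h p.1 p.2) x).support
        ((fun p : κ × Fin 4 => h p.1 p.2) y).support := by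
  rintro ⟨l, c⟩ hx ⟨l', c'⟩ hy hne
  rw [Finset.mem_product] at hx hy
  apply hh l hx.1 l' hy.1 c c'
  by_contra hcon
  push Not at hcon
  exact hne (Prod.ext hcon.1 hcon.2)

/-- Domination of `vec` sums coordinatewise. -/
private theorem nf_dom {κ : Type} (L : Finset κ) (mu : κ → ℝ) (h : κ → Fin 4 → F0)
    (hh : ∀ l ∈ L, ∀ l' ∈ L, ∀ c c', (l ≠ l' ∨ c ≠ c') →
      Disjoint (h l c).support (h l' c').support) (z z' : κ → ℝ × ℝ)
    (hz : ∀ l ∈ L, ∀ b, |xi (mu l) b (z l)| ≤ |xi (mu l) b (z' l)|) (i : ℕ) :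
    |(∑ l ∈ L, vec (mu l) (h l) (z l)) i| ≤ |(∑ l ∈ L, vec (mu l) (h l) (z' l)) i| := by
  rw [nf_vec_pair, nf_vec_pair]
  have h1 := Lat.sum_apply_abs (L ×ˢ (Finset.univ : Finset (Fin 4)))
    (fun p : κ × Fin 4 => h p.1 p.2) (nf_disj L h hh) (fun p => xi (mu p.1) p.2 (z p.1)) i
  have h2 := Lat.sum_apply_abs (L ×ˢ (Finset.univ : Finset (Fin 4)))
    (fun p : κ × Fin 4 => h p.1 p.2) (nf_disj L h hh) (fun p => xi (mu p.1) p.2 (z' p.1)) i
  rw [h1, h2]
  refine Finset.sum_le_sum fun p hp => mul_le_mul_of_nonneg_right ?_ (abs_nonneg _)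
  exact hz p.1 (Finset.mem_product.1 hp).1 p.2

private theorem nf_comp {N : F0 → ℝ} (hN : Lat N) (lam : ℝ) (m : ℕ) (f : ℕ → Fin 4 → F0)
    (hf : ∀ j < m, ∀ j' < m, ∀ c c', (j ≠ j' ∨ c ≠ c') →
      Disjoint (f j c).support (f j' c').support) (c : Fin 4) (w : ℕ → ℝ × ℝ) :
    N (∑ k ∈ range m, xi lam c (w k) • f k c) ≤ N (∑ k ∈ range m, vec lam (f k) (w k)) := by
  have hf' : ∀ l ∈ range m, ∀ l' ∈ range m, ∀ c c', (l ≠ l' ∨ c ≠ c') →
      Disjoint (f l c).support (f l' c').support := fun l hl l' hl' =>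
    hf l (Finset.mem_range.1 hl) l' (Finset.mem_range.1 hl')
  rw [nf_vec_pair (range m) (fun _ => lam) f w]
  have h1 := hN.sum_subset_le (J := range m ×ˢ {c})
    (J' := range m ×ˢ (Finset.univ : Finset (Fin 4)))
    (Finset.product_subset_product_right (Finset.subset_univ _))
    (fun p : ℕ × Fin 4 => f p.1 p.2) (nf_disj (range m) f hf')
    (fun p => xi lam p.2 (w p.1))
  rw [Finset.sum_product] at h1
  simp only [Finset.sum_singleton] at h1
  exact h1

private theorem nf_xi_kx (lam : ℝ) (hl : 5 / 2 ≤ lam) (hl' : lam ≤ 3) (b c : Fin 4) :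
    |xi lam b (kx lam c)| ≤ if b = c then 0 else 3 := by
  unfold xi kx
  fin_cases b <;> fin_cases c <;> simp <;> rw [abs_le] <;> constructor <;>
    linarith

theorem nofac (N : F0 → ℝ) (hN : Lat N) (q : ℕ) (C : ℝ) (hq : 1 ≤ q) (hC : 1 ≤ C)
    (hL : LowQ N q C) : ∃ R : ℝ, 0 < R ∧
      ∀ (κ : Type) (L : Finset κ) (mu : κ → ℝ) (h : κ → Fin 4 → F0) (lam g δ K : ℝ) (m : ℕ)
        (f : ℕ → Fin 4 → F0),
        (∀ l ∈ L, ∀ l' ∈ L, ∀ c c', (l ≠ l' ∨ c ≠ c') →
          Disjoint (h l c).support (h l' c').support) →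
        (∀ j < m, ∀ j' < m, ∀ c c', (j ≠ j' ∨ c ≠ c') →
          Disjoint (f j c).support (f j' c').support) →
        5 / 2 ≤ lam → lam ≤ 3 → (∀ l ∈ L, 5 / 2 ≤ mu l ∧ mu l ≤ 3 ∧ g ≤ |lam - mu l|) → 0 < g →
        0 ≤ K → Star N δ m f → Fac N lam m f L mu h K → g ≤ R * K ^ 2 * δ := by
  obtain ⟨CM, hCM1, hCM⟩ := cm N hN q C hq hC hL
  refine ⟨72000 * CM, by linarith, ?_⟩
  intro κ L mu h lam g δ K m f hdh hdf hlam hlam' hmu hg hK hstar hfac
  obtain ⟨α, β, hα, hβ, htr⟩ := hfac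
  have hsel : ∀ j, ∃ (c : Fin 4) (z : κ → ℝ × ℝ), j < m →
      (∀ l ∈ L, ∀ b, |xi (mu l) b (z l)| ≤ |xi (mu l) b (α l j (kx lam c))|) ∧
      g / 8000 ≤ xi lam c (∑ l ∈ L, β j l (z l)) := by
    intro j
    by_cases hj : j < m
    · obtain ⟨c, z, h1, h2⟩ := select L mu lam g hlam hlam' hmu hg (fun l => α l j)
        (fun l => β j l) (htr j hj)
      exact ⟨c, z, fun _ => ⟨h1, h2⟩⟩
    · exact ⟨0, 0, fun h => absurd h hj⟩
  choose χ z hz using hsel
  obtain ⟨c, t, ht0, ht1, hb⟩ := hstar χ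
  set v := N (∑ j ∈ range m, t j • f j c) with hv
  have hδv : 0 < δ * v := by
    have h1 : ∃ b : Fin 4, b ≠ c := exists_ne c
    obtain ⟨b, hbc⟩ := h1
    exact lt_of_le_of_lt (hN.nonneg _) (hb b hbc)
  have hv0 : 0 < v := by
    have h1 : 0 ≤ v := hN.nonneg _
    rcases h1.lt_or_eq with h2 | h2
    · exact h2
    · rw [← h2, mul_zero] at hδv
      exact absurd hδv (lt_irrefl _)
  obtain ⟨s, hs0, hs1, hs2⟩ := norming N hN m (fun j => f j c)
    (fun j hj j' hj' hne => hdf j hj j' hj' c c (Or.inl hne)) t ht0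
  -- the random vectors
  let Z : (ℕ → ℝ) → κ → ℝ × ℝ := fun ε l => ∑ j ∈ range m, (ε j * t j) • z j l
  let W : (ℕ → ℝ) → ℕ → ℝ × ℝ := fun ε k => ∑ l ∈ L, β k l (Z ε l)
  let w : ℕ → ℕ → ℝ × ℝ := fun k j => ∑ l ∈ L, β k l (z j l)
  have hW : ∀ ε k, W ε k = ∑ j ∈ range m, (ε j * t j) • w k j := by
    intro ε k
    change ∑ l ∈ L, β k l (∑ j ∈ range m, (ε j * t j) • z j l) = _
    simp only [map_sum, map_smul]
    rw [Finset.sum_comm]
    refine Finset.sum_congr rfl fun j _ => ?_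
    rw [← Finset.smul_sum]
  have hA : ∀ k ∈ range m, t k * xi lam c (w k k) =
      avgOn (range m) (fun ε => ε k * xi lam c (W ε k)) := by
    intro k hk
    have h1 := nf_avg (range m) k hk (fun j => t j * xi lam c (w k j))
    rw [← h1]
    congr 1
    funext ε
    rw [hW, nf_xi_sum]
    congr 1
    refine Finset.sum_congr rfl fun j _ => ?_
    rw [nf_xi_smul]
    ring
  have hB : g / 8000 * v ≤ ∑ k ∈ range m, s k * (t k * xi lam c (w k k)) := by
    have h1 : g / 8000 * v ≤ g / 8000 * ∑ j ∈ range m, s j * t j :=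
      mul_le_mul_of_nonneg_left hs2 (by positivity)
    refine h1.trans ?_
    rw [Finset.mul_sum]
    refine Finset.sum_le_sum fun k hk => ?_
    by_cases htk : t k = 0
    · rw [htk]
      simp
    · obtain ⟨hkm, hck⟩ := ht1 k htk
      have h2 := (hz k hkm).2
      rw [hck] at h2
      have h3 : 0 ≤ s k * t k := mul_nonneg (hs0 k) (ht0 k)
      calc g / 8000 * (s k * t k) = s k * t k * (g / 8000) := by ring
        _ ≤ s k * t k * xi lam c (w k k) := mul_le_mul_of_nonneg_left h2 h3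
        _ = _ := by ring
  have hC1 : ∑ k ∈ range m, s k * (t k * xi lam c (w k k)) ≤
      avgOn (range m) (fun ε => N (∑ k ∈ range m, xi lam c (W ε k) • f k c)) := by
    rw [Finset.sum_congr rfl fun k hk => by rw [hA k hk], nf_sum]
    refine nf_mono fun T => ?_
    refine le_trans ?_ (hs1 fun k => xi lam c (W (sgn T) k))
    refine Finset.sum_le_sum fun k _ => mul_le_mul_of_nonneg_left ?_ (hs0 k)
    refine (le_abs_self _).trans ?_
    rw [abs_mul, nf_sgn, one_mul]
  have hD : avgOn (range m) (fun ε => N (∑ k ∈ range m, xi lam c (W ε k) • f k c)) ≤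
      avgOn (range m) (fun ε => K * N (∑ l ∈ L, vec (mu l) (h l) (Z ε l))) := by
    refine nf_mono fun T => ?_
    exact (nf_comp hN lam m f hdf c (W (sgn T))).trans (hβ (Z (sgn T)))
  -- the dominating vectors
  let Y : ℕ → F0 := fun j => ∑ l ∈ L, vec (mu l) (h l) (z j l)
  let B : ℕ → F0 := fun j => ∑ l ∈ L, vec (mu l) (h l) (α l j (kx lam (χ j)))
  have hF : ∀ ε : ℕ → ℝ, ∑ l ∈ L, vec (mu l) (h l) (Z ε l) =
      ∑ j ∈ range m, ε j • (t j • Y j) := by
    intro ε
    change ∑ l ∈ L, vec (mu l) (h l) (∑ j ∈ range m, (ε j * t j) • z j l) = _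
    rw [Finset.sum_congr rfl fun l _ => nf_vec_sum (mu l) (h l) (range m) _, Finset.sum_comm]
    refine Finset.sum_congr rfl fun j _ => ?_
    rw [smul_smul, Finset.smul_sum]
    exact Finset.sum_congr rfl fun l _ => nf_vec_smul _ _ _ _
  have hH : avgOn (range m) (fun ε => N (∑ j ∈ range m, ε j • (t j • Y j))) ≤
      CM * avgOn (range m) (fun ε => N (∑ j ∈ range m, ε j • (t j • B j))) := by
    refine hCM (range m) (fun j => t j • Y j) (fun j => t j • B j) fun k hk i => ?_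
    rw [Finsupp.smul_apply, Finsupp.smul_apply, smul_eq_mul, smul_eq_mul, abs_mul, abs_mul]
    refine mul_le_mul_of_nonneg_left ?_ (abs_nonneg _)
    exact nf_dom L mu h hdh _ _ (hz k (Finset.mem_range.1 hk)).1 i
  have hJ : ∀ T : Finset ℕ, N (∑ j ∈ range m, sgn T j • (t j • B j)) ≤ K * (9 * δ * v) := by
    intro T
    have h1 : ∑ j ∈ range m, sgn T j • (t j • B j) = ∑ j ∈ range m, ∑ l ∈ L,
        vec (mu l) (h l) (α l j ((sgn T j * t j) • kx lam (χ j))) := by
      refine Finset.sum_congr rfl fun j _ => ?_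
      rw [smul_smul]
      change _ • ∑ l ∈ L, vec (mu l) (h l) (α l j (kx lam (χ j))) = _
      rw [Finset.smul_sum]
      refine Finset.sum_congr rfl fun l _ => ?_
      rw [map_smul, nf_vec_smul]
    rw [h1]
    refine (hα _).trans (mul_le_mul_of_nonneg_left ?_ hK)
    have h2 : ∑ j ∈ range m, vec lam (f j) ((sgn T j * t j) • kx lam (χ j)) =
        ∑ b : Fin 4, xi lam b (kx lam c) • ∑ j ∈ range m, (sgn T j * t j) • f j b := by
      have h3 : ∀ j ∈ range m, vec lam (f j) ((sgn T j * t j) • kx lam (χ j)) =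
          ∑ b : Fin 4, xi lam b (kx lam c) • ((sgn T j * t j) • f j b) := by
        intro j _
        rw [nf_vec_smul]
        unfold vec
        rw [Finset.smul_sum]
        refine Finset.sum_congr rfl fun b _ => ?_
        by_cases htj : t j = 0
        · rw [htj]
          simp
        · rw [(ht1 j htj).2, smul_comm]
      rw [Finset.sum_congr rfl h3, Finset.sum_comm]
      refine Finset.sum_congr rfl fun b _ => ?_
      rw [Finset.smul_sum]
    rw [h2]
    refine (hN.sum_smul_le _ _ _).trans ?_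
    have h4 : ∀ b : Fin 4, |xi lam b (kx lam c)| *
        N (∑ j ∈ range m, (sgn T j * t j) • f j b) ≤ if b = c then 0 else 3 * (δ * v) := by
      intro b
      have h5 := nf_xi_kx lam hlam hlam' b c
      by_cases hbc : b = c
      · rw [if_pos hbc] at h5 ⊢
        have h6 : |xi lam b (kx lam c)| = 0 := le_antisymm h5 (abs_nonneg _)
        rw [h6, zero_mul]
      · rw [if_neg hbc] at h5 ⊢
        have h7 : N (∑ j ∈ range m, (sgn T j * t j) • f j b) ≤
            N (∑ j ∈ range m, t j • f j b) := by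
          refine hN.sum_mono (range m) (fun j => f j b) ?_ _ _ fun j _ => ?_
          · intro j hj j' hj' hne
            exact hdf j (Finset.mem_range.1 hj) j' (Finset.mem_range.1 hj') b b (Or.inl hne)
          · rw [abs_mul, nf_sgn, one_mul]
        exact mul_le_mul h5 (h7.trans (hb b hbc).le) (hN.nonneg _) (by norm_num)
    refine (Finset.sum_le_sum fun b _ => h4 b).trans ?_
    have h8 : ∑ b : Fin 4, (if b = c then (0 : ℝ) else 3 * (δ * v)) = 9 * δ * v := by
      fin_cases c <;> simp [Fin.sum_univ_four] <;> ring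
    exact h8.le
  -- conclusion
  have hfin : g / 8000 * v ≤ K * (CM * (K * (9 * δ * v))) := by
    refine hB.trans (hC1.trans (hD.trans ?_))
    rw [nf_const_mul]
    refine mul_le_mul_of_nonneg_left ?_ hK
    have e1 : (fun ε : ℕ → ℝ => N (∑ l ∈ L, vec (mu l) (h l) (Z ε l))) =
        fun ε => N (∑ j ∈ range m, ε j • (t j • Y j)) := by
      funext ε
      rw [hF]
    rw [e1]
    refine hH.trans (mul_le_mul_of_nonneg_left ?_ (by linarith))
    have e2 : avgOn (range m) (fun _ => K * (9 * δ * v)) = K * (9 * δ * v) := nf_const _ _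
    rw [← e2]
    exact nf_mono fun T => hJ T
  have hfin2 : (g - 72000 * CM * K ^ 2 * δ) * v ≤ 0 := by
    have e3 : K * (CM * (K * (9 * δ * v))) = 9 * CM * K ^ 2 * δ * v := by ring
    rw [e3] at hfin
    nlinarith
  by_contra hcon
  push Not at hcon
  have : 0 < (g - 72000 * CM * K ^ 2 * δ) * v := mul_pos (by linarith) hv0
  linarith

end Pool.Agent.Helper60.CR
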