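import Pool.Agent.Helper60.CR.NuReal

/-! CR-53 (nu_snorm). The spreading norm is a spreading lattice norm with the same lower `q`-estimate.
PROOF. Every inequality is proved for `N` on realisations and `θ → 0`. For a finite family of functions with supports in `s` and `θ > 0` take `ψ` from `nu_real` (any `N0`); `ψ` is injective on `s`, so `mapDomain ψ` is additive, commutes with scalars,
`(f.mapDomain ψ) (ψ x) = f x` for `x ∈ s`, it preserves `|a| ≤ |b|` coordinatewise and disjointness of supports (`Finsupp.mapDomain_support_of_injOn` or the present name).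
add: family `a, b, a + b`; smul: `a, t • a`; mono: `a, b`; one: `single x 1` goes to `single (ψ x) 1`; low: the family `w k`, `k < n`, and `∑ w k` (`LowQ` with `I = range n`; let `θ → 0`: both sides are continuous in the finitely many numbers; for example
`ge_of_tendsto`/`le_of_tendsto` along `θ = 1/(j+1)`).
inv: `(a.mapDomain φ).support = a.support.image φ` (`φ` injective on the support) and the sorted list of it is the image of the sorted list of `a.support` (`φ` strictly increasing there), `(a.mapDomain φ) (φ x) = a x`; so the two lists in the definition of `nu` agree. -/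

set_option autoImplicit false

namespace Pool.Agent.Helper60.CR

open Finset Filter Topology

/-- Realisations along a sequence, for a finite family. -/
theorem nu_seq (N : F0 → ℝ) (hN : Lat N) (s : Finset ℚ) (M : ℕ) (F : ℕ → (ℚ →₀ ℝ))
    (hF : ∀ m < M, (F m).support ⊆ s) :
    ∃ ψ : ℕ → ℚ → ℕ, (∀ j, StrictMonoOn (ψ j) s) ∧
      ∀ m < M, Tendsto (fun j => N ((F m).mapDomain (ψ j))) atTop (𝓝 (nu N (F m))) := by
  have h : ∀ j : ℕ, ∃ ψ : ℚ → ℕ, StrictMonoOn ψ s ∧ (∀ x ∈ s, 0 ≤ ψ x) ∧
      ∀ m < M, |N ((F m).mapDomain ψ) - nu N (F m)| ≤ 1 / ((j : ℝ) + 1) :=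
    fun j => nu_real N hN s M F hF _ (by positivity) 0
  choose ψ h1 _ h3 using h
  refine ⟨ψ, h1, fun m hm => ?_⟩
  rw [tendsto_iff_norm_sub_tendsto_zero]
  refine squeeze_zero (fun j => norm_nonneg _) (fun j => ?_)
    (tendsto_one_div_add_atTop_nhds_zero_nat (𝕜 := ℝ))
  rw [Real.norm_eq_abs]
  exact h3 j m hm

theorem abs_mapDomain_le (ψ : ℚ → ℕ) (s : Finset ℚ) (hψ : Set.InjOn ψ s) (a b : ℚ →₀ ℝ)
    (ha : a.support ⊆ s) (hb : b.support ⊆ s) (hab : ∀ x, |a x| ≤ |b x|) (i : ℕ) :
    |a.mapDomain ψ i| ≤ |b.mapDomain ψ i| := by
  classical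
  by_cases hi : ∃ x ∈ s, ψ x = i
  · obtain ⟨x, hx, rfl⟩ := hi
    rw [Finsupp.mapDomain_apply' (s : Set ℚ) a (by exact_mod_cast ha) hψ (by exact_mod_cast hx),
      Finsupp.mapDomain_apply' (s : Set ℚ) b (by exact_mod_cast hb) hψ (by exact_mod_cast hx)]
    exact hab x
  · have h1 : a.mapDomain ψ i = 0 := by
      by_contra hne
      have := Finsupp.mapDomain_support (Finsupp.mem_support_iff.2 hne)
      obtain ⟨x, hx, hxi⟩ := Finset.mem_image.1 this
      exact hi ⟨x, ha hx, hxi⟩
    rw [h1, abs_zero]
    exact abs_nonneg _

theorem nu_snorm (N : F0 → ℝ) (hN : Lat N) (q : ℕ) (C : ℝ) (hL : LowQ N q C) :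
    SNorm (nu N) q C := by
  classical
  constructor
  · intro a b
    obtain ⟨ψ, -, h⟩ := nu_seq N hN (a.support ∪ b.support ∪ (a + b).support) 3
      (fun m => if m = 0 then a else if m = 1 then b else a + b) (by
        intro m _
        split_ifs
        · exact subset_union_left.trans subset_union_left
        · exact subset_union_right.trans subset_union_left
        · exact subset_union_right)
    have h0 := h 0 (by norm_num)
    have h1 := h 1 (by norm_num)
    have h2 := h 2 (by norm_num)
    simp only [if_true, one_ne_zero, if_false, OfNat.ofNat_ne_zero, OfNat.ofNat_ne_one] at h0 h1 h2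
    refine le_of_tendsto_of_tendsto' h2 (h0.add h1) fun j => ?_
    rw [Finsupp.mapDomain_add]
    exact hN.add _ _
  · intro t a
    obtain ⟨ψ, -, h⟩ := nu_seq N hN (a.support ∪ (t • a).support) 2
      (fun m => if m = 0 then a else t • a) (by
        intro m _
        split_ifs
        · exact subset_union_left
        · exact subset_union_right)
    have h0 := h 0 (by norm_num)
    have h1 := h 1 (by norm_num)
    simp only [if_true, one_ne_zero, if_false] at h0 h1
    refine tendsto_nhds_unique h1 ?_
    have h2 := h0.const_mul |t|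
    refine h2.congr fun j => ?_
    rw [Finsupp.mapDomain_smul, hN.smul]
  · intro a b hab
    obtain ⟨ψ, hψ, h⟩ := nu_seq N hN (a.support ∪ b.support) 2
      (fun m => if m = 0 then a else b) (by
        intro m _
        split_ifs
        · exact subset_union_left
        · exact subset_union_right)
    have h0 := h 0 (by norm_num)
    have h1 := h 1 (by norm_num)
    simp only [if_true, one_ne_zero, if_false] at h0 h1
    refine le_of_tendsto_of_tendsto' h0 h1 fun j => ?_
    exact hN.mono _ _ (abs_mapDomain_le (ψ j) _ (hψ j).injOn a b subset_union_left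
      subset_union_right hab)
  · intro x
    obtain ⟨ψ, -, h⟩ := nu_seq N hN (Finsupp.single x (1 : ℝ)).support 1
      (fun _ => Finsupp.single x 1) (fun m _ => subset_rfl)
    have h0 := h 0 (by norm_num)
    refine tendsto_nhds_unique h0 ?_
    refine tendsto_const_nhds.congr fun j => ?_
    rw [Finsupp.mapDomain_single, hN.one]
  · intro a φ hφ
    have hinj : Set.InjOn φ a.support := hφ.injOn
    have hsupp : (a.mapDomain φ).support = a.support.image φ :=
      Finsupp.mapDomain_support_of_injOn a hinj
    have hlist : (a.support.image φ).sort (· ≤ ·) = (a.support.sort (· ≤ ·)).map φ := by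
      apply sorted_list_eq (Finset.pairwise_sort _ _) _ (Finset.sort_nodup _ _) _
      · intro x
        simp only [Finset.mem_sort, Finset.mem_image, List.mem_map]
      · rw [List.pairwise_map]
        refine (Finset.pairwise_sort a.support (· ≤ ·)).imp_of_mem ?_
        intro x y hx hy hxy
        exact hφ.monotoneOn ((Finset.mem_sort _).1 hx) ((Finset.mem_sort _).1 hy) hxy
      · refine List.Nodup.map_on ?_ (Finset.sort_nodup _ _)
        intro x hx y hy hxy
        exact hinj ((Finset.mem_sort _).1 hx) ((Finset.mem_sort _).1 hy) hxy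
    unfold nu
    rw [hsupp, hlist, List.map_map]
    congr 1
    apply List.map_congr_left
    intro x hx
    rw [Function.comp_apply, Finsupp.mapDomain_apply' (a.support : Set ℚ) a subset_rfl hinj]
    exact_mod_cast (Finset.mem_sort _).1 hx
  · intro n w hw
    obtain ⟨ψ, hψ, h⟩ := nu_seq N hN
      ((range n).biUnion (fun k => (w k).support) ∪ (∑ k ∈ range n, w k).support) (n + 1)
      (fun m => if m < n then w m else ∑ k ∈ range n, w k) (by
        intro m _
        split_ifs with hm
        · exact (Finset.subset_biUnion_of_mem (fun k => (w k).support)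
            (Finset.mem_range.2 hm)).trans subset_union_left
        · exact subset_union_right)
    have hs : ∀ k < n, (w k).support ⊆
        (range n).biUnion (fun k => (w k).support) ∪ (∑ k ∈ range n, w k).support := fun k hk =>
      (Finset.subset_biUnion_of_mem (fun k => (w k).support)
            (Finset.mem_range.2 hk)).trans subset_union_left
    have h1 : ∀ k ∈ range n, Tendsto (fun j => N ((w k).mapDomain (ψ j)) ^ q) atTop
        (𝓝 (nu N (w k) ^ q)) := by
      intro k hk
      have hk' := Finset.mem_range.1 hk
      have h2 := h k (by omega)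
      simp only [hk', if_true] at h2
      exact h2.pow q
    have h2 := h n (by omega)
    simp only [lt_irrefl, if_false] at h2
    refine le_of_tendsto_of_tendsto' (tendsto_finsetSum (range n) h1)
      ((h2.const_mul C).pow q) fun j => ?_
    have h3 := hL ℕ (range n) (fun k => (w k).mapDomain (ψ j)) (by
      intro k hk l hl hkl
      have hk' := Finset.mem_range.1 hk
      have hl' := Finset.mem_range.1 hl
      rw [Finset.disjoint_left]
      intro i hi hi'
      obtain ⟨x, hx, hxi⟩ := Finset.mem_image.1 (Finsupp.mapDomain_support hi)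
      obtain ⟨y, hy, hyi⟩ := Finset.mem_image.1 (Finsupp.mapDomain_support hi')
      have hxy : x = y := (hψ j).injOn (by exact_mod_cast hs k hk' hx)
        (by exact_mod_cast hs l hl' hy) (hxi.trans hyi.symm)
      subst hxy
      exact Finset.disjoint_left.1 (hw k hk' l hl' hkl) hx hy)
    have h4 : (∑ k ∈ range n, w k).mapDomain (ψ j) = ∑ k ∈ range n, (w k).mapDomain (ψ j) :=
      Finsupp.mapDomain_finsetSum
    rw [h4]
    exact h3

end Pool.Agent.Helper60.CR
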