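import Pool.Agent.Helper60.CR.LfReal

/-! CR-52 (nu_eq, nu_real). Realisation of the spreading norm.
PROOF. nu_eq: for `s ⊇ supp f`: the list `(s.sort).map f` filtered by `≠ 0` is the list `(f.support.sort).map f` (a sorted list filtered by membership in the support is the sorted list of the support: both are sorted, without repetition and have the same
members; `List.eq_of_perm_of_sorted` or the present name), so `lf_filter` gives the claim (filter of a map: `List.filter_map`).
nu_real: `k = |s|`, `as m = (s.sort).map (F m)`, `w = 0`; `lf_real` gives `i`. Let `ψ x = i (index of x in s.sort)` for `x ∈ s` (`List.idxOf`, or `s.orderIsoOfFin`); it is strictly increasing on `s`, and `(F m).mapDomain ψ = ∑ j < k, single (i j) (F m x_j)`, `x_j` the `j`-th element of `s`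
(the support of `F m` is contained in `s`). -/

set_option autoImplicit false

namespace Pool.Agent.Helper60.CR

open Finset

theorem sorted_list_eq {l l' : List ℚ} (h : l.Pairwise (· ≤ ·)) (h' : l'.Pairwise (· ≤ ·))
    (hn : l.Nodup) (hn' : l'.Nodup) (hm : ∀ x, x ∈ l ↔ x ∈ l') : l = l' := by
  classical
  apply List.Perm.eq_of_pairwise (le := (· ≤ ·))
  · intro a b _ _ h1 h2; exact le_antisymm h1 h2
  · exact h
  · exact h'
  · apply List.perm_of_nodup_nodup_toFinset_eq hn hn'
    ext x
    simp [hm]

theorem nu_eq (N : F0 → ℝ) (hN : Lat N) (f : ℚ →₀ ℝ) (s : Finset ℚ) (hs : f.support ⊆ s) :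
    nu N f = Lf N ((s.sort (· ≤ ·)).map f) 0 := by
  classical
  have h1 : f.support.sort (· ≤ ·) = (s.sort (· ≤ ·)).filter (fun x => f x ≠ 0) := by
    apply sorted_list_eq (Finset.pairwise_sort _ _) ((Finset.pairwise_sort _ _).filter _)
      (Finset.sort_nodup _ _) ((Finset.sort_nodup _ _).filter _)
    intro x
    simp only [Finset.mem_sort, Finsupp.mem_support_iff, List.mem_filter, decide_eq_true_eq]
    exact ⟨fun h => ⟨hs (Finsupp.mem_support_iff.2 h), h⟩, fun h => h.2⟩
  unfold nu
  rw [h1, ← lf_filter N hN ((s.sort (· ≤ ·)).map f) 0, List.filter_map]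
  rfl

theorem nu_real (N : F0 → ℝ) (hN : Lat N) (s : Finset ℚ) (M : ℕ) (F : ℕ → (ℚ →₀ ℝ))
    (hF : ∀ m < M, (F m).support ⊆ s) (θ : ℝ) (hθ : 0 < θ) (N0 : ℕ) :
    ∃ ψ : ℚ → ℕ, StrictMonoOn ψ s ∧ (∀ x ∈ s, N0 ≤ ψ x) ∧
      ∀ m < M, |N ((F m).mapDomain ψ) - nu N (F m)| ≤ θ := by
  classical
  set l : List ℚ := s.sort (· ≤ ·) with hl
  have hlen : l.length = s.card := Finset.length_sort _
  obtain ⟨i, hi1, hi2, hi3⟩ := lf_real N hN s.card M (fun m => l.map (F m))
    (fun m _ => by rw [List.length_map]; exact hlen) (fun _ => 0) θ hθ N0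
  have hmem : ∀ x, x ∈ l ↔ x ∈ s := fun x => Finset.mem_sort _
  have hidx : ∀ x ∈ s, l.idxOf x < l.length := fun x hx => List.idxOf_lt_length_iff.2 ((hmem x).2 hx)
  have hget : ∀ x (hx : x ∈ s), l[l.idxOf x]'(hidx x hx) = x := fun x hx => List.getElem_idxOf _
  have hpw : l.Pairwise (· ≤ ·) := Finset.pairwise_sort _ _
  have hnd : l.Nodup := Finset.sort_nodup _ _
  have hmono : ∀ x ∈ s, ∀ y ∈ s, x < y → l.idxOf x < l.idxOf y := by
    intro x hx y hy hxy
    by_contra hcon
    push Not at hcon
    have h1 : l[l.idxOf y]'(hidx y hy) ≤ l[l.idxOf x]'(hidx x hx) := by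
      rcases hcon.lt_or_eq with h | h
      · exact List.pairwise_iff_getElem.1 hpw _ _ _ _ h
      · exact le_of_eq (by simp only [h])
    rw [hget x hx, hget y hy] at h1
    exact absurd hxy (not_lt.2 h1)
  refine ⟨fun x => i (l.idxOf x), ?_, ?_, ?_⟩
  · intro x hx y hy hxy
    exact hi1 (hmono x hx y hy hxy)
  · intro x _
    exact hi2 _
  · intro m hm
    have h1 : (F m).mapDomain (fun x => i (l.idxOf x)) =
        0 + ∑ j ∈ range s.card, Finsupp.single (i j) ((l.map (F m)).getD j 0) := by
      rw [zero_add, Finsupp.mapDomain, Finsupp.sum]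
      rw [Finset.sum_subset (hF m hm) (fun x _ hx => by
        rw [Finsupp.notMem_support_iff.1 hx, Finsupp.single_zero])]
      refine Finset.sum_nbij' (fun x => l.idxOf x) (fun j => l.getD j 0) ?_ ?_ ?_ ?_ ?_
      · intro x hx
        rw [Finset.mem_range, ← hlen]
        exact hidx x hx
      · intro j hj
        rw [Finset.mem_range, ← hlen] at hj
        rw [List.getD_eq_getElem _ _ hj]
        exact (hmem _).1 (List.getElem_mem hj)
      · intro x hx
        rw [List.getD_eq_getElem _ _ (hidx x hx), hget x hx]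
      · intro j hj
        rw [Finset.mem_range, ← hlen] at hj
        rw [List.getD_eq_getElem _ _ hj]
        exact hnd.idxOf_getElem _ _
      · intro x hx
        rw [List.getD_eq_getElem _ _ (by rw [List.length_map]; exact hidx x hx), List.getElem_map,
          hget x hx]
    rw [h1, nu_eq N hN (F m) s (hF m hm)]
    exact hi3 m hm

end Pool.Agent.Helper60.CR
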