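import Pool.Agent.Helper60.CR.Basic

/-! CR-70 (pad). Gadgets can be enlarged by dummy nodes.
PROOF. `f' j = f j` for `j < m`, and for `j ≥ m`: `f' j c = Finsupp.single (K' + 4 * (j - m) + c) 1` where `K' ≥ K, N0` is larger than all elements of the supports of `f j c`, `j < m`. `Star` for `range m'`: restrict the colouring to `range m` (nothing to do), the
coefficients `t` of `Star` vanish for `j ≥ m`, so the sums over `range m'` are the sums over `range m`. -/

set_option autoImplicit false

namespace Pool.Agent.Helper60.CR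

open Finset

theorem pad (N : F0 → ℝ) (δ : ℝ) (N0 m m' K : ℕ) (f : ℕ → Fin 4 → F0) (hf : Gadget N δ N0 m f)
    (hm : m ≤ m') : ∃ f' : ℕ → Fin 4 → F0, Gadget N δ N0 m' f' ∧ (∀ j < m, f' j = f j) ∧
      ∀ j, m ≤ j → ∀ c, ∀ i ∈ (f' j c).support, K ≤ i := by
  classical
  obtain ⟨n1, hn1⟩ := ((range m).biUnion fun j => univ.biUnion fun c =>
    (f j c).support).exists_nat_subset_range
  set K' := max (max K N0) n1 with hK'
  have hK1 : K ≤ K' := (le_max_left _ _).trans (le_max_left _ _)
  have hK2 : N0 ≤ K' := (le_max_right _ _).trans (le_max_left _ _)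
  have hK3 : ∀ j < m, ∀ c, ∀ i ∈ (f j c).support, i < K' := by
    intro j hj c i hi
    have h1 : i ∈ (range m).biUnion fun j => univ.biUnion fun c => (f j c).support :=
      mem_biUnion.2 ⟨j, mem_range.2 hj, mem_biUnion.2 ⟨c, mem_univ _, hi⟩⟩
    exact lt_of_lt_of_le (mem_range.1 (hn1 h1)) (le_max_right _ _)
  set f' : ℕ → Fin 4 → F0 := fun j c =>
    if j < m then f j c else Finsupp.single (K' + 4 * (j - m) + c) 1 with hf'
  have e1 : ∀ j < m, ∀ c, f' j c = f j c := fun j hj c => if_pos hj
  have e2 : ∀ j, m ≤ j → ∀ c, f' j c = Finsupp.single (K' + 4 * (j - m) + (c : ℕ)) 1 :=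
    fun j hj c => if_neg (not_lt.2 hj)
  have e3 : ∀ j, m ≤ j → ∀ c : Fin 4, ∀ i ∈ (f' j c).support, i = K' + 4 * (j - m) + (c : ℕ) := by
    intro j hj c i hi
    rw [e2 j hj c] at hi
    have h1 := Finsupp.support_single_subset hi
    exact mem_singleton.1 h1
  have hmix : ∀ j < m, ∀ j', m ≤ j' → ∀ c c' : Fin 4,
      Disjoint (f' j c).support (f' j' c').support := by
    intro j hj j' hj' c c'
    rw [Finset.disjoint_left]
    intro i hi hi'
    rw [e1 j hj c] at hi
    have h1 := hK3 j hj c i hi
    have h2 := e3 j' hj' c' i hi'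
    omega
  refine ⟨f', ⟨?_, ?_, ?_, ?_⟩, fun j hj => funext fun c => e1 j hj c, ?_⟩
  · intro j _ c
    by_cases hj : j < m
    · rw [e1 j hj c]
      exact hf.ne j hj c
    · rw [e2 j (not_lt.1 hj) c]
      exact Finsupp.single_ne_zero.2 one_ne_zero
  · intro j _ c i hi
    by_cases hj : j < m
    · rw [e1 j hj c] at hi
      exact hf.lo j hj c i hi
    · have h1 := e3 j (not_lt.1 hj) c i hi
      omega
  · intro j _ j' _ c c' hne
    by_cases hj : j < m
    · by_cases hj' : j' < m
      · rw [e1 j hj c, e1 j' hj' c']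
        exact hf.disj j hj j' hj' c c' hne
      · exact hmix j hj j' (not_lt.1 hj') c c'
    · by_cases hj' : j' < m
      · exact (hmix j' hj' j (not_lt.1 hj) c' c).symm
      · rw [Finset.disjoint_left]
        intro i hi hi'
        have h1 := e3 j (not_lt.1 hj) c i hi
        have h2 := e3 j' (not_lt.1 hj') c' i hi'
        have h3 := c.isLt
        have h4 := c'.isLt
        rcases hne with h5 | h5
        · omega
        · apply h5
          apply Fin.ext
          omega
  · intro χ
    obtain ⟨c, t, ht0, hts, hdom⟩ := hf.star χ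
    refine ⟨c, t, ht0, fun j hj => ⟨lt_of_lt_of_le (hts j hj).1 hm, (hts j hj).2⟩, ?_⟩
    have hsum : ∀ b, ∑ j ∈ range m', t j • f' j b = ∑ j ∈ range m, t j • f j b := by
      intro b
      rw [← Finset.sum_subset (Finset.range_mono hm)]
      · exact Finset.sum_congr rfl fun j hj => by rw [e1 j (mem_range.1 hj) b]
      · intro j _ hj
        have h1 : t j = 0 := by
          by_contra hne
          exact hj (mem_range.2 (hts j hne).1)
        rw [h1, zero_smul]
    intro b hb
    rw [hsum, hsum]
    exact hdom b hb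
  · intro j hj c i hi
    have h1 := e3 j hj c i hi
    omega

end Pool.Agent.Helper60.CR
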