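import Pool.Agent.Helper60.CR.Basic

/-! CR-24 (rand_restr). Random restrictions in a lattice with a lower `q`-estimate.
PROOF. Let `k = |Ω|`, `A = (∑ ω, N (S.filter (E ω))) / k`. For `u : Fin M → Ω` and `m : Fin M` let `E' u m i` be `E (u m) i ∧ ∀ m' ≠ m, ¬ E (u m') i`. For fixed `u` the vectors `S.filter (E' u m)` are disjointly supported
and their sum is coordinatewise at most `|S|`, so by `hL`: `∑ m, N (S.filter (E' u m)) ^ q ≤ (C * N S) ^ q` (`C ≥ 0`), and by the power mean inequality (`pow_sum_div_card_le_sum_pow`): `(∑ m, N (S.filter (E' u m))) ^ q ≤ M^(q-1) (C * N S) ^ q`.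
Fix `m` and `ω`. Average over the `u` with `u m = ω`: at the coordinate `i` the average of `(S.filter (E' u m)) i` is `S i * 1_{E ω i} * (1 - p_i)^(M-1)` with `p_i = #{ω | E ω i} / k ≤ 1/(2M)`, and
`(1 - p_i)^(M-1) ≥ 1 - (M-1) p_i ≥ 1/2` (Bernoulli, `one_add_mul_le_pow`). (It may be easier to use the union bound: the proportion of `u` with `u m = ω` for which `E (u m') i` holds for some `m' ≠ m` is at most `(M-1) p_i ≤ 1/2`.)
So `N (S.filter (E ω)) ≤ 2 N (average) ≤ 2 average of N (S.filter (E' u m))` (triangle inequality, lattice norm). Average over `ω`: `A ≤ 2 avg_u N (S.filter (E' u m))` for every `m`; sum over `m`: `M A ≤ 2 avg_u ∑ m N (...)`.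
Raise to the power `q` (convexity, again the power mean inequality): `M^q A^q ≤ 2^q avg_u (∑ m ...)^q ≤ 2^q M^(q-1) (C * N S)^q`. Divide by `M^(q-1)`. -/

set_option autoImplicit false

namespace Pool.Agent.Helper60.CR

open Finset

open scoped Classical in
theorem rand_restr_card {Ω : Type} [Fintype Ω] [Nonempty Ω] (P : Ω → Prop) (M : ℕ) (hM : 1 ≤ M)
    (hP : 2 * M * (Finset.univ.filter (fun ω => P ω)).card ≤ Fintype.card Ω) (m : Fin M) (ω : Ω) :
    (Fintype.card Ω : ℝ) ^ (M - 1) ≤ 2 * ((Finset.univ.filter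
      (fun u : Fin M → Ω => u m = ω ∧ ∀ m', m' ≠ m → ¬ P (u m'))).card : ℝ) := by
  have hset : (Finset.univ.filter (fun u : Fin M → Ω => u m = ω ∧ ∀ m', m' ≠ m → ¬ P (u m')))
      = Fintype.piFinset (fun m' : Fin M => if m' = m then ({ω} : Finset Ω)
        else Finset.univ.filter (fun ω => ¬ P ω)) := by
    ext u
    simp only [Finset.mem_filter, Finset.mem_univ, true_and, Fintype.mem_piFinset]
    constructor
    · rintro ⟨h1, h2⟩ m'
      by_cases hm : m' = m
      · subst hm; simp [h1]
      · simp [hm, h2 m' hm]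
    · intro h
      constructor
      · have := h m
        simpa using this
      · intro m' hm'
        have := h m'
        simpa [hm'] using this
  have hcard : (Finset.univ.filter (fun u : Fin M → Ω => u m = ω ∧ ∀ m', m' ≠ m → ¬ P (u m'))).card
      = (Finset.univ.filter (fun ω => ¬ P ω)).card ^ (M - 1) := by
    rw [hset, Fintype.card_piFinset]
    have h1 : ∀ m' : Fin M, (if m' = m then ({ω} : Finset Ω)
        else Finset.univ.filter (fun ω => ¬ P ω)).card =
        if m' = m then 1 else (Finset.univ.filter (fun ω => ¬ P ω)).card := by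
      intro m'
      split_ifs <;> simp
    rw [Finset.prod_congr rfl (fun m' _ => h1 m'), Finset.prod_ite]
    simp only [Finset.prod_const_one, one_mul, Finset.prod_const]
    congr 1
    rw [Finset.filter_ne', Finset.card_erase_of_mem (Finset.mem_univ _), Finset.card_univ,
      Fintype.card_fin]
  have hk : (0 : ℝ) < (Fintype.card Ω : ℝ) := by exact_mod_cast Fintype.card_pos
  have hsum : ((Finset.univ.filter (fun ω => P ω)).card : ℝ) +
      ((Finset.univ.filter (fun ω => ¬ P ω)).card : ℝ) = Fintype.card Ω := by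
    have := Finset.card_filter_add_card_filter_not (s := (Finset.univ : Finset Ω)) (fun ω => P ω)
    rw [Finset.card_univ] at this
    exact_mod_cast this
  have hP' : 2 * (M : ℝ) * ((Finset.univ.filter (fun ω => P ω)).card : ℝ) ≤ Fintype.card Ω := by
    exact_mod_cast hP
  rw [hcard]
  push_cast
  set k : ℝ := (Fintype.card Ω : ℝ) with hkdef
  set e : ℝ := ((Finset.univ.filter (fun ω => P ω)).card : ℝ) with he
  set c : ℝ := ((Finset.univ.filter (fun ω => ¬ P ω)).card : ℝ) with hc
  have he0 : 0 ≤ e := by rw [he]; positivity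
  have hM1 : (1 : ℝ) ≤ M := by exact_mod_cast hM
  have hek : e / k ≤ 1 / (2 * M) := by
    rw [div_le_div_iff₀ hk (by positivity)]
    linarith
  have hek1 : e / k ≤ 1 / 2 := by
    refine hek.trans ?_
    apply one_div_le_one_div_of_le <;> linarith
  have hb := one_add_mul_le_pow (a := -(e / k)) (by linarith) (M - 1)
  have hcast : ((M - 1 : ℕ) : ℝ) = (M : ℝ) - 1 := by
    rw [Nat.cast_sub hM]; simp
  rw [hcast] at hb
  have h2 : ((M : ℝ) - 1) * (e / k) ≤ 1 / 2 := by
    have h3 : ((M : ℝ) - 1) * (e / k) ≤ (M : ℝ) * (1 / (2 * M)) := by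
      apply mul_le_mul (by linarith) hek (by positivity) (by linarith)
    have h4 : (M : ℝ) * (1 / (2 * M)) = 1 / 2 := by field_simp
    linarith
  have h3 : (1 : ℝ) / 2 ≤ (1 + -(e / k)) ^ (M - 1) := by
    refine le_trans ?_ hb
    linarith
  have h4 : c = k * (1 + -(e / k)) := by
    field_simp
    linarith
  rw [h4, mul_pow]
  have h5 : 0 < k ^ (M - 1) := by positivity
  nlinarith

theorem inner_pow_aux (n M : ℕ) (f : Fin M → ℝ) (hf : ∀ m, 0 ≤ f m) :
    (∑ m, f m) ^ (n + 1) ≤ (M : ℝ) ^ n * ∑ m, f m ^ (n + 1) := by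
  rcases Nat.eq_zero_or_pos M with h0 | h0
  · subst h0
    simp
  have hM : (0 : ℝ) < M := by exact_mod_cast h0
  have h := pow_sum_div_card_le_sum_pow (s := Finset.univ) (f := f) (fun m _ => hf m) n
  rw [Finset.card_univ, Fintype.card_fin, div_le_iff₀ (by positivity)] at h
  linarith

open scoped Classical in
theorem rand_restr (N : F0 → ℝ) (hN : Lat N) (q : ℕ) (C : ℝ) (hq : 1 ≤ q) (hC : 0 ≤ C)
    (hL : LowQ N q C) (Ω : Type) [Fintype Ω] [Nonempty Ω] (E : Ω → ℕ → Prop) (S : F0) (M : ℕ)
    (hM : 1 ≤ M)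
    (hE : ∀ i, 2 * M * (Finset.univ.filter (fun ω => E ω i)).card ≤ Fintype.card Ω) :
    (M : ℝ) * ((∑ ω, N (S.filter (E ω))) / Fintype.card Ω) ^ q ≤ (2 * C * N S) ^ q := by
  obtain ⟨n, rfl⟩ : ∃ n, q = n + 1 := ⟨q - 1, by omega⟩
  have hk : (0 : ℝ) < (Fintype.card Ω : ℝ) := by exact_mod_cast Fintype.card_pos
  have hM1 : (1 : ℝ) ≤ M := by exact_mod_cast hM
  set k : ℝ := (Fintype.card Ω : ℝ) with hkdef
  set A : ℝ := (∑ ω, N (S.filter (E ω))) / k with hA
  have hA0 : 0 ≤ A := div_nonneg (Finset.sum_nonneg fun _ _ => hN.nonneg _) hk.le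
  let E' : (Fin M → Ω) → Fin M → ℕ → Prop := fun u m i => E (u m) i ∧ ∀ m', m' ≠ m → ¬ E (u m') i
  let w : (Fin M → Ω) → Fin M → F0 := fun u m => S.filter (E' u m)
  have hw : ∀ u m i, w u m i = if E' u m i then S i else 0 := by
    intro u m i
    exact Finsupp.filter_apply _ _ _
  -- the lower estimate
  have hdisj : ∀ u : Fin M → Ω, ∀ i, ∀ m m', m ≠ m' → ¬ (E' u m i ∧ E' u m' i) := by
    intro u i m m' hmm h
    exact h.1.2 m' (Ne.symm hmm) h.2.1
  have hZ : ∀ u : Fin M → Ω, (∑ m, N (w u m)) ^ (n + 1) ≤ (M : ℝ) ^ n * (C * N S) ^ (n + 1) := by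
    intro u
    have h1 := hL (Fin M) Finset.univ (w u) (by
      intro m _ m' _ hmm
      rw [Finset.disjoint_left]
      intro i hi hi'
      rw [Finsupp.mem_support_iff, hw] at hi hi'
      have h2 : E' u m i := by by_contra hc; exact hi (if_neg hc)
      have h3 : E' u m' i := by by_contra hc; exact hi' (if_neg hc)
      exact hdisj u i m m' hmm ⟨h2, h3⟩)
    have h2 : N (∑ m, w u m) ≤ N S := by
      apply hN.mono
      intro i
      rw [Finsupp.finsetSum_apply]
      by_cases hex : ∃ m, E' u m i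
      · obtain ⟨m, hm⟩ := hex
        rw [Finset.sum_eq_single_of_mem m (Finset.mem_univ _)]
        · rw [hw, if_pos hm]
        · intro m' _ hmm
          rw [hw, if_neg]
          intro hc
          exact hdisj u i m' m hmm ⟨hc, hm⟩
      · push Not at hex
        rw [Finset.sum_eq_zero, abs_zero]
        · exact abs_nonneg _
        · intro m _
          rw [hw, if_neg (hex m)]
    have h3 : (C * N (∑ m, w u m)) ^ (n + 1) ≤ (C * N S) ^ (n + 1) := by
      apply pow_le_pow_left₀ (mul_nonneg hC (hN.nonneg _))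
      exact mul_le_mul_of_nonneg_left h2 hC
    have h4 := inner_pow_aux n M (fun m => N (w u m)) (fun m => hN.nonneg _)
    calc (∑ m, N (w u m)) ^ (n + 1) ≤ (M : ℝ) ^ n * ∑ m, N (w u m) ^ (n + 1) := h4
      _ ≤ _ := by
        apply mul_le_mul_of_nonneg_left (h1.trans h3) (by positivity)
  -- the averaging
  have hcount : ∀ m : Fin M, k ^ (M - 1) * ∑ ω, N (S.filter (E ω)) ≤ 2 * ∑ u, N (w u m) := by
    intro m
    have h1 : ∀ ω : Ω, k ^ (M - 1) * N (S.filter (E ω)) ≤
        2 * ∑ u ∈ Finset.univ.filter (fun u : Fin M → Ω => u m = ω), N (w u m) := by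
      intro ω
      have h2 : N ((k ^ (M - 1)) • S.filter (E ω)) ≤
          N ((2 : ℝ) • ∑ u ∈ Finset.univ.filter (fun u : Fin M → Ω => u m = ω), w u m) := by
        apply hN.mono
        intro i
        rw [Finsupp.smul_apply, Finsupp.smul_apply, Finsupp.finsetSum_apply, smul_eq_mul,
          smul_eq_mul, abs_mul, abs_mul, Finsupp.filter_apply]
        by_cases hEi : E ω i
        · rw [if_pos hEi]
          have h3 : ∑ u ∈ Finset.univ.filter (fun u : Fin M → Ω => u m = ω), w u m i =
              ((Finset.univ.filter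
                (fun u : Fin M → Ω => u m = ω ∧ ∀ m', m' ≠ m → ¬ E (u m') i)).card : ℝ) * S i := by
            have h4 : ∑ u ∈ (Finset.univ.filter (fun u : Fin M → Ω => u m = ω)).filter
                (fun u => ∀ m', m' ≠ m → ¬ E (u m') i), S i =
                ∑ u ∈ Finset.univ.filter (fun u : Fin M → Ω => u m = ω),
                  if (∀ m', m' ≠ m → ¬ E (u m') i) then S i else 0 := Finset.sum_filter _ _
            rw [← Finset.filter_filter, ← nsmul_eq_mul, ← Finset.sum_const, h4]
            apply Finset.sum_congr rfl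
            intro u hu
            rw [Finset.mem_filter] at hu
            rw [hw]
            have h5 : E' u m i ↔ ∀ m', m' ≠ m → ¬ E (u m') i := by
              constructor
              · exact fun h => h.2
              · intro h
                exact ⟨by rw [hu.2]; exact hEi, h⟩
            by_cases h6 : ∀ m', m' ≠ m → ¬ E (u m') i
            · rw [if_pos (h5.2 h6), if_pos h6]
            · rw [if_neg (fun h => h6 (h5.1 h)), if_neg h6]
          rw [h3, abs_mul, abs_of_nonneg (by positivity : (0 : ℝ) ≤ k ^ (M - 1)),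
            abs_of_pos (by norm_num : (0 : ℝ) < 2), Nat.abs_cast, ← mul_assoc]
          apply mul_le_mul_of_nonneg_right _ (abs_nonneg _)
          exact rand_restr_card (fun ω => E ω i) M hM (hE i) m ω
        · rw [if_neg hEi, abs_zero, mul_zero]
          positivity
      rw [hN.smul, hN.smul, abs_of_nonneg (by positivity : (0 : ℝ) ≤ k ^ (M - 1)),
        abs_of_pos (by norm_num : (0 : ℝ) < 2)] at h2
      refine h2.trans ?_
      apply mul_le_mul_of_nonneg_left (hN.sum_le _ _) (by norm_num)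
    rw [Finset.mul_sum]
    refine (Finset.sum_le_sum fun ω _ => h1 ω).trans ?_
    rw [← Finset.mul_sum]
    have h9 := Finset.sum_fiberwise (Finset.univ : Finset (Fin M → Ω)) (fun u => u m)
      (fun u => N (w u m))
    apply le_of_eq
    congr 1
  have htot : (k ^ M) * ((M : ℝ) * A) ≤ 2 * ∑ u : Fin M → Ω, ∑ m, N (w u m) := by
    rw [Finset.sum_comm, Finset.mul_sum]
    have h1 : (k ^ M) * ((M : ℝ) * A) = ∑ _m : Fin M, k ^ (M - 1) * ∑ ω, N (S.filter (E ω)) := by
      rw [Finset.sum_const, Finset.card_univ, Fintype.card_fin, nsmul_eq_mul, hA]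
      have h2 : k ^ M = k ^ (M - 1) * k := by
        rw [← pow_succ]
        congr 1
        omega
      rw [h2]
      field_simp
    rw [h1]
    exact Finset.sum_le_sum fun m _ => hcount m
  have hcardU : (Fintype.card (Fin M → Ω) : ℝ) = k ^ M := by
    rw [Fintype.card_fun, Fintype.card_fin]
    push_cast
    rfl
  obtain ⟨u, hu⟩ : ∃ u : Fin M → Ω, (M : ℝ) * A ≤ 2 * ∑ m, N (w u m) := by
    by_contra hcon
    push Not at hcon
    have h1 : 2 * ∑ u : Fin M → Ω, ∑ m, N (w u m) < ∑ _u : Fin M → Ω, (M : ℝ) * A := by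
      rw [Finset.mul_sum]
      apply Finset.sum_lt_sum_of_nonempty Finset.univ_nonempty
      intro u _
      exact hcon u
    rw [Finset.sum_const, Finset.card_univ, nsmul_eq_mul, hcardU] at h1
    linarith
  have h1 : ((M : ℝ) * A) ^ (n + 1) ≤ (M : ℝ) ^ n * (2 * C * N S) ^ (n + 1) := by
    calc ((M : ℝ) * A) ^ (n + 1) ≤ (2 * ∑ m, N (w u m)) ^ (n + 1) :=
          pow_le_pow_left₀ (by positivity) hu _
      _ = 2 ^ (n + 1) * (∑ m, N (w u m)) ^ (n + 1) := by rw [mul_pow]
      _ ≤ 2 ^ (n + 1) * ((M : ℝ) ^ n * (C * N S) ^ (n + 1)) := by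
          apply mul_le_mul_of_nonneg_left (hZ u) (by positivity)
      _ = (M : ℝ) ^ n * (2 * C * N S) ^ (n + 1) := by
          rw [mul_assoc 2 C, mul_pow 2 (C * N S)]
          ring
  have h2 : (M : ℝ) ^ n * ((M : ℝ) * A ^ (n + 1)) ≤ (M : ℝ) ^ n * (2 * C * N S) ^ (n + 1) := by
    refine le_trans (le_of_eq ?_) h1
    rw [mul_pow, pow_succ (M : ℝ) n]
    ring
  exact le_of_mul_le_mul_left h2 (by positivity)

end Pool.Agent.Helper60.CR
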