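import Pool.Agent.Helper60.CR.Mom
import Pool.Agent.Helper60.CR.RandRestr

/-! CR-25 (sq_upper). Upper square function estimate in a lattice with a lower `q`-estimate.
PROOF. `M_q = 2 (2q)!`, `D = 2 M_q` (natural numbers), `CU = 1 + 16 C D`. For `T ⊆ I` let `g T i = ∑ k ∈ I, sgn T k * y k i`; `|g T i| ≤ sqrt |I| * S i` (Cauchy-Schwarz). For `r : ℕ` let `E r T i` be `0 < S i ∧ 2^r * S i ≤ |g T i|`.
Pointwise for `R` with `sqrt |I| < 2^R`: `|g T i| ≤ S i + ∑ r < R, 2^(r+1) * (S.filter (E r T)) i` (if `|g T i| < S i` clear; otherwise let `r` be maximal with `2^r S i ≤ |g T i|`, then `|g T i| < 2^(r+1) S i` and `r < R`; if `S i = 0` then `g T i = 0`).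
So `N (∑ k ∈ I, sgn T k • y k) ≤ N S + ∑ r < R, 2^(r+1) N (S.filter (E r T))`. Let `A r` be the average over `T ∈ I.powerset` of `N (S.filter (E r T))`. Claim: `A r ≤ 4 C D N S / 4^r`. Then
the average of the left side is at most `N S (1 + ∑ 2^(r+1) 4 C D / 4^r) ≤ N S (1 + 16 C D)`.
Claim: Markov with `mom`: `4^(r q) * #{T | E r T i} ≤ M_q * 2^|I|` (if `S i > 0`: `(2^r S i)^(2q) #{...} ≤ ∑_T (g T i)^(2q) ≤ 2^|I| M_q (nsq I (y · i))^q ≤ 2^|I| M_q (S i)^(2q)`). If `4^(r q) < D`: `A r ≤ N S ≤ D N S / 4^r`.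
If `4^(r q) ≥ D`: `M = ⌊4^(r q) / D⌋ ≥ 1` satisfies `2 M #{T | E r T i} ≤ 2^|I|`; `rand_restr` with `Ω = I.powerset` (subtype; card `2^|I|`): `M * (A r)^q ≤ (2 C N S)^q`, and `M ≥ 4^(r q) / (2 D)`, so
`(4^r A r)^q ≤ 2 D (2 C N S)^q ≤ (2 D * 2 C N S)^q`, hence `4^r A r ≤ 4 C D N S`. -/

set_option autoImplicit false

namespace Pool.Agent.Helper60.CR

open Finset
open Pool.Agent.Helper52.CS (avgOn sgn nsq avgOn_insert khin)

open scoped Classical in
private theorem sq_point (s G : ℝ) (hs : 0 < s) (R : ℕ) (hG : G < 2 ^ R * s) :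
    G ≤ s + ∑ r ∈ range R, 2 ^ (r + 1) * (if 2 ^ r * s ≤ G then s else 0) := by
  induction R with
  | zero =>
    rw [pow_zero, one_mul] at hG
    rw [Finset.range_zero, Finset.sum_empty]
    linarith
  | succ R ih =>
    rw [Finset.sum_range_succ]
    by_cases h : G < 2 ^ R * s
    · have h1 := ih h
      have h2 : 0 ≤ 2 ^ (R + 1) * (if 2 ^ R * s ≤ G then s else 0) := by
        split_ifs
        · positivity
        · simp
      linarith
    · push Not at h
      rw [if_pos h]
      have h3 : 0 ≤ ∑ r ∈ range R, 2 ^ (r + 1) * (if 2 ^ r * s ≤ G then s else 0) := by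
        refine Finset.sum_nonneg fun r _ => ?_
        split_ifs
        · positivity
        · simp
      linarith

private theorem sq_geom (R : ℕ) : ∑ r ∈ range R, ((1 : ℝ) / 2) ^ r ≤ 2 := by
  have h1 := geom_sum_eq (x := (1 : ℝ) / 2) (by norm_num) R
  rw [h1]
  have h2 : (0 : ℝ) ≤ ((1 : ℝ) / 2) ^ R := by positivity
  rw [div_le_iff_of_neg (by norm_num)]
  linarith

/-- The estimate of one level. -/
private theorem sq_level (N : F0 → ℝ) (hN : Lat N) (q : ℕ) (C : ℝ) (hq : 1 ≤ q) (hC : 1 ≤ C)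
    (hL : LowQ N q C) (Mq : ℕ) (hMq : 1 ≤ Mq) (r : ℕ) (Ω : Type) [Fintype Ω] [Nonempty Ω]
    (E : Ω → ℕ → Prop) [inst : ∀ ω, DecidablePred (E ω)] (S : F0)
    (hE : ∀ i, 4 ^ (r * q) * Nat.card {ω // E ω i} ≤ Mq * Fintype.card Ω) :
    4 ^ r * ((∑ ω, N (S.filter (E ω))) / Fintype.card Ω) ≤ 4 * C * ((2 * Mq : ℕ) : ℝ) * N S := by
  classical
  obtain rfl : inst = fun ω => Classical.decPred (E ω) := Subsingleton.elim _ _
  set D : ℕ := 2 * Mq with hD
  set A : ℝ := (∑ ω, N (S.filter (E ω))) / Fintype.card Ω with hA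
  have hΩ : (0 : ℝ) < Fintype.card Ω := by exact_mod_cast Fintype.card_pos
  have hNS : 0 ≤ N S := hN.nonneg S
  have hA0 : 0 ≤ A := div_nonneg (Finset.sum_nonneg fun ω _ => hN.nonneg _) hΩ.le
  have hAS : A ≤ N S := by
    rw [hA, div_le_iff₀ hΩ]
    calc ∑ ω, N (S.filter (E ω)) ≤ ∑ _ω : Ω, N S := by
          refine Finset.sum_le_sum fun ω _ => hN.mono _ _ fun i => ?_
          rw [Finsupp.filter_apply]
          split_ifs
          · exact le_rfl
          · rw [abs_zero]; exact abs_nonneg _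
      _ = N S * Fintype.card Ω := by
          rw [Finset.sum_const, Finset.card_univ, nsmul_eq_mul, mul_comm]
  have hD1 : (1 : ℝ) ≤ (D : ℝ) := by
    have : 1 ≤ D := by omega
    exact_mod_cast this
  by_cases hcase : 4 ^ (r * q) < D
  · have h1 : (4 : ℝ) ^ r ≤ (D : ℝ) := by
      have h2 : 4 ^ r ≤ 4 ^ (r * q) := Nat.pow_le_pow_right (by norm_num) (Nat.le_mul_of_pos_right r hq)
      have h3 : 4 ^ r ≤ D := by omega
      exact_mod_cast h3
    calc 4 ^ r * A ≤ (D : ℝ) * N S := mul_le_mul h1 hAS hA0 (by positivity)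
      _ ≤ 4 * C * (D : ℝ) * N S := by
        refine mul_le_mul_of_nonneg_right ?_ hNS
        nlinarith
  · push Not at hcase
    set M : ℕ := 4 ^ (r * q) / D with hM
    have hD0 : 0 < D := by omega
    have hM1 : 1 ≤ M := Nat.div_pos hcase hD0
    have hMD : M * D ≤ 4 ^ (r * q) := Nat.div_mul_le_self _ _
    have hMD2 : 4 ^ (r * q) ≤ 2 * M * D := by
      have h1 : 4 ^ (r * q) < (M + 1) * D := by
        rw [hM]
        have := Nat.lt_div_mul_add (a := 4 ^ (r * q)) hD0
        linarith
      nlinarith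
    have h2 := rand_restr N hN q C hq (by linarith) hL Ω E S M hM1 (by
      intro i
      have h3 := hE i
      have h4 : Nat.card {ω // E ω i} = (Finset.univ.filter (fun ω => E ω i)).card := by
        rw [Nat.card_eq_fintype_card, Fintype.card_subtype]
      rw [h4] at h3
      have h5 : M * D * (Finset.univ.filter (fun ω => E ω i)).card ≤ Mq * Fintype.card Ω :=
        (Nat.mul_le_mul_right _ hMD).trans h3
      have h6 : Mq * (2 * M * (Finset.univ.filter (fun ω => E ω i)).card) ≤ Mq * Fintype.card Ω := by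
        calc Mq * (2 * M * (Finset.univ.filter (fun ω => E ω i)).card)
            = M * D * (Finset.univ.filter (fun ω => E ω i)).card := by rw [hD]; ring
          _ ≤ _ := h5
      have h7 := Nat.le_of_mul_le_mul_left h6 hMq
      exact h7)
    have h8 : (∑ ω, N (S.filter (E ω))) / Fintype.card Ω = A := hA.symm
    have h9 : (M : ℝ) * A ^ q ≤ (2 * C * N S) ^ q := by
      exact h2
    have h10 : (4 ^ r * A) ^ q ≤ (4 * C * (D : ℝ) * N S) ^ q := by
      have h11 : ((4 : ℝ) ^ r) ^ q ≤ 2 * (M : ℝ) * (D : ℝ) := by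
        rw [← pow_mul]
        exact_mod_cast hMD2
      calc (4 ^ r * A) ^ q = ((4 : ℝ) ^ r) ^ q * A ^ q := mul_pow _ _ _
        _ ≤ (2 * (M : ℝ) * (D : ℝ)) * A ^ q := mul_le_mul_of_nonneg_right h11 (pow_nonneg hA0 q)
        _ = (2 * (D : ℝ)) * ((M : ℝ) * A ^ q) := by ring
        _ ≤ (2 * (D : ℝ)) * (2 * C * N S) ^ q := mul_le_mul_of_nonneg_left h9 (by positivity)
        _ ≤ (2 * (D : ℝ)) ^ q * (2 * C * N S) ^ q := by
          refine mul_le_mul_of_nonneg_right ?_ (by positivity)
          exact le_self_pow₀ (by linarith) (by omega)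
        _ = (4 * C * (D : ℝ) * N S) ^ q := by
          rw [← mul_pow]
          congr 1
          ring
    have h12 : 0 ≤ 4 * C * (D : ℝ) * N S := by positivity
    exact le_of_pow_le_pow_left₀ (by omega) h12 h10

private theorem sq_sgn (T : Finset ℕ) (k : ℕ) : sgn T k ^ 2 = 1 := by
  unfold sgn
  split_ifs <;> norm_num

theorem sq_upper (N : F0 → ℝ) (hN : Lat N) (q : ℕ) (C : ℝ) (hq : 1 ≤ q) (hC : 1 ≤ C)
    (hL : LowQ N q C) : ∃ CU : ℝ, 1 ≤ CU ∧ ∀ (I : Finset ℕ) (y : ℕ → F0) (S : F0),
      (∀ i, Real.sqrt (nsq I (fun k => y k i)) ≤ S i) →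
      avgOn I (fun ε => N (∑ k ∈ I, ε k • y k)) ≤ CU * N S := by
  classical
  set Mq : ℕ := 2 * (2 * q).factorial with hMq
  have hMq1 : 1 ≤ Mq := by
    have := (2 * q).factorial_pos
    omega
  set D : ℕ := 2 * Mq with hD
  have hD0 : (0 : ℝ) ≤ (D : ℝ) := Nat.cast_nonneg D
  refine ⟨1 + 16 * C * (D : ℝ), ?_, fun I y S hS => ?_⟩
  · have : 0 ≤ C * (D : ℝ) := mul_nonneg (by linarith) hD0
    linarith
  have hS0 : ∀ i, 0 ≤ S i := fun i => (Real.sqrt_nonneg _).trans (hS i)
  have hNS : 0 ≤ N S := hN.nonneg S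
  set g : Finset ℕ → ℕ → ℝ := fun T i => ∑ k ∈ I, sgn T k * y k i with hg
  set W : Finset ℕ → F0 := fun T => ∑ k ∈ I, sgn T k • y k with hW
  have hWg : ∀ T i, W T i = g T i := by
    intro T i
    rw [hW, hg]
    simp only [Finsupp.finsetSum_apply, Finsupp.smul_apply, smul_eq_mul]
  have hnn : ∀ i, 0 ≤ nsq I (fun k => y k i) := fun i => Finset.sum_nonneg fun _ _ => sq_nonneg _
  have hgS : ∀ T i, |g T i| ≤ Real.sqrt I.card * S i := by
    intro T i
    have h1 : g T i ^ 2 ≤ (I.card : ℝ) * nsq I (fun k => y k i) := by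
      have h2 := Finset.sum_mul_sq_le_sq_mul_sq I (fun k => sgn T k) (fun k => y k i)
      have h3 : ∑ k ∈ I, sgn T k ^ 2 = (I.card : ℝ) := by
        rw [Finset.sum_congr rfl fun k _ => sq_sgn T k, Finset.sum_const, nsmul_eq_mul, mul_one]
      rw [h3] at h2
      exact h2
    have h4 := Real.abs_le_sqrt h1
    rw [Real.sqrt_mul (Nat.cast_nonneg _)] at h4
    exact h4.trans (mul_le_mul_of_nonneg_left (hS i) (Real.sqrt_nonneg _))
  set R : ℕ := I.card with hR
  have hR2 : Real.sqrt I.card < 2 ^ R := by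
    have h1 : Real.sqrt (I.card : ℝ) ≤ (I.card : ℝ) := by
      rw [Real.sqrt_le_left (Nat.cast_nonneg _)]
      have h2 : I.card ≤ I.card ^ 2 := Nat.le_self_pow (by norm_num) _
      exact_mod_cast h2
    refine lt_of_le_of_lt h1 ?_
    have h3 : I.card < 2 ^ I.card := Nat.lt_two_pow_self
    exact_mod_cast h3
  set E : ℕ → Finset ℕ → ℕ → Prop := fun r T i => 0 < S i ∧ 2 ^ r * S i ≤ |g T i| with hE
  -- pointwise
  have hT : ∀ T, N (W T) ≤ N S + ∑ r ∈ range R, 2 ^ (r + 1) * N (S.filter (E r T)) := by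
    intro T
    have h1 : N (W T) ≤ N (S + ∑ r ∈ range R, (2 : ℝ) ^ (r + 1) • S.filter (E r T)) := by
      refine hN.mono _ _ fun i => ?_
      rw [hWg, Finsupp.add_apply, Finsupp.finsetSum_apply]
      refine le_trans ?_ (le_abs_self _)
      by_cases hi : 0 < S i
      · have h2 : |g T i| < 2 ^ R * S i :=
          lt_of_le_of_lt (hgS T i) (mul_lt_mul_of_pos_right hR2 hi)
        refine (sq_point (S i) _ hi R h2).trans (le_of_eq ?_)
        congr 1
        refine Finset.sum_congr rfl fun r _ => ?_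
        rw [Finsupp.smul_apply, Finsupp.filter_apply, smul_eq_mul]
        congr 1
        by_cases h3 : 2 ^ r * S i ≤ |g T i|
        · rw [if_pos h3, if_pos ⟨hi, h3⟩]
        · rw [if_neg h3, if_neg fun h4 => h3 h4.2]
      · have h2 : S i = 0 := le_antisymm (not_lt.mp hi) (hS0 i)
        have h3 := hgS T i
        rw [h2, mul_zero] at h3
        refine h3.trans ?_
        rw [h2, zero_add]
        refine Finset.sum_nonneg fun r _ => ?_
        rw [Finsupp.smul_apply, Finsupp.filter_apply, smul_eq_mul]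
        split_ifs
        · rw [h2, mul_zero]
        · rw [mul_zero]
    refine h1.trans ((hN.add _ _).trans ?_)
    gcongr
    refine (hN.sum_le _ _).trans (Finset.sum_le_sum fun r _ => ?_)
    rw [hN.smul, abs_of_nonneg (by positivity)]
  -- average
  set A : ℕ → ℝ := fun r => (∑ T ∈ I.powerset, N (S.filter (E r T))) / 2 ^ I.card with hA
  have hpow : (0 : ℝ) < 2 ^ I.card := by positivity
  have havg : avgOn I (fun ε => N (∑ k ∈ I, ε k • y k)) ≤
      N S + ∑ r ∈ range R, 2 ^ (r + 1) * A r := by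
    unfold avgOn
    rw [div_le_iff₀ hpow]
    calc ∑ T ∈ I.powerset, N (∑ k ∈ I, sgn T k • y k)
        ≤ ∑ T ∈ I.powerset, (N S + ∑ r ∈ range R, 2 ^ (r + 1) * N (S.filter (E r T))) :=
          Finset.sum_le_sum fun T _ => hT T
      _ = (N S + ∑ r ∈ range R, 2 ^ (r + 1) * A r) * 2 ^ I.card := by
          rw [Finset.sum_add_distrib, Finset.sum_const, Finset.card_powerset, nsmul_eq_mul,
            Finset.sum_comm, add_mul, Finset.sum_mul]
          congr 1
          · push_cast
            ring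
          · refine Finset.sum_congr rfl fun r _ => ?_
            rw [← Finset.mul_sum, hA, mul_assoc, div_mul_cancel₀ _ hpow.ne']
  -- the levels
  have hlev : ∀ r, 4 ^ r * A r ≤ 4 * C * (D : ℝ) * N S := by
    intro r
    have hne : Nonempty {T // T ∈ I.powerset} := ⟨⟨∅, Finset.empty_mem_powerset I⟩⟩
    have hcard : Fintype.card {T // T ∈ I.powerset} = 2 ^ I.card := by
      rw [Fintype.card_coe, Finset.card_powerset]
    have h1 := sq_level N hN q C hq hC hL Mq hMq1 r {T // T ∈ I.powerset}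
      (fun ω i => E r ω.1 i) S (by
        intro i
        rw [hcard]
        by_cases hi : 0 < S i
        · set B : Finset (Finset ℕ) := I.powerset.filter (fun T => E r T i) with hB
          have h2 : Nat.card {ω : {T // T ∈ I.powerset} // E r ω.1 i} = B.card := by
            rw [Nat.card_eq_fintype_card, Fintype.card_subtype, hB]
            refine Finset.card_bij' (fun ω _ => ω.1) (fun T hT => ⟨T, (Finset.mem_filter.mp hT).1⟩)
              ?_ ?_ ?_ ?_
            · intro ω hω
              exact Finset.mem_filter.mpr ⟨ω.2, (Finset.mem_filter.mp hω).2⟩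
            · intro T hT
              exact Finset.mem_filter.mpr ⟨Finset.mem_univ _, (Finset.mem_filter.mp hT).2⟩
            · intro ω hω
              rfl
            · intro T hT
              rfl
          rw [h2]
          have h3 := mom q I (fun k => y k i)
          unfold avgOn at h3
          rw [div_le_iff₀ hpow] at h3
          have h4 : nsq I (fun k => y k i) ^ q ≤ (S i ^ 2) ^ q := by
            refine pow_le_pow_left₀ (hnn i) ?_ q
            have h5 := pow_le_pow_left₀ (Real.sqrt_nonneg _) (hS i) 2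
            rwa [Real.sq_sqrt (hnn i)] at h5
          have h6 : (B.card : ℝ) * ((2 ^ r * S i) ^ 2) ^ q ≤ ∑ T ∈ I.powerset, g T i ^ (2 * q) := by
            calc (B.card : ℝ) * ((2 ^ r * S i) ^ 2) ^ q = ∑ _T ∈ B, ((2 ^ r * S i) ^ 2) ^ q := by
                  rw [Finset.sum_const, nsmul_eq_mul]
              _ ≤ ∑ T ∈ B, g T i ^ (2 * q) := by
                  refine Finset.sum_le_sum fun T hT => ?_
                  have h7 := (Finset.mem_filter.mp hT).2.2
                  rw [pow_mul, ← sq_abs (g T i)]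
                  refine pow_le_pow_left₀ (by positivity) ?_ q
                  exact pow_le_pow_left₀ (by positivity) h7 2
              _ ≤ ∑ T ∈ I.powerset, g T i ^ (2 * q) := by
                  refine Finset.sum_le_sum_of_subset_of_nonneg (Finset.filter_subset _ _)
                    fun T _ _ => ?_
                  rw [pow_mul]
                  positivity
          have h8 : (B.card : ℝ) * ((2 ^ r * S i) ^ 2) ^ q ≤
              2 * (2 * q).factorial * (S i ^ 2) ^ q * 2 ^ I.card := by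
            refine h6.trans (h3.trans ?_)
            gcongr
          have h9 : ((2 ^ r * S i) ^ 2) ^ q = 4 ^ (r * q) * (S i ^ 2) ^ q := by
            rw [mul_pow, mul_pow]
            congr 1
            have h20 : (4 : ℝ) = 2 ^ 2 := by norm_num
            rw [h20, ← pow_mul, ← pow_mul, ← pow_mul]
            congr 1
            ring
          have h10 : (0 : ℝ) < (S i ^ 2) ^ q := by positivity
          have h11 : (4 ^ (r * q) * (B.card : ℝ)) * (S i ^ 2) ^ q ≤
              ((Mq : ℝ) * 2 ^ I.card) * (S i ^ 2) ^ q := by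
            rw [h9] at h8
            have h12 : (Mq : ℝ) = 2 * (2 * q).factorial := by rw [hMq]; push_cast; rfl
            rw [h12]
            linarith
          have h13 := le_of_mul_le_mul_right h11 h10
          exact_mod_cast h13
        · have h2 : IsEmpty {ω : {T // T ∈ I.powerset} // E r ω.1 i} :=
            ⟨fun ω => hi ω.2.1⟩
          rw [Nat.card_of_isEmpty, mul_zero]
          exact Nat.zero_le _)
    rw [hcard] at h1
    have h2 : (∑ ω : {T // T ∈ I.powerset}, N (S.filter (E r ω.1))) =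
        ∑ T ∈ I.powerset, N (S.filter (E r T)) :=
      Finset.sum_coe_sort I.powerset (fun T => N (S.filter (E r T)))
    push_cast at h1
    rw [hA, hD]
    push_cast
    rw [← h2]
    convert h1 using 2
  have hsum : ∑ r ∈ range R, 2 ^ (r + 1) * A r ≤ 16 * C * (D : ℝ) * N S := by
    calc ∑ r ∈ range R, 2 ^ (r + 1) * A r
        ≤ ∑ r ∈ range R, (8 * C * (D : ℝ) * N S) * ((1 : ℝ) / 2) ^ r := by
          refine Finset.sum_le_sum fun r _ => ?_
          have h1 := hlev r
          have h2 : (2 : ℝ) ^ (r + 1) * A r = 2 * ((1 : ℝ) / 2) ^ r * (4 ^ r * A r) := by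
            rw [pow_succ, one_div, inv_pow]
            have h3 : (4 : ℝ) ^ r = 2 ^ r * 2 ^ r := by
              rw [← mul_pow]
              norm_num
            rw [h3]
            field_simp
          rw [h2]
          have h4 : (0 : ℝ) ≤ 2 * ((1 : ℝ) / 2) ^ r := by positivity
          calc 2 * ((1 : ℝ) / 2) ^ r * (4 ^ r * A r)
              ≤ 2 * ((1 : ℝ) / 2) ^ r * (4 * C * (D : ℝ) * N S) :=
                mul_le_mul_of_nonneg_left h1 h4
            _ = (8 * C * (D : ℝ) * N S) * ((1 : ℝ) / 2) ^ r := by ring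
      _ = (8 * C * (D : ℝ) * N S) * ∑ r ∈ range R, ((1 : ℝ) / 2) ^ r := by rw [Finset.mul_sum]
      _ ≤ (8 * C * (D : ℝ) * N S) * 2 := by
          refine mul_le_mul_of_nonneg_left (sq_geom R) ?_
          have : 0 ≤ C := by linarith
          positivity
      _ = 16 * C * (D : ℝ) * N S := by ring
  calc avgOn I (fun ε => N (∑ k ∈ I, ε k • y k))
      ≤ N S + ∑ r ∈ range R, 2 ^ (r + 1) * A r := havg
    _ ≤ N S + 16 * C * (D : ℝ) * N S := by linarith
    _ = (1 + 16 * C * (D : ℝ)) * N S := by ring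

end Pool.Agent.Helper60.CR
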