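import Pool.Agent.Helper60.CR.Basic

/-! CR-50 (ulim_tendsto, lf_bound, lf_zero_cons, lf_filter). The iterated ultralimit.
PROOF. ulim_tendsto: `[-B, B]` is compact (`IsCompact.ultrafilter_le_nhds` for the ultrafilter `(hyperfilter ℕ).map g`), and `ulim g = Filter.limUnder ..` is the limit (`Filter.Tendsto.limUnder_eq`).
lf_bound: induction on the list: `|Lf N as w| ≤ N w + ∑ |a|` (limits of numbers bounded by `N (w + single i a) + ∑ ≤ N w + |a| + ∑`, `Lat.single`). The induction also needs that the family `i ↦ Lf N as (w + single i a)` is bounded: it is.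
lf_zero_cons: `single i 0 = 0`, the limit of a constant. lf_filter: induction on the list with lf_zero_cons (for a nonzero head both sides are the ulim of the same function by the induction hypothesis). -/

set_option autoImplicit false

namespace Pool.Agent.Helper60.CR

open Finset Filter Topology

theorem ulim_tendsto (g : ℕ → ℝ) (B : ℝ) (h : ∀ i, |g i| ≤ B) :
    Tendsto g (hyperfilter ℕ : Filter ℕ) (𝓝 (ulim g)) := by
  have hc : IsCompact (Set.Icc (-B) B) := isCompact_Icc
  have hle : (((hyperfilter ℕ).map g : Ultrafilter ℝ) : Filter ℝ) ≤ 𝓟 (Set.Icc (-B) B) := by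
    rw [Ultrafilter.coe_map, Filter.le_principal_iff]
    exact Filter.mem_map.2 (Filter.univ_mem' fun i => abs_le.1 (h i))
  obtain ⟨x, -, hx⟩ := hc.ultrafilter_le_nhds _ hle
  have ht : Tendsto g (hyperfilter ℕ : Filter ℕ) (𝓝 x) := by
    rw [Ultrafilter.coe_map] at hx
    exact hx
  have : ulim g = x := ht.limUnder_eq
  rw [this]
  exact ht

theorem lf_bound (N : F0 → ℝ) (hN : Lat N) (as : List ℝ) (w : F0) :
    |Lf N as w| ≤ N w + (as.map (fun a => |a|)).sum := by
  induction as generalizing w with
  | nil => simp [Lf, abs_of_nonneg (hN.nonneg w)]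
  | cons a as ih =>
    have hb : ∀ i, |Lf N as (w + Finsupp.single i a)| ≤ N w + ((a :: as).map (fun a => |a|)).sum := by
      intro i
      refine (ih _).trans ?_
      have h1 := hN.add w (Finsupp.single i a)
      rw [hN.single] at h1
      simp only [List.map_cons, List.sum_cons]
      linarith
    have ht := ulim_tendsto (fun i => Lf N as (w + Finsupp.single i a)) _ hb
    exact le_of_tendsto ht.abs (Filter.Eventually.of_forall hb)

theorem lf_zero_cons (N : F0 → ℝ) (hN : Lat N) (as : List ℝ) (w : F0) :
    Lf N (0 :: as) w = Lf N as w := by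
  have h1 : Lf N (0 :: as) w = ulim (fun _ : ℕ => Lf N as w) := by
    simp [Lf]
  rw [h1]
  exact (tendsto_const_nhds (x := Lf N as w)
    (f := (hyperfilter ℕ : Filter ℕ))).limUnder_eq

open scoped Classical in
theorem lf_filter (N : F0 → ℝ) (hN : Lat N) (as : List ℝ) (w : F0) :
    Lf N (as.filter (fun a => a ≠ 0)) w = Lf N as w := by
  induction as generalizing w with
  | nil => rfl
  | cons a as ih =>
    by_cases ha : a = 0
    · subst ha
      rw [lf_zero_cons N hN, ← ih w]
      simp
    · rw [List.filter_cons_of_pos (by simpa using ha)]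
      simp only [Lf]
      congr 1
      funext i
      exact ih _

end Pool.Agent.Helper60.CR
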